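import Mathlib
import Pool.Agent.H153R4.Pl
set_option autoImplicit false

/-! Scaling, Plancherel in the normalisation `exp (-i u x)`, and a weighted power inequality. -/

namespace Pool.Agent.W771

open MeasureTheory Set Complex
open scoped ENNReal NNReal FourierTransform ComplexConjugate

lemma lint_scale (F : ℝ → ℝ≥0∞) (hF : Measurable F) (c : ℝ) (hc : c ≠ 0) :
    ∫⁻ x, F (c * x) = ENNReal.ofReal |c⁻¹| * ∫⁻ x, F x := by
  have h := Real.map_volume_mul_left hc
  rw [← lintegral_map hF (measurable_const_mul c), h, lintegral_smul_measure, smul_eq_mul]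

lemma planch1 (f : ℝ → ℂ) (h1 : Integrable f) (h2 : MemLp f 2) :
    ∫⁻ x : ℝ, ‖∫ u : ℝ, f u * cexp (-(I * (u * x : ℝ)))‖ₑ ^ 2 =
      ENNReal.ofReal (2 * Real.pi) * ∫⁻ u, ‖f u‖ₑ ^ 2 := by
  have hcont : Continuous (𝓕 f) :=
    VectorFourier.fourierIntegral_continuous (L := innerₗ ℝ) Real.continuous_fourierChar
      continuous_inner h1
  have hpi : (2 * Real.pi) ≠ 0 := by positivity
  have e1 : ∀ x : ℝ, ∫ u : ℝ, f u * cexp (-(I * (u * x : ℝ))) = 𝓕 f ((2 * Real.pi)⁻¹ * x) := by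
    intro x
    rw [Real.fourier_eq]
    apply integral_congr_ae
    filter_upwards with u
    rw [Circle.smul_def, Real.fourierChar_apply, smul_eq_mul, mul_comm]
    congr 2
    simp only [RCLike.inner_apply, conj_trivial]
    push_cast
    have : (Real.pi : ℂ) ≠ 0 := by exact_mod_cast Real.pi_ne_zero
    field_simp
  simp_rw [e1]
  rw [lint_scale (fun x => ‖𝓕 f x‖ₑ ^ 2) (by fun_prop) _ (inv_ne_zero hpi), inv_inv,
    Pool.Agent.H153R4.plancherel f h1 h2, abs_of_pos (by positivity)]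

lemma sum_pow (r δ : ℝ) (hr : 0 < r) (hδ : 0 < δ) : ∃ C : ℝ≥0, ∀ x : ℕ → ℝ≥0∞,
    (∑' k, x k) ^ r ≤ C * ∑' k : ℕ, ENNReal.ofReal (2 ^ (δ * (k : ℝ))) * x k ^ r := by
  set ε : ℝ := δ / r with hε
  have hε0 : 0 < ε := div_pos hδ hr
  -- geometric series
  set w : ℕ → ℝ≥0 := fun k => (2 ^ (-ε)) ^ k with hw
  have hw1 : (2 : ℝ≥0) ^ (-ε) < 1 := by
    apply NNReal.rpow_lt_one_of_one_lt_of_neg <;> [norm_num; linarith]
  have hws : Summable w := NNReal.summable_geometric hw1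
  refine ⟨(∑' k, w k) ^ r, fun x => ?_⟩
  set S : ℝ≥0∞ := ∑' k : ℕ, ENNReal.ofReal (2 ^ (δ * (k : ℝ))) * x k ^ r with hS
  have h1 : ∀ k, x k ≤ (w k : ℝ≥0∞) * S ^ (1 / r) := by
    intro k
    have h2 : ENNReal.ofReal (2 ^ (δ * k)) * x k ^ r ≤ S := ENNReal.le_tsum k
    have hwk : (w k : ℝ≥0∞) ^ r * ENNReal.ofReal (2 ^ (δ * k)) = 1 := by
      have : ENNReal.ofReal (2 ^ (δ * k)) = ((2 : ℝ≥0) ^ (δ * k) : ℝ≥0) := by
        rw [ENNReal.ofReal, Real.toNNReal_rpow_of_nonneg (by norm_num)]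
        simp
      rw [this, ← ENNReal.coe_rpow_of_nonneg _ hr.le, ← ENNReal.coe_mul, hw]
      have : (((2 : ℝ≥0) ^ (-ε)) ^ k) ^ r * 2 ^ (δ * k) = 1 := by
        rw [← NNReal.rpow_natCast, ← NNReal.rpow_mul, ← NNReal.rpow_mul,
          ← NNReal.rpow_add (by norm_num)]
        have : -ε * (k * r) + δ * k = 0 := by rw [hε]; field_simp; ring
        rw [this, NNReal.rpow_zero]
      simp only [this, ENNReal.coe_one]
    have h3 : x k ^ r ≤ (w k : ℝ≥0∞) ^ r * S := by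
      calc x k ^ r = (w k : ℝ≥0∞) ^ r * ENNReal.ofReal (2 ^ (δ * k)) * x k ^ r := by
            rw [hwk, one_mul]
        _ = (w k : ℝ≥0∞) ^ r * (ENNReal.ofReal (2 ^ (δ * k)) * x k ^ r) := by ring
        _ ≤ _ := by gcongr
    calc x k = (x k ^ r) ^ (1 / r) := by
          rw [← ENNReal.rpow_mul, mul_one_div_cancel hr.ne', ENNReal.rpow_one]
      _ ≤ ((w k : ℝ≥0∞) ^ r * S) ^ (1 / r) := by gcongr
      _ = _ := by
          rw [ENNReal.mul_rpow_of_nonneg _ _ (by positivity), ← ENNReal.rpow_mul,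
            mul_one_div_cancel hr.ne', ENNReal.rpow_one]
  calc (∑' k, x k) ^ r ≤ (∑' k, (w k : ℝ≥0∞) * S ^ (1 / r)) ^ r := by
        gcongr with k
        exact h1 k
    _ = _ := by
        rw [ENNReal.tsum_mul_right, ENNReal.mul_rpow_of_nonneg _ _ hr.le, ← ENNReal.rpow_mul,
          one_div_mul_cancel hr.ne', ENNReal.rpow_one, ← ENNReal.coe_tsum hws,
          ← ENNReal.coe_rpow_of_nonneg _ hr.le]

/-- the norm of an integral is at most the sum of the norms of the integrals over the pieces -/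
lemma enorm_integral_le_tsum {X : Type*} [MeasurableSpace X] (μ : Measure X) (f : X → ℂ)
    (s : ℕ → Set X) (hs : ∀ k, MeasurableSet (s k)) (hd : Pairwise (Function.onFun Disjoint s))
    (hc : ∀ᵐ x ∂μ, x ∉ ⋃ k, s k → f x = 0) :
    ‖∫ x, f x ∂μ‖ₑ ≤ ∑' k, ‖∫ x in s k, f x ∂μ‖ₑ := by
  by_cases hf : Integrable f μ
  · have h1 : ∫ x, f x ∂μ = ∫ x in ⋃ k, s k, f x ∂μ := by
      rw [← integral_indicator (MeasurableSet.iUnion hs)]
      apply integral_congr_ae
      filter_upwards [hc] with x hx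
      by_cases h : x ∈ ⋃ k, s k
      · rw [indicator_of_mem h]
      · rw [indicator_of_notMem h, hx h]
    rw [h1, integral_iUnion hs hd hf.integrableOn]
    exact enorm_tsum_le_tsum_enorm
  · rw [integral_undef hf, enorm_zero]
    exact zero_le

end Pool.Agent.W771
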