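import Mathlib
import Pool.Agent.W771.Basic
set_option autoImplicit false

/-! The `L²` bound for one dyadic piece of the squared extension in the plane. -/

namespace Pool.Agent.W771

open MeasureTheory Set Complex
open scoped ENNReal NNReal FourierTransform ComplexConjugate

/-- the phase of the squared extension; `p = (u', u)` -/
noncomputable def PH (x t : ℝ) (p : ℝ × ℝ) : ℂ :=
  cexp (-(I * (((p.2 - p.1) * x + (p.2 ^ 2 - p.1 ^ 2) * t : ℝ) : ℂ)))

lemma norm_cexp_I (r : ℝ) : ‖cexp (-(I * (r : ℂ)))‖ = 1 := by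
  have : -(I * (r : ℂ)) = ((-r : ℝ) : ℂ) * I := by push_cast; ring
  rw [this, Complex.norm_exp_ofReal_mul_I]

lemma enorm_cexp_I (r : ℝ) : ‖cexp (-(I * (r : ℂ)))‖ₑ = 1 := by
  rw [← ofReal_norm, norm_cexp_I, ENNReal.ofReal_one]

lemma PH_norm (x t : ℝ) (p : ℝ × ℝ) : ‖PH x t p‖ = 1 := norm_cexp_I _

lemma PH_cont : Continuous (fun w : (ℝ × ℝ) × (ℝ × ℝ) => PH w.1.1 w.1.2 w.2) := by
  unfold PH
  fun_prop

lemma bdd_memLp {X : Type*} [MeasurableSpace X] (μ : Measure X) (f : X → ℂ) (hf : Measurable f)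
    (S : Set X) (hS : MeasurableSet S) (hfin : μ S < ∞) (B : ℝ) (hb : ∀ x, ‖f x‖ ≤ B)
    (hz : ∀ x, x ∉ S → f x = 0) (p : ℝ≥0∞) : MemLp f p μ := by
  have h1 : S.indicator f = f := by
    ext x
    by_cases h : x ∈ S
    · rw [indicator_of_mem h]
    · rw [indicator_of_notMem h, hz x h]
  rw [← h1, memLp_indicator_iff_restrict hS]
  have : IsFiniteMeasure (μ.restrict S) := ⟨by rw [Measure.restrict_apply_univ]; exact hfin⟩
  exact MemLp.of_bound hf.aestronglyMeasurable B (ae_of_all _ hb)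

/-- the inner integral -/
noncomputable def Fin1 (K : ℝ × ℝ → ℂ) (t h : ℝ) : ℂ :=
  ∫ z, K (z, z + h) * cexp (-(I * (((2 * z * h + h ^ 2) * t : ℝ) : ℂ)))

lemma Fin1_meas (K : ℝ × ℝ → ℂ) (hK : Measurable K) :
    Measurable (fun w : ℝ × ℝ => Fin1 K w.1 w.2) := by
  unfold Fin1
  apply StronglyMeasurable.measurable
  apply StronglyMeasurable.integral_prod_right'
    (f := fun w : (ℝ × ℝ) × ℝ => K (w.2, w.2 + w.1.2) *
      cexp (-(I * (((2 * w.2 * w.1.2 + w.1.2 ^ 2) * w.1.1 : ℝ) : ℂ))))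
  apply Measurable.stronglyMeasurable
  apply Measurable.mul
  · exact hK.comp (by fun_prop)
  · apply Continuous.measurable
    fun_prop

lemma K_memLp (K : ℝ × ℝ → ℂ) (hK : Measurable K) (hb : ∀ p, ‖K p‖ ≤ 1)
    (hs : ∀ p, K p ≠ 0 → |p.1| ≤ 1 ∧ |p.2| ≤ 1) (q : ℝ≥0∞) : MemLp K q := by
  refine bdd_memLp _ K hK (Icc (-1) 1 ×ˢ Icc (-1) 1) (measurableSet_Icc.prod measurableSet_Icc)
    ?_ 1 hb ?_ q
  · rw [Measure.volume_eq_prod, Measure.prod_prod]
    simp only [Real.volume_Icc]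
    exact ENNReal.mul_lt_top ENNReal.ofReal_lt_top ENNReal.ofReal_lt_top
  · intro p hp
    by_contra h
    have h3 := hs p h
    exact hp ⟨abs_le.mp h3.1, abs_le.mp h3.2⟩

lemma K_section_zero (K : ℝ × ℝ → ℂ) (hs : ∀ p, K p ≠ 0 → |p.1| ≤ 1 ∧ |p.2| ≤ 1)
    (z h : ℝ) (hz : K (z, z + h) ≠ 0) : |z| ≤ 1 ∧ |h| ≤ 2 := by
  have h1 := hs _ hz
  simp only at h1
  refine ⟨h1.1, ?_⟩
  have h2 := abs_le.mp h1.1
  have h3 := abs_le.mp h1.2
  rw [abs_le]
  constructor <;> linarith [h2.1, h2.2, h3.1, h3.2]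

lemma Ksec_memLp (K : ℝ × ℝ → ℂ) (hK : Measurable K) (hb : ∀ p, ‖K p‖ ≤ 1)
    (hs : ∀ p, K p ≠ 0 → |p.1| ≤ 1 ∧ |p.2| ≤ 1) (h : ℝ) (q : ℝ≥0∞) :
    MemLp (fun z => K (z, z + h)) q := by
  refine bdd_memLp _ _ (hK.comp (by fun_prop)) (Icc (-1) 1) measurableSet_Icc
    (by simp) 1 (fun _ => hb _) ?_ q
  intro z hz
  by_contra h'
  exact hz (abs_le.mp (K_section_zero K hs z h h').1)

lemma Fin1_bound (K : ℝ × ℝ → ℂ) (hK : Measurable K) (hb : ∀ p, ‖K p‖ ≤ 1)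
    (hs : ∀ p, K p ≠ 0 → |p.1| ≤ 1 ∧ |p.2| ≤ 1) (t h : ℝ) : ‖Fin1 K t h‖ ≤ 2 := by
  have h1 := (Ksec_memLp K hK hb hs h 1)
  rw [memLp_one_iff_integrable] at h1
  calc ‖Fin1 K t h‖ ≤ ∫ z, ‖K (z, z + h) * cexp (-(I * (((2 * z * h + h ^ 2) * t : ℝ) : ℂ)))‖ :=
        norm_integral_le_integral_norm _
    _ = ∫ z, ‖K (z, z + h)‖ := by
        simp only [norm_mul, norm_cexp_I, mul_one]
    _ ≤ ∫ z, (Icc (-1 : ℝ) 1).indicator (fun _ : ℝ => (1 : ℝ)) z := by
        apply integral_mono h1.norm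
        · rw [integrable_indicator_iff measurableSet_Icc]
          simp
        · intro z
          by_cases h' : K (z, z + h) = 0
          · simp only [h', norm_zero]
            exact indicator_nonneg (fun _ _ => zero_le_one) _
          · have h3 := K_section_zero K hs z h h'
            simp only
            rw [indicator_of_mem (show z ∈ Icc (-1 : ℝ) 1 from abs_le.mp h3.1)]
            exact hb _
    _ = 2 := by
        rw [integral_indicator measurableSet_Icc]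
        simp
        norm_num

lemma Fin1_zero (K : ℝ × ℝ → ℂ) (hs : ∀ p, K p ≠ 0 → |p.1| ≤ 1 ∧ |p.2| ≤ 1) (t h : ℝ)
    (hh : h ∉ Icc (-2 : ℝ) 2) : Fin1 K t h = 0 := by
  unfold Fin1
  have : ∀ z, K (z, z + h) = 0 := by
    intro z
    by_contra h'
    exact hh (abs_le.mp (K_section_zero K hs z h h').2)
  simp [this]

lemma Fin1_L2 (K : ℝ × ℝ → ℂ) (hK : Measurable K) (hb : ∀ p, ‖K p‖ ≤ 1)
    (hs : ∀ p, K p ≠ 0 → |p.1| ≤ 1 ∧ |p.2| ≤ 1) (h0 : ℝ) (hh0 : 0 < h0)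
    (hsep : ∀ p, K p ≠ 0 → h0 ≤ |p.2 - p.1|) (h : ℝ) :
    ∫⁻ t, ‖Fin1 K t h‖ₑ ^ 2 ≤
      ENNReal.ofReal (2 * Real.pi / (2 * h0)) * ∫⁻ z, ‖K (z, z + h)‖ₑ ^ 2 := by
  by_cases hh : h0 ≤ |h|
  · have hne : 2 * h ≠ 0 := by
      intro h1
      have : h = 0 := by linarith
      rw [this, abs_zero] at hh
      linarith
    have e1 : ∀ t, ‖Fin1 K t h‖ₑ =
        ‖∫ z : ℝ, K (z, z + h) * cexp (-(I * ((z * (2 * h * t) : ℝ) : ℂ)))‖ₑ := by
      intro t
      have : Fin1 K t h = cexp (-(I * ((h ^ 2 * t : ℝ) : ℂ))) *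
          ∫ z : ℝ, K (z, z + h) * cexp (-(I * ((z * (2 * h * t) : ℝ) : ℂ))) := by
        unfold Fin1
        rw [← integral_const_mul]
        congr 1
        ext z
        rw [mul_left_comm, ← Complex.exp_add]
        congr 2
        push_cast
        ring
      rw [this, enorm_mul, enorm_cexp_I, one_mul]
    simp only [e1]
    have hm : Measurable (fun s : ℝ => ‖∫ z : ℝ, K (z, z + h) *
        cexp (-(I * ((z * s : ℝ) : ℂ)))‖ₑ ^ 2) := by
      apply Measurable.pow_const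
      apply Measurable.enorm
      apply StronglyMeasurable.measurable
      apply StronglyMeasurable.integral_prod_right'
        (f := fun w : ℝ × ℝ => K (w.2, w.2 + h) * cexp (-(I * ((w.2 * w.1 : ℝ) : ℂ))))
      apply Measurable.stronglyMeasurable
      apply Measurable.mul
      · exact hK.comp (by fun_prop)
      · apply Continuous.measurable
        fun_prop
    rw [lint_scale (fun s : ℝ => ‖∫ z : ℝ, K (z, z + h) *
        cexp (-(I * ((z * s : ℝ) : ℂ)))‖ₑ ^ 2) hm (2 * h) hne]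
    have h2 := planch1 (fun z => K (z, z + h))
      (by rw [← memLp_one_iff_integrable]; exact Ksec_memLp K hK hb hs h 1)
      (Ksec_memLp K hK hb hs h 2)
    rw [h2, ← mul_assoc, ← ENNReal.ofReal_mul (abs_nonneg _)]
    gcongr
    rw [abs_inv, abs_mul, abs_two, div_eq_inv_mul]
    gcongr
  · have : ∀ z, K (z, z + h) = 0 := by
      intro z
      by_contra h'
      apply hh
      have := hsep _ h'
      simpa using this
    have h2 : ∀ t, Fin1 K t h = 0 := by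
      intro t
      unfold Fin1
      simp [this]
    simp [h2]

/-- the change of variables and Fubini -/
lemma K_Fin1 (K : ℝ × ℝ → ℂ) (hK : Measurable K) (hb : ∀ p, ‖K p‖ ≤ 1)
    (hs : ∀ p, K p ≠ 0 → |p.1| ≤ 1 ∧ |p.2| ≤ 1) (x t : ℝ) :
    ∫ p, K p * PH x t p = ∫ h : ℝ, Fin1 K t h * cexp (-(I * ((h * x : ℝ) : ℂ))) := by
  have hmp : MeasurePreserving (fun z : ℝ × ℝ => (z.1, z.1 + z.2)) (volume.prod volume)
    (volume.prod volume) := measurePreserving_prod_add volume volume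
  have hemb : MeasurableEmbedding (fun z : ℝ × ℝ => (z.1, z.1 + z.2)) :=
    (MeasurableEquiv.shearAddRight ℝ).measurableEmbedding
  have hint : Integrable (fun p => K p * PH x t p) (volume : Measure (ℝ × ℝ)) := by
    have h1 := K_memLp K hK hb hs 1
    rw [memLp_one_iff_integrable] at h1
    refine h1.mul_bdd (c := 1) ?_ (ae_of_all _ fun p => (PH_norm x t p).le)
    apply Continuous.aestronglyMeasurable
    unfold PH
    fun_prop
  have h3 : Integrable (fun z : ℝ × ℝ => K (z.1, z.1 + z.2) * PH x t (z.1, z.1 + z.2))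
      (volume.prod volume) := hmp.integrable_comp_of_integrable hint
  rw [Measure.volume_eq_prod, ← hmp.integral_comp hemb, integral_prod_symm _ h3]
  congr 1
  ext h
  unfold Fin1
  rw [← integral_mul_const]
  congr 1
  ext z
  unfold PH
  rw [mul_assoc, ← Complex.exp_add]
  congr 2
  push_cast
  ring

/-- the `L²` bound for a dyadic piece -/
lemma planchK (K : ℝ × ℝ → ℂ) (hK : Measurable K) (hb : ∀ p, ‖K p‖ ≤ 1)
    (hs : ∀ p, K p ≠ 0 → |p.1| ≤ 1 ∧ |p.2| ≤ 1) (h0 : ℝ) (hh0 : 0 < h0)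
    (hsep : ∀ p, K p ≠ 0 → h0 ≤ |p.2 - p.1|) :
    ∫⁻ t, ∫⁻ x, ‖∫ p, K p * PH x t p‖ₑ ^ 2 ≤
      ENNReal.ofReal (2 * Real.pi * (2 * Real.pi) / (2 * h0)) * ∫⁻ p, ‖K p‖ₑ ^ 2 := by
  have hmp : MeasurePreserving (fun z : ℝ × ℝ => (z.1, z.1 + z.2)) (volume.prod volume)
    (volume.prod volume) := measurePreserving_prod_add volume volume
  have e1 : ∀ t, ∫⁻ x, ‖∫ p, K p * PH x t p‖ₑ ^ 2 =
      ENNReal.ofReal (2 * Real.pi) * ∫⁻ h, ‖Fin1 K t h‖ₑ ^ 2 := by
    intro t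
    simp only [K_Fin1 K hK hb hs]
    have hl : ∀ q : ℝ≥0∞, MemLp (fun h => Fin1 K t h) q := by
      intro q
      refine bdd_memLp _ _ ?_ (Icc (-2) 2) measurableSet_Icc (by simp) 2
        (fun h => Fin1_bound K hK hb hs t h) (fun h hh => Fin1_zero K hs t h hh) q
      exact (Fin1_meas K hK).comp (by fun_prop : Measurable fun h : ℝ => (t, h))
    have h1 := hl 1
    rw [memLp_one_iff_integrable] at h1
    exact planch1 _ h1 (hl 2)
  simp only [e1]
  have hm2 : Measurable (fun w : ℝ × ℝ => ‖Fin1 K w.1 w.2‖ₑ ^ 2) :=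
    (Fin1_meas K hK).enorm.pow_const _
  rw [lintegral_const_mul _ (by exact Measurable.lintegral_prod_right' hm2),
    lintegral_lintegral_swap hm2.aemeasurable]
  have e2 : ∫⁻ p, ‖K p‖ₑ ^ 2 = ∫⁻ h : ℝ, ∫⁻ z : ℝ, ‖K (z, z + h)‖ₑ ^ 2 := by
    have hKm : Measurable (fun p : ℝ × ℝ => ‖K p‖ₑ ^ 2) := hK.enorm.pow_const _
    rw [Measure.volume_eq_prod, ← hmp.lintegral_comp hKm, lintegral_prod_symm]
    exact (hKm.comp (by fun_prop)).aemeasurable
  rw [e2]
  calc ENNReal.ofReal (2 * Real.pi) * ∫⁻ h : ℝ, ∫⁻ t : ℝ, ‖Fin1 K t h‖ₑ ^ 2 ≤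
      ENNReal.ofReal (2 * Real.pi) * ∫⁻ h : ℝ,
        ENNReal.ofReal (2 * Real.pi / (2 * h0)) * ∫⁻ z, ‖K (z, z + h)‖ₑ ^ 2 := by
        gcongr with h
        exact Fin1_L2 K hK hb hs h0 hh0 hsep h
    _ = _ := by
        rw [lintegral_const_mul', ← mul_assoc, ← ENNReal.ofReal_mul (by positivity)]
        · congr 2
          ring
        · exact ENNReal.ofReal_ne_top

end Pool.Agent.W771
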