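import Mathlib
import Pool.Agent.W771.Ker
set_option autoImplicit false

/-! Dyadic decomposition off the diagonal and the `L^r` bound for kernels dominated by
`1_A ⊗ 1_A`. -/

namespace Pool.Agent.W771

open MeasureTheory Set Complex
open scoped ENNReal NNReal FourierTransform ComplexConjugate

/-- dyadic shell around the diagonal -/
def Dy (j : ℕ) : Set (ℝ × ℝ) := {p | (1 / 2 : ℝ) ^ (j + 1) < |p.2 - p.1| ∧ |p.2 - p.1| ≤ (1 / 2) ^ j}

lemma Dy_meas (j : ℕ) : MeasurableSet (Dy j) := by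
  have h1 : Measurable (fun p : ℝ × ℝ => |p.2 - p.1|) := by fun_prop
  exact (measurableSet_lt measurable_const h1).inter (measurableSet_le h1 measurable_const)

lemma Dy_disj : Pairwise (Function.onFun Disjoint Dy) := by
  intro i j hij
  rw [Function.onFun, Set.disjoint_left]
  rintro p ⟨h1, h2⟩ ⟨h3, h4⟩
  rcases lt_or_gt_of_ne hij with h | h
  · have : (1 / 2 : ℝ) ^ j ≤ (1 / 2) ^ (i + 1) :=
      pow_le_pow_of_le_one (by norm_num) (by norm_num) h
    linarith
  · have : (1 / 2 : ℝ) ^ i ≤ (1 / 2) ^ (j + 1) :=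
      pow_le_pow_of_le_one (by norm_num) (by norm_num) h
    linarith

lemma Dy_cover (p : ℝ × ℝ) (h1 : |p.2 - p.1| ≤ 1) (h2 : p.1 ≠ p.2) : p ∈ ⋃ j, Dy j := by
  have h3 : 0 < |p.2 - p.1| := abs_pos.mpr (sub_ne_zero.mpr h2.symm)
  obtain ⟨n, hn1, hn2⟩ := exists_nat_pow_near_of_lt_one h3 h1 (by norm_num : (0 : ℝ) < 1 / 2)
    (by norm_num)
  exact mem_iUnion.mpr ⟨n, hn1, hn2⟩

lemma diag_null : ∀ᵐ p : ℝ × ℝ, p.1 ≠ p.2 := by
  have h : MeasurableSet {p : ℝ × ℝ | p.1 = p.2} := measurableSet_eq_fun measurable_fst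
    measurable_snd
  have h1 : (volume : Measure (ℝ × ℝ)) {p : ℝ × ℝ | p.1 = p.2} = 0 := by
    rw [Measure.volume_eq_prod, Measure.measure_prod_null h]
    refine ae_of_all _ fun x => ?_
    have : (Prod.mk x ⁻¹' {p : ℝ × ℝ | p.1 = p.2}) = {x} := by
      ext y
      simp [eq_comm]
    simp only
    rw [this]
    simp
  rw [ae_iff]
  simpa using h1

section
variable (A : Set ℝ) (hA : MeasurableSet A) (hAI : A ⊆ Icc (-(1 / 2)) (1 / 2))
include hA hAI

omit hA in
lemma vol_A_le : volume A ≤ 1 := by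
  calc volume A ≤ volume (Icc (-(1 / 2) : ℝ) (1 / 2)) := measure_mono hAI
    _ = 1 := by rw [Real.volume_Icc]; norm_num

omit hAI in
lemma Dy_mass (j : ℕ) : volume (Dy j ∩ A ×ˢ A) ≤
    volume A * min (volume A) (ENNReal.ofReal (2 * (1 / 2) ^ j)) := by
  have hm : MeasurableSet (Dy j ∩ A ×ˢ A) := (Dy_meas j).inter (hA.prod hA)
  rw [Measure.volume_eq_prod, Measure.prod_apply hm]
  calc ∫⁻ x, volume (Prod.mk x ⁻¹' (Dy j ∩ A ×ˢ A)) ≤
      ∫⁻ x, A.indicator (fun _ => min (volume A) (ENNReal.ofReal (2 * (1 / 2) ^ j))) x := by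
        apply lintegral_mono
        intro x
        by_cases hx : x ∈ A
        · simp only
          rw [indicator_of_mem hx]
          apply le_min
          · apply measure_mono
            intro y hy
            exact hy.2.2
          · calc volume (Prod.mk x ⁻¹' (Dy j ∩ A ×ˢ A)) ≤
                volume (Icc (x - (1 / 2) ^ j) (x + (1 / 2) ^ j)) := by
                  apply measure_mono
                  intro y hy
                  have h1 := abs_le.mp hy.1.2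
                  simp only at h1
                  constructor <;> linarith [h1.1, h1.2]
              _ = _ := by
                  rw [Real.volume_Icc]
                  congr 1
                  ring
        · have : Prod.mk x ⁻¹' (Dy j ∩ A ×ˢ A) = ∅ := by
            ext y
            simp [hx]
          simp only
          rw [this, measure_empty]
          exact zero_le
    _ = _ := by
        rw [lintegral_indicator_const hA, mul_comm]

variable (K : ℝ × ℝ → ℂ) (hK : Measurable K) (hb : ∀ p, ‖K p‖ ≤ 1)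
  (hs : ∀ p, K p ≠ 0 → p.1 ∈ A ∧ p.2 ∈ A)

/-- the `j`-th piece of the kernel -/
noncomputable def Kj (K : ℝ × ℝ → ℂ) (j : ℕ) : ℝ × ℝ → ℂ := (Dy j).indicator K

/-- the bound of the mass of the `j`-th piece -/
noncomputable def mj (A : Set ℝ) (j : ℕ) : ℝ≥0∞ :=
  volume A * min (volume A) (ENNReal.ofReal (2 * (1 / 2) ^ j))

include hb hs

omit hAI in
lemma Kj_mass (j n : ℕ) (hn : n ≠ 0) : ∫⁻ p, ‖Kj K j p‖ₑ ^ n ≤ mj A j := by
  calc ∫⁻ p, ‖Kj K j p‖ₑ ^ n ≤ ∫⁻ p, (Dy j ∩ A ×ˢ A).indicator (fun _ => (1 : ℝ≥0∞)) p := by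
        apply lintegral_mono
        intro p
        simp only [Kj]
        by_cases hp : p ∈ Dy j
        · rw [indicator_of_mem hp]
          by_cases h0 : K p = 0
          · rw [h0, enorm_zero, zero_pow hn]
            exact zero_le
          · rw [indicator_of_mem (show p ∈ Dy j ∩ A ×ˢ A from ⟨hp, hs p h0⟩)]
            have : ‖K p‖ₑ ≤ 1 := by
              rw [← ofReal_norm]
              exact ENNReal.ofReal_le_one.mpr (hb p)
            exact pow_le_one₀ zero_le this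
        · rw [indicator_of_notMem hp, enorm_zero, zero_pow hn]
          exact zero_le
    _ = volume (Dy j ∩ A ×ˢ A) := by
        rw [lintegral_indicator ((Dy_meas j).inter (hA.prod hA))]
        simp
    _ ≤ _ := Dy_mass A hA j

omit hAI in
lemma Sj_sup (j : ℕ) (x t : ℝ) : ‖∫ p, Kj K j p * PH x t p‖ₑ ≤ mj A j := by
  calc ‖∫ p, Kj K j p * PH x t p‖ₑ ≤ ∫⁻ p, ‖Kj K j p * PH x t p‖ₑ := enorm_integral_le_lintegral_enorm _
    _ = ∫⁻ p, ‖Kj K j p‖ₑ ^ 1 := by
        congr 1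
        ext p
        rw [enorm_mul, pow_one, PH, enorm_cexp_I, mul_one]
    _ ≤ _ := Kj_mass A hA K hb hs j 1 one_ne_zero

include hK

lemma Sj_L2 (j : ℕ) : ∫⁻ t, ∫⁻ x, ‖∫ p, Kj K j p * PH x t p‖ₑ ^ 2 ≤
    ENNReal.ofReal (4 * Real.pi ^ 2 * 2 ^ j) * mj A j := by
  have h1 : ∀ p, Kj K j p ≠ 0 → p ∈ Dy j ∧ K p ≠ 0 := by
    intro p hp
    simp only [Kj] at hp
    by_cases h : p ∈ Dy j
    · rw [indicator_of_mem h] at hp
      exact ⟨h, hp⟩
    · rw [indicator_of_notMem h] at hp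
      exact absurd rfl hp
  have h2 : ∀ x ∈ A, |x| ≤ 1 := by
    intro x hx
    have := hAI hx
    rw [abs_le]
    constructor <;> linarith [this.1, this.2]
  have h3 := planchK (Kj K j) (hK.indicator (Dy_meas j))
    (fun p => (norm_indicator_le_norm_self _ _).trans (hb p))
    (fun p hp => ⟨h2 _ (hs p (h1 p hp).2).1, h2 _ (hs p (h1 p hp).2).2⟩) ((1 / 2) ^ (j + 1))
    (by positivity) (fun p hp => (h1 p hp).1.1.le)
  refine h3.trans ?_
  have e1 : 2 * Real.pi * (2 * Real.pi) / (2 * (1 / 2) ^ (j + 1)) = 4 * Real.pi ^ 2 * 2 ^ j := by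
    rw [one_div, inv_pow, pow_succ]
    field_simp
    ring
  rw [e1]
  gcongr
  exact Kj_mass A hA K hb hs j 2 two_ne_zero

omit hA hAI hK hb hs in
lemma Sj_meas (K : ℝ × ℝ → ℂ) (hK : Measurable K) :
    Measurable (fun w : ℝ × ℝ => ∫ p, K p * PH w.2 w.1 p) := by
  apply StronglyMeasurable.measurable
  apply StronglyMeasurable.integral_prod_right'
    (f := fun w : (ℝ × ℝ) × (ℝ × ℝ) => K w.2 * PH w.1.2 w.1.1 w.2)
  apply Measurable.stronglyMeasurable
  apply Measurable.mul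
  · exact hK.comp (by fun_prop)
  · apply Continuous.measurable
    unfold PH
    fun_prop

lemma Sj_Lr (r : ℝ) (hr : 2 ≤ r) (j : ℕ) :
    ∫⁻ t, ∫⁻ x, ‖∫ p, Kj K j p * PH x t p‖ₑ ^ r ≤
    ENNReal.ofReal (4 * Real.pi ^ 2 * 2 ^ j) * mj A j ^ (r - 1) := by
  have hfin : mj A j ≠ ∞ := by
    have h1 := vol_A_le A hAI
    apply ENNReal.mul_ne_top (ne_top_of_le_ne_top ENNReal.one_ne_top h1)
    exact ne_top_of_le_ne_top ENNReal.one_ne_top ((min_le_left _ _).trans h1)
  calc ∫⁻ t, ∫⁻ x, ‖∫ p, Kj K j p * PH x t p‖ₑ ^ r ≤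
      ∫⁻ t, ∫⁻ x, mj A j ^ (r - 2) * ‖∫ p, Kj K j p * PH x t p‖ₑ ^ 2 := by
        apply lintegral_mono
        intro t
        apply lintegral_mono
        intro x
        simp only
        rw [← ENNReal.rpow_natCast]
        have : r = (r - 2) + ((2 : ℕ) : ℝ) := by push_cast; ring
        nth_rewrite 1 [this]
        rw [ENNReal.rpow_add_of_nonneg _ _ (by linarith) (by positivity)]
        gcongr
        exact Sj_sup A hA K hb hs j x t
    _ = mj A j ^ (r - 2) * ∫⁻ t, ∫⁻ x, ‖∫ p, Kj K j p * PH x t p‖ₑ ^ 2 := by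
        have hne : mj A j ^ (r - 2) ≠ ∞ := ENNReal.rpow_ne_top_of_nonneg (by linarith) hfin
        simp only [lintegral_const_mul' _ _ hne]
    _ ≤ mj A j ^ (r - 2) * (ENNReal.ofReal (4 * Real.pi ^ 2 * 2 ^ j) * mj A j) := by
        gcongr
        exact Sj_L2 A hA hAI K hK hb hs j
    _ = _ := by
        have : r - 1 = (r - 2) + 1 := by ring
        rw [this, ENNReal.rpow_add_of_nonneg _ _ (by linarith) zero_le_one, ENNReal.rpow_one]
        ring

end

lemma mj_pow (A : Set ℝ) (j : ℕ) (κ s : ℝ) (h0 : 0 ≤ κ) (h1 : κ ≤ 1) (hs : 0 ≤ s) :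
    mj A j ^ s ≤ volume A ^ ((2 - κ) * s) * ENNReal.ofReal (2 * (1 / 2) ^ j) ^ (κ * s) := by
  have h2 : min (volume A) (ENNReal.ofReal (2 * (1 / 2) ^ j)) ≤
      volume A ^ (1 - κ) * ENNReal.ofReal (2 * (1 / 2) ^ j) ^ κ := by
    set b := ENNReal.ofReal (2 * (1 / 2) ^ j) with hb
    set m := min (volume A) b with hm
    calc m = m ^ (1 - κ) * m ^ κ := by
          rw [← ENNReal.rpow_add_of_nonneg _ _ (by linarith) h0]
          simp
      _ ≤ _ := by
          exact mul_le_mul (ENNReal.rpow_le_rpow (min_le_left _ _) (by linarith))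
            (ENNReal.rpow_le_rpow (min_le_right _ _) h0) zero_le zero_le
  calc mj A j ^ s ≤ (volume A * (volume A ^ (1 - κ) * ENNReal.ofReal (2 * (1 / 2) ^ j) ^ κ)) ^ s := by
        unfold mj
        gcongr
    _ = _ := by
        rw [← mul_assoc]
        have : volume A * volume A ^ (1 - κ) = volume A ^ (2 - κ) := by
          have e : 2 - κ = 1 + (1 - κ) := by ring
          rw [e, ENNReal.rpow_add_of_nonneg _ _ zero_le_one (by linarith), ENNReal.rpow_one]
        rw [this, ENNReal.mul_rpow_of_nonneg _ _ hs, ← ENNReal.rpow_mul, ← ENNReal.rpow_mul]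

/-- **the kernel bound** -/
lemma ker_Lr (r δ : ℝ) (hδ : 0 < δ) (hr : 2 + 2 * δ ≤ r) : ∃ C : ℝ≥0, ∀ (A : Set ℝ),
    MeasurableSet A → A ⊆ Icc (-(1 / 2)) (1 / 2) → ∀ K : ℝ × ℝ → ℂ, Measurable K →
    (∀ p, ‖K p‖ ≤ 1) → (∀ p, K p ≠ 0 → p.1 ∈ A ∧ p.2 ∈ A) →
    ∫⁻ t, ∫⁻ x, ‖∫ p, K p * PH x t p‖ₑ ^ r ≤ C * volume A ^ (2 * r - 3 - 2 * δ) := by
  obtain ⟨C1, hC1⟩ := sum_pow r δ (by linarith) hδ
  set κ : ℝ := (1 + 2 * δ) / (r - 1) with hκ
  have hr1 : 0 < r - 1 := by linarith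
  have hκ0 : 0 ≤ κ := by positivity
  have hκ1 : κ ≤ 1 := by
    rw [hκ, div_le_one hr1]
    linarith
  have hκr : κ * (r - 1) = 1 + 2 * δ := by
    rw [hκ]
    field_simp
  have hexp : (2 - κ) * (r - 1) = 2 * r - 3 - 2 * δ := by
    rw [sub_mul, hκr]
    ring
  -- the geometric series
  have hg : ∀ j : ℕ, ENNReal.ofReal (2 ^ (δ * (j : ℝ))) * (ENNReal.ofReal (4 * Real.pi ^ 2 * 2 ^ j) *
      ENNReal.ofReal (2 * (1 / 2) ^ j) ^ (1 + 2 * δ)) =
      ENNReal.ofReal (4 * Real.pi ^ 2 * 2 ^ (1 + 2 * δ)) *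
        (ENNReal.ofReal (2 ^ (-δ))) ^ j := by
    intro j
    rw [ENNReal.ofReal_rpow_of_nonneg (by positivity) (by linarith),
      ← ENNReal.ofReal_mul (by positivity), ← ENNReal.ofReal_mul (by positivity),
      ← ENNReal.ofReal_pow (by positivity), ← ENNReal.ofReal_mul (by positivity)]
    congr 1
    rw [Real.mul_rpow (by norm_num) (by positivity)]
    have e2 : ((1 / 2 : ℝ) ^ j) ^ (1 + 2 * δ) = 2 ^ (-((j : ℝ) * (1 + 2 * δ))) := by
      rw [one_div, inv_pow, Real.inv_rpow (by positivity), ← Real.rpow_natCast,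
        ← Real.rpow_mul (by norm_num), ← Real.rpow_neg (by norm_num)]
    have e3 : ((2 : ℝ) ^ (-δ)) ^ j = 2 ^ (-δ * j) := by
      rw [← Real.rpow_natCast, ← Real.rpow_mul (by norm_num)]
    have e4 : (2 : ℝ) ^ j = 2 ^ (j : ℝ) := (Real.rpow_natCast _ _).symm
    have e1 : (2 : ℝ) ^ (-δ * j) = 2 ^ (δ * j) * 2 ^ (j : ℝ) * 2 ^ (-(j * (1 + 2 * δ))) := by
      rw [← Real.rpow_add (by norm_num), ← Real.rpow_add (by norm_num)]
      congr 1
      ring
    rw [e2, e3, e4, e1]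
    ring
  have hlt : ENNReal.ofReal (2 ^ (-δ)) < 1 := by
    rw [ENNReal.ofReal_lt_one]
    exact Real.rpow_lt_one_of_one_lt_of_neg (by norm_num) (by linarith)
  have hsum : ∑' j : ℕ, (ENNReal.ofReal (2 ^ (-δ))) ^ j ≠ ∞ := by
    rw [ENNReal.tsum_geometric]
    exact ENNReal.inv_ne_top.mpr (tsub_pos_of_lt hlt).ne'
  set C2 : ℝ≥0∞ := ENNReal.ofReal (4 * Real.pi ^ 2 * 2 ^ (1 + 2 * δ)) *
    ∑' j : ℕ, (ENNReal.ofReal (2 ^ (-δ))) ^ j with hC2
  have hC2' : C2 ≠ ∞ := ENNReal.mul_ne_top ENNReal.ofReal_ne_top hsum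
  refine ⟨C1 * C2.toNNReal, ?_⟩
  intro A hA hAI K hK hb hs
  have hpt : ∀ t x, ‖∫ p, K p * PH x t p‖ₑ ^ r ≤
      C1 * ∑' j : ℕ, ENNReal.ofReal (2 ^ (δ * (j : ℝ))) * ‖∫ p, Kj K j p * PH x t p‖ₑ ^ r := by
    intro t x
    refine le_trans ?_ (hC1 (fun j => ‖∫ p, Kj K j p * PH x t p‖ₑ))
    apply ENNReal.rpow_le_rpow _ (by linarith)
    refine (enorm_integral_le_tsum volume (fun p => K p * PH x t p) Dy Dy_meas Dy_disj ?_).trans ?_
    · filter_upwards [diag_null] with p hp hp2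
      by_cases h0 : K p = 0
      · rw [h0, zero_mul]
      · exfalso
        apply hp2
        have h1 := hs p h0
        have h3 := hAI h1.1
        have h4 := hAI h1.2
        apply Dy_cover p _ hp
        rw [abs_le]
        constructor <;> linarith [h3.1, h3.2, h4.1, h4.2]
    · apply le_of_eq
      congr 1
      ext j
      rw [← integral_indicator (Dy_meas j)]
      congr 2
      ext p
      unfold Kj
      by_cases hp : p ∈ Dy j
      · rw [indicator_of_mem hp, indicator_of_mem hp]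
      · rw [indicator_of_notMem hp, indicator_of_notMem hp, zero_mul]
  have hKjm : ∀ j, Measurable (Kj K j) := fun j => hK.indicator (Dy_meas j)
  have hm1 : ∀ j, Measurable (fun w : ℝ × ℝ => ‖∫ p, Kj K j p * PH w.2 w.1 p‖ₑ ^ r) :=
    fun j => (Sj_meas (Kj K j) (hKjm j)).enorm.pow_const _
  calc ∫⁻ t, ∫⁻ x, ‖∫ p, K p * PH x t p‖ₑ ^ r ≤ ∫⁻ t, ∫⁻ x, C1 *
      ∑' j : ℕ, ENNReal.ofReal (2 ^ (δ * (j : ℝ))) * ‖∫ p, Kj K j p * PH x t p‖ₑ ^ r := by
        gcongr with t x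
        exact hpt t x
    _ = C1 * ∑' j : ℕ, ENNReal.ofReal (2 ^ (δ * (j : ℝ))) *
          ∫⁻ t, ∫⁻ x, ‖∫ p, Kj K j p * PH x t p‖ₑ ^ r := by
        have i1 : ∀ t, ∫⁻ x, C1 * ∑' j : ℕ, ENNReal.ofReal (2 ^ (δ * (j : ℝ))) *
            ‖∫ p, Kj K j p * PH x t p‖ₑ ^ r = C1 * ∑' j : ℕ, ENNReal.ofReal (2 ^ (δ * (j : ℝ))) *
              ∫⁻ x, ‖∫ p, Kj K j p * PH x t p‖ₑ ^ r := by
          intro t
          rw [lintegral_const_mul' _ _ ENNReal.coe_ne_top, lintegral_tsum]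
          · congr 2
            ext j
            rw [lintegral_const_mul' _ _ ENNReal.ofReal_ne_top]
          · intro j
            exact (((hm1 j).comp (by fun_prop : Measurable fun x : ℝ => (t, x))).const_mul
              _).aemeasurable
        simp only [i1]
        rw [lintegral_const_mul' _ _ ENNReal.coe_ne_top, lintegral_tsum]
        · congr 2
          ext j
          rw [lintegral_const_mul' _ _ ENNReal.ofReal_ne_top]
        · intro j
          exact ((hm1 j).lintegral_prod_right'.const_mul _).aemeasurable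
    _ ≤ C1 * ∑' j : ℕ, ENNReal.ofReal (2 ^ (δ * (j : ℝ))) *
          (ENNReal.ofReal (4 * Real.pi ^ 2 * 2 ^ j) *
            (volume A ^ (2 * r - 3 - 2 * δ) * ENNReal.ofReal (2 * (1 / 2) ^ j) ^ (1 + 2 * δ))) := by
        gcongr with j
        refine (Sj_Lr A hA hAI K hK hb hs r (by linarith) j).trans ?_
        gcongr
        have := mj_pow A j κ (r - 1) hκ0 hκ1 hr1.le
        rwa [hexp, hκr] at this
    _ = C1 * ∑' j : ℕ, volume A ^ (2 * r - 3 - 2 * δ) *
          (ENNReal.ofReal (4 * Real.pi ^ 2 * 2 ^ (1 + 2 * δ)) *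
        (ENNReal.ofReal (2 ^ (-δ))) ^ j) := by
        congr 2
        ext j
        rw [← hg j]
        ring
    _ = _ := by
        rw [ENNReal.tsum_mul_left, ENNReal.tsum_mul_left, ← hC2]
        push_cast
        rw [ENNReal.coe_toNNReal hC2']
        ring

end Pool.Agent.W771
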