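import Mathlib
import Pool.Agent.W771.Piece
set_option autoImplicit false

/-! The vector-valued extension operator of the parabola; bound for functions of modulus at most
the indicator of a set. -/

namespace Pool.Agent.W771

open MeasureTheory Set Complex
open scoped ENNReal NNReal FourierTransform ComplexConjugate

/-- the phase of the parabola -/
noncomputable def ph (x t u : ℝ) : ℂ := cexp (-(I * ((u * x + u ^ 2 * t : ℝ) : ℂ)))

lemma ph_norm (x t u : ℝ) : ‖ph x t u‖ = 1 := norm_cexp_I _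

lemma ph_enorm (x t u : ℝ) : ‖ph x t u‖ₑ = 1 := enorm_cexp_I _

lemma ph_PH (x t : ℝ) (p : ℝ × ℝ) : PH x t p = ph x t p.2 * conj (ph x t p.1) := by
  unfold PH ph
  rw [← Complex.exp_conj, ← Complex.exp_add]
  congr 1
  simp only [map_neg, map_mul, conj_I, conj_ofReal]
  push_cast
  ring

section
variable {Λ : Type*} [MeasurableSpace Λ]

/-- the extension operator of the parabola, applied for every `l` -/
noncomputable def E1 (a : ℝ → Λ → ℂ) (x t : ℝ) (l : Λ) : ℂ := ∫ u, a u l * ph x t u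

/-- square of the `L²(ν)` norm of the extension -/
noncomputable def M2 (ν : Measure Λ) (a : ℝ → Λ → ℂ) (x t : ℝ) : ℝ≥0∞ := ∫⁻ l, ‖E1 a x t l‖ₑ ^ 2 ∂ν

/-- square of the `L²(ν)` norm of the function -/
noncomputable def N2 (ν : Measure Λ) (a : ℝ → Λ → ℂ) (u : ℝ) : ℝ≥0∞ := ∫⁻ l, ‖a u l‖ₑ ^ 2 ∂ν

variable (ν : Measure Λ) [SFinite ν] (a : ℝ → Λ → ℂ) (ha : Measurable (Function.uncurry a))

include ha

omit [SFinite ν] in
lemma a_meas_l (u : ℝ) : Measurable (fun l => a u l) :=
  ha.comp (by fun_prop : Measurable fun l : Λ => (u, l))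

omit [SFinite ν] in
lemma a_meas_u (l : Λ) : Measurable (fun u => a u l) :=
  ha.comp (by fun_prop : Measurable fun u : ℝ => (u, l))

omit [SFinite ν] in
lemma E1_meas : Measurable (fun w : (ℝ × ℝ) × Λ => E1 a w.1.1 w.1.2 w.2) := by
  unfold E1
  apply StronglyMeasurable.measurable
  apply StronglyMeasurable.integral_prod_right'
    (f := fun w : ((ℝ × ℝ) × Λ) × ℝ => a w.2 w.1.2 * ph w.1.1.1 w.1.1.2 w.2)
  apply Measurable.stronglyMeasurable
  apply Measurable.mul
  · exact ha.comp (by fun_prop : Measurable fun w : ((ℝ × ℝ) × Λ) × ℝ => (w.2, w.1.2))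
  · unfold ph
    fun_prop

lemma M2_meas : Measurable (fun w : ℝ × ℝ => M2 ν a w.1 w.2) := by
  unfold M2
  exact Measurable.lintegral_prod_right' ((E1_meas a ha).enorm.pow_const 2)

lemma M2_meas_x (t : ℝ) : Measurable (fun x => M2 ν a x t) := by
  have h : Measurable (fun x : ℝ => (x, t)) := measurable_id.prodMk measurable_const
  have h3 := Measurable.comp (M2_meas ν a ha) h
  exact h3

lemma N2_meas : Measurable (N2 ν a) := by
  unfold N2
  exact Measurable.lintegral_prod_right' (f := fun w : ℝ × Λ => ‖a w.1 w.2‖ₑ ^ 2)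
    (Measurable.pow_const (Measurable.enorm ha) 2)

omit [SFinite ν] in
lemma cs_a (u u' : ℝ) : ∫⁻ l, ‖a u l‖ₑ * ‖a u' l‖ₑ ∂ν ≤
    (N2 ν a u) ^ (1 / 2 : ℝ) * (N2 ν a u') ^ (1 / 2 : ℝ) := by
  have h := ENNReal.lintegral_mul_le_Lp_mul_Lq ν Real.HolderConjugate.two_two
    (f := fun l => ‖a u l‖ₑ) (g := fun l => ‖a u' l‖ₑ)
    (a_meas_l a ha u).enorm.aemeasurable (a_meas_l a ha u').enorm.aemeasurable
  simpa [N2] using h

/-- the kernel -/
noncomputable def kk (ν : Measure Λ) (a : ℝ → Λ → ℂ) (p : ℝ × ℝ) : ℂ :=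
  ∫ l, a p.2 l * conj (a p.1 l) ∂ν

lemma kk_meas : Measurable (kk ν a) := by
  unfold kk
  apply StronglyMeasurable.measurable
  apply StronglyMeasurable.integral_prod_right'
    (f := fun w : (ℝ × ℝ) × Λ => a w.1.2 w.2 * conj (a w.1.1 w.2))
  apply Measurable.stronglyMeasurable
  apply Measurable.mul
  · exact ha.comp (by fun_prop : Measurable fun w : (ℝ × ℝ) × Λ => (w.1.2, w.2))
  · exact Complex.continuous_conj.measurable.comp
      (ha.comp (by fun_prop : Measurable fun w : (ℝ × ℝ) × Λ => (w.1.1, w.2)))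

omit [SFinite ν] in
lemma kk_bound (hN : ∀ u, N2 ν a u ≤ 1) (p : ℝ × ℝ) : ‖kk ν a p‖ₑ ≤ 1 := by
  calc ‖kk ν a p‖ₑ ≤ ∫⁻ l, ‖a p.2 l * conj (a p.1 l)‖ₑ ∂ν := enorm_integral_le_lintegral_enorm _
    _ = ∫⁻ l, ‖a p.2 l‖ₑ * ‖a p.1 l‖ₑ ∂ν := by
        congr 1
        ext l
        rw [enorm_mul, RCLike.enorm_conj]
    _ ≤ _ := cs_a ν a ha _ _
    _ ≤ 1 * 1 := by
        gcongr
        · exact ENNReal.rpow_le_one (hN _) (by norm_num)
        · exact ENNReal.rpow_le_one (hN _) (by norm_num)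
    _ = 1 := one_mul 1

variable (A : Set ℝ) (hA : MeasurableSet A) (hAI : A ⊆ Icc (-(1 / 2)) (1 / 2))
  (hz : ∀ u, u ∉ A → ∀ l, a u l = 0) (hN : ∀ u, N2 ν a u ≤ 1)

include hz

omit [SFinite ν] ha in
lemma kk_supp (p : ℝ × ℝ) (hp : kk ν a p ≠ 0) : p.1 ∈ A ∧ p.2 ∈ A := by
  constructor
  · by_contra h
    apply hp
    unfold kk
    simp [hz _ h]
  · by_contra h
    apply hp
    unfold kk
    simp [hz _ h]

include hA hAI hN

lemma M2_eq (x t : ℝ) : M2 ν a x t = ‖∫ p, kk ν a p * PH x t p‖ₑ := by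
  have hvA : volume A ≤ 1 := vol_A_le A hAI
  set F : ℝ × ℝ → Λ → ℂ := fun p l => (a p.2 l * ph x t p.2) * conj (a p.1 l * ph x t p.1) with hF
  have hphm : Continuous (fun u => ph x t u) := by
    unfold ph
    fun_prop
  have hFm : Measurable (Function.uncurry F) := by
    apply Measurable.mul
    · apply Measurable.mul
      · exact ha.comp (by fun_prop : Measurable fun w : (ℝ × ℝ) × Λ => (w.1.2, w.2))
      · exact hphm.measurable.comp (by fun_prop)
    · apply Complex.continuous_conj.measurable.comp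
      apply Measurable.mul
      · exact ha.comp (by fun_prop : Measurable fun w : (ℝ × ℝ) × Λ => (w.1.1, w.2))
      · exact hphm.measurable.comp (by fun_prop)
  have hFint : Integrable (Function.uncurry F) (volume.prod ν) := by
    refine ⟨hFm.aestronglyMeasurable, ?_⟩
    unfold HasFiniteIntegral
    rw [lintegral_prod _ hFm.enorm.aemeasurable]
    calc ∫⁻ p, ∫⁻ l, ‖Function.uncurry F (p, l)‖ₑ ∂ν ≤
        ∫⁻ p : ℝ × ℝ, (A ×ˢ A).indicator (fun _ => (1 : ℝ≥0∞)) p := by
          apply lintegral_mono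
          intro p
          have e1 : ∀ l, ‖Function.uncurry F (p, l)‖ₑ = ‖a p.2 l‖ₑ * ‖a p.1 l‖ₑ := by
            intro l
            simp only [Function.uncurry, hF]
            rw [enorm_mul, RCLike.enorm_conj, enorm_mul, enorm_mul, ph_enorm, ph_enorm, mul_one,
              mul_one]
          simp only [e1]
          by_cases hp : p ∈ A ×ˢ A
          · rw [indicator_of_mem hp]
            refine (cs_a ν a ha _ _).trans ?_
            calc _ ≤ (1 : ℝ≥0∞) * 1 := by
                  gcongr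
                  · exact ENNReal.rpow_le_one (hN _) (by norm_num)
                  · exact ENNReal.rpow_le_one (hN _) (by norm_num)
              _ = 1 := one_mul 1
          · rw [indicator_of_notMem hp]
            have : p.1 ∉ A ∨ p.2 ∉ A := by
              by_contra hc
              push Not at hc
              exact hp hc
            rcases this with h | h
            · simp [hz _ h]
            · simp [hz _ h]
      _ = volume A * volume A := by
          rw [lintegral_indicator (hA.prod hA)]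
          simp [Measure.volume_eq_prod, Measure.prod_prod]
      _ < ∞ := ENNReal.mul_lt_top (hvA.trans_lt ENNReal.one_lt_top)
          (hvA.trans_lt ENNReal.one_lt_top)
  have e1 : ∫ p, kk ν a p * PH x t p = ∫ p, ∫ l, F p l ∂ν := by
    congr 1
    ext p
    unfold kk
    rw [← integral_mul_const]
    congr 1
    ext l
    rw [ph_PH, hF]
    simp only [map_mul]
    ring
  have e2 : ∀ l, ∫ p, F p l = ((‖E1 a x t l‖ ^ 2 : ℝ) : ℂ) := by
    intro l
    have : ∫ p : ℝ × ℝ, F p l = (∫ u, conj (a u l * ph x t u)) * ∫ u, a u l * ph x t u := by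
      rw [← integral_prod_mul, ← Measure.volume_eq_prod]
      congr 1
      ext p
      simp only [hF]
      ring
    rw [this, integral_conj]
    unfold E1
    rw [← Complex.normSq_eq_norm_sq, Complex.normSq_eq_conj_mul_self]
  have hi2 : Integrable (fun l => ∫ p, F p l) ν := hFint.integral_prod_right
  simp only [e2] at hi2
  rw [e1, integral_integral_swap hFint]
  simp only [e2]
  have hi3 : Integrable (fun l => ‖E1 a x t l‖ ^ 2) ν :=
    hi2.re.congr (ae_of_all _ fun l => Complex.ofReal_re _)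
  rw [integral_complex_ofReal, ← ofReal_norm, Complex.norm_real, Real.norm_of_nonneg
    (integral_nonneg fun _ => by positivity), ofReal_integral_eq_lintegral_ofReal hi3
    (ae_of_all _ fun _ => by positivity)]
  unfold M2
  congr 1
  ext l
  rw [← ofReal_norm, ENNReal.ofReal_pow (norm_nonneg _)]

lemma M2_sup (x t : ℝ) : M2 ν a x t ≤ volume A ^ 2 := by
  rw [M2_eq ν a ha A hA hAI hz hN]
  calc ‖∫ p, kk ν a p * PH x t p‖ₑ ≤ ∫⁻ p, ‖kk ν a p * PH x t p‖ₑ := enorm_integral_le_lintegral_enorm _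
    _ ≤ ∫⁻ p : ℝ × ℝ, (A ×ˢ A).indicator (fun _ => (1 : ℝ≥0∞)) p := by
        apply lintegral_mono
        intro p
        simp only
        rw [enorm_mul, PH, enorm_cexp_I, mul_one]
        by_cases h0 : kk ν a p = 0
        · rw [h0, enorm_zero]
          exact zero_le
        · rw [indicator_of_mem (show p ∈ A ×ˢ A from kk_supp ν a A hz p h0)]
          exact kk_bound ν a ha hN p
    _ = volume A ^ 2 := by
        rw [lintegral_indicator (hA.prod hA)]
        simp [Measure.volume_eq_prod, Measure.prod_prod, sq]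

omit hN in
/-- Plancherel in `x` -/
lemma M2_planch (t : ℝ) : ∫⁻ x, M2 ν a x t ≤
    ENNReal.ofReal (2 * Real.pi) * ∫⁻ u, N2 ν a u := by
  have hvA : volume A ≤ 1 := vol_A_le A hAI
  by_cases htop : ∫⁻ u, N2 ν a u = ∞
  · rw [htop, ENNReal.mul_top]
    · exact le_top
    · rw [ENNReal.ofReal_ne_zero_iff]
      positivity
  have hm : Measurable (fun w : ℝ × Λ => ‖a w.1 w.2‖ₑ ^ 2) :=
    Measurable.pow_const (Measurable.enorm ha) 2
  have hsw : ∫⁻ u, N2 ν a u = ∫⁻ l, (∫⁻ u, ‖a u l‖ₑ ^ 2) ∂ν := by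
    unfold N2
    rw [lintegral_lintegral_swap hm.aemeasurable]
  unfold M2
  have hm2 : Measurable (fun w : ℝ × Λ => ‖E1 a w.1 t w.2‖ₑ ^ 2) :=
    ((E1_meas a ha).comp
      (by fun_prop : Measurable fun w : ℝ × Λ => (((w.1, t) : ℝ × ℝ), w.2))).enorm.pow_const 2
  rw [lintegral_lintegral_swap hm2.aemeasurable, hsw, ← lintegral_const_mul]
  swap
  · exact hm.lintegral_prod_left'
  apply lintegral_mono_ae
  have hfin : ∀ᵐ l ∂ν, ∫⁻ u, ‖a u l‖ₑ ^ 2 < ∞ := by
    apply ae_lt_top (hm.lintegral_prod_left')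
    rw [← hsw]
    exact htop
  filter_upwards [hfin] with l hl
  have hml : Measurable (fun u => a u l * cexp (-(I * ((u ^ 2 * t : ℝ) : ℂ)))) := by
    apply (a_meas_u a ha l).mul
    apply Continuous.measurable
    fun_prop
  have h2 : MemLp (fun u => a u l * cexp (-(I * ((u ^ 2 * t : ℝ) : ℂ)))) 2 := by
    refine ⟨hml.aestronglyMeasurable, ?_⟩
    rw [eLpNorm_lt_top_iff_lintegral_rpow_enorm_lt_top (by norm_num) (by norm_num)]
    simp only [enorm_mul, enorm_cexp_I, mul_one, ENNReal.toReal_ofNat, ENNReal.rpow_ofNat]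
    exact hl
  have h1 : Integrable (fun u => a u l * cexp (-(I * ((u ^ 2 * t : ℝ) : ℂ)))) := by
    have hr : MemLp (fun u => a u l * cexp (-(I * ((u ^ 2 * t : ℝ) : ℂ)))) 2
      (volume.restrict A) := h2.restrict A
    have : IsFiniteMeasure (volume.restrict A) :=
      ⟨by rw [Measure.restrict_apply_univ]; exact hvA.trans_lt ENNReal.one_lt_top⟩
    have h3 : IntegrableOn (fun u => a u l * cexp (-(I * ((u ^ 2 * t : ℝ) : ℂ)))) A := 
      hr.integrable (by norm_num)
    rw [← integrable_indicator_iff hA] at h3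
    refine h3.congr (ae_of_all _ fun u => ?_)
    by_cases hu : u ∈ A
    · rw [indicator_of_mem hu]
    · rw [indicator_of_notMem hu]
      simp only
      rw [hz u hu, zero_mul]
  have h3 := planch1 _ h1 h2
  have e1 : ∀ x, E1 a x t l = ∫ u : ℝ, a u l * cexp (-(I * ((u ^ 2 * t : ℝ) : ℂ))) *
      cexp (-(I * ((u * x : ℝ) : ℂ))) := by
    intro x
    unfold E1
    congr 1
    ext u
    unfold ph
    rw [mul_assoc, ← Complex.exp_add]
    congr 2
    push_cast
    ring
  simp only [e1]
  rw [h3]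
  apply le_of_eq
  congr 2
  ext u
  rw [enorm_mul, enorm_cexp_I, mul_one]

omit [SFinite ν] ha hA hAI hN in
lemma N2_zero (u : ℝ) (hu : u ∉ A) : N2 ν a u = 0 := by
  unfold N2
  simp [hz u hu]

end


end Pool.Agent.W771
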