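import Mathlib
import Pool.Agent.W771.Restr
set_option autoImplicit false

/-! The restricted bound for the vector-valued extension operator of the parabola. -/

namespace Pool.Agent.W771

open MeasureTheory Set Complex
open scoped ENNReal NNReal FourierTransform ComplexConjugate

/-- **the restricted bound** -/
lemma restr (q δ : ℝ) (hq : 3 < q) (hδ : 0 < δ) (hδq : 4 * δ ≤ q - 3) : ∃ C : ℝ≥0,
    ∀ (Λ : Type) [MeasurableSpace Λ] (ν : Measure Λ) [SFinite ν] (a : ℝ → Λ → ℂ),
    Measurable (Function.uncurry a) → ∀ A : Set ℝ, MeasurableSet A →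
    A ⊆ Icc (-(1 / 2)) (1 / 2) → (∀ u, u ∉ A → ∀ l, a u l = 0) → (∀ u, N2 ν a u ≤ 1) →
    ∫⁻ t, (∫⁻ x, M2 ν a x t ^ (q / 2)) ^ 2 ≤ C * volume A ^ (2 * (q - 2) - 2 * δ) := by
  obtain ⟨C1, hC1⟩ := ker_Lr ((q + 1) / 2) δ hδ (by linarith)
  refine ⟨(2 * Real.pi).toNNReal * C1, ?_⟩
  intro Λ _ ν _ a ha A hA hAI hz hN
  have hvA : volume A ≤ 1 := vol_A_le A hAI
  have hM := M2_meas ν a ha
  -- the two factors
  have hMt : ∀ t, Measurable (fun x => M2 ν a x t) := fun t => M2_meas_x ν a ha t
  have h1 : ∀ t, ∫⁻ x, M2 ν a x t ^ ((q - 1) / 2) ≤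
      ENNReal.ofReal (2 * Real.pi) * volume A ^ (q - 2) := by
    intro t
    calc ∫⁻ x, M2 ν a x t ^ ((q - 1) / 2) ≤ ∫⁻ x, volume A ^ (q - 3) * M2 ν a x t := by
          apply lintegral_mono
          intro x
          simp only
          have e : (q - 1) / 2 = (q - 3) / 2 + 1 := by ring
          rw [e, ENNReal.rpow_add_of_nonneg _ _ (by linarith) zero_le_one, ENNReal.rpow_one]
          gcongr
          calc M2 ν a x t ^ ((q - 3) / 2) ≤ (volume A ^ 2) ^ ((q - 3) / 2) := by
                apply ENNReal.rpow_le_rpow _ (by linarith)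
                exact M2_sup ν a ha A hA hAI hz hN x t
            _ = volume A ^ (q - 3) := by
                rw [← ENNReal.rpow_natCast, ← ENNReal.rpow_mul]
                congr 1
                push_cast
                ring
      _ = volume A ^ (q - 3) * ∫⁻ x, M2 ν a x t := by
          rw [lintegral_const_mul _ (hMt t)]
      _ ≤ volume A ^ (q - 3) * (ENNReal.ofReal (2 * Real.pi) * volume A) := by
          gcongr
          refine (M2_planch ν a ha A hA hAI hz t).trans ?_
          gcongr
          calc ∫⁻ u, N2 ν a u ≤ ∫⁻ u, A.indicator (fun _ => (1 : ℝ≥0∞)) u := by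
                apply lintegral_mono
                intro u
                by_cases hu : u ∈ A
                · simp only
                  rw [indicator_of_mem hu]
                  exact hN u
                · simp only
                  rw [N2_zero ν a A hz u hu]
                  exact zero_le
            _ = volume A := by
                rw [lintegral_indicator hA]
                simp
      _ = _ := by
          have e : q - 2 = (q - 3) + 1 := by ring
          rw [e, ENNReal.rpow_add_of_nonneg _ _ (by linarith) zero_le_one, ENNReal.rpow_one]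
          ring
  have h2 : ∀ t, (∫⁻ x, M2 ν a x t ^ (q / 2)) ^ 2 ≤
      (∫⁻ x, M2 ν a x t ^ ((q - 1) / 2)) * ∫⁻ x, M2 ν a x t ^ ((q + 1) / 2) := by
    intro t
    have h3 := ENNReal.lintegral_mul_le_Lp_mul_Lq (volume : Measure ℝ)
      Real.HolderConjugate.two_two (f := fun x => M2 ν a x t ^ ((q - 1) / 4))
      (g := fun x => M2 ν a x t ^ ((q + 1) / 4))
      ((hMt t).pow_const _).aemeasurable ((hMt t).pow_const _).aemeasurable
    have e1 : ∀ x, M2 ν a x t ^ (q / 2) =
        ((fun x => M2 ν a x t ^ ((q - 1) / 4)) * (fun x => M2 ν a x t ^ ((q + 1) / 4))) x := by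
      intro x
      simp only [Pi.mul_apply]
      rw [← ENNReal.rpow_add_of_nonneg _ _ (by linarith) (by linarith)]
      congr 1
      ring
    have e2 : ∀ x, (M2 ν a x t ^ ((q - 1) / 4)) ^ (2 : ℝ) = M2 ν a x t ^ ((q - 1) / 2) := by
      intro x
      rw [← ENNReal.rpow_mul]
      congr 1
      ring
    have e3 : ∀ x, (M2 ν a x t ^ ((q + 1) / 4)) ^ (2 : ℝ) = M2 ν a x t ^ ((q + 1) / 2) := by
      intro x
      rw [← ENNReal.rpow_mul]
      congr 1
      ring
    simp only [e2, e3] at h3
    simp only [e1]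
    calc _ ≤ ((∫⁻ x, M2 ν a x t ^ ((q - 1) / 2)) ^ (1 / 2 : ℝ) *
        (∫⁻ x, M2 ν a x t ^ ((q + 1) / 2)) ^ (1 / 2 : ℝ)) ^ 2 := by
          gcongr
      _ = _ := by
          rw [mul_pow, ← ENNReal.rpow_natCast, ← ENNReal.rpow_natCast, ← ENNReal.rpow_mul,
            ← ENNReal.rpow_mul]
          norm_num
  calc ∫⁻ t, (∫⁻ x, M2 ν a x t ^ (q / 2)) ^ 2 ≤
      ∫⁻ t, (ENNReal.ofReal (2 * Real.pi) * volume A ^ (q - 2)) *
        ∫⁻ x, M2 ν a x t ^ ((q + 1) / 2) := by
        apply lintegral_mono
        intro t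
        exact (h2 t).trans (mul_le_mul' (h1 t) le_rfl)
    _ = (ENNReal.ofReal (2 * Real.pi) * volume A ^ (q - 2)) *
        ∫⁻ t, ∫⁻ x, M2 ν a x t ^ ((q + 1) / 2) := by
        rw [lintegral_const_mul']
        apply ENNReal.mul_ne_top ENNReal.ofReal_ne_top
        apply ENNReal.rpow_ne_top_of_nonneg (by linarith)
        exact ne_top_of_le_ne_top ENNReal.one_ne_top hvA
    _ ≤ (ENNReal.ofReal (2 * Real.pi) * volume A ^ (q - 2)) *
        (C1 * volume A ^ (2 * ((q + 1) / 2) - 3 - 2 * δ)) := by
        gcongr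
        simp only [M2_eq ν a ha A hA hAI hz hN]
        apply hC1 A hA hAI (kk ν a) (kk_meas ν a ha)
        · intro p
          have := kk_bound ν a ha hN p
          rw [← ofReal_norm, ENNReal.ofReal_le_one] at this
          exact this
        · exact kk_supp ν a A hz
    _ = _ := by
        have e : 2 * (q - 2) - 2 * δ = (q - 2) + (2 * ((q + 1) / 2) - 3 - 2 * δ) := by ring
        rw [e, ENNReal.rpow_add_of_nonneg _ _ (by linarith) (by linarith)]
        push_cast
        rw [ENNReal.ofReal]
        ring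

end Pool.Agent.W771
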