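import Mathlib
import Pool.Agent.W771.Restr2
set_option autoImplicit false

/-! The strong bound for the vector-valued extension operator of the parabola. -/

namespace Pool.Agent.W771

open MeasureTheory Set Complex
open scoped ENNReal NNReal FourierTransform ComplexConjugate

lemma ofReal_two_rpow (s : ℝ) : ENNReal.ofReal (2 ^ s) = (2 : ℝ≥0∞) ^ s := by
  rw [← ENNReal.ofReal_rpow_of_pos (by norm_num)]
  norm_num

lemma sum_pow' (r δ : ℝ) (hr : 0 < r) (hδ : 0 < δ) : ∃ C : ℝ≥0, ∀ x : ℕ → ℝ≥0∞,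
    (∑' k, x k) ^ r ≤ C * ∑' k : ℕ, (2 : ℝ≥0∞) ^ (δ * (k : ℝ)) * x k ^ r := by
  obtain ⟨C, hC⟩ := sum_pow r δ hr hδ
  refine ⟨C, fun x => ?_⟩
  simpa only [ofReal_two_rpow] using hC x

lemma sum_sq' (δ : ℝ) (hδ : 0 < δ) : ∃ C : ℝ≥0, ∀ x : ℕ → ℝ≥0∞,
    (∑' k, x k) ^ 2 ≤ C * ∑' k : ℕ, (2 : ℝ≥0∞) ^ (δ * (k : ℝ)) * x k ^ 2 := by
  obtain ⟨C, hC⟩ := sum_pow' 2 δ (by norm_num) hδ
  refine ⟨C, fun x => ?_⟩
  have := hC x
  simpa only [ENNReal.rpow_ofNat] using this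

lemma two_add (x y : ℝ) : (2 : ℝ≥0∞) ^ (x + y) = 2 ^ x * 2 ^ y :=
  ENNReal.rpow_add _ _ (by norm_num) (by norm_num)

lemma tsum_two_ne_top (s : ℝ) (hs : s < 0) : ∑' k : ℕ, (2 : ℝ≥0∞) ^ (s * (k : ℝ)) ≠ ∞ := by
  have h1 : ∀ k : ℕ, (2 : ℝ≥0∞) ^ (s * (k : ℝ)) = ((2 : ℝ≥0∞) ^ s) ^ k := by
    intro k
    rw [ENNReal.rpow_mul, ENNReal.rpow_natCast]
  simp only [h1]
  have hlt : (2 : ℝ≥0∞) ^ s < 1 := ENNReal.rpow_lt_one_of_one_lt_of_neg (by norm_num) hs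
  rw [ENNReal.tsum_geometric]
  exact ENNReal.inv_ne_top.mpr (tsub_pos_of_lt hlt).ne'

section
variable {Λ : Type} [MeasurableSpace Λ] (ν : Measure Λ) (a : ℝ → Λ → ℂ)
  (ha : Measurable (Function.uncurry a))

/-- the layers of the function -/
noncomputable def Ly (ν : Measure Λ) (a : ℝ → Λ → ℂ) : ℕ → Set ℝ
  | 0 => {u | u ∈ Icc (-(1 / 2) : ℝ) (1 / 2) ∧ N2 ν a u ≤ 1}
  | k + 1 => {u | u ∈ Icc (-(1 / 2) : ℝ) (1 / 2) ∧ (4 : ℝ≥0∞) ^ k < N2 ν a u ∧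
      N2 ν a u ≤ (4 : ℝ≥0∞) ^ (k + 1)}

lemma Ly_sub (k : ℕ) : Ly ν a k ⊆ Icc (-(1 / 2) : ℝ) (1 / 2) := by
  cases k with
  | zero => exact fun u hu => hu.1
  | succ k => exact fun u hu => hu.1

lemma Ly_le (k : ℕ) (u : ℝ) (hu : u ∈ Ly ν a k) : N2 ν a u ≤ (4 : ℝ≥0∞) ^ k := by
  cases k with
  | zero => simpa using hu.2
  | succ k => exact hu.2.2

include ha in
lemma Ly_meas [SFinite ν] (k : ℕ) : MeasurableSet (Ly ν a k) := by
  have h := N2_meas ν a ha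
  cases k with
  | zero => exact measurableSet_Icc.inter (measurableSet_le h measurable_const)
  | succ k =>
    exact measurableSet_Icc.inter ((measurableSet_lt measurable_const h).inter
      (measurableSet_le h measurable_const))

lemma Ly_disj : Pairwise (Function.onFun Disjoint (Ly ν a)) := by
  intro i j hij
  rw [Function.onFun, Set.disjoint_left]
  intro u h1 h2
  wlog h : i < j generalizing i j with H
  · exact H hij.symm h2 h1 (lt_of_le_of_ne (not_lt.mp h) hij.symm)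
  obtain ⟨m, rfl⟩ : ∃ m, j = m + 1 := ⟨j - 1, by omega⟩
  have h3 : N2 ν a u ≤ (4 : ℝ≥0∞) ^ i := Ly_le ν a i u h1
  have h4 : (4 : ℝ≥0∞) ^ m < N2 ν a u := h2.2.1
  have h5 : (4 : ℝ≥0∞) ^ i ≤ 4 ^ m := pow_le_pow_right₀ (by norm_num) (by omega)
  exact absurd (h3.trans h5) (not_le.mpr h4)

lemma Ly_cover (u : ℝ) (hu : u ∈ Icc (-(1 / 2) : ℝ) (1 / 2)) (hN : N2 ν a u < ∞) :
    u ∈ ⋃ k, Ly ν a k := by
  by_cases h1 : N2 ν a u ≤ 1
  · exact mem_iUnion.mpr ⟨0, hu, h1⟩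
  · push Not at h1
    have h2 : ∃ n : ℕ, N2 ν a u ≤ (4 : ℝ≥0∞) ^ n := by
      obtain ⟨n, hn⟩ := ENNReal.exists_nat_gt hN.ne
      refine ⟨n, hn.le.trans ?_⟩
      have : (n : ℝ≥0∞) ≤ ((4 ^ n : ℕ) : ℝ≥0∞) := by
        exact_mod_cast (Nat.lt_pow_self (by norm_num : 1 < 4)).le
      refine this.trans ?_
      push_cast
      exact le_refl _
    classical
    set n := Nat.find h2 with hn
    have h3 := Nat.find_spec h2
    have hn0 : n ≠ 0 := by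
      intro h0
      rw [← hn, h0, pow_zero] at h3
      exact absurd h3 (not_le.mpr h1)
    obtain ⟨m, hm⟩ : ∃ m, n = m + 1 := ⟨n - 1, by omega⟩
    have h4 : ¬ (N2 ν a u ≤ (4 : ℝ≥0∞) ^ m) := Nat.find_min h2 (by omega)
    refine mem_iUnion.mpr ⟨m + 1, hu, not_le.mp h4, ?_⟩
    rw [← hm]
    exact h3

/-- the normalised piece of the function -/
noncomputable def pc (ν : Measure Λ) (a : ℝ → Λ → ℂ) (k : ℕ) (u : ℝ) (l : Λ) : ℂ :=
  (Ly ν a k).indicator (fun u => ((2 : ℂ) ^ k)⁻¹ * a u l) u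

include ha in
lemma pc_meas [SFinite ν] (k : ℕ) : Measurable (Function.uncurry (pc ν a k)) := by
  have h1 : Function.uncurry (pc ν a k) = (Prod.fst ⁻¹' (Ly ν a k)).indicator
      (fun w : ℝ × Λ => ((2 : ℂ) ^ k)⁻¹ * a w.1 w.2) := by
    ext w
    obtain ⟨u, l⟩ := w
    simp only [Function.uncurry_apply_pair, pc]
    by_cases h : u ∈ Ly ν a k
    · rw [indicator_of_mem h, indicator_of_mem (by exact h)]
    · rw [indicator_of_notMem h, indicator_of_notMem (by exact h)]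
  rw [h1]
  have h2 : Measurable (fun w : ℝ × Λ => a w.1 w.2) := ha
  exact (h2.const_mul _).indicator (measurable_fst (Ly_meas ν a ha k))

lemma pc_zero (k : ℕ) (u : ℝ) (hu : u ∉ Ly ν a k) (l : Λ) : pc ν a k u l = 0 :=
  indicator_of_notMem hu _

lemma enorm_two_inv (k : ℕ) : ‖((2 : ℂ) ^ k)⁻¹‖ₑ = ((2 : ℝ≥0∞) ^ k)⁻¹ := by
  rw [enorm_inv (pow_ne_zero _ two_ne_zero), enorm_pow]
  congr 2
  rw [← ofReal_norm]
  norm_num

include ha in
lemma pc_N2 (k : ℕ) (u : ℝ) : N2 ν (pc ν a k) u ≤ 1 := by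
  by_cases hu : u ∈ Ly ν a k
  · have h1 : N2 ν (pc ν a k) u = (((2 : ℝ≥0∞) ^ k)⁻¹) ^ 2 * N2 ν a u := by
      unfold N2
      rw [← lintegral_const_mul _ ((a_meas_l a ha u).enorm.pow_const 2)]
      congr 1
      ext l
      rw [pc, indicator_of_mem hu, enorm_mul, mul_pow, enorm_two_inv]
    rw [h1]
    calc _ ≤ (((2 : ℝ≥0∞) ^ k)⁻¹) ^ 2 * (4 : ℝ≥0∞) ^ k := by
          gcongr
          exact Ly_le ν a k u hu
      _ = 1 := by
          have : (4 : ℝ≥0∞) = 2 ^ 2 := by norm_num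
          rw [this, ← pow_mul, ← ENNReal.inv_pow, ← pow_mul, mul_comm 2 k]
          exact ENNReal.inv_mul_cancel (pow_ne_zero _ two_ne_zero)
            (ENNReal.pow_ne_top (by norm_num))
  · rw [N2_zero ν (pc ν a k) (Ly ν a k) (fun u hu l => pc_zero ν a k u hu l) u hu]
    exact zero_le

include ha in
lemma pc_int [SFinite ν] (k : ℕ) (x t : ℝ) (l : Λ) :
    ‖∫ u in Ly ν a k, a u l * ph x t u‖ₑ = 2 ^ k * ‖E1 (pc ν a k) x t l‖ₑ := by
  have h1 : ∫ u in Ly ν a k, a u l * ph x t u = (2 : ℂ) ^ k * E1 (pc ν a k) x t l := by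
    unfold E1
    rw [← integral_indicator (Ly_meas ν a ha k), ← integral_const_mul]
    congr 1
    ext u
    unfold pc
    by_cases h : u ∈ Ly ν a k
    · rw [indicator_of_mem h, indicator_of_mem h]
      have : (2 : ℂ) ^ k ≠ 0 := pow_ne_zero _ two_ne_zero
      field_simp
    · rw [indicator_of_notMem h, indicator_of_notMem h]
      ring
  rw [h1, enorm_mul, enorm_pow]
  congr 2
  rw [← ofReal_norm]
  norm_num

variable (hz : ∀ u, u ∉ Icc (-(1 / 2) : ℝ) (1 / 2) → ∀ l, a u l = 0)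
  (hfin : ∀ᵐ u : ℝ, N2 ν a u < ∞)

include ha hz hfin

lemma E1_le [SFinite ν] (x t : ℝ) (l : Λ) : ‖E1 a x t l‖ₑ ≤ ∑' k, 2 ^ k * ‖E1 (pc ν a k) x t l‖ₑ := by
  simp only [← pc_int ν a ha]
  unfold E1
  refine enorm_integral_le_tsum volume (fun u => a u l * ph x t u) (Ly ν a)
    (Ly_meas ν a ha) (Ly_disj ν a) ?_
  filter_upwards [hfin] with u hu1 hu2
  by_cases hu : u ∈ Icc (-(1 / 2) : ℝ) (1 / 2)
  · exact absurd (Ly_cover ν a u hu hu1) hu2
  · rw [hz u hu, zero_mul]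

lemma M2_le_sum [SFinite ν] (C1 : ℝ≥0) (ε : ℝ) (hC1 : ∀ x : ℕ → ℝ≥0∞,
    (∑' k, x k) ^ 2 ≤ C1 * ∑' k : ℕ, (2 : ℝ≥0∞) ^ (ε * (k : ℝ)) * x k ^ 2) (x t : ℝ) :
    M2 ν a x t ≤ C1 * ∑' k : ℕ, (2 : ℝ≥0∞) ^ ((ε + 2) * (k : ℝ)) * M2 ν (pc ν a k) x t := by
  have hm : ∀ k, Measurable (fun l => ‖E1 (pc ν a k) x t l‖ₑ ^ 2) := by
    intro k
    have h := E1_meas (pc ν a k) (pc_meas ν a ha k)
    have h2 : Measurable (fun l : Λ => (((x, t) : ℝ × ℝ), l)) := measurable_const.prodMk measurable_id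
    have h3 := Measurable.comp h h2
    exact h3.enorm.pow_const 2
  calc M2 ν a x t ≤ ∫⁻ l, C1 * ∑' k : ℕ, (2 : ℝ≥0∞) ^ (ε * (k : ℝ)) *
      (2 ^ k * ‖E1 (pc ν a k) x t l‖ₑ) ^ 2 ∂ν := by
        unfold M2
        apply lintegral_mono
        intro l
        refine le_trans ?_ (hC1 _)
        have := E1_le ν a ha hz hfin x t l
        simp only
        gcongr
    _ = ∫⁻ l, C1 * ∑' k : ℕ, (2 : ℝ≥0∞) ^ ((ε + 2) * (k : ℝ)) * ‖E1 (pc ν a k) x t l‖ₑ ^ 2 ∂ν := by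
        congr 1
        ext l
        congr 2
        ext k
        rw [mul_pow, ← mul_assoc]
        congr 1
        rw [← pow_mul, add_mul, two_add, ← ENNReal.rpow_natCast]
        congr 2
        push_cast
        ring
    _ = _ := by
        rw [lintegral_const_mul' _ _ ENNReal.coe_ne_top, lintegral_tsum]
        · congr 2
          ext k
          rw [lintegral_const_mul _ (hm k)]
          rfl
        · intro k
          exact ((hm k).const_mul _).aemeasurable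

end

/-- volume of the layers -/
lemma Ly_vol {Λ : Type} [MeasurableSpace Λ] (ν : Measure Λ) [SFinite ν] (a : ℝ → Λ → ℂ)
    (ha : Measurable (Function.uncurry a)) (p : ℝ) (hp : 0 < p)
    (hN : ∫⁻ u in Icc (-(1 / 2) : ℝ) (1 / 2), N2 ν a u ^ (p / 2) ≤ 1) (k : ℕ) :
    volume (Ly ν a k) ≤ (2 : ℝ≥0∞) ^ p * 2 ^ (-p * (k : ℝ)) := by
  cases k with
  | zero =>
    simp only [Nat.cast_zero, mul_zero, ENNReal.rpow_zero, mul_one]
    refine (vol_A_le _ (Ly_sub ν a 0)).trans ?_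
    exact ENNReal.one_le_rpow (by norm_num) hp
  | succ k =>
    have h1 : (2 : ℝ≥0∞) ^ (p * (k : ℝ)) * volume (Ly ν a (k + 1)) ≤ 1 := by
      calc (2 : ℝ≥0∞) ^ (p * (k : ℝ)) * volume (Ly ν a (k + 1)) =
          ∫⁻ u in Ly ν a (k + 1), (2 : ℝ≥0∞) ^ (p * (k : ℝ)) := by
            rw [lintegral_const, Measure.restrict_apply_univ]
        _ ≤ ∫⁻ u in Ly ν a (k + 1), N2 ν a u ^ (p / 2) := by
            apply setLIntegral_mono' (Ly_meas ν a ha (k + 1))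
            intro u hu
            have h2 : (4 : ℝ≥0∞) ^ k ≤ N2 ν a u := hu.2.1.le
            calc (2 : ℝ≥0∞) ^ (p * (k : ℝ)) = ((4 : ℝ≥0∞) ^ k) ^ (p / 2) := by
                  have : (4 : ℝ≥0∞) = 2 ^ (2 : ℝ) := by norm_num
                  rw [this, ← ENNReal.rpow_natCast, ← ENNReal.rpow_mul, ← ENNReal.rpow_mul]
                  congr 1
                  ring
              _ ≤ _ := by gcongr
        _ ≤ ∫⁻ u in Icc (-(1 / 2) : ℝ) (1 / 2), N2 ν a u ^ (p / 2) := 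
            lintegral_mono_set (Ly_sub ν a (k + 1))
        _ ≤ 1 := hN
    calc volume (Ly ν a (k + 1)) = (2 : ℝ≥0∞) ^ (-(p * (k : ℝ))) *
        ((2 : ℝ≥0∞) ^ (p * (k : ℝ)) * volume (Ly ν a (k + 1))) := by
          rw [← mul_assoc, ← two_add]
          simp
      _ ≤ (2 : ℝ≥0∞) ^ (-(p * (k : ℝ))) * 1 := by gcongr
      _ = _ := by
          rw [mul_one, ← two_add]
          congr 1
          push_cast
          ring

/-- **the strong bound in one variable** -/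
theorem oneVar (q p : ℝ) (hq : 3 < q) (hp0 : 0 < p) (hp : q < p * (q - 2)) : ∃ C : ℝ≥0,
    ∀ (Λ : Type) [MeasurableSpace Λ] (ν : Measure Λ) [SFinite ν] (a : ℝ → Λ → ℂ),
    Measurable (Function.uncurry a) →
    (∀ u, u ∉ Icc (-(1 / 2) : ℝ) (1 / 2) → ∀ l, a u l = 0) →
    (∫⁻ u in Icc (-(1 / 2) : ℝ) (1 / 2), N2 ν a u ^ (p / 2) ≤ 1) →
    ∫⁻ t, (∫⁻ x, M2 ν a x t ^ (q / 2)) ^ 2 ≤ C := by
  set D : ℝ := p * (q - 2) - q with hD
  have hD0 : 0 < D := by linarith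
  set δ : ℝ := min ((q - 3) / 4) (D / (2 * p)) with hδ
  have hδ0 : 0 < δ := lt_min (by linarith) (by positivity)
  set ε : ℝ := D / (2 * (3 + q)) with hε
  have hε0 : 0 < ε := by positivity
  obtain ⟨C0, hC0⟩ := restr q δ hq hδ0 (by
    have := min_le_left ((q - 3) / 4) (D / (2 * p))
    rw [← hδ] at this
    linarith)
  obtain ⟨C1, hC1⟩ := sum_sq' ε hε0
  obtain ⟨C2, hC2⟩ := sum_pow' (q / 2) ε (by linarith) hε0
  set θ : ℝ := 2 * (q - 2) - 2 * δ with hθ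
  have hδ1 : δ ≤ (q - 3) / 4 := min_le_left _ _
  have hδ2 : δ ≤ D / (2 * p) := min_le_right _ _
  have hθ0 : 0 < θ := by linarith
  set s1 : ℝ := ε + (ε + 2) * (q / 2) with hs1
  set s2 : ℝ := ε + 2 * s1 with hs2
  have hneg : s2 - p * θ < 0 := by
    have e1 : p * δ ≤ D / 2 := by
      calc p * δ ≤ p * (D / (2 * p)) := by gcongr
        _ = D / 2 := by field_simp
    have e2 : ε * (3 + q) = D / 2 := by
      rw [hε]
      have : 3 + q ≠ 0 := by linarith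
      field_simp
    have e3 : s2 - p * θ = ε * (3 + q) + 2 * (p * δ) - 2 * D := by
      rw [hs2, hs1, hθ, hD]
      ring
    rw [e3, e2]
    linarith
  set C3 : ℝ≥0∞ := (C1 : ℝ≥0∞) ^ (q / 2) * C2 with hC3
  have hC3t : C3 ≠ ∞ := ENNReal.mul_ne_top
    (ENNReal.rpow_ne_top_of_nonneg (by linarith) ENNReal.coe_ne_top) ENNReal.coe_ne_top
  set T : ℝ≥0∞ := C3 ^ 2 * C1 * (C0 * ((2 : ℝ≥0∞) ^ p) ^ θ * ∑' k : ℕ,
    (2 : ℝ≥0∞) ^ ((s2 - p * θ) * (k : ℝ))) with hT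
  have hTt : T ≠ ∞ := by
    apply ENNReal.mul_ne_top
    · exact ENNReal.mul_ne_top (ENNReal.pow_ne_top hC3t) ENNReal.coe_ne_top
    · apply ENNReal.mul_ne_top _ (tsum_two_ne_top _ hneg)
      apply ENNReal.mul_ne_top ENNReal.coe_ne_top
      exact ENNReal.rpow_ne_top_of_nonneg hθ0.le
        (ENNReal.rpow_ne_top_of_nonneg hp0.le (by norm_num))
  refine ⟨T.toNNReal, ?_⟩
  intro Λ _ ν _ a ha hz hN
  rw [ENNReal.coe_toNNReal hTt]
  have hfin : ∀ᵐ u : ℝ, N2 ν a u < ∞ := by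
    have h1 : ∀ᵐ u ∂(volume.restrict (Icc (-(1 / 2) : ℝ) (1 / 2))), N2 ν a u ^ (p / 2) < ∞ := by
      apply ae_lt_top ((N2_meas ν a ha).pow_const _)
      exact ne_top_of_le_ne_top ENNReal.one_ne_top hN
    rw [ae_restrict_iff' measurableSet_Icc] at h1
    filter_upwards [h1] with u hu
    by_cases h : u ∈ Icc (-(1 / 2) : ℝ) (1 / 2)
    · have h2 := hu h
      by_contra hc
      have : N2 ν a u = ∞ := by
        simpa using hc
      rw [this, ENNReal.top_rpow_of_pos (by positivity)] at h2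
      exact absurd h2 (lt_irrefl _)
    · rw [N2_zero ν a (Icc (-(1 / 2) : ℝ) (1 / 2)) hz u h]
      exact ENNReal.zero_lt_top
  set B : ℕ → ℝ → ℝ≥0∞ := fun k t => ∫⁻ x, M2 ν (pc ν a k) x t ^ (q / 2) with hB
  have hMm : ∀ k, Measurable (fun w : ℝ × ℝ => M2 ν (pc ν a k) w.1 w.2 ^ (q / 2)) := fun k =>
    (M2_meas ν _ (pc_meas ν a ha k)).pow_const _
  have hMx : ∀ k t, Measurable (fun x => M2 ν (pc ν a k) x t ^ (q / 2)) := fun k t =>
    (M2_meas_x ν _ (pc_meas ν a ha k) t).pow_const _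
  have hBm : ∀ k, Measurable (B k) := by
    intro k
    exact Measurable.lintegral_prod_left' (hMm k)
  -- step B
  have hstB : ∀ x t, M2 ν a x t ^ (q / 2) ≤ C3 * ∑' k : ℕ, (2 : ℝ≥0∞) ^ (s1 * (k : ℝ)) *
      M2 ν (pc ν a k) x t ^ (q / 2) := by
    intro x t
    calc M2 ν a x t ^ (q / 2) ≤ (C1 * ∑' k : ℕ, (2 : ℝ≥0∞) ^ ((ε + 2) * (k : ℝ)) *
            M2 ν (pc ν a k) x t) ^ (q / 2) := by
          apply ENNReal.rpow_le_rpow _ (by linarith)
          exact M2_le_sum ν a ha hz hfin C1 ε hC1 x t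
      _ = C1 ^ (q / 2) * (∑' k : ℕ, (2 : ℝ≥0∞) ^ ((ε + 2) * (k : ℝ)) *
            M2 ν (pc ν a k) x t) ^ (q / 2) := ENNReal.mul_rpow_of_nonneg _ _ (by linarith)
      _ ≤ C1 ^ (q / 2) * (C2 * ∑' k : ℕ, (2 : ℝ≥0∞) ^ (ε * (k : ℝ)) *
        ((2 : ℝ≥0∞) ^ ((ε + 2) * (k : ℝ)) * M2 ν (pc ν a k) x t) ^ (q / 2)) := by
          gcongr
          exact hC2 _
      _ = _ := by
          rw [hC3, mul_assoc]
          congr 3
          ext k
          rw [ENNReal.mul_rpow_of_nonneg _ _ (by linarith), ← ENNReal.rpow_mul, ← mul_assoc,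
            ← two_add]
          congr 2
          rw [hs1]
          ring
  -- step C
  have hstC : ∀ t, ∫⁻ x, M2 ν a x t ^ (q / 2) ≤ C3 * ∑' k : ℕ, (2 : ℝ≥0∞) ^ (s1 * (k : ℝ)) *
      B k t := by
    intro t
    calc ∫⁻ x, M2 ν a x t ^ (q / 2) ≤ ∫⁻ x, C3 * ∑' k : ℕ, (2 : ℝ≥0∞) ^ (s1 * (k : ℝ)) *
            M2 ν (pc ν a k) x t ^ (q / 2) := lintegral_mono fun x => hstB x t
      _ = _ := by
        rw [lintegral_const_mul' _ _ hC3t, lintegral_tsum]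
        · congr 2
          ext k
          rw [lintegral_const_mul _ (hMx k t)]
        · intro k
          exact ((hMx k t).const_mul _).aemeasurable
  -- step D
  have hstD : ∀ t, (∫⁻ x, M2 ν a x t ^ (q / 2)) ^ 2 ≤ C3 ^ 2 * C1 * ∑' k : ℕ,
      (2 : ℝ≥0∞) ^ (s2 * (k : ℝ)) * B k t ^ 2 := by
    intro t
    calc (∫⁻ x, M2 ν a x t ^ (q / 2)) ^ 2 ≤ (C3 * ∑' k : ℕ, (2 : ℝ≥0∞) ^ (s1 * (k : ℝ)) *
      B k t) ^ 2 := by
          have := hstC t
          gcongr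
      _ = C3 ^ 2 * (∑' k : ℕ, (2 : ℝ≥0∞) ^ (s1 * (k : ℝ)) * B k t) ^ 2 := mul_pow _ _ _
      _ ≤ C3 ^ 2 * (C1 * ∑' k : ℕ, (2 : ℝ≥0∞) ^ (ε * (k : ℝ)) *
            ((2 : ℝ≥0∞) ^ (s1 * (k : ℝ)) * B k t) ^ 2) := by
          gcongr
          exact hC1 _
      _ = _ := by
          rw [← mul_assoc]
          congr 2
          ext k
          rw [mul_pow, ← mul_assoc, ← ENNReal.rpow_natCast ((2 : ℝ≥0∞) ^ (s1 * (k : ℝ))),
            ← ENNReal.rpow_mul, ← two_add]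
          congr 2
          rw [hs2]
          push_cast
          ring
  calc ∫⁻ t, (∫⁻ x, M2 ν a x t ^ (q / 2)) ^ 2 ≤ ∫⁻ t, C3 ^ 2 * C1 * ∑' k : ℕ,
      (2 : ℝ≥0∞) ^ (s2 * (k : ℝ)) * B k t ^ 2 := lintegral_mono hstD
    _ = C3 ^ 2 * C1 * ∑' k : ℕ, (2 : ℝ≥0∞) ^ (s2 * (k : ℝ)) * ∫⁻ t, B k t ^ 2 := by
        rw [lintegral_const_mul' _ _ (ENNReal.mul_ne_top (ENNReal.pow_ne_top hC3t)
          ENNReal.coe_ne_top), lintegral_tsum]
        · congr 2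
          ext k
          rw [lintegral_const_mul _ ((hBm k).pow_const 2)]
        · intro k
          exact (((hBm k).pow_const 2).const_mul _).aemeasurable
    _ ≤ C3 ^ 2 * C1 * ∑' k : ℕ, (2 : ℝ≥0∞) ^ (s2 * (k : ℝ)) *
          (C0 * ((2 : ℝ≥0∞) ^ p * 2 ^ (-p * (k : ℝ))) ^ θ) := by
        gcongr with k
        refine (hC0 Λ ν (pc ν a k) (pc_meas ν a ha k) (Ly ν a k) (Ly_meas ν a ha k)
          (Ly_sub ν a k) (fun u hu l => pc_zero ν a k u hu l) (pc_N2 ν a ha k)).trans ?_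
        gcongr
        exact Ly_vol ν a ha p hp0 hN k
    _ = T := by
        rw [hT]
        congr 1
        rw [← ENNReal.tsum_mul_left]
        congr 1
        ext k
        rw [ENNReal.mul_rpow_of_nonneg _ _ hθ0.le, ← ENNReal.rpow_mul (2 : ℝ≥0∞) (-p * (k : ℝ)) θ]
        have : (s2 - p * θ) * (k : ℝ) = s2 * (k : ℝ) + -p * (k : ℝ) * θ := by ring
        rw [this, two_add]
        ring

end Pool.Agent.W771
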