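import Mathlib
import Pool.Agent.W771.Layer
set_option autoImplicit false

/-! The extension operator of the paraboloid in `ℝ³` and the base estimate. -/

namespace Pool.Agent.W771

open MeasureTheory Set Complex
open scoped ENNReal NNReal FourierTransform ComplexConjugate

/-- the unit interval `[-1/2,1/2]` -/
abbrev II : Set ℝ := Icc (-(1 / 2) : ℝ) (1 / 2)

lemma vol_II : volume II = 1 := by
  rw [Real.volume_Icc]
  norm_num

/-- the extension operator -/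
noncomputable def EE (H : ℝ × ℝ → ℂ) (x y t : ℝ) : ℂ :=
  ∫ w : ℝ × ℝ, H w * (ph x t w.1 * ph y t w.2)

lemma EE_meas (H : ℝ × ℝ → ℂ) (hH : Measurable H) :
    Measurable (fun z : ℝ × ℝ × ℝ => EE H z.1 z.2.1 z.2.2) := by
  unfold EE
  apply StronglyMeasurable.measurable
  apply StronglyMeasurable.integral_prod_right'
    (f := fun w : (ℝ × ℝ × ℝ) × (ℝ × ℝ) => H w.2 * (ph w.1.1 w.1.2.2 w.2.1 *
      ph w.1.2.1 w.1.2.2 w.2.2))
  apply Measurable.stronglyMeasurable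
  apply Measurable.mul
  · exact hH.comp measurable_snd
  · apply Continuous.measurable
    unfold ph
    fun_prop

lemma EE_sup (H : ℝ × ℝ → ℂ) (x y t : ℝ) : ‖EE H x y t‖ₑ ≤ ∫⁻ w, ‖H w‖ₑ := by
  unfold EE
  refine (enorm_integral_le_lintegral_enorm _).trans (le_of_eq ?_)
  congr 1
  ext w
  rw [enorm_mul, enorm_mul, ph_enorm, ph_enorm, mul_one, mul_one]

/-- the function with values `∫ a(u,l) b(v,l) dν(l)` -/
noncomputable def FF {Λ : Type} [MeasurableSpace Λ] (ν : Measure Λ) (a b : ℝ → Λ → ℂ)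
    (w : ℝ × ℝ) : ℂ := ∫ l, a w.1 l * b w.2 l ∂ν

/-- the extension estimate with the multiplier `m` -/
def Good (m : ℝ × ℝ → ℂ) (q p : ℝ) (C : ℝ≥0) : Prop :=
  ∀ (Λ : Type) [MeasurableSpace Λ] (ν : Measure Λ) [SFinite ν] (a b : ℝ → Λ → ℂ),
    Measurable (Function.uncurry a) → Measurable (Function.uncurry b) →
    (∀ u, u ∉ II → ∀ l, a u l = 0) → (∀ u, u ∉ II → ∀ l, b u l = 0) →
    (∫⁻ u in II, N2 ν a u ^ (p / 2) ≤ 1) → (∫⁻ u in II, N2 ν b u ^ (p / 2) ≤ 1) →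
    ∫⁻ t, ∫⁻ x, ∫⁻ y, ‖EE (fun w => FF ν a b w * m w) x y t‖ₑ ^ q ≤ C

section
variable {Λ : Type} [MeasurableSpace Λ] (ν : Measure Λ) (a b : ℝ → Λ → ℂ)
  (ha : Measurable (Function.uncurry a)) (hb : Measurable (Function.uncurry b))
include ha hb

lemma ab_meas : Measurable (fun w : (ℝ × ℝ) × Λ => a w.1.1 w.2 * b w.1.2 w.2) := by
  have h1 : Measurable (fun w : (ℝ × ℝ) × Λ => a w.1.1 w.2) :=
    ha.comp (by fun_prop : Measurable fun w : (ℝ × ℝ) × Λ => (w.1.1, w.2))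
  have h2 : Measurable (fun w : (ℝ × ℝ) × Λ => b w.1.2 w.2) :=
    hb.comp (by fun_prop : Measurable fun w : (ℝ × ℝ) × Λ => (w.1.2, w.2))
  exact h1.mul h2

lemma FF_meas [SFinite ν] : Measurable (FF ν a b) := by
  unfold FF
  apply StronglyMeasurable.measurable
  apply StronglyMeasurable.integral_prod_right'
    (f := fun w : (ℝ × ℝ) × Λ => a w.1.1 w.2 * b w.1.2 w.2)
  exact (ab_meas a b ha hb).stronglyMeasurable

lemma cs_ab (u v : ℝ) : ∫⁻ l, ‖a u l‖ₑ * ‖b v l‖ₑ ∂ν ≤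
    (N2 ν a u) ^ (1 / 2 : ℝ) * (N2 ν b v) ^ (1 / 2 : ℝ) := by
  have h := ENNReal.lintegral_mul_le_Lp_mul_Lq ν Real.HolderConjugate.two_two
    (f := fun l => ‖a u l‖ₑ) (g := fun l => ‖b v l‖ₑ)
    (a_meas_l a ha u).enorm.aemeasurable (a_meas_l b hb v).enorm.aemeasurable
  simpa [N2] using h

lemma FF_bound (w : ℝ × ℝ) : ‖FF ν a b w‖ₑ ≤
    (N2 ν a w.1) ^ (1 / 2 : ℝ) * (N2 ν b w.2) ^ (1 / 2 : ℝ) := by
  unfold FF
  refine (enorm_integral_le_lintegral_enorm _).trans ?_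
  simp only [enorm_mul]
  exact cs_ab ν a b ha hb _ _

end

lemma jensen (N : ℝ → ℝ≥0∞) (hN : Measurable N) (s p : ℝ) (hs : 0 < s) (hsp : s ≤ p)
    (h : ∫⁻ u in II, N u ^ p ≤ 1) : ∫⁻ u in II, N u ^ s ≤ 1 := by
  have : IsProbabilityMeasure (volume.restrict II) :=
    ⟨by rw [Measure.restrict_apply_univ, vol_II]⟩
  have h1 := eLpNorm'_le_eLpNorm'_of_exponent_le (f := N) hs hsp (volume.restrict II)
    hN.aestronglyMeasurable
  unfold eLpNorm' at h1
  simp only [enorm_eq_self] at h1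
  have h2 : (∫⁻ u in II, N u ^ s) ^ (1 / s) ≤ 1 :=
    h1.trans (ENNReal.rpow_le_one h (one_div_nonneg.mpr (hs.le.trans hsp)))
  calc ∫⁻ u in II, N u ^ s = ((∫⁻ u in II, N u ^ s) ^ (1 / s)) ^ s := by
        rw [← ENNReal.rpow_mul, one_div_mul_cancel hs.ne', ENNReal.rpow_one]
    _ ≤ 1 := ENNReal.rpow_le_one h2 hs.le

section
variable {Λ : Type} [MeasurableSpace Λ] (ν : Measure Λ) [SFinite ν] (a b : ℝ → Λ → ℂ)
  (ha : Measurable (Function.uncurry a)) (hb : Measurable (Function.uncurry b))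
  (hza : ∀ u, u ∉ II → ∀ l, a u l = 0) (hzb : ∀ u, u ∉ II → ∀ l, b u l = 0)

include ha hza in
lemma N2_s (p s : ℝ) (hs : 0 < s) (hsp : 2 * s ≤ p) (hN : ∫⁻ u in II, N2 ν a u ^ (p / 2) ≤ 1) :
    ∫⁻ u, N2 ν a u ^ s ≤ 1 := by
  have h1 := jensen (N2 ν a) (N2_meas ν a ha) s (p / 2) hs (by linarith) hN
  have h2 : ∫⁻ u, N2 ν a u ^ s = ∫⁻ u in II, N2 ν a u ^ s := by
    rw [← lintegral_indicator measurableSet_Icc]
    congr 1
    ext u
    by_cases hu : u ∈ II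
    · rw [indicator_of_mem hu]
    · rw [indicator_of_notMem hu, N2_zero ν a II hza u hu, ENNReal.zero_rpow_of_pos hs]
  rw [h2]
  exact h1

include ha hb hza hzb in
lemma EE_one (p : ℝ) (hp : 1 ≤ p) (hNa : ∫⁻ u in II, N2 ν a u ^ (p / 2) ≤ 1)
    (hNb : ∫⁻ u in II, N2 ν b u ^ (p / 2) ≤ 1) (x y t : ℝ) :
    ‖EE (FF ν a b) x y t‖ₑ ≤ M2 ν a x t ^ (1 / 2 : ℝ) * M2 ν b y t ^ (1 / 2 : ℝ) := by
  set G : ℝ × ℝ → Λ → ℂ := fun w l => (a w.1 l * ph x t w.1) * (b w.2 l * ph y t w.2) with hG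
  have hph : ∀ x t : ℝ, Measurable (fun u => ph x t u) := by
    intro x t
    apply Continuous.measurable
    unfold ph
    fun_prop
  have hGm : Measurable (Function.uncurry G) := by
    have h1 : Measurable (fun w : (ℝ × ℝ) × Λ => a w.1.1 w.2 * ph x t w.1.1) :=
      (ha.comp (by fun_prop : Measurable fun w : (ℝ × ℝ) × Λ => (w.1.1, w.2))).mul
        ((hph x t).comp (by fun_prop))
    have h2 : Measurable (fun w : (ℝ × ℝ) × Λ => b w.1.2 w.2 * ph y t w.1.2) :=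
      (hb.comp (by fun_prop : Measurable fun w : (ℝ × ℝ) × Λ => (w.1.2, w.2))).mul
        ((hph y t).comp (by fun_prop))
    exact h1.mul h2
  have hGint : Integrable (Function.uncurry G) (volume.prod ν) := by
    refine ⟨hGm.aestronglyMeasurable, ?_⟩
    unfold HasFiniteIntegral
    rw [lintegral_prod _ hGm.enorm.aemeasurable]
    have e1 : ∀ w : ℝ × ℝ, ∫⁻ l, ‖Function.uncurry G (w, l)‖ₑ ∂ν ≤
        (N2 ν a w.1) ^ (1 / 2 : ℝ) * (N2 ν b w.2) ^ (1 / 2 : ℝ) := by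
      intro w
      refine le_trans (le_of_eq ?_) (cs_ab ν a b ha hb _ _)
      congr 1
      ext l
      simp only [Function.uncurry, hG]
      rw [enorm_mul, enorm_mul, enorm_mul, ph_enorm, ph_enorm, mul_one, mul_one]
    calc ∫⁻ w, ∫⁻ l, ‖Function.uncurry G (w, l)‖ₑ ∂ν ≤ ∫⁻ w : ℝ × ℝ,
          (N2 ν a w.1) ^ (1 / 2 : ℝ) * (N2 ν b w.2) ^ (1 / 2 : ℝ) := lintegral_mono e1
      _ = (∫⁻ u, (N2 ν a u) ^ (1 / 2 : ℝ)) * ∫⁻ v, (N2 ν b v) ^ (1 / 2 : ℝ) := by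
          rw [Measure.volume_eq_prod, lintegral_prod_mul
            ((N2_meas ν a ha).pow_const _).aemeasurable
            ((N2_meas ν b hb).pow_const _).aemeasurable]
      _ ≤ 1 * 1 := by
          gcongr
          · exact N2_s ν a ha hza p (1 / 2) (by norm_num) (by linarith) hNa
          · exact N2_s ν b hb hzb p (1 / 2) (by norm_num) (by linarith) hNb
      _ < ∞ := by norm_num
  have e2 : EE (FF ν a b) x y t = ∫ l, E1 a x t l * E1 b y t l ∂ν := by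
    unfold EE FF E1
    have e3 : ∀ w : ℝ × ℝ, (∫ l, a w.1 l * b w.2 l ∂ν) * (ph x t w.1 * ph y t w.2) =
        ∫ l, G w l ∂ν := by
      intro w
      rw [← integral_mul_const]
      congr 1
      ext l
      simp only [hG]
      ring
    simp only [e3]
    rw [integral_integral_swap hGint]
    congr 1
    ext l
    rw [← integral_prod_mul, ← Measure.volume_eq_prod]
  rw [e2]
  refine (enorm_integral_le_lintegral_enorm _).trans ?_
  simp only [enorm_mul]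
  have hm : ∀ (c : ℝ → Λ → ℂ), Measurable (Function.uncurry c) → ∀ x t : ℝ,
      Measurable (fun l => ‖E1 c x t l‖ₑ) := by
    intro c hc x t
    have h := E1_meas c hc
    have h2 : Measurable (fun l : Λ => (((x, t) : ℝ × ℝ), l)) := measurable_const.prodMk measurable_id
    have h3 := Measurable.comp h h2
    exact h3.enorm
  have h := ENNReal.lintegral_mul_le_Lp_mul_Lq ν Real.HolderConjugate.two_two
    (f := fun l => ‖E1 a x t l‖ₑ) (g := fun l => ‖E1 b y t l‖ₑ)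
    (hm a ha x t).aemeasurable (hm b hb y t).aemeasurable
  simpa [M2] using h

end

/-- **the base estimate** -/
theorem good_one (q p : ℝ) (hq : 3 < q) (hp1 : 1 ≤ p) (hp : q < p * (q - 2)) :
    ∃ C : ℝ≥0, Good (fun _ => 1) q p C := by
  obtain ⟨C, hC⟩ := oneVar q p hq (by linarith) hp
  refine ⟨C, ?_⟩
  intro Λ _ ν _ a b ha hb hza hzb hNa hNb
  have h1 : ∀ x y t, ‖EE (fun w => FF ν a b w * 1) x y t‖ₑ ^ q ≤
      M2 ν a x t ^ (q / 2) * M2 ν b y t ^ (q / 2) := by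
    intro x y t
    simp only [mul_one]
    calc ‖EE (FF ν a b) x y t‖ₑ ^ q ≤
        (M2 ν a x t ^ (1 / 2 : ℝ) * M2 ν b y t ^ (1 / 2 : ℝ)) ^ q := by
          apply ENNReal.rpow_le_rpow _ (by linarith)
          exact EE_one ν a b ha hb hza hzb p hp1 hNa hNb x y t
      _ = _ := by
          rw [ENNReal.mul_rpow_of_nonneg _ _ (by linarith), ← ENNReal.rpow_mul,
            ← ENNReal.rpow_mul]
          congr 2 <;> ring
  set Ba : ℝ → ℝ≥0∞ := fun t => ∫⁻ x, M2 ν a x t ^ (q / 2) with hBa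
  set Bb : ℝ → ℝ≥0∞ := fun t => ∫⁻ x, M2 ν b x t ^ (q / 2) with hBb
  have hBam : Measurable Ba := by
    have hM : Measurable (fun w : ℝ × ℝ => M2 ν a w.1 w.2 ^ (q / 2)) :=
      (M2_meas ν a ha).pow_const _
    exact Measurable.lintegral_prod_left' hM
  have hBbm : Measurable Bb := by
    have hM : Measurable (fun w : ℝ × ℝ => M2 ν b w.1 w.2 ^ (q / 2)) :=
      (M2_meas ν b hb).pow_const _
    exact Measurable.lintegral_prod_left' hM
  have h2 : ∀ t, ∫⁻ x, ∫⁻ y, ‖EE (fun w => FF ν a b w * 1) x y t‖ₑ ^ q ≤ Ba t * Bb t := by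
    intro t
    calc ∫⁻ x, ∫⁻ y, ‖EE (fun w => FF ν a b w * 1) x y t‖ₑ ^ q ≤
        ∫⁻ x, ∫⁻ y, M2 ν a x t ^ (q / 2) * M2 ν b y t ^ (q / 2) :=
          lintegral_mono fun x => lintegral_mono fun y => h1 x y t
      _ = _ := by
          have h3 : ∀ x, ∫⁻ y, M2 ν a x t ^ (q / 2) * M2 ν b y t ^ (q / 2) =
              M2 ν a x t ^ (q / 2) * Bb t := by
            intro x
            rw [lintegral_const_mul _ ((M2_meas_x ν b hb t).pow_const _)]
          simp only [h3]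
          rw [lintegral_mul_const _ ((M2_meas_x ν a ha t).pow_const _)]
  have h4 := hC Λ ν a ha hza hNa
  have h5 := hC Λ ν b hb hzb hNb
  calc ∫⁻ t, ∫⁻ x, ∫⁻ y, ‖EE (fun w => FF ν a b w * 1) x y t‖ₑ ^ q ≤
      ∫⁻ t, (Ba * Bb) t := lintegral_mono h2
    _ ≤ (∫⁻ t, Ba t ^ (2 : ℝ)) ^ (1 / 2 : ℝ) * (∫⁻ t, Bb t ^ (2 : ℝ)) ^ (1 / 2 : ℝ) :=
        ENNReal.lintegral_mul_le_Lp_mul_Lq volume Real.HolderConjugate.two_two
          hBam.aemeasurable hBbm.aemeasurable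
    _ ≤ (C : ℝ≥0∞) ^ (1 / 2 : ℝ) * (C : ℝ≥0∞) ^ (1 / 2 : ℝ) := by
        simp only [ENNReal.rpow_ofNat]
        gcongr
    _ = C := by
        rw [← ENNReal.rpow_add_of_nonneg _ _ (by norm_num) (by norm_num)]
        norm_num

end Pool.Agent.W771
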