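import Mathlib
import Pool.Agent.W771.Base
set_option autoImplicit false

/-! Multiplying by functions which are limits of functions with good factorisations. -/

namespace Pool.Agent.W771

open MeasureTheory Set Complex
open scoped ENNReal NNReal FourierTransform ComplexConjugate

section
variable {Λ : Type} [MeasurableSpace Λ] (ν : Measure Λ) [SFinite ν] (a b : ℝ → Λ → ℂ)
  (ha : Measurable (Function.uncurry a)) (hb : Measurable (Function.uncurry b))
  (hza : ∀ u, u ∉ II → ∀ l, a u l = 0) (hzb : ∀ u, u ∉ II → ∀ l, b u l = 0)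
  (p : ℝ) (hp : 2 ≤ p) (hNa : ∫⁻ u in II, N2 ν a u ^ (p / 2) ≤ 1)
  (hNb : ∫⁻ u in II, N2 ν b u ^ (p / 2) ≤ 1)

include ha hb hza hzb hp hNa hNb in
/-- the bound of the `L¹` norm -/
lemma L1_bound (m H : ℝ × ℝ → ℂ) (hmb : ∀ w, ‖m w‖ ≤ 1) (hH : Measurable H) (κ : ℝ≥0∞)
    (hκ : ∀ u ∈ II, ∫⁻ v in II, ‖H (u, v)‖ₑ ^ 2 ≤ κ) :
    ∫⁻ w, ‖FF ν a b w * m w * H w‖ₑ ≤ κ ^ (1 / 2 : ℝ) := by
  have hmb' : ∀ w, ‖m w‖ₑ ≤ 1 := by
    intro w
    rw [← ofReal_norm]
    exact ENNReal.ofReal_le_one.mpr (hmb w)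
  have hb0 := N2_meas ν b hb
  have ha0 := N2_meas ν a ha
  have h1 : ∀ u, ∫⁻ v, (N2 ν b v) ^ (1 / 2 : ℝ) * ‖H (u, v)‖ₑ ≤ 1 * (if u ∈ II then κ ^ (1 / 2 : ℝ) else ∞) := by
    intro u
    split_ifs with hu
    · have e1 : ∫⁻ v, (N2 ν b v) ^ (1 / 2 : ℝ) * ‖H (u, v)‖ₑ =
          ∫⁻ v in II, (N2 ν b v) ^ (1 / 2 : ℝ) * ‖H (u, v)‖ₑ := by
        rw [← lintegral_indicator measurableSet_Icc]
        congr 1
        ext v
        by_cases hv : v ∈ II
        · rw [indicator_of_mem hv]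
        · rw [indicator_of_notMem hv, N2_zero ν b II hzb v hv,
            ENNReal.zero_rpow_of_pos (by norm_num), zero_mul]
      rw [e1]
      have hHm : Measurable (fun v => ‖H (u, v)‖ₑ) := by
        have : Measurable (fun v : ℝ => (u, v)) := measurable_const.prodMk measurable_id
        exact (hH.comp this).enorm
      have h := ENNReal.lintegral_mul_le_Lp_mul_Lq (volume.restrict II)
        Real.HolderConjugate.two_two (f := fun v => (N2 ν b v) ^ (1 / 2 : ℝ))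
        (g := fun v => ‖H (u, v)‖ₑ) (hb0.pow_const _).aemeasurable hHm.aemeasurable
      refine h.trans ?_
      gcongr
      · have h2 := jensen (N2 ν b) hb0 1 (p / 2) one_pos (by linarith) hNb
        simp only [ENNReal.rpow_one] at h2
        have e2 : ∀ v, (N2 ν b v ^ (1 / 2 : ℝ)) ^ (2 : ℝ) = N2 ν b v := by
          intro v
          rw [← ENNReal.rpow_mul]
          norm_num
        simp only [e2]
        exact ENNReal.rpow_le_one h2 (by norm_num)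
      · have := hκ u hu
        simpa only [ENNReal.rpow_ofNat] using this
    · rw [one_mul]
      exact le_top
  calc ∫⁻ w, ‖FF ν a b w * m w * H w‖ₑ ≤ ∫⁻ w : ℝ × ℝ, (N2 ν a w.1) ^ (1 / 2 : ℝ) *
        ((N2 ν b w.2) ^ (1 / 2 : ℝ) * ‖H w‖ₑ) := by
        apply lintegral_mono
        intro w
        simp only
        rw [enorm_mul, enorm_mul, ← mul_assoc]
        refine mul_le_mul' ?_ le_rfl
        calc ‖FF ν a b w‖ₑ * ‖m w‖ₑ ≤ ‖FF ν a b w‖ₑ * 1 := by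
              gcongr
              exact hmb' w
          _ ≤ _ := by
              rw [mul_one]
              exact FF_bound ν a b ha hb w
    _ = ∫⁻ u, ∫⁻ v, (N2 ν a u) ^ (1 / 2 : ℝ) * ((N2 ν b v) ^ (1 / 2 : ℝ) * ‖H (u, v)‖ₑ) := by
        rw [Measure.volume_eq_prod, lintegral_prod]
        apply Measurable.aemeasurable
        have h2 : Measurable (fun w : ℝ × ℝ => (N2 ν a w.1) ^ (1 / 2 : ℝ)) := by
          have := Measurable.comp ha0 (measurable_fst : Measurable (Prod.fst : ℝ × ℝ → ℝ))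
          exact this.pow_const _
        have h3 : Measurable (fun w : ℝ × ℝ => (N2 ν b w.2) ^ (1 / 2 : ℝ)) := by
          have := Measurable.comp hb0 (measurable_snd : Measurable (Prod.snd : ℝ × ℝ → ℝ))
          exact this.pow_const _
        exact h2.mul (h3.mul hH.enorm)
    _ ≤ ∫⁻ u, (N2 ν a u) ^ (1 / 2 : ℝ) * κ ^ (1 / 2 : ℝ) := by
        apply lintegral_mono
        intro u
        simp only
        have hm4 : Measurable (fun v => (N2 ν b v) ^ (1 / 2 : ℝ) * ‖H (u, v)‖ₑ) := by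
          have : Measurable (fun v : ℝ => (u, v)) := measurable_const.prodMk measurable_id
          exact (hb0.pow_const _).mul (hH.comp this).enorm
        rw [lintegral_const_mul _ hm4]
        by_cases hu : u ∈ II
        · have := h1 u
          rw [if_pos hu, one_mul] at this
          gcongr
        · rw [N2_zero ν a II hza u hu, ENNReal.zero_rpow_of_pos (by norm_num), zero_mul,
            zero_mul]
    _ = (∫⁻ u, (N2 ν a u) ^ (1 / 2 : ℝ)) * κ ^ (1 / 2 : ℝ) := by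
        rw [lintegral_mul_const _ (ha0.pow_const _)]
    _ ≤ 1 * κ ^ (1 / 2 : ℝ) := by
        gcongr
        exact N2_s ν a ha hza p (1 / 2) (by norm_num) (by linarith) hNa
    _ = _ := one_mul _

end

/-- tensor product of vector valued functions -/
def tens {Λ Ω : Type} (c : ℂ) (a : ℝ → Λ → ℂ) (α : ℝ → Ω → ℂ) (u : ℝ) (z : Λ × Ω) : ℂ :=
  c * (a u z.1 * α u z.2)

lemma tens_meas {Λ Ω : Type} [MeasurableSpace Λ] [MeasurableSpace Ω] (c : ℂ) (a : ℝ → Λ → ℂ)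
    (α : ℝ → Ω → ℂ) (ha : Measurable (Function.uncurry a)) (hα : Measurable (Function.uncurry α)) :
    Measurable (Function.uncurry (tens c a α)) := by
  have h1 : Measurable (fun w : ℝ × (Λ × Ω) => a w.1 w.2.1) := by
    have h : Measurable (fun w : ℝ × (Λ × Ω) => (w.1, w.2.1)) :=
      measurable_fst.prodMk (measurable_fst.comp measurable_snd)
    exact ha.comp h
  have h2 : Measurable (fun w : ℝ × (Λ × Ω) => α w.1 w.2.2) := by
    have h : Measurable (fun w : ℝ × (Λ × Ω) => (w.1, w.2.2)) :=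
      measurable_fst.prodMk (measurable_snd.comp measurable_snd)
    exact hα.comp h
  exact (h1.mul h2).const_mul c

lemma tens_N2 {Λ Ω : Type} [MeasurableSpace Λ] [MeasurableSpace Ω] (ν : Measure Λ) (μ : Measure Ω)
    [SFinite ν] [SFinite μ] (c : ℂ) (a : ℝ → Λ → ℂ) (α : ℝ → Ω → ℂ)
    (ha : Measurable (Function.uncurry a)) (hα : Measurable (Function.uncurry α)) (u : ℝ) :
    N2 (ν.prod μ) (tens c a α) u = ‖c‖ₑ ^ 2 * (N2 ν a u * N2 μ α u) := by
  unfold N2 tens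
  have h1 := (a_meas_l a ha u).enorm.pow_const 2
  have h2 := (a_meas_l α hα u).enorm.pow_const 2
  rw [← lintegral_prod_mul h1.aemeasurable h2.aemeasurable, ← lintegral_const_mul']
  · congr 1
    ext z
    rw [enorm_mul, enorm_mul]
    ring
  · exact ENNReal.pow_ne_top enorm_ne_top

lemma tens_FF {Λ Ω : Type} [MeasurableSpace Λ] [MeasurableSpace Ω] (ν : Measure Λ) (μ : Measure Ω)
    [SFinite ν] [SFinite μ] (c : ℂ) (a b : ℝ → Λ → ℂ) (α β : ℝ → Ω → ℂ) (w : ℝ × ℝ) :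
    FF (ν.prod μ) (tens c a α) (tens 1 b β) w = c * (FF ν a b w * FF μ α β w) := by
  unfold FF tens
  rw [← integral_prod_mul, ← integral_const_mul]
  congr 1
  ext z
  ring

lemma meas_sec (f : ℝ × ℝ × ℝ → ℝ≥0∞) (hf : Measurable f) (x t : ℝ) :
    Measurable (fun y => f (x, y, t)) := by
  have h : Measurable (fun y : ℝ => (x, y, t)) :=
    measurable_const.prodMk (measurable_id.prodMk measurable_const)
  exact hf.comp h

lemma meas_sec2 (f : ℝ × ℝ × ℝ → ℝ≥0∞) (hf : Measurable f) (t : ℝ) :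
    Measurable (fun x => ∫⁻ y, f (x, y, t)) := by
  have h : Measurable (fun w : ℝ × ℝ => (w.1, w.2, t)) :=
    measurable_fst.prodMk (measurable_snd.prodMk measurable_const)
  have h2 : Measurable (fun w : ℝ × ℝ => f (w.1, w.2, t)) := hf.comp h
  exact Measurable.lintegral_prod_right' h2

lemma meas_sec3 (f : ℝ × ℝ × ℝ → ℝ≥0∞) (hf : Measurable f) :
    Measurable (fun t => ∫⁻ x, ∫⁻ y, f (x, y, t)) := by
  have h : Measurable (fun w : (ℝ × ℝ) × ℝ => (w.1.2, w.2, w.1.1)) :=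
    (measurable_snd.comp measurable_fst).prodMk (measurable_snd.prodMk
      (measurable_fst.comp measurable_fst))
  have h2 : Measurable (fun w : (ℝ × ℝ) × ℝ => f (w.1.2, w.2, w.1.1)) := hf.comp h
  have h3 : Measurable (fun w : ℝ × ℝ => ∫⁻ y, f (w.2, y, w.1)) :=
    Measurable.lintegral_prod_right' h2
  exact Measurable.lintegral_prod_right' h3

lemma lint3 (X : ℕ → ℝ → ℝ → ℝ → ℝ≥0∞)
    (hX : ∀ j, Measurable (fun z : ℝ × ℝ × ℝ => X j z.1 z.2.1 z.2.2)) (q : ℝ) (C : ℝ≥0)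
    (c : ℕ → ℝ≥0∞) :
    ∫⁻ t, ∫⁻ x, ∫⁻ y, C * ∑' j : ℕ, c j * X j x y t ^ q =
      C * ∑' j : ℕ, c j * ∫⁻ t, ∫⁻ x, ∫⁻ y, X j x y t ^ q := by
  have hXq : ∀ j, Measurable (fun z : ℝ × ℝ × ℝ => X j z.1 z.2.1 z.2.2 ^ q) := fun j =>
    (hX j).pow_const q
  have h1 : ∀ x t, ∫⁻ y, ∑' j : ℕ, c j * X j x y t ^ q =
      ∑' j : ℕ, c j * ∫⁻ y, X j x y t ^ q := by
    intro x t
    rw [lintegral_tsum fun j => ((meas_sec _ (hXq j) x t).const_mul _).aemeasurable]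
    refine tsum_congr fun j => ?_
    rw [lintegral_const_mul _ (meas_sec _ (hXq j) x t)]
  have h2 : ∀ t, ∫⁻ x, ∑' j : ℕ, c j * ∫⁻ y, X j x y t ^ q =
      ∑' j : ℕ, c j * ∫⁻ x, ∫⁻ y, X j x y t ^ q := by
    intro t
    rw [lintegral_tsum fun j => ((meas_sec2 _ (hXq j) t).const_mul _).aemeasurable]
    refine tsum_congr fun j => ?_
    rw [lintegral_const_mul _ (meas_sec2 _ (hXq j) t)]
  have h3 : ∫⁻ t, ∑' j : ℕ, c j * ∫⁻ x, ∫⁻ y, X j x y t ^ q =
      ∑' j : ℕ, c j * ∫⁻ t, ∫⁻ x, ∫⁻ y, X j x y t ^ q := by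
    rw [lintegral_tsum fun j => ((meas_sec3 _ (hXq j)).const_mul _).aemeasurable]
    refine tsum_congr fun j => ?_
    rw [lintegral_const_mul _ (meas_sec3 _ (hXq j))]
  simp only [lintegral_const_mul' _ _ (ENNReal.coe_ne_top (r := C)), h1, h2, h3]

/-- the closure lemma -/
theorem closure_lemma (q₁ q p : ℝ) (hq₁ : 0 < q₁) (hq : q₁ < q) (hp : 2 ≤ p) (L : ℝ≥0)
    (hL : 1 ≤ L) (C₁ : ℝ≥0) : ∃ C₂ : ℝ≥0, ∀ m g : ℝ × ℝ → ℂ, Measurable m → Measurable g →
    (∀ w, ‖m w‖ ≤ 1) → (∀ w, ‖g w‖ ≤ 1) → Good m q₁ p C₁ →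
    ∀ α β : ℕ → ℝ → ℝ → ℂ, (∀ j, Measurable (Function.uncurry (α j))) →
    (∀ j, Measurable (Function.uncurry (β j))) → (∀ j, ∀ u ∈ II, N2 volume (α j) u ≤ L) →
    (∀ j, ∀ u ∈ II, N2 volume (β j) u ≤ 1) →
    (∀ j, ∀ u ∈ II, ∫⁻ v in II, ‖FF volume (α j) (β j) (u, v)‖ₑ ^ 2 ≤ L * (2 : ℝ≥0∞) ^ (-(j : ℝ))) →
    (∀ n : ℕ, ∀ u ∈ II, ∫⁻ v in II, ‖g (u, v) - ∑ j ∈ Finset.range (n + 1),
      FF volume (α j) (β j) (u, v)‖ₑ ^ 2 ≤ L * (2 : ℝ≥0∞) ^ (-(n : ℝ))) →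
    Good (fun w => m w * g w) q p C₂ := by
  set ε : ℝ := (q - q₁) / 4 with hε
  have hε0 : 0 < ε := by linarith
  obtain ⟨C0, hC0⟩ := sum_pow' q ε (by linarith) hε0
  set T : ℝ≥0∞ := C0 * ((L : ℝ≥0∞) ^ (q / 2) * C₁ * ∑' j : ℕ, (2 : ℝ≥0∞) ^ (-ε * (j : ℝ))) with hT
  have hTt : T ≠ ∞ := by
    apply ENNReal.mul_ne_top ENNReal.coe_ne_top
    apply ENNReal.mul_ne_top _ (tsum_two_ne_top _ (by linarith))
    exact ENNReal.mul_ne_top (ENNReal.rpow_ne_top_of_nonneg (by linarith) ENNReal.coe_ne_top)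
      ENNReal.coe_ne_top
  refine ⟨T.toNNReal, ?_⟩
  intro m g hm hg hmb hgb hgood α β hα hβ hNα hNβ hsm hap Λ _ ν _ a b ha hb hza hzb hNa hNb
  rw [ENNReal.coe_toNNReal hTt]
  have hF := FF_meas ν a b ha hb
  set D : ℕ → ℝ × ℝ → ℂ := fun j => FF volume (α j) (β j) with hD
  have hDm : ∀ j, Measurable (D j) := fun j => FF_meas volume (α j) (β j) (hα j) (hβ j)
  set X : ℕ → ℝ → ℝ → ℝ → ℝ≥0∞ := fun j x y t =>
    ‖EE (fun w => FF ν a b w * m w * D j w) x y t‖ₑ with hX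
  have hXm : ∀ j, Measurable (fun z : ℝ × ℝ × ℝ => X j z.1 z.2.1 z.2.2) := fun j =>
    (EE_meas _ ((hF.mul hm).mul (hDm j))).enorm
  have hL0 : (L : ℝ≥0∞) ≠ 0 := by
    rw [ENNReal.coe_ne_zero]
    exact (lt_of_lt_of_le one_pos hL).ne'
  have hL1 : (L : ℝ≥0∞) ≠ ∞ := ENNReal.coe_ne_top
  -- sup bound
  have hXs : ∀ j x y t, X j x y t ≤ (L * (2 : ℝ≥0∞) ^ (-(j : ℝ))) ^ (1 / 2 : ℝ) := by
    intro j x y t
    refine (EE_sup _ x y t).trans ?_
    exact L1_bound ν a b ha hb hza hzb p hp hNa hNb m (D j) hmb (hDm j) _ (hsm j)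
  -- the bound in `L^q₁`
  have hX1 : ∀ j, ∫⁻ t, ∫⁻ x, ∫⁻ y, X j x y t ^ q₁ ≤ (L : ℝ≥0∞) ^ (q₁ / 2) * C₁ := by
    intro j
    set c : ℝ := ((L : ℝ) ^ (1 / 2 : ℝ))⁻¹ with hc
    have hLr : (0 : ℝ) < (L : ℝ) := lt_of_lt_of_le one_pos (by exact_mod_cast hL)
    have hc0 : 0 < c := by positivity
    have hce : ‖(c : ℂ)‖ₑ = (L : ℝ≥0∞) ^ (-(1 / 2) : ℝ) := by
      rw [← ofReal_norm, Complex.norm_real, Real.norm_of_nonneg hc0.le, hc,
        ← Real.rpow_neg hLr.le, ← ENNReal.ofReal_rpow_of_pos hLr, ENNReal.ofReal_coe_nnreal]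
    have hce2 : ‖(c : ℂ)‖ₑ ^ 2 * L = 1 := by
      rw [hce, ← ENNReal.rpow_natCast, ← ENNReal.rpow_mul]
      nth_rewrite 2 [← ENNReal.rpow_one (L : ℝ≥0∞)]
      rw [← ENNReal.rpow_add _ _ hL0 hL1]
      norm_num
    have hs1 : ∀ u, N2 (ν.prod volume) (tens (c : ℂ) a (α j)) u ≤ N2 ν a u := by
      intro u
      rw [tens_N2 ν volume (c : ℂ) a (α j) ha (hα j)]
      by_cases hu : u ∈ II
      · calc ‖(c : ℂ)‖ₑ ^ 2 * (N2 ν a u * N2 volume (α j) u) ≤
            ‖(c : ℂ)‖ₑ ^ 2 * (N2 ν a u * L) := by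
              gcongr
              exact hNα j u hu
          _ = N2 ν a u * (‖(c : ℂ)‖ₑ ^ 2 * L) := by ring
          _ = N2 ν a u := by rw [hce2, mul_one]
      · rw [N2_zero ν a II hza u hu]
        simp
    have hs2 : ∀ u, N2 (ν.prod volume) (tens 1 b (β j)) u ≤ N2 ν b u := by
      intro u
      rw [tens_N2 ν volume 1 b (β j) hb (hβ j)]
      by_cases hu : u ∈ II
      · calc ‖(1 : ℂ)‖ₑ ^ 2 * (N2 ν b u * N2 volume (β j) u) ≤
            ‖(1 : ℂ)‖ₑ ^ 2 * (N2 ν b u * 1) := by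
              gcongr
              exact hNβ j u hu
          _ = N2 ν b u := by simp
      · rw [N2_zero ν b II hzb u hu]
        simp
    have hg := hgood (Λ × ℝ) (ν.prod volume) (tens (c : ℂ) a (α j)) (tens 1 b (β j))
      (tens_meas _ _ _ ha (hα j)) (tens_meas _ _ _ hb (hβ j))
      (fun u hu l => by simp [tens, hza u hu]) (fun u hu l => by simp [tens, hzb u hu])
      ((lintegral_mono fun u => ENNReal.rpow_le_rpow (hs1 u) (by linarith)).trans hNa)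
      ((lintegral_mono fun u => ENNReal.rpow_le_rpow (hs2 u) (by linarith)).trans hNb)
    have e1 : ∀ x y t, ‖EE (fun w => FF (ν.prod volume) (tens (c : ℂ) a (α j)) (tens 1 b (β j)) w *
        m w) x y t‖ₑ ^ q₁ = (L : ℝ≥0∞) ^ (-(q₁ / 2)) * X j x y t ^ q₁ := by
      intro x y t
      have e2 : EE (fun w => FF (ν.prod volume) (tens (c : ℂ) a (α j)) (tens 1 b (β j)) w *
          m w) x y t = (c : ℂ) * EE (fun w => FF ν a b w * m w * D j w) x y t := by
        unfold EE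
        rw [← integral_const_mul]
        congr 1
        ext w
        simp only [tens_FF, hD]
        ring
      rw [e2, enorm_mul, ENNReal.mul_rpow_of_nonneg _ _ hq₁.le, hce, ← ENNReal.rpow_mul]
      congr 2
      ring
    simp only [e1] at hg
    have hne : (L : ℝ≥0∞) ^ (-(q₁ / 2)) ≠ ∞ := by
      rw [ENNReal.rpow_neg]
      exact ENNReal.inv_ne_top.mpr (ENNReal.rpow_pos (pos_iff_ne_zero.mpr hL0) hL1).ne'
    simp only [lintegral_const_mul' _ _ hne] at hg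
    calc ∫⁻ t, ∫⁻ x, ∫⁻ y, X j x y t ^ q₁ = (L : ℝ≥0∞) ^ (q₁ / 2) * ((L : ℝ≥0∞) ^ (-(q₁ / 2)) *
        ∫⁻ t, ∫⁻ x, ∫⁻ y, X j x y t ^ q₁) := by
          rw [← mul_assoc, ← ENNReal.rpow_add _ _ hL0 hL1]
          simp
      _ ≤ _ := by gcongr
  -- the bound in `L^q`
  have hXq : ∀ j, ∫⁻ t, ∫⁻ x, ∫⁻ y, X j x y t ^ q ≤
      (L : ℝ≥0∞) ^ (q / 2) * C₁ * (2 : ℝ≥0∞) ^ (-(2 * ε) * (j : ℝ)) := by
    intro j
    set κ : ℝ≥0∞ := (L * (2 : ℝ≥0∞) ^ (-(j : ℝ))) ^ (1 / 2 : ℝ) with hκ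
    have hκe : κ ^ (q - q₁) = (L : ℝ≥0∞) ^ ((q - q₁) / 2) * (2 : ℝ≥0∞) ^ (-(2 * ε) * (j : ℝ)) := by
      rw [hκ, ← ENNReal.rpow_mul, ENNReal.mul_rpow_of_nonneg _ _ (by linarith),
        ← ENNReal.rpow_mul (2 : ℝ≥0∞)]
      congr 2
      · ring
      · rw [hε]
        ring
    have hκt : κ ^ (q - q₁) ≠ ∞ := by
      apply ENNReal.rpow_ne_top_of_nonneg (by linarith)
      apply ENNReal.rpow_ne_top_of_nonneg (by norm_num)
      apply ENNReal.mul_ne_top hL1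
      rw [ENNReal.rpow_neg]
      exact ENNReal.inv_ne_top.mpr (ENNReal.rpow_pos (by norm_num) (by norm_num)).ne'
    calc ∫⁻ t, ∫⁻ x, ∫⁻ y, X j x y t ^ q ≤ ∫⁻ t, ∫⁻ x, ∫⁻ y, κ ^ (q - q₁) * X j x y t ^ q₁ := by
          refine lintegral_mono fun t => lintegral_mono fun x => lintegral_mono fun y => ?_
          have : q = (q - q₁) + q₁ := by ring
          nth_rewrite 1 [this]
          rw [ENNReal.rpow_add_of_nonneg _ _ (by linarith) hq₁.le]
          exact mul_le_mul' (ENNReal.rpow_le_rpow (hXs j x y t) (by linarith)) le_rfl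
      _ = κ ^ (q - q₁) * ∫⁻ t, ∫⁻ x, ∫⁻ y, X j x y t ^ q₁ := by
          simp only [lintegral_const_mul' _ _ hκt]
      _ ≤ κ ^ (q - q₁) * ((L : ℝ≥0∞) ^ (q₁ / 2) * C₁) := by
          gcongr
          exact hX1 j
      _ = _ := by
          rw [hκe]
          have : q / 2 = (q - q₁) / 2 + q₁ / 2 := by ring
          rw [this, ENNReal.rpow_add_of_nonneg _ _ (by linarith) (by linarith)]
          ring
  -- the pointwise sum
  have hpt : ∀ x y t, ‖EE (fun w => FF ν a b w * (m w * g w)) x y t‖ₑ ≤ ∑' j, X j x y t := by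
    intro x y t
    have hint : ∀ H : ℝ × ℝ → ℂ, Measurable H → ∀ κ : ℝ≥0∞, κ ≠ ∞ →
        (∀ u ∈ II, ∫⁻ v in II, ‖H (u, v)‖ₑ ^ 2 ≤ κ) →
        Integrable (fun w : ℝ × ℝ => FF ν a b w * m w * H w * (ph x t w.1 * ph y t w.2)) := by
      intro H hH κ hκt hκ
      have hphm : Measurable (fun w : ℝ × ℝ => ph x t w.1 * ph y t w.2) := by
        apply Continuous.measurable
        unfold ph
        fun_prop
      refine ⟨(((hF.mul hm).mul hH).mul hphm).aestronglyMeasurable, ?_⟩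
      unfold HasFiniteIntegral
      have e1 : ∀ w : ℝ × ℝ, ‖FF ν a b w * m w * H w * (ph x t w.1 * ph y t w.2)‖ₑ =
          ‖FF ν a b w * m w * H w‖ₑ := by
        intro w
        rw [enorm_mul _ (ph x t w.1 * ph y t w.2), enorm_mul (ph x t w.1), ph_enorm, ph_enorm,
          mul_one, mul_one]
      simp only [e1]
      refine (L1_bound ν a b ha hb hza hzb p hp hNa hNb m H hmb hH κ hκ).trans_lt ?_
      exact lt_top_iff_ne_top.mpr (ENNReal.rpow_ne_top_of_nonneg (by norm_num) hκt)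
    have htw : ∀ n : ℕ, L * (2 : ℝ≥0∞) ^ (-(n : ℝ)) ≠ ∞ := by
      intro n
      apply ENNReal.mul_ne_top hL1
      rw [ENNReal.rpow_neg]
      exact ENNReal.inv_ne_top.mpr (ENNReal.rpow_pos (by norm_num) (by norm_num)).ne'
    have hn : ∀ n : ℕ, ‖EE (fun w => FF ν a b w * (m w * g w)) x y t‖ₑ ≤
        (L * (2 : ℝ≥0∞) ^ (-(n : ℝ))) ^ (1 / 2 : ℝ) + ∑' j, X j x y t := by
      intro n
      set R : ℝ × ℝ → ℂ := fun w => g w - ∑ j ∈ Finset.range (n + 1), D j w with hR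
      have hRm : Measurable R := hg.sub (Finset.measurable_sum _ fun j _ => hDm j)
      have e1 : EE (fun w => FF ν a b w * (m w * g w)) x y t =
          EE (fun w => FF ν a b w * m w * R w) x y t +
            ∑ j ∈ Finset.range (n + 1), EE (fun w => FF ν a b w * m w * D j w) x y t := by
        unfold EE
        rw [← integral_finsetSum, ← integral_add]
        · congr 1
          ext w
          simp only [hR]
          rw [← Finset.sum_mul, ← Finset.mul_sum]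
          ring
        · exact hint R hRm _ (htw n) (hap n)
        · exact integrable_finsetSum _ fun j _ => hint (D j) (hDm j) _ (htw j) (hsm j)
        · intro j _
          exact hint (D j) (hDm j) _ (htw j) (hsm j)
      rw [e1]
      refine (enorm_add_le _ _).trans ?_
      gcongr
      · refine (EE_sup _ x y t).trans ?_
        exact L1_bound ν a b ha hb hza hzb p hp hNa hNb m R hmb hRm _ (hap n)
      · refine (enorm_sum_le _ _).trans ?_
        exact ENNReal.sum_le_tsum _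
    have hlim : Filter.Tendsto (fun n : ℕ => (L * (2 : ℝ≥0∞) ^ (-(n : ℝ))) ^ (1 / 2 : ℝ) +
        ∑' j, X j x y t) Filter.atTop (nhds (0 + ∑' j, X j x y t)) := by
      apply Filter.Tendsto.add _ tendsto_const_nhds
      have h1 : Filter.Tendsto (fun n : ℕ => (2 : ℝ≥0∞) ^ (-(n : ℝ))) Filter.atTop (nhds 0) := by
        have : ∀ n : ℕ, (2 : ℝ≥0∞) ^ (-(n : ℝ)) = (2⁻¹ : ℝ≥0∞) ^ n := by
          intro n
          rw [ENNReal.rpow_neg, ENNReal.rpow_natCast, ENNReal.inv_pow]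
        simp only [this]
        exact ENNReal.tendsto_pow_atTop_nhds_zero_of_lt_one (by norm_num)
      have h2 : Filter.Tendsto (fun n : ℕ => L * (2 : ℝ≥0∞) ^ (-(n : ℝ))) Filter.atTop
          (nhds (L * 0)) := ENNReal.Tendsto.const_mul h1 (Or.inr hL1)
      rw [mul_zero] at h2
      have h3 := ENNReal.continuous_rpow_const (y := (1 / 2 : ℝ)).tendsto 0
      have h4 := h3.comp h2
      rw [ENNReal.zero_rpow_of_pos (by norm_num)] at h4
      exact h4
    rw [zero_add] at hlim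
    exact ge_of_tendsto' hlim hn
  -- conclusion
  calc ∫⁻ t, ∫⁻ x, ∫⁻ y, ‖EE (fun w => FF ν a b w * (m w * g w)) x y t‖ₑ ^ q ≤
      ∫⁻ t, ∫⁻ x, ∫⁻ y, C0 * ∑' j : ℕ, (2 : ℝ≥0∞) ^ (ε * (j : ℝ)) * X j x y t ^ q := by
        refine lintegral_mono fun t => lintegral_mono fun x => lintegral_mono fun y => ?_
        refine le_trans ?_ (hC0 _)
        exact ENNReal.rpow_le_rpow (hpt x y t) (by linarith)
    _ = C0 * ∑' j : ℕ, (2 : ℝ≥0∞) ^ (ε * (j : ℝ)) * ∫⁻ t, ∫⁻ x, ∫⁻ y, X j x y t ^ q :=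
        lint3 X hXm q C0 (fun j => (2 : ℝ≥0∞) ^ (ε * (j : ℝ)))
    _ ≤ C0 * ∑' j : ℕ, (2 : ℝ≥0∞) ^ (ε * (j : ℝ)) *
          ((L : ℝ≥0∞) ^ (q / 2) * C₁ * (2 : ℝ≥0∞) ^ (-(2 * ε) * (j : ℝ))) := by
        gcongr with j
        exact hXq j
    _ = T := by
        rw [hT, ← ENNReal.tsum_mul_left (a := (L : ℝ≥0∞) ^ (q / 2) * C₁)]
        congr 2
        funext j
        have : -ε * (j : ℝ) = ε * (j : ℝ) + -(2 * ε) * (j : ℝ) := by ring
        rw [this, two_add]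
        ring

end Pool.Agent.W771
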