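import Mathlib
import Pool.Agent.W771.Clos
set_option autoImplicit false

/-! Averages over dyadic cells of functions of one variable with half a derivative. -/

namespace Pool.Agent.W771

open MeasureTheory Set Complex
open scoped ENNReal NNReal FourierTransform ComplexConjugate

/-- the half open interval -/
abbrev JJ : Set ℝ := Ico (-(1 / 2) : ℝ) (1 / 2)

/-- the dyadic cell of `v` -/
def cell (j : ℕ) (v : ℝ) : Set ℝ := {w | ⌊(2 : ℝ) ^ j * v⌋ = ⌊(2 : ℝ) ^ j * w⌋}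

lemma cell_symm (j : ℕ) (v w : ℝ) : w ∈ cell j v ↔ v ∈ cell j w := by
  unfold cell
  exact eq_comm

lemma cell_eq (j : ℕ) (v : ℝ) : cell j v = Ico ((⌊(2 : ℝ) ^ j * v⌋ : ℝ) / 2 ^ j)
    (((⌊(2 : ℝ) ^ j * v⌋ : ℝ) + 1) / 2 ^ j) := by
  ext w
  have h2 : (0 : ℝ) < 2 ^ j := by positivity
  simp only [cell, mem_ofPred_eq, mem_Ico]
  rw [div_le_iff₀ h2, lt_div_iff₀ h2, eq_comm, Int.floor_eq_iff, mul_comm w]

lemma cell_vol (j : ℕ) (v : ℝ) : volume (cell j v) = ((2 : ℝ≥0∞) ^ j)⁻¹ := by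
  rw [cell_eq, Real.volume_Ico]
  have : ((⌊(2 : ℝ) ^ j * v⌋ : ℝ) + 1) / 2 ^ j - (⌊(2 : ℝ) ^ j * v⌋ : ℝ) / 2 ^ j = ((2 : ℝ) ^ j)⁻¹ := by
    field_simp
    ring
  rw [this, ENNReal.ofReal_inv_of_pos (by positivity), ENNReal.ofReal_pow (by norm_num)]
  norm_num

lemma cell_meas (j : ℕ) (v : ℝ) : MeasurableSet (cell j v) := by
  rw [cell_eq]
  exact measurableSet_Ico

lemma cell_meas2 (j : ℕ) : MeasurableSet {w : ℝ × ℝ | w.2 ∈ cell j w.1} := by
  unfold cell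
  apply measurableSet_eq_fun
  · exact Int.measurable_floor.comp (by fun_prop)
  · exact Int.measurable_floor.comp (by fun_prop)

lemma cell_self (j : ℕ) (v : ℝ) : v ∈ cell j v := rfl

lemma cell_dist (j : ℕ) (v w : ℝ) (h : w ∈ cell j v) : |w - v| ≤ (1 / 2) ^ j := by
  have h1 := cell_self j v
  rw [cell_eq] at h h1
  have e : ((⌊(2 : ℝ) ^ j * v⌋ : ℝ) + 1) / 2 ^ j = (⌊(2 : ℝ) ^ j * v⌋ : ℝ) / 2 ^ j + (1 / 2) ^ j := by
    rw [one_div, inv_pow]
    field_simp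
  rw [abs_le]
  constructor <;> linarith [h.1, h.2, h1.1, h1.2]

lemma cell_sub (j : ℕ) (v w : ℝ) (hv : v ∈ JJ) (h : w ∈ cell (j + 1) v) : w ∈ JJ := by
  have h1 : ⌊(2 : ℝ) ^ (j + 1) * v⌋ = ⌊(2 : ℝ) ^ (j + 1) * w⌋ := h
  have h2 : (0 : ℝ) < 2 ^ j := by positivity
  have a1 : (-(2 : ℤ) ^ j) ≤ ⌊(2 : ℝ) ^ (j + 1) * v⌋ := by
    rw [Int.le_floor]
    push_cast
    rw [pow_succ]
    nlinarith [hv.1]
  have a2 : ⌊(2 : ℝ) ^ (j + 1) * v⌋ < (2 : ℤ) ^ j := by
    rw [Int.floor_lt]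
    push_cast
    rw [pow_succ]
    nlinarith [hv.2]
  rw [h1] at a1 a2
  rw [Int.le_floor] at a1
  rw [Int.floor_lt] at a2
  push_cast at a1 a2
  rw [pow_succ] at a1 a2
  constructor
  · by_contra hc
    push Not at hc
    nlinarith
  · by_contra hc
    push Not at hc
    nlinarith

lemma cell_succ (j : ℕ) (v w : ℝ) (h : w ∈ cell (j + 1) v) : w ∈ cell j v := by
  have h1 : ⌊(2 : ℝ) ^ (j + 1) * v⌋ = ⌊(2 : ℝ) ^ (j + 1) * w⌋ := h
  have h2 : ∀ x : ℝ, ⌊(2 : ℝ) ^ j * x⌋ = ⌊(2 : ℝ) ^ (j + 1) * x⌋ / 2 := by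
    intro x
    symm
    have a1 := Int.floor_le ((2 : ℝ) ^ j * x)
    have a2 := Int.lt_floor_add_one ((2 : ℝ) ^ j * x)
    set n := ⌊(2 : ℝ) ^ j * x⌋ with hn
    have e : (2 : ℝ) ^ (j + 1) * x = 2 * ((2 : ℝ) ^ j * x) := by ring
    have b1 : 2 * n ≤ ⌊(2 : ℝ) ^ (j + 1) * x⌋ := by
      rw [Int.le_floor, e]
      push_cast
      linarith
    have b2 : ⌊(2 : ℝ) ^ (j + 1) * x⌋ < 2 * n + 2 := by
      rw [Int.floor_lt, e]
      push_cast
      linarith
    omega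
  show ⌊(2 : ℝ) ^ j * v⌋ = ⌊(2 : ℝ) ^ j * w⌋
  rw [h2 v, h2 w, h1]

/-- average over the cell -/
noncomputable def avg (j : ℕ) (φ : ℝ → ℂ) (v : ℝ) : ℂ := 2 ^ j * ∫ w in JJ ∩ cell j v, φ w

lemma cs_set (S : Set ℝ) (f : ℝ → ℝ≥0∞) (hf : Measurable f) :
    (∫⁻ x in S, f x) ^ 2 ≤ volume S * ∫⁻ x in S, f x ^ 2 := by
  have h := ENNReal.lintegral_mul_le_Lp_mul_Lq (volume.restrict S) Real.HolderConjugate.two_two
    (f := fun _ => (1 : ℝ≥0∞)) (g := f) aemeasurable_const hf.aemeasurable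
  simp only [lintegral_const, Measure.restrict_apply_univ, one_mul,
    ENNReal.rpow_ofNat, Pi.mul_apply, one_pow] at h
  calc (∫⁻ x in S, f x) ^ 2 ≤ ((volume S) ^ (1 / 2 : ℝ) * (∫⁻ x in S, f x ^ 2) ^ (1 / 2 : ℝ)) ^ 2 := by
        gcongr
    _ = _ := by
        rw [mul_pow, ← ENNReal.rpow_natCast, ← ENNReal.rpow_natCast, ← ENNReal.rpow_mul,
          ← ENNReal.rpow_mul]
        norm_num

lemma enorm_two_pow (j : ℕ) : ‖(2 : ℂ) ^ j‖ₑ = (2 : ℝ≥0∞) ^ j := by
  rw [enorm_pow]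
  congr 1
  rw [← ofReal_norm]
  norm_num

lemma avg_sq (j : ℕ) (φ : ℝ → ℂ) (hφ : Measurable φ) (v : ℝ) :
    ‖avg j φ v‖ₑ ^ 2 ≤ 2 ^ j * ∫⁻ w in JJ ∩ cell j v, ‖φ w‖ₑ ^ 2 := by
  unfold avg
  rw [enorm_mul, enorm_two_pow, mul_pow]
  calc ((2 : ℝ≥0∞) ^ j) ^ 2 * ‖∫ w in JJ ∩ cell j v, φ w‖ₑ ^ 2 ≤
      ((2 : ℝ≥0∞) ^ j) ^ 2 * (∫⁻ w in JJ ∩ cell j v, ‖φ w‖ₑ) ^ 2 := by
        gcongr
        exact enorm_integral_le_lintegral_enorm _
    _ ≤ ((2 : ℝ≥0∞) ^ j) ^ 2 * (((2 : ℝ≥0∞) ^ j)⁻¹ * ∫⁻ w in JJ ∩ cell j v, ‖φ w‖ₑ ^ 2) := by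
        gcongr
        refine (cs_set _ _ hφ.enorm).trans ?_
        gcongr
        rw [← cell_vol j v]
        exact measure_mono inter_subset_right
    _ = _ := by
        rw [← mul_assoc, sq, mul_assoc ((2 : ℝ≥0∞) ^ j), ENNReal.mul_inv_cancel
          (pow_ne_zero _ two_ne_zero) (ENNReal.pow_ne_top (by norm_num)), mul_one]

/-- integrating over the cells -/
lemma cell_fubini (j : ℕ) (f : ℝ → ℝ≥0∞) (hf : Measurable f) :
    ∫⁻ v, 2 ^ j * ∫⁻ w in JJ ∩ cell j v, f w = ∫⁻ w in JJ, f w := by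
  have hm : MeasurableSet {w : ℝ × ℝ | w.2 ∈ cell j w.1} := cell_meas2 j
  have e1 : ∀ v, ∫⁻ w in JJ ∩ cell j v, f w =
      ∫⁻ w, {w : ℝ × ℝ | w.2 ∈ cell j w.1}.indicator (fun w => JJ.indicator f w.2) (v, w) := by
    intro v
    rw [← lintegral_indicator (measurableSet_Ico.inter (cell_meas j v))]
    congr 1
    ext w
    by_cases h1 : w ∈ cell j v
    · rw [indicator_of_mem (a := (v, w)) (by exact h1)]
      by_cases h2 : w ∈ JJ
      · rw [indicator_of_mem (show w ∈ JJ ∩ cell j v from ⟨h2, h1⟩), indicator_of_mem h2]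
      · rw [indicator_of_notMem (fun h => h2 h.1), indicator_of_notMem h2]
    · rw [indicator_of_notMem (a := (v, w)) (by exact h1), indicator_of_notMem (fun h => h1 h.2)]
  have hmeas : Measurable ({w : ℝ × ℝ | w.2 ∈ cell j w.1}.indicator
      (fun w => JJ.indicator f w.2)) :=
    ((hf.indicator measurableSet_Ico).comp measurable_snd).indicator hm
  simp only [e1]
  rw [lintegral_const_mul _ (by exact Measurable.lintegral_prod_right' hmeas),
    lintegral_lintegral_swap (f := fun v w => {w : ℝ × ℝ | w.2 ∈ cell j w.1}.indicator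
      (fun w => JJ.indicator f w.2) (v, w)) (by exact hmeas.aemeasurable)]
  have e2 : ∀ w, ∫⁻ v, {w : ℝ × ℝ | w.2 ∈ cell j w.1}.indicator (fun w => JJ.indicator f w.2) (v, w) =
      ((2 : ℝ≥0∞) ^ j)⁻¹ * JJ.indicator f w := by
    intro w
    have e3 : ∀ v, {w : ℝ × ℝ | w.2 ∈ cell j w.1}.indicator (fun w => JJ.indicator f w.2) (v, w) =
        (cell j w).indicator (fun _ => JJ.indicator f w) v := by
      intro v
      by_cases h1 : w ∈ cell j v
      · rw [indicator_of_mem (a := (v, w)) (by exact h1),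
          indicator_of_mem ((cell_symm j v w).mp h1)]
      · rw [indicator_of_notMem (a := (v, w)) (by exact h1),
          indicator_of_notMem (fun h => h1 ((cell_symm j v w).mpr h))]
    simp only [e3]
    rw [lintegral_indicator_const (cell_meas j w), cell_vol, mul_comm]
  simp only [e2]
  rw [lintegral_const_mul _ (hf.indicator measurableSet_Ico), ← mul_assoc,
    ENNReal.mul_inv_cancel (pow_ne_zero _ two_ne_zero) (ENNReal.pow_ne_top (by norm_num)), one_mul,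
    lintegral_indicator measurableSet_Ico]

lemma avg_L2 (j : ℕ) (φ : ℝ → ℂ) (hφ : Measurable φ) :
    ∫⁻ v, ‖avg j φ v‖ₑ ^ 2 ≤ ∫⁻ w in JJ, ‖φ w‖ₑ ^ 2 := by
  calc ∫⁻ v, ‖avg j φ v‖ₑ ^ 2 ≤ ∫⁻ v, 2 ^ j * ∫⁻ w in JJ ∩ cell j v, ‖φ w‖ₑ ^ 2 :=
        lintegral_mono fun v => avg_sq j φ hφ v
    _ = _ := cell_fubini j _ (hφ.enorm.pow_const 2)

/-- the average does not change if the function is averaged over the larger cells before -/
lemma avg_avg (j : ℕ) (φ : ℝ → ℂ) (v : ℝ) (hv : v ∈ JJ) :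
    avg (j + 2) (avg (j + 1) φ) v = avg (j + 1) φ v := by
  have h1 : ∀ w ∈ JJ ∩ cell (j + 2) v, avg (j + 1) φ w = avg (j + 1) φ v := by
    intro w hw
    have h2 : w ∈ cell (j + 1) v := cell_succ (j + 1) v w hw.2
    have h3 : cell (j + 1) w = cell (j + 1) v := by
      ext z
      have h2' : ⌊(2 : ℝ) ^ (j + 1) * v⌋ = ⌊(2 : ℝ) ^ (j + 1) * w⌋ := h2
      simp only [cell, mem_ofPred_eq]
      rw [h2']
    unfold avg
    rw [h3]
  have hJ : JJ ∩ cell (j + 2) v = cell (j + 2) v := by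
    rw [inter_eq_right]
    intro w hw
    exact cell_sub (j + 1) v w hv hw
  have h4 : avg (j + 2) (avg (j + 1) φ) v = 2 ^ (j + 2) * ∫ w in JJ ∩ cell (j + 2) v,
      avg (j + 1) φ v := by
    conv_lhs => unfold avg
    congr 1
    apply setIntegral_congr_fun (measurableSet_Ico.inter (cell_meas _ _))
    intro w hw
    exact h1 w hw
  rw [h4, hJ, setIntegral_const, Measure.real, cell_vol, ENNReal.toReal_inv, ENNReal.toReal_pow]
  have : (2 : ℝ) ^ (j + 2) ≠ 0 := by positivity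
  simp only [ENNReal.toReal_ofNat, real_smul]
  push_cast
  rw [← mul_assoc, mul_inv_cancel₀ (pow_ne_zero _ two_ne_zero), one_mul]

lemma bdd_int (S : Set ℝ) (hS : volume S < ∞) (φ : ℝ → ℂ) (hφ : Measurable φ)
    (B : ℝ) (hb : ∀ v, ‖φ v‖ ≤ B) : IntegrableOn φ S := by
  have : IsFiniteMeasure (volume.restrict S) := ⟨by rw [Measure.restrict_apply_univ]; exact hS⟩
  exact Integrable.of_bound hφ.aestronglyMeasurable B (ae_of_all _ hb)

lemma avg_sub (j : ℕ) (φ ψ : ℝ → ℂ) (hφ : Measurable φ) (hψ : Measurable ψ) (B : ℝ)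
    (hb : ∀ v, ‖φ v‖ ≤ B) (hb2 : ∀ v, ‖ψ v‖ ≤ B) (v : ℝ) :
    avg j (fun w => φ w - ψ w) v = avg j φ v - avg j ψ v := by
  have hS : volume (JJ ∩ cell j v) < ∞ := by
    refine (measure_mono inter_subset_right).trans_lt ?_
    rw [cell_vol]
    exact ENNReal.inv_lt_top.mpr (by positivity)
  unfold avg
  rw [integral_sub (bdd_int _ hS φ hφ B hb) (bdd_int _ hS ψ hψ B hb2)]
  ring

lemma avg_bound (j : ℕ) (φ : ℝ → ℂ) (hb : ∀ v, ‖φ v‖ ≤ 1) (v : ℝ) : ‖avg j φ v‖ ≤ 1 := by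
  unfold avg
  rw [norm_mul, norm_pow, Complex.norm_ofNat]
  have h1 : ‖∫ w in JJ ∩ cell j v, φ w‖ ≤ 1 * volume.real (JJ ∩ cell j v) := by
    apply norm_setIntegral_le_of_norm_le_const
    · refine (measure_mono inter_subset_right).trans_lt ?_
      rw [cell_vol]
      exact ENNReal.inv_lt_top.mpr (by positivity)
    · exact fun w _ => hb w
  have h2 : volume.real (JJ ∩ cell j v) ≤ ((2 : ℝ) ^ j)⁻¹ := by
    have e : ((2 : ℝ) ^ j)⁻¹ = volume.real (cell j v) := by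
      rw [Measure.real, cell_vol, ENNReal.toReal_inv, ENNReal.toReal_pow]
      simp
    rw [e]
    have h3 : volume (cell j v) ≠ ∞ := by
      rw [cell_vol]
      exact (ENNReal.inv_lt_top.mpr (by positivity)).ne
    exact measureReal_mono inter_subset_right h3
  calc (2 : ℝ) ^ j * ‖∫ w in JJ ∩ cell j v, φ w‖ ≤ 2 ^ j * (1 * ((2 : ℝ) ^ j)⁻¹) := by
        gcongr
        exact h1.trans (by gcongr)
    _ = 1 := by
        rw [one_mul]
        exact mul_inv_cancel₀ (by positivity)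

/-- the `L²` modulus of continuity -/
noncomputable def RR (φ : ℝ → ℂ) (h : ℝ) : ℝ≥0∞ :=
  ∫⁻ v, JJ.indicator (fun v => JJ.indicator (fun w => ‖φ w - φ v‖ₑ ^ 2) (v + h)) v

lemma RR_neg (φ : ℝ → ℂ) (h : ℝ) : RR φ (-h) = RR φ h := by
  unfold RR
  rw [← lintegral_add_right_eq_self _ h]
  congr 1
  ext v
  have e0 : v + h + -h = v := by ring
  have e1 : ‖φ v - φ (v + h)‖ₑ = ‖φ (v + h) - φ v‖ₑ := by
    rw [← ofReal_norm, ← ofReal_norm, norm_sub_rev]
  simp only [indicator_apply, e0, e1]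
  split_ifs <;> rfl

lemma RR_pos (φ : ℝ → ℂ) (h : ℝ) :
    RR φ h ≤ ∫⁻ v in Icc (-(1 / 2) : ℝ) (1 / 2 - h), ‖φ (v + h) - φ v‖ₑ ^ 2 := by
  unfold RR
  rw [← lintegral_indicator measurableSet_Icc]
  apply lintegral_mono
  intro v
  by_cases h1 : v ∈ JJ
  · by_cases h2 : v + h ∈ JJ
    · rw [indicator_of_mem h1, indicator_of_mem h2, indicator_of_mem]
      exact ⟨h1.1, by linarith [h2.2]⟩
    · rw [indicator_of_mem h1, indicator_of_notMem h2]
      exact zero_le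
  · rw [indicator_of_notMem h1]
    exact zero_le

/-- the `L²` distance to the average -/
lemma avg_dist (φ : ℝ → ℂ) (hφ : Measurable φ) (hb : ∀ v, ‖φ v‖ ≤ 1) (K : ℝ≥0)
    (hK : ∀ h ∈ Icc (0 : ℝ) 1, ∫⁻ v in Icc (-(1 / 2) : ℝ) (1 / 2 - h), ‖φ (v + h) - φ v‖ₑ ^ 2 ≤
      ENNReal.ofReal (K * h)) (j : ℕ) :
    ∫⁻ v in JJ, ‖φ v - avg (j + 1) φ v‖ₑ ^ 2 ≤ 2 * K * ((2 : ℝ≥0∞) ^ (j + 1))⁻¹ := by
  set n := j + 1 with hn
  -- pointwise bound
  have hpt : ∀ v ∈ JJ, ‖φ v - avg n φ v‖ₑ ^ 2 ≤ 2 ^ n * ∫⁻ w in JJ ∩ cell n v, ‖φ w - φ v‖ₑ ^ 2 := by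
    intro v hv
    have hJ : JJ ∩ cell n v = cell n v := by
      rw [inter_eq_right]
      intro w hw
      exact cell_sub j v w hv hw
    have hfinv : volume (cell n v) < ∞ := by
      rw [cell_vol]
      exact ENNReal.inv_lt_top.mpr (by positivity)
    have e1 : φ v - avg n φ v = - avg n (fun w => φ w - φ v) v := by
      rw [avg_sub n φ (fun _ => φ v) hφ measurable_const 1 hb (fun _ => hb v)]
      have : avg n (fun _ => φ v) v = φ v := by
        unfold avg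
        rw [hJ, setIntegral_const, Measure.real, cell_vol, ENNReal.toReal_inv, ENNReal.toReal_pow]
        simp only [ENNReal.toReal_ofNat, real_smul]
        push_cast
        rw [← mul_assoc, mul_inv_cancel₀ (pow_ne_zero _ two_ne_zero), one_mul]
      rw [this]
      ring
    rw [e1, enorm_neg]
    exact avg_sq n _ (hφ.sub measurable_const) v
  -- the shear
  set G : ℝ → ℝ → ℝ≥0∞ := fun v h => JJ.indicator (fun v => JJ.indicator
    (fun w => ‖φ w - φ v‖ₑ ^ 2) (v + h)) v with hG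
  have hGm : Measurable (Function.uncurry G) := by
    have h1 : Function.uncurry G = ((JJ ×ˢ univ) ∩ (fun w : ℝ × ℝ => w.1 + w.2) ⁻¹' JJ).indicator
        (fun w : ℝ × ℝ => ‖φ (w.1 + w.2) - φ w.1‖ₑ ^ 2) := by
      ext w
      obtain ⟨v, h⟩ := w
      simp only [Function.uncurry_apply_pair, hG]
      by_cases h1 : v ∈ JJ
      · by_cases h2 : v + h ∈ JJ
        · rw [indicator_of_mem h1, indicator_of_mem h2, indicator_of_mem]
          exact ⟨⟨h1, trivial⟩, h2⟩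
        · rw [indicator_of_mem h1, indicator_of_notMem h2, indicator_of_notMem]
          exact fun h3 => h2 h3.2
      · rw [indicator_of_notMem h1, indicator_of_notMem]
        exact fun h3 => h1 h3.1.1
    rw [h1]
    apply Measurable.indicator
    · have a1 : Measurable (fun w : ℝ × ℝ => φ (w.1 + w.2)) := hφ.comp (by fun_prop)
      have a2 : Measurable (fun w : ℝ × ℝ => φ w.1) := hφ.comp measurable_fst
      exact (a1.sub a2).enorm.pow_const 2
    · exact (measurableSet_Ico.prod MeasurableSet.univ).inter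
        (measurableSet_Ico.preimage (by fun_prop))
  have hRR : ∀ h, |h| ≤ (1 / 2) ^ n → RR φ h ≤ ENNReal.ofReal (K * (1 / 2) ^ n) := by
    intro h hh
    have h3 : (1 / 2 : ℝ) ^ n ≤ 1 := pow_le_one₀ (by norm_num) (by norm_num)
    rcases le_total 0 h with h0 | h0
    · rw [abs_of_nonneg h0] at hh
      refine (RR_pos φ h).trans ((hK h ⟨h0, hh.trans h3⟩).trans ?_)
      gcongr
    · rw [abs_of_nonpos h0] at hh
      have h1 : RR φ h = RR φ (-h) := by rw [RR_neg]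
      rw [h1]
      refine (RR_pos φ (-h)).trans ((hK (-h) ⟨by linarith, hh.trans h3⟩).trans ?_)
      gcongr
  calc ∫⁻ v in JJ, ‖φ v - avg n φ v‖ₑ ^ 2 ≤
      ∫⁻ v in JJ, 2 ^ n * ∫⁻ w in JJ ∩ cell n v, ‖φ w - φ v‖ₑ ^ 2 :=
        setLIntegral_mono' measurableSet_Ico hpt
    _ ≤ ∫⁻ v, 2 ^ n * ∫⁻ h in Icc (-(1 / 2) ^ n) ((1 / 2) ^ n), G v h := by
        rw [← lintegral_indicator measurableSet_Ico]
        apply lintegral_mono
        intro v
        by_cases hv : v ∈ JJ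
        · simp only
          rw [indicator_of_mem hv]
          gcongr 2 ^ n * ?_
          rw [← lintegral_indicator (measurableSet_Ico.inter (cell_meas n v)),
            ← lintegral_indicator measurableSet_Icc, ← lintegral_add_left_eq_self _ v]
          apply lintegral_mono
          intro h
          simp only
          by_cases h1 : v + h ∈ JJ ∩ cell n v
          · rw [indicator_of_mem h1, indicator_of_mem, hG]
            · simp only
              rw [indicator_of_mem hv, indicator_of_mem h1.1]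
            · have := cell_dist n v (v + h) h1.2
              rw [add_sub_cancel_left, abs_le] at this
              exact this
          · rw [indicator_of_notMem h1]
            exact zero_le
        · simp only
          rw [indicator_of_notMem hv]
          exact zero_le
    _ = 2 ^ n * ∫⁻ h in Icc (-(1 / 2) ^ n) ((1 / 2) ^ n), RR φ h := by
        have hm1 : Measurable (fun v => ∫⁻ h in Icc (-(1 / 2 : ℝ) ^ n) ((1 / 2) ^ n), G v h) :=
          Measurable.lintegral_prod_right' hGm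
        rw [lintegral_const_mul _ hm1, lintegral_lintegral_swap]
        · rfl
        · exact hGm.aemeasurable
    _ ≤ 2 ^ n * ∫⁻ h in Icc (-(1 / 2 : ℝ) ^ n) ((1 / 2) ^ n), ENNReal.ofReal (K * (1 / 2) ^ n) := by
        gcongr 2 ^ n * ?_
        apply setLIntegral_mono' measurableSet_Icc
        intro h hh
        exact hRR h (abs_le.mpr hh)
    _ = _ := by
        rw [lintegral_const, Measure.restrict_apply_univ, Real.volume_Icc]
        have e1 : ENNReal.ofReal ((1 / 2 : ℝ) ^ n) = ((2 : ℝ≥0∞) ^ n)⁻¹ := by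
          rw [one_div, inv_pow, ENNReal.ofReal_inv_of_pos (by positivity),
            ENNReal.ofReal_pow (by norm_num)]
          norm_num
        have e2 : ENNReal.ofReal ((1 / 2 : ℝ) ^ n - -(1 / 2) ^ n) = 2 * ((2 : ℝ≥0∞) ^ n)⁻¹ := by
          rw [← e1]
          have : (1 / 2 : ℝ) ^ n - -(1 / 2) ^ n = 2 * (1 / 2) ^ n := by ring
          rw [this, ENNReal.ofReal_mul (by norm_num)]
          norm_num
        rw [e2, ENNReal.ofReal_mul (by positivity), e1, ENNReal.ofReal_coe_nnreal]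
        have h2 : (2 : ℝ≥0∞) ^ n * ((2 : ℝ≥0∞) ^ n)⁻¹ = 1 :=
          ENNReal.mul_inv_cancel (pow_ne_zero _ two_ne_zero) (ENNReal.pow_ne_top (by norm_num))
        calc (2 : ℝ≥0∞) ^ n * (K * ((2 : ℝ≥0∞) ^ n)⁻¹ * (2 * ((2 : ℝ≥0∞) ^ n)⁻¹)) =
            2 * K * ((2 : ℝ≥0∞) ^ n)⁻¹ * ((2 : ℝ≥0∞) ^ n * ((2 : ℝ≥0∞) ^ n)⁻¹) := by ring
          _ = _ := by rw [h2, mul_one]

end Pool.Agent.W771
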