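import Mathlib
import Pool.Agent.W771.Dyad
set_option autoImplicit false

/-! Multipliers with half a derivative in one of the variables. -/

namespace Pool.Agent.W771

open MeasureTheory Set Complex
open scoped ENNReal NNReal FourierTransform ComplexConjugate

/-- the scalar `2^(j/2)` -/
noncomputable def sc (j : ℕ) : ℂ := ((Real.sqrt (2 ^ j) : ℝ) : ℂ)

lemma sc_sq (j : ℕ) : sc j * sc j = 2 ^ j := by
  unfold sc
  rw [← ofReal_mul, Real.mul_self_sqrt (by positivity)]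
  push_cast
  rfl

lemma sc_enorm (j : ℕ) : ‖sc j‖ₑ ^ 2 = (2 : ℝ≥0∞) ^ j := by
  rw [sq, ← enorm_mul, sc_sq, enorm_two_pow]

/-- first factor -/
noncomputable def ad (j : ℕ) (G : ℝ × ℝ → ℂ) (u w : ℝ) : ℂ := sc j * JJ.indicator (fun w => G (u, w)) w

/-- second factor -/
noncomputable def bd (j : ℕ) (v w : ℝ) : ℂ := (cell j v).indicator (fun _ => sc j) w

lemma ad_meas (j : ℕ) (G : ℝ × ℝ → ℂ) (hG : Measurable G) : Measurable (Function.uncurry (ad j G)) := by
  have h1 : Function.uncurry (ad j G) = fun w : ℝ × ℝ => sc j *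
      ((fun w : ℝ × ℝ => w.2) ⁻¹' JJ).indicator G w := by
    ext w
    obtain ⟨u, w⟩ := w
    simp only [Function.uncurry_apply_pair, ad]
    congr 1
  rw [h1]
  exact (hG.indicator (measurable_snd measurableSet_Ico)).const_mul _

lemma bd_meas (j : ℕ) : Measurable (Function.uncurry (bd j)) := by
  have h1 : Function.uncurry (bd j) = {w : ℝ × ℝ | w.2 ∈ cell j w.1}.indicator (fun _ => sc j) := by
    ext w
    obtain ⟨v, w⟩ := w
    simp only [Function.uncurry_apply_pair, bd]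
    rfl
  rw [h1]
  exact measurable_const.indicator (cell_meas2 j)

lemma bd_N2 (j : ℕ) (v : ℝ) : N2 volume (bd j) v = 1 := by
  unfold N2 bd
  have h1 : ∀ w, ‖(cell j v).indicator (fun _ => sc j) w‖ₑ ^ 2 =
      (cell j v).indicator (fun _ => (2 : ℝ≥0∞) ^ j) w := by
    intro w
    by_cases h : w ∈ cell j v
    · rw [indicator_of_mem h, indicator_of_mem h, sc_enorm]
    · rw [indicator_of_notMem h, indicator_of_notMem h]
      simp
  simp only [h1]
  rw [lintegral_indicator_const (cell_meas j v), cell_vol]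
  exact ENNReal.mul_inv_cancel (pow_ne_zero _ two_ne_zero) (ENNReal.pow_ne_top (by norm_num))

lemma ad_N2 (j : ℕ) (G : ℝ × ℝ → ℂ) (hG : Measurable G) (u : ℝ) :
    N2 volume (ad j G) u = 2 ^ j * ∫⁻ w in JJ, ‖G (u, w)‖ₑ ^ 2 := by
  unfold N2 ad
  have hm : Measurable (fun w : ℝ => ‖G (u, w)‖ₑ ^ 2) := by
    have : Measurable (fun v : ℝ => (u, v)) := measurable_const.prodMk measurable_id
    exact (hG.comp this).enorm.pow_const 2
  rw [← lintegral_indicator measurableSet_Ico, ← lintegral_const_mul _ (hm.indicator measurableSet_Ico)]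
  congr 1
  ext w
  rw [enorm_mul, mul_pow, sc_enorm]
  congr 1
  by_cases h : w ∈ JJ
  · rw [indicator_of_mem h, indicator_of_mem h]
  · rw [indicator_of_notMem h, indicator_of_notMem h]
    simp

lemma FF_avg (j : ℕ) (G : ℝ × ℝ → ℂ) (u v : ℝ) :
    FF volume (ad j G) (bd j) (u, v) = avg j (fun w => G (u, w)) v := by
  unfold FF ad bd avg
  rw [← integral_indicator (measurableSet_Ico.inter (cell_meas j v)), ← integral_const_mul]
  congr 1
  ext w
  simp only
  by_cases h1 : w ∈ JJ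
  · by_cases h2 : w ∈ cell j v
    · rw [indicator_of_mem h1, indicator_of_mem h2, indicator_of_mem (show w ∈ JJ ∩ cell j v from ⟨h1, h2⟩),
        ← sc_sq]
      ring
    · rw [indicator_of_notMem h2,
        indicator_of_notMem (show w ∉ JJ ∩ cell j v from fun h => h2 h.2)]
      ring
  · rw [indicator_of_notMem h1,
      indicator_of_notMem (show w ∉ JJ ∩ cell j v from fun h => h1 h.1)]
    ring

/-- the average at level `k + 1` in the second variable -/
noncomputable def Av (g : ℝ × ℝ → ℂ) (k : ℕ) (w : ℝ × ℝ) : ℂ := avg (k + 1) (fun z => g (w.1, z)) w.2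

lemma Av_meas (g : ℝ × ℝ → ℂ) (hg : Measurable g) (k : ℕ) : Measurable (Av g k) := by
  have h1 : Av g k = FF volume (ad (k + 1) g) (bd (k + 1)) := by
    ext w
    obtain ⟨u, v⟩ := w
    rw [FF_avg]
    rfl
  rw [h1]
  exact FF_meas volume _ _ (ad_meas _ g hg) (bd_meas _)

/-- the remainders -/
noncomputable def Gk (g : ℝ × ℝ → ℂ) : ℕ → ℝ × ℝ → ℂ
  | 0 => g
  | k + 1 => fun w => g w - Av g k w

lemma Gk_meas (g : ℝ × ℝ → ℂ) (hg : Measurable g) (k : ℕ) : Measurable (Gk g k) := by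
  cases k with
  | zero => exact hg
  | succ k => exact hg.sub (Av_meas g hg k)

/-- regularity of order one half in the second variable -/
def RegV (K : ℝ≥0) (g : ℝ × ℝ → ℂ) : Prop :=
  ∀ u ∈ II, ∀ h ∈ Icc (0 : ℝ) 1, ∫⁻ v in Icc (-(1 / 2) : ℝ) (1 / 2 - h),
    ‖g (u, v + h) - g (u, v)‖ₑ ^ 2 ≤ ENNReal.ofReal (K * h)

lemma sec_meas (g : ℝ × ℝ → ℂ) (hg : Measurable g) (u : ℝ) : Measurable (fun v => g (u, v)) := by
  have : Measurable (fun v : ℝ => (u, v)) := measurable_const.prodMk measurable_id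
  exact hg.comp this

lemma Gk_L2 (K : ℝ≥0) (g : ℝ × ℝ → ℂ) (hg : Measurable g) (hb : ∀ w, ‖g w‖ ≤ 1)
    (hr : RegV K g) (u : ℝ) (hu : u ∈ II) (k : ℕ) :
    ∫⁻ w in JJ, ‖Gk g k (u, w)‖ₑ ^ 2 ≤ (1 + 2 * K) * ((2 : ℝ≥0∞) ^ k)⁻¹ := by
  cases k with
  | zero =>
    calc ∫⁻ w in JJ, ‖Gk g 0 (u, w)‖ₑ ^ 2 ≤ ∫⁻ w in JJ, 1 := by
          apply lintegral_mono
          intro w
          simp only [Gk]
          have : ‖g (u, w)‖ₑ ≤ 1 := by
            rw [← ofReal_norm]
            exact ENNReal.ofReal_le_one.mpr (hb _)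
          exact pow_le_one₀ zero_le this
      _ = 1 := by
          rw [lintegral_const, Measure.restrict_apply_univ, Real.volume_Ico]
          norm_num
      _ ≤ _ := by
          simp
  | succ k =>
    have h1 := avg_dist (fun w => g (u, w)) (sec_meas g hg u) (fun v => hb _) K (hr u hu) k
    calc ∫⁻ w in JJ, ‖Gk g (k + 1) (u, w)‖ₑ ^ 2 ≤ 2 * K * ((2 : ℝ≥0∞) ^ (k + 1))⁻¹ := h1
      _ ≤ _ := by
          gcongr
          exact le_add_self

lemma sum_Gk (g : ℝ × ℝ → ℂ) (hg : Measurable g) (hb : ∀ w, ‖g w‖ ≤ 1) (u v : ℝ) (hv : v ∈ JJ)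
    (n : ℕ) : ∑ j ∈ Finset.range (n + 1), FF volume (ad (j + 1) (Gk g j)) (bd (j + 1)) (u, v) =
      Av g n (u, v) := by
  induction n with
  | zero =>
    rw [zero_add, Finset.sum_range_one, FF_avg]
    rfl
  | succ n ih =>
    rw [Finset.sum_range_succ, ih, FF_avg]
    have h1 : (fun w => Gk g (n + 1) (u, w)) = fun w => (fun z => g (u, z)) w -
        (avg (n + 1) (fun z => g (u, z))) w := by
      ext w
      rfl
    rw [h1, avg_sub (n + 1 + 1) (fun z => g (u, z)) (avg (n + 1) (fun z => g (u, z)))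
      (sec_meas g hg u) (sec_meas (Av g n) (Av_meas g hg n) u) 1 (fun _ => hb _)
      (avg_bound (n + 1) _ fun _ => hb _), avg_avg n _ v hv]
    unfold Av
    ring

lemma two_rpow_neg (k : ℕ) : (2 : ℝ≥0∞) ^ (-(k : ℝ)) = ((2 : ℝ≥0∞) ^ k)⁻¹ := by
  rw [ENNReal.rpow_neg, ENNReal.rpow_natCast]

/-- closure under multiplication by functions regular in the second variable -/
theorem clos_v (q₁ q p : ℝ) (hq₁ : 0 < q₁) (hq : q₁ < q) (hp : 2 ≤ p) (K : ℝ≥0) (C₁ : ℝ≥0) :
    ∃ C₂ : ℝ≥0, ∀ m g : ℝ × ℝ → ℂ, Measurable m → Measurable g →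
    (∀ w, ‖m w‖ ≤ 1) → (∀ w, ‖g w‖ ≤ 1) → Good m q₁ p C₁ → RegV K g →
    Good (fun w => m w * g w) q p C₂ := by
  set L : ℝ≥0 := 2 * (1 + 2 * K) with hL
  have hL1 : 1 ≤ L := by
    rw [hL]
    calc (1 : ℝ≥0) ≤ 2 * 1 := by norm_num
      _ ≤ 2 * (1 + 2 * K) := by
          gcongr
          exact le_self_add
  obtain ⟨C₂, hC₂⟩ := closure_lemma q₁ q p hq₁ hq hp L hL1 C₁
  refine ⟨C₂, ?_⟩
  intro m g hm hg hmb hgb hgood hreg
  have hLe : ((1 : ℝ≥0∞) + 2 * K) ≤ L := by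
    rw [hL]
    push_cast
    calc (1 : ℝ≥0∞) + 2 * K = 1 * (1 + 2 * K) := (one_mul _).symm
      _ ≤ _ := by
        gcongr
        norm_num
  refine hC₂ m g hm hg hmb hgb hgood (fun j => ad (j + 1) (Gk g j)) (fun j => bd (j + 1))
    (fun j => ad_meas _ _ (Gk_meas g hg j)) (fun j => bd_meas _) ?_ ?_ ?_ ?_
  · intro j u hu
    rw [ad_N2 _ _ (Gk_meas g hg j)]
    calc (2 : ℝ≥0∞) ^ (j + 1) * ∫⁻ w in JJ, ‖Gk g j (u, w)‖ₑ ^ 2 ≤
        (2 : ℝ≥0∞) ^ (j + 1) * ((1 + 2 * K) * ((2 : ℝ≥0∞) ^ j)⁻¹) := by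
          gcongr
          exact Gk_L2 K g hg hgb hreg u hu j
      _ = 2 * (1 + 2 * K) * ((2 : ℝ≥0∞) ^ j * ((2 : ℝ≥0∞) ^ j)⁻¹) := by
          rw [pow_succ]
          ring
      _ = L := by
          rw [ENNReal.mul_inv_cancel (pow_ne_zero _ two_ne_zero)
            (ENNReal.pow_ne_top (by norm_num)), mul_one, hL]
          push_cast
          rfl
  · intro j u _
    exact (bd_N2 _ _).le
  · intro j u hu
    simp only [FF_avg]
    calc ∫⁻ v in II, ‖avg (j + 1) (fun w => Gk g j (u, w)) v‖ₑ ^ 2 ≤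
        ∫⁻ v, ‖avg (j + 1) (fun w => Gk g j (u, w)) v‖ₑ ^ 2 := setLIntegral_le_lintegral _ _
      _ ≤ ∫⁻ w in JJ, ‖Gk g j (u, w)‖ₑ ^ 2 := avg_L2 _ _ (sec_meas _ (Gk_meas g hg j) u)
      _ ≤ (1 + 2 * K) * ((2 : ℝ≥0∞) ^ j)⁻¹ := Gk_L2 K g hg hgb hreg u hu j
      _ ≤ _ := by
          rw [two_rpow_neg]
          gcongr
  · intro n u hu
    have h1 : ∫⁻ v in II, ‖g (u, v) - ∑ j ∈ Finset.range (n + 1),
        FF volume (ad (j + 1) (Gk g j)) (bd (j + 1)) (u, v)‖ₑ ^ 2 =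
        ∫⁻ v in JJ, ‖Gk g (n + 1) (u, v)‖ₑ ^ 2 := by
      rw [show II = Icc (-(1 / 2) : ℝ) (1 / 2) from rfl, ← restrict_Ico_eq_restrict_Icc]
      apply setLIntegral_congr_fun measurableSet_Ico
      intro v hv
      simp only
      rw [sum_Gk g hg hgb u v hv n]
      rfl
    rw [h1]
    calc _ ≤ (1 + 2 * K) * ((2 : ℝ≥0∞) ^ (n + 1))⁻¹ := Gk_L2 K g hg hgb hreg u hu (n + 1)
      _ ≤ L * ((2 : ℝ≥0∞) ^ n)⁻¹ := by
          gcongr
          · norm_num
          · omega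
      _ = _ := by rw [two_rpow_neg]

/-- exchanging the variables -/
theorem good_swap (m : ℝ × ℝ → ℂ) (hm : Measurable m) (q p : ℝ) (C : ℝ≥0) (h : Good m q p C) :
    Good (fun w => m w.swap) q p C := by
  intro Λ _ ν _ a b ha hb hza hzb hNa hNb
  have h1 := h Λ ν b a hb ha hzb hza hNb hNa
  have e1 : ∀ x y t, EE (fun w => FF ν a b w * m w.swap) x y t =
      EE (fun w => FF ν b a w * m w) y x t := by
    intro x y t
    unfold EE
    rw [Measure.volume_eq_prod, ← integral_prod_swap]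
    congr 1
    ext w
    simp only [Prod.fst_swap, Prod.snd_swap, Prod.swap_swap]
    have : FF ν a b w.swap = FF ν b a w := by
      unfold FF
      simp only [Prod.fst_swap, Prod.snd_swap]
      congr 1
      ext l
      ring
    rw [this]
    ring
  simp only [e1]
  refine le_trans (le_of_eq ?_) h1
  apply lintegral_congr
  intro t
  have hF := FF_meas ν b a hb ha
  have hEE : Measurable (fun z : ℝ × ℝ × ℝ => ‖EE (fun w => FF ν b a w * m w) z.1 z.2.1 z.2.2‖ₑ ^ q) :=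
    (EE_meas _ (hF.mul hm)).enorm.pow_const q
  have h2 : Measurable (fun w : ℝ × ℝ => (w.2, w.1, t)) :=
    measurable_snd.prodMk (measurable_fst.prodMk measurable_const)
  have h3 := Measurable.comp hEE h2
  rw [lintegral_lintegral_swap (f := fun x y => ‖EE (fun w => FF ν b a w * m w) y x t‖ₑ ^ q)]
  exact h3.aemeasurable

/-- closure under multiplication by functions regular in one of the variables -/
theorem clos (q₁ q p : ℝ) (hq₁ : 0 < q₁) (hq : q₁ < q) (hp : 2 ≤ p) (K : ℝ≥0) (C₁ : ℝ≥0) :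
    ∃ C₂ : ℝ≥0, ∀ m g : ℝ × ℝ → ℂ, Measurable m → Measurable g →
    (∀ w, ‖m w‖ ≤ 1) → (∀ w, ‖g w‖ ≤ 1) → Good m q₁ p C₁ →
    (RegV K g ∨ RegV K (fun w => g w.swap)) → Good (fun w => m w * g w) q p C₂ := by
  obtain ⟨C₂, hC₂⟩ := clos_v q₁ q p hq₁ hq hp K C₁
  refine ⟨C₂, ?_⟩
  intro m g hm hg hmb hgb hgood hreg
  rcases hreg with hreg | hreg
  · exact hC₂ m g hm hg hmb hgb hgood hreg
  · have h1 := hC₂ (fun w => m w.swap) (fun w => g w.swap) (hm.comp measurable_swap)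
      (hg.comp measurable_swap) (fun w => hmb _) (fun w => hgb _) (good_swap m hm q₁ p C₁ hgood) hreg
    have h2 := good_swap _ (((hm.comp measurable_swap).mul (hg.comp measurable_swap))) q p C₂ h1
    simpa using h2

theorem good_prod (p : ℝ) (hp : 2 ≤ p) (K : ℝ≥0) (n : ℕ) : ∀ q : ℝ, 3 < q → q < p * (q - 2) →
    ∃ C : ℝ≥0, ∀ g : Fin n → ℝ × ℝ → ℂ, (∀ i, Measurable (g i)) → (∀ i w, ‖g i w‖ ≤ 1) →
      (∀ i, RegV K (g i) ∨ RegV K (fun w => g i w.swap)) → Good (fun w => ∏ i, g i w) q p C := by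
  induction n with
  | zero =>
    intro q hq hpq
    obtain ⟨C, hC⟩ := good_one q p hq (by linarith) hpq
    refine ⟨C, ?_⟩
    intro g _ _ _
    simpa using hC
  | succ n ih =>
    intro q hq hpq
    set q₀ : ℝ := max 3 (2 * p / (p - 1)) with hq₀
    have hp1 : 0 < p - 1 := by linarith
    have hq0q : q₀ < q := by
      apply max_lt hq
      rw [div_lt_iff₀ hp1]
      linarith
    obtain ⟨C₁, hC₁⟩ := ih ((q₀ + q) / 2) (by linarith [le_max_left 3 (2 * p / (p - 1))]) (by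
      have h1 : 2 * p / (p - 1) < (q₀ + q) / 2 := by linarith [le_max_right 3 (2 * p / (p - 1))]
      rw [div_lt_iff₀ hp1] at h1
      linarith)
    obtain ⟨C₂, hC₂⟩ := clos ((q₀ + q) / 2) q p (by linarith [le_max_left 3 (2 * p / (p - 1))])
      (by linarith) hp K C₁
    refine ⟨C₂, ?_⟩
    intro g hg hgb hreg
    have h1 := hC₂ (fun w => ∏ i : Fin n, g i.castSucc w) (g (Fin.last n))
      (Finset.measurable_prod _ fun i _ => hg _) (hg _) ?_ (hgb _)
      (hC₁ (fun i => g i.castSucc) (fun i => hg _) (fun i => hgb _) fun i => hreg _) (hreg _)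
    · simpa only [Fin.prod_univ_castSucc] using h1
    · intro w
      rw [norm_prod]
      exact Finset.prod_le_one (fun i _ => norm_nonneg _) fun i _ => hgb _ w

end Pool.Agent.W771
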