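import Mathlib
import Pool.Agent.W771.Reg
set_option autoImplicit false

/-! Homogeneous form of the estimates. -/

namespace Pool.Agent.W771

open MeasureTheory Set Complex
open scoped ENNReal NNReal FourierTransform ComplexConjugate

section
variable {Λ : Type} [MeasurableSpace Λ] (ν : Measure Λ)

/-- the mixed norm, raised to the power `p` -/
noncomputable def mix (ν : Measure Λ) (a : ℝ → Λ → ℂ) (p : ℝ) : ℝ≥0∞ := ∫⁻ u in II, N2 ν a u ^ (p / 2)

lemma N2_smul (a : ℝ → Λ → ℂ) (ha : Measurable (Function.uncurry a)) (c : ℂ) (u : ℝ) :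
    N2 ν (fun u l => c * a u l) u = ‖c‖ₑ ^ 2 * N2 ν a u := by
  unfold N2
  rw [← lintegral_const_mul _ ((a_meas_l a ha u).enorm.pow_const 2)]
  congr 1
  ext l
  rw [enorm_mul, mul_pow]

lemma mix_smul [SFinite ν] (a : ℝ → Λ → ℂ) (ha : Measurable (Function.uncurry a)) (c : ℂ) (p : ℝ)
    (hp : 0 < p) : mix ν (fun u l => c * a u l) p = ‖c‖ₑ ^ p * mix ν a p := by
  unfold mix
  rw [← lintegral_const_mul _ ((N2_meas ν a ha).pow_const _)]
  congr 1
  ext u
  rw [N2_smul ν a ha, ENNReal.mul_rpow_of_nonneg _ _ (by positivity), ← ENNReal.rpow_natCast,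
    ← ENNReal.rpow_mul]
  congr 2
  push_cast
  ring

end

/-- a scalar with prescribed modulus -/
lemma exists_scalar (x : ℝ≥0∞) (hx : x ≠ ∞) : ∃ c : ℂ, ‖c‖ₑ = x := by
  refine ⟨((x.toReal : ℝ) : ℂ), ?_⟩
  rw [← ofReal_norm, Complex.norm_real, Real.norm_of_nonneg ENNReal.toReal_nonneg,
    ENNReal.ofReal_toReal hx]

lemma good_hom (m : ℝ × ℝ → ℂ) (q p : ℝ) (hq : 0 < q) (hp : 0 < p) (C : ℝ≥0) (h : Good m q p C)
    (Λ : Type) [MeasurableSpace Λ] (ν : Measure Λ) [SFinite ν] (a b : ℝ → Λ → ℂ)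
    (ha : Measurable (Function.uncurry a)) (hb : Measurable (Function.uncurry b))
    (hza : ∀ u, u ∉ II → ∀ l, a u l = 0) (hzb : ∀ u, u ∉ II → ∀ l, b u l = 0)
    (hA : mix ν a p ≠ ∞) (hB : mix ν b p ≠ ∞) :
    ∫⁻ t, ∫⁻ x, ∫⁻ y, ‖EE (fun w => FF ν a b w * m w) x y t‖ₑ ^ q ≤
      C * mix ν a p ^ (q / p) * mix ν b p ^ (q / p) := by
  -- the bound with larger quantities
  have key : ∀ A B : ℝ≥0∞, A ≠ ∞ → B ≠ ∞ → A ≠ 0 → B ≠ 0 → mix ν a p ≤ A → mix ν b p ≤ B →
      ∫⁻ t, ∫⁻ x, ∫⁻ y, ‖EE (fun w => FF ν a b w * m w) x y t‖ₑ ^ q ≤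
      C * A ^ (q / p) * B ^ (q / p) := by
    intro A B hAt hBt hA0 hB0 hAl hBl
    have hne : ∀ X : ℝ≥0∞, X ≠ ∞ → X ≠ 0 → ∀ s : ℝ, X ^ s ≠ ∞ := by
      intro X h1 h2 s hs
      rw [ENNReal.rpow_eq_top_iff] at hs
      rcases hs with hs | hs
      · exact h2 hs.1
      · exact h1 hs.1
    obtain ⟨c, hc⟩ := exists_scalar (A ^ (-(1 / p))) (hne A hAt hA0 _)
    obtain ⟨d, hd⟩ := exists_scalar (B ^ (-(1 / p))) (hne B hBt hB0 _)
    have n1 : ∀ X : ℝ≥0∞, X ≠ ∞ → X ≠ 0 → ∀ Y ≤ X, (X ^ (-(1 / p))) ^ p * Y ≤ 1 := by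
      intro X h1 h2 Y hY
      rw [← ENNReal.rpow_mul]
      have : -(1 / p) * p = -1 := by field_simp
      rw [this, ENNReal.rpow_neg_one]
      calc X⁻¹ * Y ≤ X⁻¹ * X := by gcongr
        _ = 1 := ENNReal.inv_mul_cancel h2 h1
    have h1 := h Λ ν (fun u l => c * a u l) (fun u l => d * b u l)
      (by
        have := ha.const_mul c
        exact this)
      (by
        have := hb.const_mul d
        exact this)
      (fun u hu l => by simp [hza u hu]) (fun u hu l => by simp [hzb u hu])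
      (by
        have := mix_smul ν a ha c p hp
        unfold mix at this
        rw [this, hc]
        exact n1 A hAt hA0 _ hAl)
      (by
        have := mix_smul ν b hb d p hp
        unfold mix at this
        rw [this, hd]
        exact n1 B hBt hB0 _ hBl)
    have e1 : ∀ x y t, ‖EE (fun w => FF ν (fun u l => c * a u l) (fun u l => d * b u l) w * m w)
        x y t‖ₑ ^ q = (A ^ (-(q / p)) * B ^ (-(q / p))) *
          ‖EE (fun w => FF ν a b w * m w) x y t‖ₑ ^ q := by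
      intro x y t
      have e2 : EE (fun w => FF ν (fun u l => c * a u l) (fun u l => d * b u l) w * m w) x y t =
          c * d * EE (fun w => FF ν a b w * m w) x y t := by
        unfold EE
        rw [← integral_const_mul]
        congr 1
        ext w
        have : FF ν (fun u l => c * a u l) (fun u l => d * b u l) w = c * d * FF ν a b w := by
          unfold FF
          rw [← integral_const_mul]
          congr 1
          ext l
          ring
        simp only [this]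
        ring
      rw [e2, enorm_mul, enorm_mul, ENNReal.mul_rpow_of_nonneg _ _ hq.le,
        ENNReal.mul_rpow_of_nonneg _ _ hq.le, hc, hd, ← ENNReal.rpow_mul, ← ENNReal.rpow_mul]
      congr 3 <;> ring
    simp only [e1] at h1
    have hABt : A ^ (-(q / p)) * B ^ (-(q / p)) ≠ ∞ :=
      ENNReal.mul_ne_top (hne A hAt hA0 _) (hne B hBt hB0 _)
    simp only [lintegral_const_mul' _ _ hABt] at h1
    calc ∫⁻ t, ∫⁻ x, ∫⁻ y, ‖EE (fun w => FF ν a b w * m w) x y t‖ₑ ^ q =
        (A ^ (q / p) * B ^ (q / p)) * ((A ^ (-(q / p)) * B ^ (-(q / p))) *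
          ∫⁻ t, ∫⁻ x, ∫⁻ y, ‖EE (fun w => FF ν a b w * m w) x y t‖ₑ ^ q) := by
          rw [← mul_assoc]
          have : A ^ (q / p) * B ^ (q / p) * (A ^ (-(q / p)) * B ^ (-(q / p))) = 1 := by
            calc _ = (A ^ (q / p) * A ^ (-(q / p))) * (B ^ (q / p) * B ^ (-(q / p))) := by ring
              _ = 1 := by
                rw [← ENNReal.rpow_add _ _ hA0 hAt, ← ENNReal.rpow_add _ _ hB0 hBt]
                simp
          rw [this, one_mul]
      _ ≤ (A ^ (q / p) * B ^ (q / p)) * C := by gcongr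
      _ = _ := by ring
  -- the limit
  set A : ℕ → ℝ≥0∞ := fun n => mix ν a p + (n + 1 : ℝ≥0∞)⁻¹ with hAdef
  set B : ℕ → ℝ≥0∞ := fun n => mix ν b p + (n + 1 : ℝ≥0∞)⁻¹ with hBdef
  have hinv : ∀ n : ℕ, ((n : ℝ≥0∞) + 1)⁻¹ ≠ ∞ := fun n => ENNReal.inv_ne_top.mpr (by simp)
  have hinv0 : ∀ n : ℕ, ((n : ℝ≥0∞) + 1)⁻¹ ≠ 0 := fun n => ENNReal.inv_ne_zero.mpr (by finiteness)
  have hn : ∀ n, ∫⁻ t, ∫⁻ x, ∫⁻ y, ‖EE (fun w => FF ν a b w * m w) x y t‖ₑ ^ q ≤
      C * A n ^ (q / p) * B n ^ (q / p) := by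
    intro n
    apply key (A n) (B n) (ENNReal.add_ne_top.mpr ⟨hA, hinv n⟩) (ENNReal.add_ne_top.mpr ⟨hB, hinv n⟩)
    · intro h0
      exact hinv0 n (add_eq_zero.mp h0).2
    · intro h0
      exact hinv0 n (add_eq_zero.mp h0).2
    · exact le_self_add
    · exact le_self_add
  have ht : Filter.Tendsto (fun n : ℕ => ((n : ℝ≥0∞) + 1)⁻¹) Filter.atTop (nhds 0) := by
    have h1 := ENNReal.tendsto_inv_nat_nhds_zero
    have h2 := (Filter.tendsto_add_atTop_iff_nat 1).mpr h1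
    refine h2.congr fun n => ?_
    push_cast
    rfl
  have hX : ∀ X : ℝ≥0∞, Filter.Tendsto (fun n : ℕ => (X + ((n : ℝ≥0∞) + 1)⁻¹) ^ (q / p)) Filter.atTop
      (nhds (X ^ (q / p))) := by
    intro X
    have h1 : Filter.Tendsto (fun n : ℕ => X + ((n : ℝ≥0∞) + 1)⁻¹) Filter.atTop (nhds (X + 0)) :=
      tendsto_const_nhds.add ht
    rw [add_zero] at h1
    exact (ENNReal.continuous_rpow_const (y := q / p)).continuousAt.tendsto.comp h1
  have hAq : mix ν a p ^ (q / p) ≠ ∞ := ENNReal.rpow_ne_top_of_nonneg (by positivity) hA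
  have hBq : mix ν b p ^ (q / p) ≠ ∞ := ENNReal.rpow_ne_top_of_nonneg (by positivity) hB
  have hlim : Filter.Tendsto (fun n => C * A n ^ (q / p) * B n ^ (q / p)) Filter.atTop
      (nhds (C * mix ν a p ^ (q / p) * mix ν b p ^ (q / p))) := by
    apply ENNReal.Tendsto.mul
    · exact ENNReal.Tendsto.const_mul (hX _) (Or.inr ENNReal.coe_ne_top)
    · exact Or.inr hBq
    · exact hX _
    · exact Or.inr (ENNReal.mul_ne_top ENNReal.coe_ne_top hAq)
  exact ge_of_tendsto' hlim hn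

/-- the triple integral -/
lemma lint_triple (f : ℝ × ℝ × ℝ → ℝ≥0∞) (hf : Measurable f) :
    ∫⁻ z, f z = ∫⁻ t, ∫⁻ x, ∫⁻ y, f (x, y, t) := by
  rw [Measure.volume_eq_prod, lintegral_prod _ hf.aemeasurable]
  have h1 : ∀ x, ∫⁻ yt : ℝ × ℝ, f (x, yt) = ∫⁻ t, ∫⁻ y, f (x, y, t) := by
    intro x
    have h2 : Measurable (fun yt : ℝ × ℝ => f (x, yt)) :=
      hf.comp (measurable_const.prodMk measurable_id)
    rw [Measure.volume_eq_prod, lintegral_prod_symm _ h2.aemeasurable]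
  simp only [h1]
  rw [lintegral_lintegral_swap (f := fun x t => ∫⁻ y, f (x, y, t))]
  have h3 : Measurable (fun w : (ℝ × ℝ) × ℝ => (w.1.1, w.2, w.1.2)) :=
    (measurable_fst.comp measurable_fst).prodMk (measurable_snd.prodMk
      (measurable_snd.comp measurable_fst))
  have h4 : Measurable (fun w : (ℝ × ℝ) × ℝ => f (w.1.1, w.2, w.1.2)) := hf.comp h3
  have h5 : Measurable (fun w : ℝ × ℝ => ∫⁻ y, f (w.1, y, w.2)) :=
    Measurable.lintegral_prod_right' h4
  exact h5.aemeasurable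

lemma integral_count_nat (f : ℕ → ℂ) : ∫ k, f k ∂Measure.count = ∑' k, f k := by
  by_cases hf : Summable f
  · have h1 : Integrable f Measure.count := integrable_count_iff.mpr hf.norm
    have h2 := hasSum_integral_measure (μ := Measure.dirac (α := ℕ)) (f := f) (by
      exact h1)
    have h3 : ∀ k : ℕ, ∫ a, f a ∂(Measure.dirac k) = f k := fun k => integral_dirac f k
    simp only [h3] at h2
    exact h2.tsum_eq.symm
  · rw [tsum_eq_zero_of_not_summable hf, integral_undef]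
    rw [integrable_count_iff]
    exact fun h => hf (summable_norm_iff.mp h)

end Pool.Agent.W771
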