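import Mathlib
import Pool.Agent.W771.Layer
set_option autoImplicit false

/-! The strong mixed norm bound for the vector-valued extension operator of the parabola. -/

namespace Pool.Agent.W771

open MeasureTheory Set Complex
open scoped ENNReal NNReal FourierTransform ComplexConjugate

/-- **the restricted bound** -/
lemma restrN (n : ℕ) (hn : 2 ≤ n) (q δ : ℝ) (hδ : 0 < δ) (hδq : 2 + 4 * δ ≤ n * (q - 2)) :
    ∃ C : ℝ≥0,
    ∀ (Λ : Type) [MeasurableSpace Λ] (ν : Measure Λ) [SFinite ν] (a : ℝ → Λ → ℂ),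
    Measurable (Function.uncurry a) → ∀ A : Set ℝ, MeasurableSet A →
    A ⊆ Icc (-(1 / 2)) (1 / 2) → (∀ u, u ∉ A → ∀ l, a u l = 0) → (∀ u, N2 ν a u ≤ 1) →
    ∫⁻ t, (∫⁻ x, M2 ν a x t ^ (q / 2)) ^ n ≤ C * volume A ^ (n * (q - 1) - 2 - 2 * δ) := by
  have hn0 : (0 : ℝ) < n := by
    have : (2 : ℝ) ≤ n := by exact_mod_cast hn
    linarith
  have hn1 : (1 : ℝ) < n := by
    have : (2 : ℝ) ≤ n := by exact_mod_cast hn
    linarith
  set q₁ : ℝ := 2 + n * (q - 2) with hq₁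
  obtain ⟨C1, hC1⟩ := ker_Lr (q₁ / 2) δ hδ (by rw [hq₁]; linarith)
  refine ⟨(2 * Real.pi).toNNReal ^ (n - 1) * C1, ?_⟩
  intro Λ _ ν _ a ha A hA hAI hz hN
  have hvA : volume A ≤ 1 := vol_A_le A hAI
  have hMt : ∀ t, Measurable (fun x => M2 ν a x t) := fun t => M2_meas_x ν a ha t
  have hq2 : 2 < q := by
    by_contra hc
    push Not at hc
    nlinarith
  have h1 : ∀ t, ∫⁻ x, M2 ν a x t ≤ ENNReal.ofReal (2 * Real.pi) * volume A := by
    intro t
    refine (M2_planch ν a ha A hA hAI hz t).trans ?_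
    gcongr
    calc ∫⁻ u, N2 ν a u ≤ ∫⁻ u, A.indicator (fun _ => (1 : ℝ≥0∞)) u := by
          apply lintegral_mono
          intro u
          by_cases hu : u ∈ A
          · simp only
            rw [indicator_of_mem hu]
            exact hN u
          · simp only
            rw [N2_zero ν a A hz u hu]
            exact zero_le
      _ = volume A := by
          rw [lintegral_indicator hA]
          simp
  have h2 : ∀ t, (∫⁻ x, M2 ν a x t ^ (q / 2)) ^ n ≤
      (∫⁻ x, M2 ν a x t ^ (q₁ / 2)) * (∫⁻ x, M2 ν a x t) ^ (n - 1) := by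
    intro t
    have hc := Real.HolderConjugate.conjExponent hn1
    unfold Real.conjExponent at hc
    have h3 := ENNReal.lintegral_mul_le_Lp_mul_Lq (volume : Measure ℝ) hc
      (f := fun x => M2 ν a x t ^ (q₁ / 2 / n)) (g := fun x => M2 ν a x t ^ (1 - 1 / n : ℝ))
      ((hMt t).pow_const _).aemeasurable ((hMt t).pow_const _).aemeasurable
    have e1 : ∀ x, M2 ν a x t ^ (q / 2) =
        ((fun x => M2 ν a x t ^ (q₁ / 2 / n)) * (fun x => M2 ν a x t ^ (1 - 1 / n : ℝ))) x := by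
      intro x
      simp only [Pi.mul_apply]
      rw [← ENNReal.rpow_add_of_nonneg _ _ (by positivity)
        (by rw [sub_nonneg, div_le_one hn0]; exact hn1.le)]
      congr 1
      rw [hq₁]
      field_simp
      ring
    have e2 : ∀ x, (M2 ν a x t ^ (q₁ / 2 / n)) ^ (n : ℝ) = M2 ν a x t ^ (q₁ / 2) := by
      intro x
      rw [← ENNReal.rpow_mul]
      congr 1
      field_simp
    have e3 : ∀ x, (M2 ν a x t ^ (1 - 1 / n : ℝ)) ^ ((n : ℝ) / (n - 1)) = M2 ν a x t := by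
      intro x
      rw [← ENNReal.rpow_mul]
      have : (1 - 1 / (n : ℝ)) * ((n : ℝ) / (n - 1)) = 1 := by
        have h4 : (n : ℝ) - 1 ≠ 0 := by linarith
        field_simp
      rw [this, ENNReal.rpow_one]
    simp only [e2, e3] at h3
    simp only [e1]
    calc _ ≤ ((∫⁻ x, M2 ν a x t ^ (q₁ / 2)) ^ (1 / (n : ℝ)) *
        (∫⁻ x, M2 ν a x t) ^ (1 / ((n : ℝ) / (n - 1)))) ^ n := by
          gcongr
      _ = _ := by
          rw [mul_pow, ← ENNReal.rpow_natCast, ← ENNReal.rpow_natCast, ← ENNReal.rpow_mul,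
            ← ENNReal.rpow_mul, ← ENNReal.rpow_natCast]
          have h4 : (n : ℝ) - 1 ≠ 0 := by linarith
          have e4 : 1 / (n : ℝ) * n = 1 := by field_simp
          have e5 : 1 / ((n : ℝ) / (n - 1)) * n = ((n - 1 : ℕ) : ℝ) := by
            rw [Nat.cast_sub (by omega)]
            field_simp
            push_cast
            ring
          rw [e4, e5, ENNReal.rpow_one]
  calc ∫⁻ t, (∫⁻ x, M2 ν a x t ^ (q / 2)) ^ n ≤
      ∫⁻ t, (∫⁻ x, M2 ν a x t ^ (q₁ / 2)) * (ENNReal.ofReal (2 * Real.pi) * volume A) ^ (n - 1) := by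
        apply lintegral_mono
        intro t
        refine (h2 t).trans (mul_le_mul' le_rfl ?_)
        exact pow_le_pow_left₀ zero_le (h1 t) _
    _ = (∫⁻ t, ∫⁻ x, M2 ν a x t ^ (q₁ / 2)) *
        (ENNReal.ofReal (2 * Real.pi) * volume A) ^ (n - 1) := by
        rw [lintegral_mul_const']
        apply ENNReal.pow_ne_top
        apply ENNReal.mul_ne_top ENNReal.ofReal_ne_top
        exact ne_top_of_le_ne_top ENNReal.one_ne_top hvA
    _ ≤ (C1 * volume A ^ (2 * (q₁ / 2) - 3 - 2 * δ)) *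
        (ENNReal.ofReal (2 * Real.pi) * volume A) ^ (n - 1) := by
        gcongr
        simp only [M2_eq ν a ha A hA hAI hz hN]
        apply hC1 A hA hAI (kk ν a) (kk_meas ν a ha)
        · intro p
          have := kk_bound ν a ha hN p
          rw [← ofReal_norm, ENNReal.ofReal_le_one] at this
          exact this
        · exact kk_supp ν a A hz
    _ = _ := by
        rw [mul_pow]
        have e6 : volume A ^ (n - 1) = volume A ^ ((n : ℝ) - 1) := by
          rw [← ENNReal.rpow_natCast]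
          congr 1
          rw [Nat.cast_sub (by omega)]
          push_cast
          ring
        have e : (n : ℝ) * (q - 1) - 2 - 2 * δ = (2 * (q₁ / 2) - 3 - 2 * δ) + (n - 1) := by
          rw [hq₁]
          ring
        rw [e6, e, ENNReal.rpow_add_of_nonneg _ _ (by rw [hq₁]; nlinarith) (by linarith)]
        push_cast
        rw [ENNReal.ofReal]
        ring

/-- **the strong mixed norm bound in one variable** -/
theorem oneVarN (n : ℕ) (hn : 2 ≤ n) (q p : ℝ) (hq : 2 < n * (q - 2)) (hp0 : 0 < p)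
    (hp : n * q < p * (n * (q - 1) - 2)) : ∃ C : ℝ≥0,
    ∀ (Λ : Type) [MeasurableSpace Λ] (ν : Measure Λ) [SFinite ν] (a : ℝ → Λ → ℂ),
    Measurable (Function.uncurry a) →
    (∀ u, u ∉ Icc (-(1 / 2) : ℝ) (1 / 2) → ∀ l, a u l = 0) →
    (∫⁻ u in Icc (-(1 / 2) : ℝ) (1 / 2), N2 ν a u ^ (p / 2) ≤ 1) →
    ∫⁻ t, (∫⁻ x, M2 ν a x t ^ (q / 2)) ^ n ≤ C := by
  have hn1 : (2 : ℝ) ≤ n := by exact_mod_cast hn
  have hq2 : 2 < q := by
    by_contra hc
    push Not at hc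
    nlinarith
  set D : ℝ := p * (n * (q - 1) - 2) - n * q with hD
  have hD0 : 0 < D := by linarith
  set δ : ℝ := min ((n * (q - 2) - 2) / 4) (D / (4 * p)) with hδ
  have hδ0 : 0 < δ := lt_min (by linarith) (by positivity)
  set ε : ℝ := D / (4 * (1 + n + n * q / 2)) with hε
  have hden : 0 < 1 + (n : ℝ) + n * q / 2 := by positivity
  have hε0 : 0 < ε := by positivity
  have hδ1 : δ ≤ (n * (q - 2) - 2) / 4 := min_le_left _ _
  have hδ2 : δ ≤ D / (4 * p) := min_le_right _ _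
  obtain ⟨C0, hC0⟩ := restrN n hn q δ hδ0 (by linarith)
  obtain ⟨C1, hC1⟩ := sum_sq' ε hε0
  obtain ⟨C2, hC2⟩ := sum_pow' (q / 2) ε (by linarith) hε0
  obtain ⟨C1n, hC1n⟩ := sum_pow' n ε (by linarith) hε0
  set θ : ℝ := n * (q - 1) - 2 - 2 * δ with hθ
  have hθ0 : 0 < θ := by
    have : n * (q - 1) = n * (q - 2) + n := by ring
    linarith
  set s1 : ℝ := ε + (ε + 2) * (q / 2) with hs1
  set s2 : ℝ := ε + n * s1 with hs2
  have hneg : s2 - p * θ < 0 := by
    have e1 : p * δ ≤ D / 4 := by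
      calc p * δ ≤ p * (D / (4 * p)) := by gcongr
        _ = D / 4 := by field_simp
    have e2 : ε * (1 + n + n * q / 2) = D / 4 := by
      rw [hε]
      field_simp
    have e3 : s2 - p * θ = ε * (1 + n + n * q / 2) + 2 * (p * δ) - D := by
      rw [hs2, hs1, hθ, hD]
      ring
    rw [e3, e2]
    linarith
  set C3 : ℝ≥0∞ := (C1 : ℝ≥0∞) ^ (q / 2) * C2 with hC3
  have hC3t : C3 ≠ ∞ := ENNReal.mul_ne_top
    (ENNReal.rpow_ne_top_of_nonneg (by linarith) ENNReal.coe_ne_top) ENNReal.coe_ne_top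
  set T : ℝ≥0∞ := C3 ^ n * C1n * (C0 * ((2 : ℝ≥0∞) ^ p) ^ θ * ∑' k : ℕ,
    (2 : ℝ≥0∞) ^ ((s2 - p * θ) * (k : ℝ))) with hT
  have hTt : T ≠ ∞ := by
    apply ENNReal.mul_ne_top
    · exact ENNReal.mul_ne_top (ENNReal.pow_ne_top hC3t) ENNReal.coe_ne_top
    · apply ENNReal.mul_ne_top _ (tsum_two_ne_top _ hneg)
      apply ENNReal.mul_ne_top ENNReal.coe_ne_top
      exact ENNReal.rpow_ne_top_of_nonneg hθ0.le
        (ENNReal.rpow_ne_top_of_nonneg hp0.le (by norm_num))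
  refine ⟨T.toNNReal, ?_⟩
  intro Λ _ ν _ a ha hz hN
  rw [ENNReal.coe_toNNReal hTt]
  have hfin : ∀ᵐ u : ℝ, N2 ν a u < ∞ := by
    have h1 : ∀ᵐ u ∂(volume.restrict (Icc (-(1 / 2) : ℝ) (1 / 2))), N2 ν a u ^ (p / 2) < ∞ := by
      apply ae_lt_top ((N2_meas ν a ha).pow_const _)
      exact ne_top_of_le_ne_top ENNReal.one_ne_top hN
    rw [ae_restrict_iff' measurableSet_Icc] at h1
    filter_upwards [h1] with u hu
    by_cases h : u ∈ Icc (-(1 / 2) : ℝ) (1 / 2)
    · have h2 := hu h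
      by_contra hc
      have : N2 ν a u = ∞ := by
        simpa using hc
      rw [this, ENNReal.top_rpow_of_pos (by positivity)] at h2
      exact absurd h2 (lt_irrefl _)
    · rw [N2_zero ν a (Icc (-(1 / 2) : ℝ) (1 / 2)) hz u h]
      exact ENNReal.zero_lt_top
  set B : ℕ → ℝ → ℝ≥0∞ := fun k t => ∫⁻ x, M2 ν (pc ν a k) x t ^ (q / 2) with hB
  have hMm : ∀ k, Measurable (fun w : ℝ × ℝ => M2 ν (pc ν a k) w.1 w.2 ^ (q / 2)) := fun k =>
    (M2_meas ν _ (pc_meas ν a ha k)).pow_const _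
  have hMx : ∀ k t, Measurable (fun x => M2 ν (pc ν a k) x t ^ (q / 2)) := fun k t =>
    (M2_meas_x ν _ (pc_meas ν a ha k) t).pow_const _
  have hBm : ∀ k, Measurable (B k) := by
    intro k
    exact Measurable.lintegral_prod_left' (hMm k)
  -- step B
  have hstB : ∀ x t, M2 ν a x t ^ (q / 2) ≤ C3 * ∑' k : ℕ, (2 : ℝ≥0∞) ^ (s1 * (k : ℝ)) *
      M2 ν (pc ν a k) x t ^ (q / 2) := by
    intro x t
    calc M2 ν a x t ^ (q / 2) ≤ (C1 * ∑' k : ℕ, (2 : ℝ≥0∞) ^ ((ε + 2) * (k : ℝ)) *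
            M2 ν (pc ν a k) x t) ^ (q / 2) := by
          apply ENNReal.rpow_le_rpow _ (by linarith)
          exact M2_le_sum ν a ha hz hfin C1 ε hC1 x t
      _ = C1 ^ (q / 2) * (∑' k : ℕ, (2 : ℝ≥0∞) ^ ((ε + 2) * (k : ℝ)) *
            M2 ν (pc ν a k) x t) ^ (q / 2) := ENNReal.mul_rpow_of_nonneg _ _ (by linarith)
      _ ≤ C1 ^ (q / 2) * (C2 * ∑' k : ℕ, (2 : ℝ≥0∞) ^ (ε * (k : ℝ)) *
        ((2 : ℝ≥0∞) ^ ((ε + 2) * (k : ℝ)) * M2 ν (pc ν a k) x t) ^ (q / 2)) := by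
          gcongr
          exact hC2 _
      _ = _ := by
          rw [hC3, mul_assoc]
          congr 3
          ext k
          rw [ENNReal.mul_rpow_of_nonneg _ _ (by linarith), ← ENNReal.rpow_mul, ← mul_assoc,
            ← two_add]
          congr 2
          rw [hs1]
          ring
  -- step C
  have hstC : ∀ t, ∫⁻ x, M2 ν a x t ^ (q / 2) ≤ C3 * ∑' k : ℕ, (2 : ℝ≥0∞) ^ (s1 * (k : ℝ)) *
      B k t := by
    intro t
    calc ∫⁻ x, M2 ν a x t ^ (q / 2) ≤ ∫⁻ x, C3 * ∑' k : ℕ, (2 : ℝ≥0∞) ^ (s1 * (k : ℝ)) *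
            M2 ν (pc ν a k) x t ^ (q / 2) := lintegral_mono fun x => hstB x t
      _ = _ := by
        rw [lintegral_const_mul' _ _ hC3t, lintegral_tsum]
        · congr 2
          ext k
          rw [lintegral_const_mul _ (hMx k t)]
        · intro k
          exact ((hMx k t).const_mul _).aemeasurable
  -- step D
  have hstD : ∀ t, (∫⁻ x, M2 ν a x t ^ (q / 2)) ^ n ≤ C3 ^ n * C1n * ∑' k : ℕ,
      (2 : ℝ≥0∞) ^ (s2 * (k : ℝ)) * B k t ^ n := by
    intro t
    calc (∫⁻ x, M2 ν a x t ^ (q / 2)) ^ n ≤ (C3 * ∑' k : ℕ, (2 : ℝ≥0∞) ^ (s1 * (k : ℝ)) *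
            B k t) ^ n := by
          have := hstC t
          gcongr
      _ = C3 ^ n * (∑' k : ℕ, (2 : ℝ≥0∞) ^ (s1 * (k : ℝ)) * B k t) ^ n := mul_pow _ _ _
      _ ≤ C3 ^ n * (C1n * ∑' k : ℕ, (2 : ℝ≥0∞) ^ (ε * (k : ℝ)) *
            ((2 : ℝ≥0∞) ^ (s1 * (k : ℝ)) * B k t) ^ n) := by
          have h5 := hC1n (fun k => (2 : ℝ≥0∞) ^ (s1 * (k : ℝ)) * B k t)
          simp only [ENNReal.rpow_natCast] at h5
          exact mul_le_mul' le_rfl h5
      _ = _ := by
          rw [← mul_assoc]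
          congr 2
          ext k
          rw [mul_pow, ← mul_assoc, ← ENNReal.rpow_natCast ((2 : ℝ≥0∞) ^ (s1 * (k : ℝ))),
            ← ENNReal.rpow_mul, ← two_add]
          congr 2
          rw [hs2]
          ring
  calc ∫⁻ t, (∫⁻ x, M2 ν a x t ^ (q / 2)) ^ n ≤ ∫⁻ t, C3 ^ n * C1n * ∑' k : ℕ,
      (2 : ℝ≥0∞) ^ (s2 * (k : ℝ)) * B k t ^ n := lintegral_mono hstD
    _ = C3 ^ n * C1n * ∑' k : ℕ, (2 : ℝ≥0∞) ^ (s2 * (k : ℝ)) * ∫⁻ t, B k t ^ n := by
        rw [lintegral_const_mul' _ _ (ENNReal.mul_ne_top (ENNReal.pow_ne_top hC3t)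
          ENNReal.coe_ne_top), lintegral_tsum]
        · congr 2
          ext k
          rw [lintegral_const_mul _ ((hBm k).pow_const n)]
        · intro k
          exact (((hBm k).pow_const n).const_mul _).aemeasurable
    _ ≤ C3 ^ n * C1n * ∑' k : ℕ, (2 : ℝ≥0∞) ^ (s2 * (k : ℝ)) *
          (C0 * ((2 : ℝ≥0∞) ^ p * 2 ^ (-p * (k : ℝ))) ^ θ) := by
        gcongr with k
        refine (hC0 Λ ν (pc ν a k) (pc_meas ν a ha k) (Ly ν a k) (Ly_meas ν a ha k)
          (Ly_sub ν a k) (fun u hu l => pc_zero ν a k u hu l) (pc_N2 ν a ha k)).trans ?_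
        gcongr
        exact Ly_vol ν a ha p hp0 hN k
    _ = T := by
        rw [hT]
        congr 1
        rw [← ENNReal.tsum_mul_left]
        congr 1
        ext k
        rw [ENNReal.mul_rpow_of_nonneg _ _ hθ0.le, ← ENNReal.rpow_mul (2 : ℝ≥0∞) (-p * (k : ℝ)) θ]
        have : (s2 - p * θ) * (k : ℝ) = s2 * (k : ℝ) + -p * (k : ℝ) * θ := by ring
        rw [this, two_add]
        ring

end Pool.Agent.W771
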