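import Mathlib
import Pool.Agent.W771.Dyad
set_option autoImplicit false

/-! Averages over dyadic cubes in several variables. -/

namespace Pool.Agent.W771.MD

open MeasureTheory Set Complex
open scoped ENNReal NNReal

variable {m : ℕ}

/-- the half open cube `[-1,1)^m` -/
def CC (m : ℕ) : Set (Fin m → ℝ) := Set.pi univ fun _ => Ico (-1 : ℝ) 1

/-- the dyadic cube of `v` -/
def cm (j : ℕ) (v : Fin m → ℝ) : Set (Fin m → ℝ) := Set.pi univ fun i => cell j (v i)

lemma CC_meas : MeasurableSet (CC m) := MeasurableSet.univ_pi fun _ => measurableSet_Ico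

lemma cm_meas (j : ℕ) (v : Fin m → ℝ) : MeasurableSet (cm j v) :=
  MeasurableSet.univ_pi fun i => cell_meas j (v i)

lemma mem_cm (j : ℕ) (v w : Fin m → ℝ) : w ∈ cm j v ↔ ∀ i, w i ∈ cell j (v i) := by
  simp [cm]

lemma mem_CC (v : Fin m → ℝ) : v ∈ CC m ↔ ∀ i, v i ∈ Ico (-1 : ℝ) 1 := by
  simp [CC]

lemma cm_symm (j : ℕ) (v w : Fin m → ℝ) : w ∈ cm j v ↔ v ∈ cm j w := by
  rw [mem_cm, mem_cm]
  exact forall_congr' fun i => cell_symm j _ _

lemma cm_self (j : ℕ) (v : Fin m → ℝ) : v ∈ cm j v := (mem_cm j v v).mpr fun _ => rfl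

lemma cm_meas2 (j : ℕ) : MeasurableSet {w : (Fin m → ℝ) × (Fin m → ℝ) | w.2 ∈ cm j w.1} := by
  simp only [mem_cm]
  rw [ofPred_forall]
  apply MeasurableSet.iInter
  intro i
  have h1 : Measurable (fun w : (Fin m → ℝ) × (Fin m → ℝ) => (w.1 i, w.2 i)) :=
    ((measurable_pi_apply i).comp measurable_fst).prodMk ((measurable_pi_apply i).comp
      measurable_snd)
  exact h1 (cell_meas2 j)

/-- the number of cubes -/
noncomputable def nn (m j : ℕ) : ℝ≥0∞ := ((2 : ℝ≥0∞) ^ j) ^ m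

lemma nn_ne_zero (j : ℕ) : nn m j ≠ 0 := pow_ne_zero _ (pow_ne_zero _ two_ne_zero)

lemma nn_ne_top (j : ℕ) : nn m j ≠ ∞ := ENNReal.pow_ne_top (ENNReal.pow_ne_top (by norm_num))

lemma cm_vol (j : ℕ) (v : Fin m → ℝ) : volume (cm j v) = (nn m j)⁻¹ := by
  unfold cm
  rw [volume_pi_pi]
  simp only [cell_vol]
  rw [Finset.prod_const, Finset.card_univ, Fintype.card_fin, nn, ← ENNReal.inv_pow]

lemma cm_vol_lt (j : ℕ) (v : Fin m → ℝ) : volume (cm j v) < ∞ := by
  rw [cm_vol]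
  exact ENNReal.inv_lt_top.mpr (pos_iff_ne_zero.mpr (nn_ne_zero j))

lemma CC_vol : volume (CC m) = 2 ^ m := by
  unfold CC
  rw [volume_pi_pi]
  simp only [Real.volume_Ico]
  rw [Finset.prod_const, Finset.card_univ, Fintype.card_fin]
  norm_num

lemma cell_sub1 (j : ℕ) (v w : ℝ) (hv : v ∈ Ico (-1 : ℝ) 1) (h : w ∈ cell j v) :
    w ∈ Ico (-1 : ℝ) 1 := by
  have h1 : ⌊(2 : ℝ) ^ j * v⌋ = ⌊(2 : ℝ) ^ j * w⌋ := h
  have h2 : (0 : ℝ) < 2 ^ j := by positivity
  have a1 : (-(2 : ℤ) ^ j) ≤ ⌊(2 : ℝ) ^ j * v⌋ := by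
    rw [Int.le_floor]
    push_cast
    nlinarith [hv.1]
  have a2 : ⌊(2 : ℝ) ^ j * v⌋ < (2 : ℤ) ^ j := by
    rw [Int.floor_lt]
    push_cast
    nlinarith [hv.2]
  rw [h1] at a1 a2
  rw [Int.le_floor] at a1
  rw [Int.floor_lt] at a2
  push_cast at a1 a2
  constructor
  · by_contra hc
    push Not at hc
    nlinarith
  · by_contra hc
    push Not at hc
    nlinarith

lemma cm_sub (j : ℕ) (v w : Fin m → ℝ) (hv : v ∈ CC m) (h : w ∈ cm j v) : w ∈ CC m := by
  rw [mem_CC] at hv ⊢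
  rw [mem_cm] at h
  exact fun i => cell_sub1 j _ _ (hv i) (h i)

lemma CC_inter (j : ℕ) (v : Fin m → ℝ) (hv : v ∈ CC m) : CC m ∩ cm j v = cm j v := by
  rw [inter_eq_right]
  intro w hw
  exact cm_sub j v w hv hw

lemma cm_succ (j : ℕ) (v w : Fin m → ℝ) (h : w ∈ cm (j + 1) v) : w ∈ cm j v := by
  rw [mem_cm] at h ⊢
  exact fun i => cell_succ j _ _ (h i)

lemma cm_eq (j : ℕ) (v w : Fin m → ℝ) (h : w ∈ cm j v) : cm j w = cm j v := by
  rw [mem_cm] at h
  unfold cm
  congr 1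
  ext i z
  have h2 : ⌊(2 : ℝ) ^ j * v i⌋ = ⌊(2 : ℝ) ^ j * w i⌋ := h i
  simp only [cell, mem_ofPred_eq]
  rw [h2]

lemma cm_dist (j : ℕ) (v w : Fin m → ℝ) (h : w ∈ cm j v) : ‖w - v‖ ≤ (1 / 2) ^ j := by
  rw [mem_cm] at h
  rw [pi_norm_le_iff_of_nonneg (by positivity)]
  intro i
  exact cell_dist j _ _ (h i)

/-- average over the dyadic cube -/
noncomputable def avm (j : ℕ) (φ : (Fin m → ℝ) → ℂ) (v : Fin m → ℝ) : ℂ :=
  (2 ^ j) ^ m * ∫ w in CC m ∩ cm j v, φ w

lemma cs_setm (S : Set (Fin m → ℝ)) (f : (Fin m → ℝ) → ℝ≥0∞) (hf : Measurable f) :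
    (∫⁻ x in S, f x) ^ 2 ≤ volume S * ∫⁻ x in S, f x ^ 2 := by
  have h := ENNReal.lintegral_mul_le_Lp_mul_Lq (volume.restrict S) Real.HolderConjugate.two_two
    (f := fun _ => (1 : ℝ≥0∞)) (g := f) aemeasurable_const hf.aemeasurable
  simp only [lintegral_const, Measure.restrict_apply_univ, one_mul,
    ENNReal.rpow_ofNat, Pi.mul_apply, one_pow] at h
  calc (∫⁻ x in S, f x) ^ 2 ≤ ((volume S) ^ (1 / 2 : ℝ) * (∫⁻ x in S, f x ^ 2) ^ (1 / 2 : ℝ)) ^ 2 := by
        gcongr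
    _ = _ := by
        rw [mul_pow, ← ENNReal.rpow_natCast, ← ENNReal.rpow_natCast, ← ENNReal.rpow_mul,
          ← ENNReal.rpow_mul]
        norm_num

lemma enorm_nn (j : ℕ) : ‖((2 : ℂ) ^ j) ^ m‖ₑ = nn m j := by
  rw [enorm_pow, enorm_two_pow, nn]

lemma avm_sq (j : ℕ) (φ : (Fin m → ℝ) → ℂ) (hφ : Measurable φ) (v : Fin m → ℝ) :
    ‖avm j φ v‖ₑ ^ 2 ≤ nn m j * ∫⁻ w in CC m ∩ cm j v, ‖φ w‖ₑ ^ 2 := by
  unfold avm
  rw [enorm_mul, enorm_nn, mul_pow]
  calc (nn m j) ^ 2 * ‖∫ w in CC m ∩ cm j v, φ w‖ₑ ^ 2 ≤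
      (nn m j) ^ 2 * (∫⁻ w in CC m ∩ cm j v, ‖φ w‖ₑ) ^ 2 := by
        gcongr
        exact enorm_integral_le_lintegral_enorm _
    _ ≤ (nn m j) ^ 2 * ((nn m j)⁻¹ * ∫⁻ w in CC m ∩ cm j v, ‖φ w‖ₑ ^ 2) := by
        gcongr
        refine (cs_setm _ _ hφ.enorm).trans ?_
        gcongr
        rw [← cm_vol j v]
        exact measure_mono inter_subset_right
    _ = _ := by
        rw [← mul_assoc, sq, mul_assoc (nn m j), ENNReal.mul_inv_cancel
          (nn_ne_zero j) (nn_ne_top j), mul_one]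

/-- integrating over the cubes -/
lemma cm_fubini (j : ℕ) (f : (Fin m → ℝ) → ℝ≥0∞) (hf : Measurable f) :
    ∫⁻ v, nn m j * ∫⁻ w in CC m ∩ cm j v, f w = ∫⁻ w in CC m, f w := by
  have hm : MeasurableSet {w : (Fin m → ℝ) × (Fin m → ℝ) | w.2 ∈ cm j w.1} := cm_meas2 j
  have e1 : ∀ v, ∫⁻ w in CC m ∩ cm j v, f w =
      ∫⁻ w, {w : (Fin m → ℝ) × (Fin m → ℝ) | w.2 ∈ cm j w.1}.indicator
        (fun w => (CC m).indicator f w.2) (v, w) := by
    intro v
    rw [← lintegral_indicator (CC_meas.inter (cm_meas j v))]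
    congr 1
    ext w
    by_cases h1 : w ∈ cm j v
    · rw [indicator_of_mem (a := (v, w)) (by exact h1)]
      by_cases h2 : w ∈ CC m
      · rw [indicator_of_mem (show w ∈ CC m ∩ cm j v from ⟨h2, h1⟩), indicator_of_mem h2]
      · rw [indicator_of_notMem (fun h => h2 h.1), indicator_of_notMem h2]
    · rw [indicator_of_notMem (a := (v, w)) (by exact h1), indicator_of_notMem (fun h => h1 h.2)]
  have hmeas : Measurable ({w : (Fin m → ℝ) × (Fin m → ℝ) | w.2 ∈ cm j w.1}.indicator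
      (fun w => (CC m).indicator f w.2)) :=
    ((hf.indicator CC_meas).comp measurable_snd).indicator hm
  simp only [e1]
  rw [lintegral_const_mul _ (by exact Measurable.lintegral_prod_right' hmeas),
    lintegral_lintegral_swap (f := fun v w => {w : (Fin m → ℝ) × (Fin m → ℝ) | w.2 ∈ cm j w.1}.indicator
      (fun w => (CC m).indicator f w.2) (v, w)) (by exact hmeas.aemeasurable)]
  have e2 : ∀ w, ∫⁻ v, {w : (Fin m → ℝ) × (Fin m → ℝ) | w.2 ∈ cm j w.1}.indicator
      (fun w => (CC m).indicator f w.2) (v, w) = (nn m j)⁻¹ * (CC m).indicator f w := by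
    intro w
    have e3 : ∀ v, {w : (Fin m → ℝ) × (Fin m → ℝ) | w.2 ∈ cm j w.1}.indicator
        (fun w => (CC m).indicator f w.2) (v, w) =
        (cm j w).indicator (fun _ => (CC m).indicator f w) v := by
      intro v
      by_cases h1 : w ∈ cm j v
      · rw [indicator_of_mem (a := (v, w)) (by exact h1),
          indicator_of_mem ((cm_symm j v w).mp h1)]
      · rw [indicator_of_notMem (a := (v, w)) (by exact h1),
          indicator_of_notMem (fun h => h1 ((cm_symm j v w).mpr h))]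
    simp only [e3]
    rw [lintegral_indicator_const (cm_meas j w), cm_vol, mul_comm]
  simp only [e2]
  rw [lintegral_const_mul _ (hf.indicator CC_meas), ← mul_assoc,
    ENNReal.mul_inv_cancel (nn_ne_zero j) (nn_ne_top j), one_mul, lintegral_indicator CC_meas]

lemma avm_L2 (j : ℕ) (φ : (Fin m → ℝ) → ℂ) (hφ : Measurable φ) :
    ∫⁻ v, ‖avm j φ v‖ₑ ^ 2 ≤ ∫⁻ w in CC m, ‖φ w‖ₑ ^ 2 := by
  calc ∫⁻ v, ‖avm j φ v‖ₑ ^ 2 ≤ ∫⁻ v, nn m j * ∫⁻ w in CC m ∩ cm j v, ‖φ w‖ₑ ^ 2 :=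
        lintegral_mono fun v => avm_sq j φ hφ v
    _ = _ := cm_fubini j _ (hφ.enorm.pow_const 2)

lemma avm_const (j : ℕ) (c : ℂ) (v : Fin m → ℝ) (hv : v ∈ CC m) : avm j (fun _ => c) v = c := by
  unfold avm
  rw [CC_inter j v hv, setIntegral_const, Measure.real, cm_vol, nn, ENNReal.toReal_inv,
    ENNReal.toReal_pow, ENNReal.toReal_pow]
  simp only [ENNReal.toReal_ofNat, real_smul]
  push_cast
  rw [← mul_assoc, mul_inv_cancel₀ (pow_ne_zero _ (pow_ne_zero _ two_ne_zero)), one_mul]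

/-- the average does not change if the function is averaged over the larger cubes before -/
lemma avm_avm (j : ℕ) (φ : (Fin m → ℝ) → ℂ) (v : Fin m → ℝ) (hv : v ∈ CC m) :
    avm (j + 1) (avm j φ) v = avm j φ v := by
  have h1 : ∀ w ∈ CC m ∩ cm (j + 1) v, avm j φ w = avm j φ v := by
    intro w hw
    have h2 : w ∈ cm j v := cm_succ j v w hw.2
    unfold avm
    rw [cm_eq j v w h2]
  have h4 : avm (j + 1) (avm j φ) v = avm (j + 1) (fun _ => avm j φ v) v := by
    conv_lhs => unfold avm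
    conv_rhs => unfold avm
    congr 1
    apply setIntegral_congr_fun (CC_meas.inter (cm_meas _ _))
    intro w hw
    exact h1 w hw
  rw [h4, avm_const _ _ _ hv]

lemma avm_sub (j : ℕ) (φ ψ : (Fin m → ℝ) → ℂ) (hφ : IntegrableOn φ (CC m))
    (hψ : IntegrableOn ψ (CC m)) (v : Fin m → ℝ) :
    avm j (fun w => φ w - ψ w) v = avm j φ v - avm j ψ v := by
  unfold avm
  rw [integral_sub (hφ.mono_set inter_subset_left) (hψ.mono_set inter_subset_left)]
  ring

/-- self-adjointness of the averages -/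
lemma avm_adj (j : ℕ) (φ ψ : (Fin m → ℝ) → ℂ) (hφm : Measurable φ) (hφ : IntegrableOn φ (CC m))
    (hψm : Measurable ψ) (hψ : ∀ v, ‖ψ v‖ ≤ 1) :
    ∫ v in CC m, avm j φ v * ψ v = ∫ w in CC m, φ w * avm j ψ w := by
  have hm : MeasurableSet {w : (Fin m → ℝ) × (Fin m → ℝ) | w.2 ∈ cm j w.1} := cm_meas2 j
  set G : (Fin m → ℝ) → (Fin m → ℝ) → ℂ := fun v w =>
    {w : (Fin m → ℝ) × (Fin m → ℝ) | w.2 ∈ cm j w.1}.indicator
      (fun w => (2 ^ j) ^ m * (φ w.2 * ψ w.1)) (v, w) with hG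
  have hGm : Measurable (Function.uncurry G) := by
    have h1 : Function.uncurry G = {w : (Fin m → ℝ) × (Fin m → ℝ) | w.2 ∈ cm j w.1}.indicator
      (fun w => (2 ^ j) ^ m * (φ w.2 * ψ w.1)) := by
      ext w
      rfl
    rw [h1]
    exact (((hφm.comp measurable_snd).mul (hψm.comp measurable_fst)).const_mul _).indicator hm
  have hint : Integrable (Function.uncurry G)
      ((volume.restrict (CC m)).prod (volume.restrict (CC m))) := by
    have h2 : Integrable (fun w : (Fin m → ℝ) × (Fin m → ℝ) => (2 ^ j) ^ m * (ψ w.1 * φ w.2))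
        ((volume.restrict (CC m)).prod (volume.restrict (CC m))) := by
      have hfin : IsFiniteMeasure (volume.restrict (CC m)) := ⟨by
        rw [Measure.restrict_apply_univ, CC_vol]
        exact ENNReal.pow_lt_top (by norm_num)⟩
      have h3 : Integrable ψ (volume.restrict (CC m)) :=
        Integrable.of_bound hψm.aestronglyMeasurable 1 (ae_of_all _ hψ)
      exact (h3.mul_prod hφ).const_mul _
    refine h2.mono hGm.aestronglyMeasurable (ae_of_all _ fun w => ?_)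
    obtain ⟨v, w⟩ := w
    simp only [Function.uncurry_apply_pair, hG]
    refine (norm_indicator_le_norm_self _ _).trans (le_of_eq ?_)
    simp only
    rw [mul_comm (φ w)]
  have e1 : ∀ v, ∫ w in CC m, G v w = avm j φ v * ψ v := by
    intro v
    have h1 : ∀ w, G v w = (cm j v).indicator (fun w => (2 ^ j) ^ m * (φ w * ψ v)) w := by
      intro w
      simp only [hG]
      by_cases h : w ∈ cm j v
      · rw [indicator_of_mem (a := (v, w)) (by exact h), indicator_of_mem h]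
      · rw [indicator_of_notMem (a := (v, w)) (by exact h), indicator_of_notMem h]
    simp only [h1]
    rw [setIntegral_indicator (cm_meas j v), integral_const_mul, integral_mul_const]
    unfold avm
    ring
  have e2 : ∀ w, ∫ v in CC m, G v w = φ w * avm j ψ w := by
    intro w
    have h1 : ∀ v, G v w = (cm j w).indicator (fun v => (2 ^ j) ^ m * (φ w * ψ v)) v := by
      intro v
      simp only [hG]
      by_cases h : w ∈ cm j v
      · rw [indicator_of_mem (a := (v, w)) (by exact h), indicator_of_mem ((cm_symm j v w).mp h)]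
      · rw [indicator_of_notMem (a := (v, w)) (by exact h),
          indicator_of_notMem (fun h' => h ((cm_symm j v w).mpr h'))]
    simp only [h1]
    rw [setIntegral_indicator (cm_meas j w), integral_const_mul, integral_const_mul]
    unfold avm
    ring
  simp only [← e1, ← e2]
  exact integral_integral_swap hint

end Pool.Agent.W771.MD
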