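import Mathlib
import Pool.Agent.W771.M1
import Pool.Agent.H728R3.SR.D
set_option autoImplicit false

/-! Distance to the averages, averages of quadratic exponentials, Plancherel's theorem. -/

namespace Pool.Agent.W771.MD

open MeasureTheory Set Complex
open scoped ENNReal NNReal FourierTransform

variable {m : ℕ}

/-- the `L²` modulus of continuity on the cube -/
noncomputable def RM (φ : (Fin m → ℝ) → ℂ) (h : Fin m → ℝ) : ℝ≥0∞ :=
  ∫⁻ v, (CC m).indicator (fun v => (CC m).indicator (fun w => ‖φ w - φ v‖ₑ ^ 2) (v + h)) v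

lemma ball_vol (j : ℕ) : volume (Metric.closedBall (0 : Fin m → ℝ) ((1 / 2) ^ j)) = 2 ^ m * (nn m j)⁻¹ := by
  rw [Real.volume_pi_closedBall _ (by positivity), Fintype.card_fin, mul_pow,
    ENNReal.ofReal_mul (by positivity), ENNReal.ofReal_pow (by norm_num), nn]
  congr 1
  · norm_num
  · rw [ENNReal.ofReal_pow (by positivity), one_div, inv_pow, ENNReal.ofReal_inv_of_pos
      (by positivity), ENNReal.ofReal_pow (by norm_num), ← ENNReal.inv_pow]
    norm_num

/-- the `L²` distance to the average -/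
lemma avm_dist (φ : (Fin m → ℝ) → ℂ) (hφ : Measurable φ) (hi : IntegrableOn φ (CC m))
    (j : ℕ) : ∫⁻ v in CC m, ‖φ v - avm j φ v‖ₑ ^ 2 ≤
      nn m j * ∫⁻ h in Metric.closedBall (0 : Fin m → ℝ) ((1 / 2) ^ j), RM φ h := by
  -- pointwise bound
  have hpt : ∀ v ∈ CC m, ‖φ v - avm j φ v‖ₑ ^ 2 ≤
      nn m j * ∫⁻ w in CC m ∩ cm j v, ‖φ w - φ v‖ₑ ^ 2 := by
    intro v hv
    have e1 : φ v - avm j φ v = - avm j (fun w => φ w - φ v) v := by
      have hc : IntegrableOn (fun _ : Fin m → ℝ => φ v) (CC m) := by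
        rw [integrableOn_const_iff]
        right
        rw [CC_vol]
        exact ENNReal.pow_lt_top (by norm_num)
      rw [avm_sub j φ (fun _ => φ v) hi hc, avm_const j (φ v) v hv]
      ring
    rw [e1, enorm_neg]
    exact avm_sq j _ (hφ.sub measurable_const) v
  -- the shear
  set G : (Fin m → ℝ) → (Fin m → ℝ) → ℝ≥0∞ := fun v h => (CC m).indicator (fun v =>
    (CC m).indicator (fun w => ‖φ w - φ v‖ₑ ^ 2) (v + h)) v with hG
  have hGm : Measurable (Function.uncurry G) := by
    have h1 : Function.uncurry G = ((CC m ×ˢ univ) ∩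
        (fun w : (Fin m → ℝ) × (Fin m → ℝ) => w.1 + w.2) ⁻¹' CC m).indicator
        (fun w : (Fin m → ℝ) × (Fin m → ℝ) => ‖φ (w.1 + w.2) - φ w.1‖ₑ ^ 2) := by
      ext w
      obtain ⟨v, h⟩ := w
      simp only [Function.uncurry_apply_pair, hG]
      by_cases h1 : v ∈ CC m
      · by_cases h2 : v + h ∈ CC m
        · rw [indicator_of_mem h1, indicator_of_mem h2, indicator_of_mem]
          exact ⟨⟨h1, trivial⟩, h2⟩
        · rw [indicator_of_mem h1, indicator_of_notMem h2, indicator_of_notMem]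
          exact fun h3 => h2 h3.2
      · rw [indicator_of_notMem h1, indicator_of_notMem]
        exact fun h3 => h1 h3.1.1
    rw [h1]
    have hadd : Measurable (fun w : (Fin m → ℝ) × (Fin m → ℝ) => w.1 + w.2) :=
      measurable_fst.add measurable_snd
    apply Measurable.indicator
    · have a1 : Measurable (fun w : (Fin m → ℝ) × (Fin m → ℝ) => φ (w.1 + w.2)) := hφ.comp hadd
      have a2 : Measurable (fun w : (Fin m → ℝ) × (Fin m → ℝ) => φ w.1) := hφ.comp measurable_fst
      exact (a1.sub a2).enorm.pow_const 2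
    · exact (CC_meas.prod MeasurableSet.univ).inter (hadd CC_meas)
  calc ∫⁻ v in CC m, ‖φ v - avm j φ v‖ₑ ^ 2 ≤
      ∫⁻ v in CC m, nn m j * ∫⁻ w in CC m ∩ cm j v, ‖φ w - φ v‖ₑ ^ 2 :=
        setLIntegral_mono' CC_meas hpt
    _ ≤ ∫⁻ v, nn m j * ∫⁻ h in Metric.closedBall (0 : Fin m → ℝ) ((1 / 2) ^ j), G v h := by
        rw [← lintegral_indicator CC_meas]
        apply lintegral_mono
        intro v
        by_cases hv : v ∈ CC m
        · simp only
          rw [indicator_of_mem hv]
          gcongr nn m j * ?_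
          rw [← lintegral_indicator (CC_meas.inter (cm_meas j v)),
            ← lintegral_indicator measurableSet_closedBall, ← lintegral_add_left_eq_self _ v]
          apply lintegral_mono
          intro h
          simp only
          by_cases h1 : v + h ∈ CC m ∩ cm j v
          · rw [indicator_of_mem h1, indicator_of_mem, hG]
            · simp only
              rw [indicator_of_mem hv, indicator_of_mem h1.1]
            · have := cm_dist j v (v + h) h1.2
              rw [add_sub_cancel_left] at this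
              rw [mem_closedBall_zero_iff]
              exact this
          · rw [indicator_of_notMem h1]
            exact zero_le
        · simp only
          rw [indicator_of_notMem hv]
          exact zero_le
    _ = nn m j * ∫⁻ h in Metric.closedBall (0 : Fin m → ℝ) ((1 / 2) ^ j), RM φ h := by
        have hm1 : Measurable (fun v => ∫⁻ h in Metric.closedBall (0 : Fin m → ℝ) ((1 / 2) ^ j), G v h) :=
          Measurable.lintegral_prod_right' hGm
        rw [lintegral_const_mul _ hm1, lintegral_lintegral_swap]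
        · rfl
        · exact hGm.aemeasurable

/-- the quadratic exponential -/
noncomputable def qe (y t v : ℝ) : ℂ := cexp (2 * Real.pi * I * ((v * y + v ^ 2 * t : ℝ) : ℂ))

/-- the quadratic exponential in several variables -/
noncomputable def em (y : Fin m → ℝ) (t : ℝ) (v : Fin m → ℝ) : ℂ := ∏ i, qe (y i) t (v i)

lemma qe_norm (y t v : ℝ) : ‖qe y t v‖ = 1 := by
  unfold qe
  have : (2 * Real.pi * I * ((v * y + v ^ 2 * t : ℝ) : ℂ)) =
      ((2 * Real.pi * (v * y + v ^ 2 * t) : ℝ) : ℂ) * I := by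
    push_cast
    ring
  rw [this, Complex.norm_exp_ofReal_mul_I]

lemma em_norm (y : Fin m → ℝ) (t : ℝ) (v : Fin m → ℝ) : ‖em y t v‖ = 1 := by
  unfold em
  rw [norm_prod]
  simp [qe_norm]

lemma em_enorm (y : Fin m → ℝ) (t : ℝ) (v : Fin m → ℝ) : ‖em y t v‖ₑ = 1 := by
  rw [← ofReal_norm, em_norm, ENNReal.ofReal_one]

lemma em_cont : Continuous (fun w : ((Fin m → ℝ) × ℝ) × (Fin m → ℝ) => em w.1.1 w.1.2 w.2) := by
  unfold em qe
  fun_prop

lemma em_meas (y : Fin m → ℝ) (t : ℝ) : Measurable (em y t) := by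
  apply Continuous.measurable
  unfold em qe
  fun_prop

open Pool.Agent.H728R3.SR in
/-- the one dimensional bound -/
lemma osc1 (γ : ℝ) (hγ0 : 0 < γ) (hγ1 : γ ≤ 1) (y t : ℝ) (j : ℕ) :
    ∫⁻ w in Ico (-1 : ℝ) 1, ‖(2 : ℂ) ^ j * ∫ z in cell j w, qe y t z‖ₑ ^ 2 ≤
      2 ^ j * AA γ t * Pool.Agent.H728R3.SR.RR γ := by
  have h1 : ∀ w ∈ Ico (-1 : ℝ) 1, ‖(2 : ℂ) ^ j * ∫ z in cell j w, qe y t z‖ₑ ^ 2 ≤
      (2 ^ j * 2 ^ j * AA γ t) * ∫⁻ z in cell j w, rr γ y t z := by
    intro w hw
    have hce := cell_eq j w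
    set a : ℝ := (⌊(2 : ℝ) ^ j * w⌋ : ℝ) / 2 ^ j with ha
    set b : ℝ := ((⌊(2 : ℝ) ^ j * w⌋ : ℝ) + 1) / 2 ^ j with hb
    have hab : a < b := by
      rw [ha, hb]
      gcongr
      linarith
    have ha1 : -1 ≤ a := by
      have : a ∈ cell j w := by
        rw [hce]
        exact ⟨le_rfl, hab⟩
      exact (cell_sub1 j w a hw this).1
    have hb1 : b ≤ 1 := by
      by_contra hc
      push Not at hc
      have h2 : max a 1 ∈ cell j w := by
        rw [hce]
        exact ⟨le_max_left _ _, max_lt hab hc⟩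
      have h3 := (cell_sub1 j w _ hw h2).2
      exact absurd h3 (not_lt.mpr (le_max_right _ _))
    have h4 := ind_dom γ y t a b ha1 hab.le hb1 hγ0 hγ1
    have h5 : e1 (ind a b) y t = ∫ z in cell j w, qe y t z := by
      unfold e1 ind
      rw [hce, ← integral_indicator measurableSet_Icc, ← integral_indicator measurableSet_Ico]
      apply integral_congr_ae
      have hne : ∀ᵐ z : ℝ, z ≠ b := by
        rw [ae_iff]
        simp
      filter_upwards [hne] with z hz
      by_cases hz1 : z ∈ Ico a b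
      · rw [indicator_of_mem hz1, indicator_of_mem (show z ∈ Icc (-1 : ℝ) 1 from
          ⟨by linarith [hz1.1], by linarith [hz1.2]⟩), indicator_of_mem (show z ∈ Icc a b from
          ⟨hz1.1, hz1.2.le⟩), one_mul]
        rfl
      · rw [indicator_of_notMem hz1]
        by_cases hz2 : z ∈ Icc (-1 : ℝ) 1
        · rw [indicator_of_mem hz2, indicator_of_notMem, zero_mul]
          intro hz3
          exact hz1 ⟨hz3.1, lt_of_le_of_ne hz3.2 hz⟩
        · rw [indicator_of_notMem hz2]
    rw [enorm_mul, enorm_two_pow, mul_pow, ← h5]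
    calc ((2 : ℝ≥0∞) ^ j) ^ 2 * ‖e1 (ind a b) y t‖ₑ ^ 2 ≤
        ((2 : ℝ≥0∞) ^ j) ^ 2 * (AA γ t * ∫⁻ z in Ioc a b, rr γ y t z) := by gcongr
      _ = _ := by
          rw [hce, restrict_Ico_eq_restrict_Ioc]
          ring
  have hrr := rr_meas γ y t
  calc ∫⁻ w in Ico (-1 : ℝ) 1, ‖(2 : ℂ) ^ j * ∫ z in cell j w, qe y t z‖ₑ ^ 2 ≤
      ∫⁻ w in Ico (-1 : ℝ) 1, (2 ^ j * 2 ^ j * AA γ t) * ∫⁻ z in cell j w, rr γ y t z :=
        setLIntegral_mono' measurableSet_Ico h1
    _ ≤ (2 ^ j * 2 ^ j * AA γ t) * ((2 ^ j)⁻¹ * ∫⁻ z in Ico (-1 : ℝ) 1, rr γ y t z) := by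
        have hAt : AA γ t ≠ ∞ := by
          unfold AA
          split_ifs
          · exact ENNReal.one_ne_top
          · exact ENNReal.ofReal_ne_top
        rw [lintegral_const_mul' _ _ (ENNReal.mul_ne_top (ENNReal.mul_ne_top
          (ENNReal.pow_ne_top (by norm_num)) (ENNReal.pow_ne_top (by norm_num))) hAt)]
        gcongr
        -- Tonelli
        set S : Set (ℝ × ℝ) := {w : ℝ × ℝ | w.2 ∈ cell j w.1} ∩ (univ ×ˢ Ico (-1 : ℝ) 1) with hS
        have hSm : MeasurableSet S := (cell_meas2 j).inter (MeasurableSet.univ.prod measurableSet_Ico)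
        have hm2 : Measurable (S.indicator (fun w : ℝ × ℝ => rr γ y t w.2)) :=
          (hrr.comp measurable_snd).indicator hSm
        have e1 : ∀ w ∈ Ico (-1 : ℝ) 1, ∫⁻ z in cell j w, rr γ y t z =
            ∫⁻ z, S.indicator (fun w : ℝ × ℝ => rr γ y t w.2) (w, z) := by
          intro w hw
          rw [← lintegral_indicator (cell_meas j w)]
          congr 1
          ext z
          by_cases h2 : z ∈ cell j w
          · rw [indicator_of_mem h2, indicator_of_mem]
            exact ⟨h2, trivial, cell_sub1 j w z hw h2⟩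
          · rw [indicator_of_notMem h2, indicator_of_notMem]
            exact fun h => h2 h.1
        rw [setLIntegral_congr_fun measurableSet_Ico e1]
        calc ∫⁻ w in Ico (-1 : ℝ) 1, ∫⁻ z, S.indicator (fun w : ℝ × ℝ => rr γ y t w.2) (w, z) ≤
            ∫⁻ w, ∫⁻ z, S.indicator (fun w : ℝ × ℝ => rr γ y t w.2) (w, z) :=
              setLIntegral_le_lintegral _ _
          _ = ∫⁻ z, ∫⁻ w, S.indicator (fun w : ℝ × ℝ => rr γ y t w.2) (w, z) :=
              lintegral_lintegral_swap (f := fun w z => S.indicator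
                (fun w : ℝ × ℝ => rr γ y t w.2) (w, z)) (by exact hm2.aemeasurable)
          _ = ∫⁻ z, (2 ^ j)⁻¹ * (Ico (-1 : ℝ) 1).indicator (rr γ y t) z := by
              congr 1
              ext z
              by_cases hz : z ∈ Ico (-1 : ℝ) 1
              · have e2 : ∀ w, S.indicator (fun w : ℝ × ℝ => rr γ y t w.2) (w, z) =
                    (cell j z).indicator (fun _ => rr γ y t z) w := by
                  intro w
                  by_cases h2 : w ∈ cell j z
                  · rw [indicator_of_mem h2, indicator_of_mem]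
                    exact ⟨(cell_symm j w z).mpr h2, trivial, hz⟩
                  · rw [indicator_of_notMem h2, indicator_of_notMem]
                    exact fun h => h2 ((cell_symm j w z).mp h.1)
                simp only [e2]
                rw [lintegral_indicator_const (cell_meas j z), cell_vol, indicator_of_mem hz, mul_comm]
              · have e2 : ∀ w, S.indicator (fun w : ℝ × ℝ => rr γ y t w.2) (w, z) = 0 := by
                  intro w
                  rw [indicator_of_notMem]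
                  exact fun h => hz h.2.2
                simp only [e2]
                rw [indicator_of_notMem hz]
                simp
          _ = _ := by
              rw [lintegral_const_mul _ (hrr.indicator measurableSet_Ico),
                lintegral_indicator measurableSet_Ico]
    _ ≤ (2 ^ j * 2 ^ j * AA γ t) * ((2 ^ j)⁻¹ * Pool.Agent.H728R3.SR.RR γ) := by
        gcongr
        rw [restrict_Ico_eq_restrict_Ioc]
        exact rr_total γ y t hγ0 hγ1
    _ = _ := by
        have h2 : (2 : ℝ≥0∞) ^ j * ((2 : ℝ≥0∞) ^ j)⁻¹ = 1 :=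
          ENNReal.mul_inv_cancel (pow_ne_zero _ two_ne_zero) (ENNReal.pow_ne_top (by norm_num))
        calc (2 ^ j * 2 ^ j * AA γ t) * (((2 : ℝ≥0∞) ^ j)⁻¹ * Pool.Agent.H728R3.SR.RR γ) =
            2 ^ j * AA γ t * Pool.Agent.H728R3.SR.RR γ * ((2 : ℝ≥0∞) ^ j * ((2 : ℝ≥0∞) ^ j)⁻¹) := by ring
          _ = _ := by rw [h2, mul_one]

open Pool.Agent.H728R3.SR in
/-- the averages of the quadratic exponential -/
lemma osc (γ : ℝ) (hγ0 : 0 < γ) (hγ1 : γ ≤ 1) (y : Fin m → ℝ) (t : ℝ) (j : ℕ) :
    ∫⁻ w in CC m, ‖avm j (em y t) w‖ₑ ^ 2 ≤ (2 ^ j * AA γ t * Pool.Agent.H728R3.SR.RR γ) ^ m := by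
  have hm1 : ∀ i, Measurable (fun w : ℝ => ‖(2 : ℂ) ^ j * ∫ z in cell j w, qe (y i) t z‖ₑ ^ 2) := by
    intro i
    have hS : MeasurableSet {w : ℝ × ℝ | w.2 ∈ cell j w.1} := cell_meas2 j
    have hq : Measurable (fun z => qe (y i) t z) := by
      apply Continuous.measurable
      unfold qe
      fun_prop
    have e1 : (fun w : ℝ => ∫ z in cell j w, qe (y i) t z) = fun w : ℝ => ∫ z,
        {w : ℝ × ℝ | w.2 ∈ cell j w.1}.indicator (fun w => qe (y i) t w.2) (w, z) := by
      ext w
      rw [← integral_indicator (cell_meas j w)]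
      rfl
    have h2 : Measurable (fun w : ℝ => ∫ z in cell j w, qe (y i) t z) := by
      rw [e1]
      apply StronglyMeasurable.measurable
      exact StronglyMeasurable.integral_prod_right' (f := fun w : ℝ × ℝ =>
        {w : ℝ × ℝ | w.2 ∈ cell j w.1}.indicator (fun w => qe (y i) t w.2) w)
        (((hq.comp measurable_snd).indicator hS).stronglyMeasurable)
    exact (h2.const_mul _).enorm.pow_const 2
  have e1 : ∀ w ∈ CC m, ‖avm j (em y t) w‖ₑ ^ 2 =
      ∏ i, ‖(2 : ℂ) ^ j * ∫ z in cell j (w i), qe (y i) t z‖ₑ ^ 2 := by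
    intro w hw
    have e2 : avm j (em y t) w = ∏ i, ((2 : ℂ) ^ j * ∫ z in cell j (w i), qe (y i) t z) := by
      unfold avm
      rw [CC_inter j w hw, Finset.prod_mul_distrib, Finset.prod_const, Finset.card_univ,
        Fintype.card_fin]
      congr 1
      unfold cm em
      rw [volume_pi, Measure.restrict_pi_pi, integral_fintype_prod_eq_prod]
    rw [e2, Finset.prod_pow]
    congr 1
    rw [← ofReal_norm, norm_prod, ENNReal.ofReal_prod_of_nonneg (fun _ _ => norm_nonneg _)]
    simp only [ofReal_norm]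
  rw [setLIntegral_congr_fun CC_meas e1, ← lintegral_indicator CC_meas]
  have e3 : ∀ w : Fin m → ℝ, (CC m).indicator (fun w : Fin m → ℝ => ∏ i, ‖(2 : ℂ) ^ j *
      ∫ z in cell j (w i), qe (y i) t z‖ₑ ^ 2) w = ∏ i, (Ico (-1 : ℝ) 1).indicator (fun w : ℝ =>
        ‖(2 : ℂ) ^ j * ∫ z in cell j w, qe (y i) t z‖ₑ ^ 2) (w i) := by
    intro w
    by_cases hw : w ∈ CC m
    · rw [indicator_of_mem hw]
      rw [mem_CC] at hw
      apply Finset.prod_congr rfl
      intro i _
      rw [indicator_of_mem (hw i)]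
    · rw [indicator_of_notMem hw]
      rw [mem_CC] at hw
      push Not at hw
      obtain ⟨i, hi⟩ := hw
      symm
      apply Finset.prod_eq_zero (Finset.mem_univ i)
      rw [indicator_of_notMem hi]
  simp only [e3]
  rw [lint_prod m (fun i => (Ico (-1 : ℝ) 1).indicator (fun w : ℝ =>
        ‖(2 : ℂ) ^ j * ∫ z in cell j w, qe (y i) t z‖ₑ ^ 2))
    (fun i => (hm1 i).indicator measurableSet_Ico)]
  calc ∏ i, ∫⁻ w, (Ico (-1 : ℝ) 1).indicator (fun w : ℝ =>
        ‖(2 : ℂ) ^ j * ∫ z in cell j w, qe (y i) t z‖ₑ ^ 2) w ≤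
      ∏ i : Fin m, (2 ^ j * AA γ t * Pool.Agent.H728R3.SR.RR γ) := by
        apply Finset.prod_le_prod' 
        intro i _
        rw [lintegral_indicator measurableSet_Ico]
        exact osc1 γ hγ0 hγ1 (y i) t j
    _ = _ := by
        rw [Finset.prod_const, Finset.card_univ, Fintype.card_fin]

/-- Plancherel -/
lemma planchM (g : (Fin m → ℝ) → ℂ) (h1 : Integrable g) (h2 : MemLp g 2) (t : ℝ) :
    ∫⁻ y : Fin m → ℝ, ‖∫ v, g v * em y t v‖ₑ ^ 2 = ∫⁻ v, ‖g v‖ₑ ^ 2 := by
  set G : EuclideanSpace ℝ (Fin m) → ℂ := fun v => g (WithLp.ofLp v) * em 0 t (WithLp.ofLp v)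
    with hG
  have hmp : MeasurePreserving (WithLp.ofLp (p := 2) (V := Fin m → ℝ)) :=
    PiLp.volume_preserving_ofLp (Fin m)
  have hme : MeasurableEmbedding (WithLp.ofLp (p := 2) (V := Fin m → ℝ)) :=
    (MeasurableEquiv.toLp 2 (Fin m → ℝ)).symm.measurableEmbedding
  have hgm : AEStronglyMeasurable (fun v => g v * em 0 t v) volume :=
    h1.1.mul (em_meas 0 t).aestronglyMeasurable
  have k1 : Integrable (fun v => g v * em 0 t v) :=
    h1.mono hgm (ae_of_all _ fun v => by rw [norm_mul, em_norm, mul_one])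
  have k2 : MemLp (fun v => g v * em 0 t v) 2 :=
    h2.mono hgm (ae_of_all _ fun v => by rw [norm_mul, em_norm, mul_one])
  have g1 : Integrable G := (hmp.integrable_comp_emb hme).mpr k1
  have g2 : MemLp G 2 := k2.comp_measurePreserving hmp
  have h3 := Pool.Agent.H153R4.plancherel G g1 g2
  have e1 : ∫⁻ x, ‖G x‖ₑ ^ 2 = ∫⁻ v, ‖g v‖ₑ ^ 2 := by
    have := hmp.lintegral_comp_emb hme (fun v => ‖g v * em 0 t v‖ₑ ^ 2)
    simp only [enorm_mul, em_enorm, mul_one] at this
    simp only [hG, enorm_mul, em_enorm, mul_one]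
    exact this
  have e2 : ∀ ξ : EuclideanSpace ℝ (Fin m), 𝓕 G ξ =
      ∫ v, g v * em (fun i => - (WithLp.ofLp ξ) i) t v := by
    intro ξ
    rw [Real.fourier_eq' G ξ]
    have := hmp.integral_comp hme (fun v => g v * em (fun i => - (WithLp.ofLp ξ) i) t v)
    rw [← this]
    congr 1
    ext v
    simp only [hG, smul_eq_mul, em, qe]
    rw [mul_left_comm]
    congr 1
    rw [← Complex.exp_sum, ← Complex.exp_sum, ← Complex.exp_add]
    congr 1
    rw [PiLp.inner_apply]
    simp only [RCLike.inner_apply, conj_trivial]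
    push_cast
    rw [Finset.mul_sum, Finset.sum_mul, ← Finset.sum_add_distrib]
    apply Finset.sum_congr rfl
    intro i _
    simp
    ring
  rw [e1] at h3
  rw [← h3]
  simp only [e2]
  have h4 := hmp.lintegral_comp_emb hme (fun y : Fin m → ℝ =>
    ‖∫ v, g v * em (fun i => - y i) t v‖ₑ ^ 2)
  rw [h4]
  have h5 := (Measure.measurePreserving_neg (volume : Measure (Fin m → ℝ))).lintegral_comp_emb
    (MeasurableEquiv.neg (Fin m → ℝ)).measurableEmbedding (fun y : Fin m → ℝ =>
      ‖∫ v, g v * em y t v‖ₑ ^ 2)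
  exact h5.symm

end Pool.Agent.W771.MD
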