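import Mathlib
import Pool.Agent.W771.MB
import Pool.Agent.W771.LayerN
import Pool.Agent.W771.Hom
set_option autoImplicit false

/-! The extension operator in one variable and several variables. -/

namespace Pool.Agent.W771.MD

open MeasureTheory Set Complex
open scoped ENNReal NNReal FourierTransform

variable {m : ℕ}

/-- Lebesgue measure of the cube -/
noncomputable abbrev nuC (m : ℕ) : Measure (Fin m → ℝ) := volume.restrict (CC m)

instance nuC_fin : IsFiniteMeasure (nuC m) := ⟨by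
  rw [Measure.restrict_apply_univ, CC_vol]
  exact ENNReal.pow_lt_top (by norm_num)⟩

/-- joint measurability of averages -/
lemma avm_meas (j : ℕ) (F : ℝ → (Fin m → ℝ) → ℂ) (hF : Measurable (Function.uncurry F)) :
    Measurable (Function.uncurry fun u => avm j (F u)) := by
  set S : Set ((ℝ × (Fin m → ℝ)) × (Fin m → ℝ)) := {w | w.2 ∈ CC m ∧ w.2 ∈ cm j w.1.2} with hSd
  have hS : MeasurableSet S := by
    have h1 : Measurable (fun w : (ℝ × (Fin m → ℝ)) × (Fin m → ℝ) => (w.1.2, w.2)) :=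
      (measurable_snd.comp measurable_fst).prodMk measurable_snd
    exact (measurable_snd CC_meas).inter (h1 (cm_meas2 j))
  have e1 : (Function.uncurry fun u => avm j (F u)) = fun w : ℝ × (Fin m → ℝ) => (2 ^ j) ^ m *
      ∫ z, S.indicator (fun w => F w.1.1 w.2) (w, z) := by
    ext w
    obtain ⟨u, v⟩ := w
    simp only [Function.uncurry_apply_pair, avm]
    rw [← integral_indicator (CC_meas.inter (cm_meas j v))]
    congr 2
  rw [e1]
  apply Measurable.const_mul
  apply StronglyMeasurable.measurable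
  refine StronglyMeasurable.integral_prod_right' (f := S.indicator fun w => F w.1.1 w.2) ?_
  have h2 : Measurable (fun w : (ℝ × (Fin m → ℝ)) × (Fin m → ℝ) => (w.1.1, w.2)) :=
    (measurable_fst.comp measurable_fst).prodMk measurable_snd
  exact ((hF.comp h2).indicator hS).stronglyMeasurable

/-- the extension operator with a general function in the second variable -/
noncomputable def LL (G : ℝ → (Fin m → ℝ) → ℂ) (X T : ℝ) (ψ : (Fin m → ℝ) → ℂ) : ℂ :=
  ∫ w : ℝ × (Fin m → ℝ), G w.1 w.2 * (ph X T w.1 * ψ w.2) ∂(volume.prod (nuC m))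

section
variable (G : ℝ → (Fin m → ℝ) → ℂ) (hi : Integrable (Function.uncurry G) (volume.prod (nuC m)))
  (X T : ℝ) (ψ : (Fin m → ℝ) → ℂ) (hψ : Measurable ψ) (hb : ∀ v, ‖ψ v‖ ≤ 1)

lemma ph_meas (X T : ℝ) : Measurable (ph X T) := by
  apply Continuous.measurable
  unfold ph
  fun_prop

include hi hψ hb in
lemma LL_int : Integrable (fun w : ℝ × (Fin m → ℝ) => G w.1 w.2 * (ph X T w.1 * ψ w.2))
    (volume.prod (nuC m)) := by
  have h1 : Measurable (fun w : ℝ × (Fin m → ℝ) => ph X T w.1 * ψ w.2) :=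
    ((ph_meas X T).comp measurable_fst).mul (hψ.comp measurable_snd)
  refine hi.mono (hi.1.mul h1.aestronglyMeasurable) (ae_of_all _ fun w => ?_)
  rw [norm_mul, norm_mul, ph_norm, one_mul]
  exact mul_le_of_le_one_right (norm_nonneg _) (hb _)

include hi hψ hb in
lemma LL_eq1 : LL G X T ψ = ∫ v in CC m, E1 G X T v * ψ v := by
  unfold LL
  rw [integral_prod_symm _ (LL_int G hi X T ψ hψ hb)]
  congr 1
  ext v
  simp only [E1]
  rw [← integral_mul_const]
  congr 1
  ext u
  ring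

include hi hψ hb in
lemma LL_eq2 : LL G X T ψ = ∫ u, ph X T u * ∫ v in CC m, G u v * ψ v := by
  unfold LL
  rw [integral_prod _ (LL_int G hi X T ψ hψ hb)]
  congr 1
  ext u
  simp only
  rw [← integral_const_mul]
  congr 1
  ext v
  ring

end

lemma E1_meas_v (G : ℝ → (Fin m → ℝ) → ℂ) (hG : Measurable (Function.uncurry G)) (X T : ℝ) :
    Measurable (fun v => E1 G X T v) := by
  have h := E1_meas G hG
  have h2 : Measurable (fun l : Fin m → ℝ => (((X, T) : ℝ × ℝ), l)) :=
    measurable_const.prodMk measurable_id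
  have h3 := Measurable.comp h h2
  exact h3

/-- Cauchy-Schwarz -/
lemma LL_cs (G : ℝ → (Fin m → ℝ) → ℂ) (hG : Measurable (Function.uncurry G))
    (hi : Integrable (Function.uncurry G) (volume.prod (nuC m)))
    (X T : ℝ) (ψ : (Fin m → ℝ) → ℂ) (hψ : Measurable ψ) (hb : ∀ v, ‖ψ v‖ ≤ 1) :
    ‖LL G X T ψ‖ₑ ^ 2 ≤ M2 (nuC m) G X T * ∫⁻ v in CC m, ‖ψ v‖ₑ ^ 2 := by
  rw [LL_eq1 G hi X T ψ hψ hb]
  have h := ENNReal.lintegral_mul_le_Lp_mul_Lq (nuC m) Real.HolderConjugate.two_two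
    (f := fun v => ‖E1 G X T v‖ₑ) (g := fun v => ‖ψ v‖ₑ)
    (E1_meas_v G hG X T).enorm.aemeasurable hψ.enorm.aemeasurable
  simp only [ENNReal.rpow_ofNat, Pi.mul_apply] at h
  have h2 : ‖∫ v in CC m, E1 G X T v * ψ v‖ₑ ≤
      (∫⁻ v in CC m, ‖E1 G X T v‖ₑ ^ 2) ^ (1 / 2 : ℝ) * (∫⁻ v in CC m, ‖ψ v‖ₑ ^ 2) ^ (1 / 2 : ℝ) := by
    refine (enorm_integral_le_lintegral_enorm _).trans ?_
    simp only [enorm_mul]
    exact h
  calc ‖∫ v in CC m, E1 G X T v * ψ v‖ₑ ^ 2 ≤ ((∫⁻ v in CC m, ‖E1 G X T v‖ₑ ^ 2) ^ (1 / 2 : ℝ) *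
        (∫⁻ v in CC m, ‖ψ v‖ₑ ^ 2) ^ (1 / 2 : ℝ)) ^ 2 := by gcongr
    _ = _ := by
        rw [mul_pow, ← ENNReal.rpow_natCast, ← ENNReal.rpow_natCast, ← ENNReal.rpow_mul,
          ← ENNReal.rpow_mul]
        norm_num
        rfl

/-- Plancherel -/
lemma LL_planch (G : ℝ → (Fin m → ℝ) → ℂ) (hG : Measurable (Function.uncurry G))
    (hi : Integrable (Function.uncurry G) (volume.prod (nuC m)))
    (X T t : ℝ) (hM : M2 (nuC m) G X T ≠ ∞) :
    ∫⁻ y : Fin m → ℝ, ‖LL G X T (em y t)‖ₑ ^ 2 = M2 (nuC m) G X T := by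
  have hm := E1_meas_v G hG X T
  have h2 : MemLp (fun v => E1 G X T v) 2 (nuC m) := by
    refine ⟨hm.aestronglyMeasurable, ?_⟩
    rw [eLpNorm_lt_top_iff_lintegral_rpow_enorm_lt_top (by norm_num) (by norm_num)]
    simp only [ENNReal.toReal_ofNat, ENNReal.rpow_ofNat]
    exact lt_top_iff_ne_top.mpr hM
  have h1 : Integrable (fun v => E1 G X T v) (nuC m) := h2.integrable (by norm_num)
  have k1 : Integrable ((CC m).indicator fun v => E1 G X T v) :=
    (integrable_indicator_iff CC_meas).mpr h1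
  have k2 : MemLp ((CC m).indicator fun v => E1 G X T v) 2 :=
    (memLp_indicator_iff_restrict CC_meas).mpr h2
  have h3 := planchM _ k1 k2 t
  have e1 : ∀ y : Fin m → ℝ, LL G X T (em y t) =
      ∫ v, (CC m).indicator (fun v => E1 G X T v) v * em y t v := by
    intro y
    rw [LL_eq1 G hi X T (em y t) (em_meas y t) (fun v => (em_norm y t v).le),
      ← integral_indicator CC_meas]
    congr 1
    ext v
    by_cases h : v ∈ CC m
    · rw [indicator_of_mem h, indicator_of_mem h]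
    · rw [indicator_of_notMem h, indicator_of_notMem h, zero_mul]
  simp only [e1]
  rw [h3]
  unfold M2
  rw [← lintegral_indicator CC_meas]
  congr 1
  ext v
  by_cases h : v ∈ CC m
  · rw [indicator_of_mem h, indicator_of_mem h]
  · rw [indicator_of_notMem h, indicator_of_notMem h]
    simp

/-- integrability from square integrability -/
lemma int_of_N2 (G : ℝ → (Fin m → ℝ) → ℂ) (hG : Measurable (Function.uncurry G))
    (hz : ∀ u, u ∉ II → ∀ v, G u v = 0) (hN : ∫⁻ u, N2 (nuC m) G u ≠ ∞) :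
    Integrable (Function.uncurry G) (volume.prod (nuC m)) := by
  refine ⟨hG.aestronglyMeasurable, ?_⟩
  unfold HasFiniteIntegral
  rw [lintegral_prod _ hG.enorm.aemeasurable]
  have h1 : ∀ u, ∫⁻ v in CC m, ‖Function.uncurry G (u, v)‖ₑ ≤
      II.indicator (fun _ => (2 : ℝ≥0∞) ^ m) u + N2 (nuC m) G u := by
    intro u
    by_cases hu : u ∈ II
    · rw [indicator_of_mem hu]
      calc ∫⁻ v in CC m, ‖Function.uncurry G (u, v)‖ₑ ≤ ∫⁻ v in CC m, (1 + ‖G u v‖ₑ ^ 2) := by
            apply lintegral_mono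
            intro v
            simp only [Function.uncurry_apply_pair]
            by_cases h : ‖G u v‖ₑ ≤ 1
            · exact h.trans le_self_add
            · push Not at h
              calc ‖G u v‖ₑ ≤ ‖G u v‖ₑ ^ 2 := by
                    rw [sq]
                    exact le_mul_of_one_le_left' h.le
                _ ≤ _ := le_add_self
        _ = _ := by
            rw [lintegral_add_left measurable_const, lintegral_const,
              Measure.restrict_apply_univ, CC_vol, one_mul]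
            rfl
    · simp [Function.uncurry_apply_pair, hz u hu]
  calc ∫⁻ u, ∫⁻ v in CC m, ‖Function.uncurry G (u, v)‖ₑ ≤
      ∫⁻ u, (II.indicator (fun _ => (2 : ℝ≥0∞) ^ m) u + N2 (nuC m) G u) := lintegral_mono h1
    _ = 2 ^ m + ∫⁻ u, N2 (nuC m) G u := by
        rw [lintegral_add_left (measurable_const.indicator measurableSet_Icc),
          lintegral_indicator measurableSet_Icc, lintegral_const, Measure.restrict_apply_univ,
          vol_II, mul_one]
    _ < ∞ := ENNReal.add_lt_top.mpr ⟨ENNReal.pow_lt_top (by norm_num), lt_top_iff_ne_top.mpr hN⟩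

lemma M2_le_N2 (G : ℝ → (Fin m → ℝ) → ℂ) (hG : Measurable (Function.uncurry G))
    (hz : ∀ u, u ∉ II → ∀ v, G u v = 0) (X T : ℝ) :
    M2 (nuC m) G X T ≤ ∫⁻ u, N2 (nuC m) G u := by
  unfold M2 N2
  have h1 : ∀ v, ‖E1 G X T v‖ₑ ^ 2 ≤ ∫⁻ u, ‖G u v‖ₑ ^ 2 := by
    intro v
    have e1 : ‖E1 G X T v‖ₑ ≤ ∫⁻ u in II, ‖G u v‖ₑ := by
      unfold E1
      refine (enorm_integral_le_lintegral_enorm _).trans ?_
      rw [← lintegral_indicator measurableSet_Icc]
      apply lintegral_mono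
      intro u
      simp only
      rw [enorm_mul, ph_enorm, mul_one]
      by_cases hu : u ∈ II
      · rw [indicator_of_mem hu]
      · rw [indicator_of_notMem hu, hz u hu, enorm_zero]
    have hGv : Measurable (fun u => ‖G u v‖ₑ) := (a_meas_u G hG v).enorm
    have h := ENNReal.lintegral_mul_le_Lp_mul_Lq (volume.restrict II) Real.HolderConjugate.two_two
      (f := fun _ => (1 : ℝ≥0∞)) (g := fun u => ‖G u v‖ₑ) aemeasurable_const hGv.aemeasurable
    simp only [lintegral_const, Measure.restrict_apply_univ, one_mul,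
      ENNReal.rpow_ofNat, Pi.mul_apply, one_pow, vol_II, ENNReal.one_rpow] at h
    calc ‖E1 G X T v‖ₑ ^ 2 ≤ ((∫⁻ u in II, ‖G u v‖ₑ ^ 2) ^ (1 / 2 : ℝ)) ^ 2 := by
          gcongr
          exact e1.trans h
      _ = ∫⁻ u in II, ‖G u v‖ₑ ^ 2 := by
          rw [← ENNReal.rpow_natCast, ← ENNReal.rpow_mul]
          norm_num
      _ ≤ _ := setLIntegral_le_lintegral _ _
  refine (lintegral_mono h1).trans (le_of_eq ?_)
  rw [lintegral_lintegral_swap]
  have h4 : Measurable (fun w : (Fin m → ℝ) × ℝ => G w.2 w.1) :=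
    hG.comp (measurable_snd.prodMk measurable_fst)
  exact (h4.enorm.pow_const 2).aemeasurable

/-- the average can be moved to the other factor -/
lemma LL_avm (j : ℕ) (R : ℝ → (Fin m → ℝ) → ℂ) (hR : Measurable (Function.uncurry R))
    (hi : Integrable (Function.uncurry R) (volume.prod (nuC m)))
    (hi' : Integrable (Function.uncurry fun u => avm j (R u)) (volume.prod (nuC m)))
    (X T : ℝ) (ψ : (Fin m → ℝ) → ℂ) (hψ : Measurable ψ) (hb : ∀ v, ‖ψ v‖ ≤ 1)
    (hψ' : Measurable (avm j ψ)) (hb' : ∀ v, ‖avm j ψ v‖ ≤ 1) :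
    LL (fun u => avm j (R u)) X T ψ = LL R X T (avm j ψ) := by
  rw [LL_eq2 _ hi' X T ψ hψ hb, LL_eq2 _ hi X T _ hψ' hb']
  apply integral_congr_ae
  filter_upwards [hi.prod_right_ae] with u hu
  rw [avm_adj j (R u) ψ (a_meas_l R hR u) hu hψ hb]

lemma avm_norm_le (j : ℕ) (ψ : (Fin m → ℝ) → ℂ) (hb : ∀ v, ‖ψ v‖ ≤ 1) (v : Fin m → ℝ) :
    ‖avm j ψ v‖ ≤ 1 := by
  unfold avm
  rw [norm_mul]
  have h1 : ‖∫ w in CC m ∩ cm j v, ψ w‖ ≤ 1 * (volume (CC m ∩ cm j v)).toReal := by
    apply norm_setIntegral_le_of_norm_le_const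
    · exact lt_of_le_of_lt (measure_mono inter_subset_right) (cm_vol_lt j v)
    · intro w _
      exact hb w
  have h2 : (volume (CC m ∩ cm j v)).toReal ≤ (((2 : ℝ) ^ j) ^ m)⁻¹ := by
    have h3 : volume (CC m ∩ cm j v) ≤ (nn m j)⁻¹ := by
      rw [← cm_vol j v]
      exact measure_mono inter_subset_right
    have h4 := ENNReal.toReal_mono (ENNReal.inv_ne_top.mpr (nn_ne_zero j)) h3
    refine h4.trans (le_of_eq ?_)
    rw [nn, ENNReal.toReal_inv, ENNReal.toReal_pow, ENNReal.toReal_pow]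
    simp
  have h5 : ‖((2 : ℂ) ^ j) ^ m‖ = ((2 : ℝ) ^ j) ^ m := by
    rw [norm_pow, norm_pow]
    simp
  rw [h5]
  calc ((2 : ℝ) ^ j) ^ m * ‖∫ w in CC m ∩ cm j v, ψ w‖ ≤ ((2 : ℝ) ^ j) ^ m * (((2 : ℝ) ^ j) ^ m)⁻¹ := by
        gcongr
        linarith
    _ = 1 := mul_inv_cancel₀ (by positivity)

end Pool.Agent.W771.MD
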