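import Mathlib
import Pool.Agent.W771.MC
set_option autoImplicit false

/-! The estimate of one piece. -/

namespace Pool.Agent.W771.MD

open MeasureTheory Set Complex
open scoped ENNReal NNReal FourierTransform

variable {m : ℕ}

lemma avm_zero (j : ℕ) (φ : (Fin m → ℝ) → ℂ) (h : ∀ v, φ v = 0) (v : Fin m → ℝ) :
    avm j φ v = 0 := by
  unfold avm
  simp [h]

lemma N2_avm (j : ℕ) (R : ℝ → (Fin m → ℝ) → ℂ) (hR : Measurable (Function.uncurry R)) (u : ℝ) :
    N2 (nuC m) (fun u => avm j (R u)) u ≤ N2 (nuC m) R u := by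
  unfold N2
  refine (setLIntegral_le_lintegral _ _).trans ?_
  exact avm_L2 j (R u) (a_meas_l R hR u)

lemma min_rpow_le (a b : ℝ≥0∞) (θ r : ℝ) (h0 : 0 ≤ θ) (h1 : θ ≤ 1) (hr : 0 ≤ r) :
    min a b ^ r ≤ a ^ ((1 - θ) * r) * b ^ (θ * r) := by
  calc min a b ^ r = min a b ^ ((1 - θ) * r) * min a b ^ (θ * r) := by
        rw [← ENNReal.rpow_add_of_nonneg _ _ (mul_nonneg (by linarith) hr) (mul_nonneg h0 hr)]
        congr 1
        ring
    _ ≤ _ := by
        gcongr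
        · exact min_le_left _ _
        · exact min_le_right _ _

/-- the weight -/
noncomputable def VV (m : ℕ) (γ : ℝ) (j : ℕ) (t : ℝ) : ℝ≥0∞ :=
  min (2 ^ m) ((2 ^ j * Pool.Agent.H728R3.SR.AA γ t * Pool.Agent.H728R3.SR.RR γ) ^ m)

lemma VV_le (γ : ℝ) (j : ℕ) (t : ℝ) : VV m γ j t ≤ 2 ^ m := min_le_left _ _

/-- the integral in the `y` variable -/
lemma piece_y (q : ℝ) (hq : 2 ≤ q) (γ : ℝ) (hγ0 : 0 < γ) (hγ1 : γ ≤ 1) (j : ℕ)
    (R : ℝ → (Fin m → ℝ) → ℂ) (hR : Measurable (Function.uncurry R))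
    (hz : ∀ u, u ∉ II → ∀ v, R u v = 0) (hN : ∫⁻ u, N2 (nuC m) R u ≠ ∞) (X T t : ℝ) :
    ∫⁻ y, ‖LL (fun u => avm j (R u)) X T (em y t)‖ₑ ^ q ≤ VV m γ j t ^ ((q - 2) / 2) *
      (M2 (nuC m) (fun u => avm j (R u)) X T ^ (q / 2) + M2 (nuC m) R X T ^ (q / 2)) := by
  set P : ℝ → (Fin m → ℝ) → ℂ := fun u => avm j (R u) with hP
  have hPm : Measurable (Function.uncurry P) := avm_meas j R hR
  have hPz : ∀ u, u ∉ II → ∀ v, P u v = 0 := fun u hu v => avm_zero j _ (hz u hu) v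
  have hPN : ∫⁻ u, N2 (nuC m) P u ≠ ∞ :=
    ne_top_of_le_ne_top hN (lintegral_mono fun u => N2_avm j R hR u)
  have hiR := int_of_N2 R hR hz hN
  have hiP := int_of_N2 P hPm hPz hPN
  set a := M2 (nuC m) P X T with ha
  set b := M2 (nuC m) R X T with hb
  have hat : a ≠ ∞ := ne_top_of_le_ne_top hPN (M2_le_N2 P hPm hPz X T)
  have hbt : b ≠ ∞ := ne_top_of_le_ne_top hN (M2_le_N2 R hR hz X T)
  have s1 : ∀ y, ‖LL P X T (em y t)‖ₑ ^ 2 ≤ a * 2 ^ m := by
    intro y
    refine (LL_cs P hPm hiP X T (em y t) (em_meas y t) (fun v => (em_norm y t v).le)).trans ?_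
    simp only [em_enorm, one_pow]
    rw [lintegral_const, Measure.restrict_apply_univ, CC_vol, one_mul]
  have s2 : ∀ y, ‖LL P X T (em y t)‖ₑ ^ 2 ≤
      b * (2 ^ j * Pool.Agent.H728R3.SR.AA γ t * Pool.Agent.H728R3.SR.RR γ) ^ m := by
    intro y
    have hψ' : Measurable (avm j (em y t)) := by
      have h1 : Measurable (Function.uncurry fun _ : ℝ => em y t) :=
        (em_meas y t).comp measurable_snd
      have h2 := avm_meas j (fun _ : ℝ => em y t) h1
      exact a_meas_l _ h2 0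
    have hb' := avm_norm_le j (em y t) (fun v => (em_norm y t v).le)
    rw [hP, LL_avm j R hR hiR hiP X T (em y t) (em_meas y t) (fun v => (em_norm y t v).le) hψ' hb']
    refine (LL_cs R hR hiR X T _ hψ' hb').trans ?_
    gcongr
    exact osc γ hγ0 hγ1 y t j
  have s3 : ∀ y, ‖LL P X T (em y t)‖ₑ ^ 2 ≤ max a b * VV m γ j t := by
    intro y
    unfold VV
    rw [mul_min]
    apply le_min
    · exact (s1 y).trans (mul_le_mul' (le_max_left _ _) le_rfl)
    · exact (s2 y).trans (mul_le_mul' (le_max_right _ _) le_rfl)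
  have hq0 : 0 ≤ (q - 2) / 2 := by linarith
  have hct : (max a b * VV m γ j t) ^ ((q - 2) / 2) ≠ ∞ := by
    apply ENNReal.rpow_ne_top_of_nonneg hq0
    apply ENNReal.mul_ne_top
    · rcases max_choice a b with h | h
      · rw [h]; exact hat
      · rw [h]; exact hbt
    · exact ne_top_of_le_ne_top (ENNReal.pow_ne_top (by norm_num)) (VV_le γ j t)
  calc ∫⁻ y, ‖LL P X T (em y t)‖ₑ ^ q ≤
      ∫⁻ y, (max a b * VV m γ j t) ^ ((q - 2) / 2) * ‖LL P X T (em y t)‖ₑ ^ 2 := by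
        apply lintegral_mono
        intro y
        simp only
        have e1 : ‖LL P X T (em y t)‖ₑ ^ q = (‖LL P X T (em y t)‖ₑ ^ 2) ^ ((q - 2) / 2) *
            ‖LL P X T (em y t)‖ₑ ^ 2 := by
          rw [← ENNReal.rpow_natCast, ← ENNReal.rpow_mul, ← ENNReal.rpow_add_of_nonneg _ _
            (by push_cast; linarith) (by positivity)]
          congr 1
          push_cast
          ring
        rw [e1]
        gcongr
        exact s3 y
    _ = (max a b * VV m γ j t) ^ ((q - 2) / 2) * a := by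
        rw [lintegral_const_mul' _ _ hct, LL_planch P hPm hiP X T t hat]
    _ ≤ (max a b * VV m γ j t) ^ ((q - 2) / 2) * max a b := by
        gcongr
        exact le_max_left _ _
    _ = VV m γ j t ^ ((q - 2) / 2) * max a b ^ (q / 2) := by
        have e : q / 2 = (q - 2) / 2 + 1 := by ring
        rw [ENNReal.mul_rpow_of_nonneg _ _ hq0, e, ENNReal.rpow_add_of_nonneg _ _ hq0 zero_le_one,
          ENNReal.rpow_one]
        ring
    _ ≤ _ := by
        gcongr
        rcases max_choice a b with h | h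
        · rw [h]; exact le_self_add
        · rw [h]; exact le_add_self

open Pool.Agent.H728R3.SR in
lemma AA_meas (γ : ℝ) : Measurable (AA γ) := by
  unfold AA
  apply Measurable.ite
  · exact measurableSet_le (by fun_prop) measurable_const
  · exact measurable_const
  · have : Measurable fun t : ℝ => |t| := by fun_prop
    exact ((this.pow_const _).const_mul _).ennreal_ofReal

open Pool.Agent.H728R3.SR in
lemma AA_le (γ : ℝ) (hγ0 : 0 < γ) (hγ1 : γ ≤ 1) (t : ℝ) :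
    AA γ t ≤ ENNReal.ofReal (32 * (1 + ‖t‖) ^ (-(1 - γ / 2))) := by
  unfold AA
  rw [Real.norm_eq_abs]
  have h0 : 0 ≤ |t| := abs_nonneg t
  split_ifs with h
  · rw [← ENNReal.ofReal_one]
    apply ENNReal.ofReal_le_ofReal
    have h1 : (2 : ℝ) ^ (-(1 : ℝ)) ≤ (1 + |t|) ^ (-(1 - γ / 2)) := by
      calc (2 : ℝ) ^ (-(1 : ℝ)) ≤ 2 ^ (-(1 - γ / 2)) :=
            Real.rpow_le_rpow_of_exponent_le (by norm_num) (by linarith)
        _ ≤ _ := Real.rpow_le_rpow_of_nonpos (by linarith) (by linarith) (by linarith)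
    have h2 : (2 : ℝ) ^ (-(1 : ℝ)) = 1 / 2 := by
      rw [Real.rpow_neg (by norm_num), Real.rpow_one]
      norm_num
    linarith
  · push Not at h
    apply ENNReal.ofReal_le_ofReal
    have h1 : (1 / 2) * |t| ^ (γ / 2 - 1) ≤ (1 + |t|) ^ (-(1 - γ / 2)) := by
      calc (1 / 2) * |t| ^ (γ / 2 - 1) ≤ 2 ^ (γ / 2 - 1) * |t| ^ (γ / 2 - 1) := by
            gcongr
            calc (1 / 2 : ℝ) = 2 ^ (-(1 : ℝ)) := by
                  rw [Real.rpow_neg (by norm_num), Real.rpow_one]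
                  norm_num
              _ ≤ _ := Real.rpow_le_rpow_of_exponent_le (by norm_num) (by linarith)
        _ = (2 * |t|) ^ (γ / 2 - 1) := by
            rw [Real.mul_rpow (by norm_num) h0]
        _ ≤ (1 + |t|) ^ (γ / 2 - 1) :=
            Real.rpow_le_rpow_of_nonpos (by linarith) (by linarith) (by linarith)
        _ = _ := by
            congr 1
            ring
    linarith

open Pool.Agent.H728R3.SR in
lemma AA_int (γ η : ℝ) (hγ0 : 0 < γ) (hγ1 : γ ≤ 1) (hη : 0 < η)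
    (h : 1 < (1 - γ / 2) * (1 + η)) : ∫⁻ t, AA γ t ^ (1 + η) ≠ ∞ := by
  have h1 : Integrable (fun t : ℝ => (1 + ‖t‖) ^ (-((1 - γ / 2) * (1 + η)))) := by
    apply integrable_one_add_norm
    simpa using h
  have h2 := (h1.const_mul ((32 : ℝ) ^ (1 + η))).lintegral_lt_top
  refine ne_top_of_le_ne_top h2.ne ?_
  apply lintegral_mono
  intro t
  simp only
  calc AA γ t ^ (1 + η) ≤ ENNReal.ofReal (32 * (1 + ‖t‖) ^ (-(1 - γ / 2))) ^ (1 + η) := by
        gcongr
        exact AA_le γ hγ0 hγ1 t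
    _ = _ := by
        have h3 : 0 ≤ 1 + ‖t‖ := by positivity
        rw [ENNReal.ofReal_rpow_of_nonneg (by positivity) (by linarith),
          Real.mul_rpow (by norm_num) (by positivity), ← Real.rpow_mul h3]
        congr 3
        ring

open Pool.Agent.H728R3.SR in
/-- the integral of the weight -/
lemma VV_int (hm : 1 ≤ m) (q η : ℝ) (hη : 0 < η)
    (hκ : 1 + η ≤ (m + 1) * (q - 2) / 2) : ∃ γ : ℝ, 0 < γ ∧ γ ≤ 1 ∧ ∃ C : ℝ≥0, ∀ j : ℕ,
    ∫⁻ t, (VV m γ j t ^ ((q - 2) / 2)) ^ (((m : ℝ) + 1) / m) ≤ C * (2 : ℝ≥0∞) ^ ((1 + η) * (j : ℝ)) := by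
  have hm0 : (0 : ℝ) < m := by
    have : (1 : ℝ) ≤ m := by exact_mod_cast hm
    linarith
  set κ : ℝ := (m + 1) * (q - 2) / 2 with hκd
  have hκ0 : 0 < κ := by linarith
  set γ : ℝ := η / (1 + η) with hγ
  have hγ0 : 0 < γ := by positivity
  have hγ1 : γ ≤ 1 := by
    rw [hγ, div_le_one (by linarith)]
    linarith
  have hγη : 1 < (1 - γ / 2) * (1 + η) := by
    have : γ * (1 + η) = η := by
      rw [hγ]
      field_simp
    nlinarith
  have hI := AA_int γ η hγ0 hγ1 hη hγη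
  set θ : ℝ := (1 + η) / κ with hθ
  have hθ0 : 0 ≤ θ := by positivity
  have hθ1 : θ ≤ 1 := by
    rw [hθ, div_le_one hκ0]
    exact hκ
  set r : ℝ := (q - 2) / 2 * (((m : ℝ) + 1) / m) with hr
  have hrκ : m * r = κ := by
    rw [hr, hκd]
    field_simp
  have hr0 : 0 < r := by
    by_contra hc
    push Not at hc
    nlinarith
  have hθr : m * (θ * r) = 1 + η := by
    have : m * (θ * r) = θ * (m * r) := by ring
    rw [this, hrκ, hθ]
    field_simp
  have hRR := RR_ne γ hγ0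
  set D : ℝ≥0∞ := ((2 : ℝ≥0∞) ^ m) ^ ((1 - θ) * r) * (Pool.Agent.H728R3.SR.RR γ ^ (1 + η) *
    ∫⁻ t, AA γ t ^ (1 + η)) with hD
  have hDt : D ≠ ∞ := by
    apply ENNReal.mul_ne_top
    · apply ENNReal.rpow_ne_top_of_nonneg (mul_nonneg (by linarith) hr0.le)
      exact ENNReal.pow_ne_top (by norm_num)
    · exact ENNReal.mul_ne_top (ENNReal.rpow_ne_top_of_nonneg (by linarith) hRR) hI
  refine ⟨γ, hγ0, hγ1, D.toNNReal, fun j => ?_⟩
  rw [ENNReal.coe_toNNReal hDt]
  calc ∫⁻ t, (VV m γ j t ^ ((q - 2) / 2)) ^ (((m : ℝ) + 1) / m) ≤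
      ∫⁻ t, (((2 : ℝ≥0∞) ^ m) ^ ((1 - θ) * r) * ((2 : ℝ≥0∞) ^ ((1 + η) * (j : ℝ)) *
        Pool.Agent.H728R3.SR.RR γ ^ (1 + η))) * AA γ t ^ (1 + η) := by
        apply lintegral_mono
        intro t
        simp only
        rw [← ENNReal.rpow_mul, ← hr]
        refine (min_rpow_le _ _ θ r hθ0 hθ1 hr0.le).trans (le_of_eq ?_)
        have e : ((2 ^ j * AA γ t * Pool.Agent.H728R3.SR.RR γ) ^ m) ^ (θ * r) =
            (2 : ℝ≥0∞) ^ ((1 + η) * (j : ℝ)) * AA γ t ^ (1 + η) *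
              Pool.Agent.H728R3.SR.RR γ ^ (1 + η) := by
          rw [← ENNReal.rpow_natCast, ← ENNReal.rpow_mul, hθr,
            ENNReal.mul_rpow_of_nonneg _ _ (by linarith),
            ENNReal.mul_rpow_of_nonneg _ _ (by linarith),
            ← ENNReal.rpow_natCast, ← ENNReal.rpow_mul, mul_comm (j : ℝ)]
        rw [e]
        ring
    _ = (((2 : ℝ≥0∞) ^ m) ^ ((1 - θ) * r) * ((2 : ℝ≥0∞) ^ ((1 + η) * (j : ℝ)) *
        Pool.Agent.H728R3.SR.RR γ ^ (1 + η))) * ∫⁻ t, AA γ t ^ (1 + η) := by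
        rw [lintegral_const_mul _ ((AA_meas γ).pow_const _)]
    _ = _ := by
        rw [hD]
        ring

end Pool.Agent.W771.MD
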