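import Mathlib
import Pool.Agent.W771.MF
set_option autoImplicit false

/-! The estimate of one piece, the integral in time. -/

namespace Pool.Agent.W771.MD

open MeasureTheory Set Complex
open scoped ENNReal NNReal FourierTransform

variable {m : ℕ}

section
variable {Λ : Type} [MeasurableSpace Λ] (ν : Measure Λ) [SFinite ν]

omit [SFinite ν] in
lemma M2_smul (a : ℝ → Λ → ℂ) (ha : Measurable (Function.uncurry a)) (c : ℂ) (x t : ℝ) :
    M2 ν (fun u l => c * a u l) x t = ‖c‖ₑ ^ 2 * M2 ν a x t := by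
  unfold M2
  have h1 : Measurable (fun l => ‖E1 a x t l‖ₑ ^ 2) := by
    have h := E1_meas a ha
    have h2 : Measurable (fun l : Λ => (((x, t) : ℝ × ℝ), l)) :=
      measurable_const.prodMk measurable_id
    have h3 := Measurable.comp h h2
    exact h3.enorm.pow_const 2
  rw [← lintegral_const_mul _ h1]
  congr 1
  ext l
  rw [← mul_pow, ← enorm_mul]
  congr 2
  unfold E1
  rw [← integral_const_mul]
  congr 1
  ext u
  ring

/-- the bound in one variable, homogeneous form, scaled -/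
lemma oneVar_hom (n : ℕ) (hn : 2 ≤ n) (q p : ℝ) (hq : 2 < n * (q - 2)) (hp0 : 0 < p)
    (hp : n * q < p * (n * (q - 1) - 2)) : ∃ C : ℝ≥0,
    ∀ (Λ : Type) [MeasurableSpace Λ] (ν : Measure Λ) [SFinite ν] (a : ℝ → Λ → ℂ),
    Measurable (Function.uncurry a) → (∀ u, u ∉ II → ∀ l, a u l = 0) →
    ∀ A : ℝ≥0∞, A ≠ 0 → A ≠ ∞ → (∫⁻ u in II, N2 ν a u ^ (p / 2) ≤ A ^ p) →
    ∫⁻ t : ℝ, (∫⁻ x : ℝ, M2 ν a (-4 * Real.pi * x) (-8 * Real.pi * t) ^ (q / 2)) ^ n ≤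
      C * A ^ (q * n) := by
  obtain ⟨C, hC⟩ := oneVarN n hn q p hq hp0 hp
  refine ⟨C, ?_⟩
  intro Λ _ ν _ a ha hz A hA0 hAt hN
  have hn1 : (2 : ℝ) ≤ n := by exact_mod_cast hn
  have hq2 : 2 < q := by
    by_contra hc
    push Not at hc
    nlinarith
  -- unscaled
  have h1 : ∫⁻ t : ℝ, (∫⁻ x : ℝ, M2 ν a x t ^ (q / 2)) ^ n ≤ C * A ^ (q * n) := by
    obtain ⟨c, hc⟩ := exists_scalar (A⁻¹) (ENNReal.inv_ne_top.mpr hA0)
    have h2 := hC Λ ν (fun u l => c * a u l)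
      (by
        have := ha.const_mul c
        exact this)
      (fun u hu l => by simp [hz u hu])
      (by
        have := mix_smul ν a ha c p hp0
        unfold mix at this
        rw [this, hc]
        calc (A⁻¹) ^ p * ∫⁻ u in II, N2 ν a u ^ (p / 2) ≤ (A⁻¹) ^ p * A ^ p := by gcongr
          _ = 1 := by
            rw [← ENNReal.mul_rpow_of_nonneg _ _ hp0.le, ENNReal.inv_mul_cancel hA0 hAt,
              ENNReal.one_rpow])
    have e1 : ∀ x t, M2 ν (fun u l => c * a u l) x t ^ (q / 2) =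
        (A⁻¹) ^ q * M2 ν a x t ^ (q / 2) := by
      intro x t
      rw [M2_smul ν a ha, hc, ENNReal.mul_rpow_of_nonneg _ _ (by linarith),
        ← ENNReal.rpow_natCast, ← ENNReal.rpow_mul]
      congr 2
      push_cast
      ring
    have hAq : (A⁻¹) ^ q ≠ ∞ :=
      ENNReal.rpow_ne_top_of_nonneg (by linarith) (ENNReal.inv_ne_top.mpr hA0)
    simp only [e1, lintegral_const_mul' _ _ hAq, mul_pow] at h2
    rw [lintegral_const_mul' _ _ (ENNReal.pow_ne_top hAq)] at h2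
    have e3 : ((A⁻¹) ^ q) ^ n = (A⁻¹) ^ (q * n) := by
      rw [← ENNReal.rpow_natCast, ← ENNReal.rpow_mul]
    rw [e3] at h2
    have e4 : A ^ (q * n) * (A⁻¹) ^ (q * n) = 1 := by
      rw [← ENNReal.mul_rpow_of_nonneg _ _ (by positivity), ENNReal.mul_inv_cancel hA0 hAt,
        ENNReal.one_rpow]
    calc ∫⁻ t : ℝ, (∫⁻ x : ℝ, M2 ν a x t ^ (q / 2)) ^ n =
        A ^ (q * n) * ((A⁻¹) ^ (q * n) * ∫⁻ t : ℝ, (∫⁻ x : ℝ, M2 ν a x t ^ (q / 2)) ^ n) := by
          rw [← mul_assoc, e4, one_mul]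
      _ ≤ A ^ (q * n) * C := by gcongr
      _ = _ := mul_comm _ _
  -- scaling
  have hM := M2_meas ν a ha
  have hpi : (3 : ℝ) < Real.pi := Real.pi_gt_three
  have e5 : ∀ T : ℝ, ∫⁻ x : ℝ, M2 ν a (-4 * Real.pi * x) T ^ (q / 2) ≤
      ∫⁻ x : ℝ, M2 ν a x T ^ (q / 2) := by
    intro T
    rw [lint_scale (fun x => M2 ν a x T ^ (q / 2)) ((M2_meas_x ν a ha T).pow_const _)
      (-4 * Real.pi) (by nlinarith)]
    calc ENNReal.ofReal |(-4 * Real.pi)⁻¹| * ∫⁻ x : ℝ, M2 ν a x T ^ (q / 2) ≤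
        1 * ∫⁻ x : ℝ, M2 ν a x T ^ (q / 2) := by
          gcongr
          rw [← ENNReal.ofReal_one]
          apply ENNReal.ofReal_le_ofReal
          rw [abs_inv, abs_mul]
          apply inv_le_one_of_one_le₀
          rw [abs_of_pos Real.pi_pos]
          norm_num
          linarith
      _ = _ := one_mul _
  have hFm : Measurable (fun T => (∫⁻ x : ℝ, M2 ν a x T ^ (q / 2)) ^ n) := by
    have h6 : Measurable (fun w : ℝ × ℝ => M2 ν a w.1 w.2 ^ (q / 2)) := hM.pow_const _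
    have h7 : Measurable (fun T => ∫⁻ x : ℝ, M2 ν a x T ^ (q / 2)) :=
      Measurable.lintegral_prod_left' h6
    exact h7.pow_const n
  calc ∫⁻ t : ℝ, (∫⁻ x : ℝ, M2 ν a (-4 * Real.pi * x) (-8 * Real.pi * t) ^ (q / 2)) ^ n ≤
      ∫⁻ t : ℝ, (fun T => (∫⁻ x : ℝ, M2 ν a x T ^ (q / 2)) ^ n) (-8 * Real.pi * t) := by
        apply lintegral_mono
        intro t
        simp only
        have := e5 (-8 * Real.pi * t)
        gcongr
    _ = ENNReal.ofReal |(-8 * Real.pi)⁻¹| * ∫⁻ t : ℝ, (∫⁻ x : ℝ, M2 ν a x t ^ (q / 2)) ^ n :=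
        lint_scale _ hFm (-8 * Real.pi) (by nlinarith)
    _ ≤ 1 * ∫⁻ t : ℝ, (∫⁻ x : ℝ, M2 ν a x t ^ (q / 2)) ^ n := by
        gcongr
        rw [← ENNReal.ofReal_one]
        apply ENNReal.ofReal_le_ofReal
        rw [abs_inv, abs_mul]
        apply inv_le_one_of_one_le₀
        rw [abs_of_pos Real.pi_pos]
        norm_num
        linarith
    _ ≤ _ := by
        rw [one_mul]
        exact h1

end

/-- Hölder in time -/
lemma time_n (n : ℕ) (hn : 2 ≤ n) (V Z : ℝ → ℝ≥0∞) (hV : Measurable V) (hZ : Measurable Z) :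
    ∫⁻ t, V t * Z t ≤ (∫⁻ t, V t ^ ((n : ℝ) / (n - 1))) ^ (((n : ℝ) - 1) / n) *
      (∫⁻ t, Z t ^ n) ^ (1 / (n : ℝ)) := by
  have hn1 : (1 : ℝ) < n := by exact_mod_cast (by omega : 1 < n)
  have hc := (Real.HolderConjugate.conjExponent hn1).symm
  unfold Real.conjExponent at hc
  have h := ENNReal.lintegral_mul_le_Lp_mul_Lq (volume : Measure ℝ) hc
    hV.aemeasurable hZ.aemeasurable
  simp only [Pi.mul_apply, ENNReal.rpow_natCast] at h
  have e : 1 / ((n : ℝ) / (n - 1)) = ((n : ℝ) - 1) / n := by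
    rw [one_div_div]
  rwa [e] at h

lemma N2_of_p (G : ℝ → (Fin m → ℝ) → ℂ) (hG : Measurable (Function.uncurry G))
    (hz : ∀ u, u ∉ II → ∀ v, G u v = 0) (p : ℝ) (hp : 2 ≤ p) (A : ℝ≥0∞)
    (hN : ∫⁻ u in II, N2 (nuC m) G u ^ (p / 2) ≤ A ^ p) : ∫⁻ u, N2 (nuC m) G u ≤ A ^ (2 : ℝ) := by
  have : IsProbabilityMeasure (volume.restrict II) :=
    ⟨by rw [Measure.restrict_apply_univ, vol_II]⟩
  have hNm := N2_meas (nuC m) G hG
  have h1 := eLpNorm'_le_eLpNorm'_of_exponent_le (f := N2 (nuC m) G) one_pos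
    (by linarith : (1 : ℝ) ≤ p / 2) (volume.restrict II) hNm.aestronglyMeasurable
  unfold eLpNorm' at h1
  simp only [enorm_eq_self, ENNReal.rpow_one, div_one] at h1
  have h2 : ∫⁻ u, N2 (nuC m) G u = ∫⁻ u in II, N2 (nuC m) G u := by
    rw [← lintegral_indicator measurableSet_Icc]
    congr 1
    ext u
    by_cases hu : u ∈ II
    · rw [indicator_of_mem hu]
    · rw [indicator_of_notMem hu, N2_zero (nuC m) G II hz u hu]
  rw [h2]
  refine h1.trans ?_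
  calc (∫⁻ u in II, N2 (nuC m) G u ^ (p / 2)) ^ (1 / (p / 2)) ≤ (A ^ p) ^ (1 / (p / 2)) := by
        gcongr
    _ = _ := by
        rw [← ENNReal.rpow_mul]
        congr 1
        field_simp

/-- **the estimate of one piece** -/
theorem layer (hm : 1 ≤ m) (q p η : ℝ) (hη : 0 < η) (hκ : 1 + η ≤ (m + 1) * (q - 2) / 2)
    (hp2 : 2 ≤ p) (hp : (m + 1) * q < p * ((m + 1) * (q - 1) - 2)) : ∃ C : ℝ≥0, ∀ (j : ℕ)
    (R : ℝ → (Fin m → ℝ) → ℂ), Measurable (Function.uncurry R) →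
    (∀ u, u ∉ II → ∀ v, R u v = 0) → ∀ A : ℝ≥0∞, A ≠ 0 → A ≠ ∞ →
    (∫⁻ u in II, N2 (nuC m) R u ^ (p / 2) ≤ A ^ p) →
    ∫⁻ t : ℝ, ∫⁻ x : ℝ, ∫⁻ y, ‖LL (fun u => avm j (R u)) (-4 * Real.pi * x) (-8 * Real.pi * t)
      (em y t)‖ₑ ^ q ≤ C * ((2 : ℝ≥0∞) ^ ((1 + η) * (m / (m + 1)) * (j : ℝ)) * A ^ q) := by
  have hm0 : (1 : ℝ) ≤ m := by exact_mod_cast hm
  have hq2 : 2 < q := by
    by_contra hc
    push Not at hc
    nlinarith
  obtain ⟨γ, hγ0, hγ1, C1, hC1⟩ := VV_int hm q η hη hκ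
  obtain ⟨C2, hC2⟩ := oneVar_hom (m + 1) (by omega) q p (by push_cast; linarith) (by linarith)
    (by push_cast; linarith)
  set D : ℝ≥0∞ := (C1 : ℝ≥0∞) ^ ((m : ℝ) / (m + 1)) * (2 * (C2 : ℝ≥0∞) ^ (1 / ((m : ℝ) + 1)))
    with hD
  have hDt : D ≠ ∞ := by
    apply ENNReal.mul_ne_top
    · exact ENNReal.rpow_ne_top_of_nonneg (by positivity) ENNReal.coe_ne_top
    · apply ENNReal.mul_ne_top (by norm_num)
      exact ENNReal.rpow_ne_top_of_nonneg (by positivity) ENNReal.coe_ne_top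
  refine ⟨D.toNNReal, ?_⟩
  intro j R hR hz A hA0 hAt hN
  rw [ENNReal.coe_toNNReal hDt]
  set P : ℝ → (Fin m → ℝ) → ℂ := fun u => avm j (R u) with hP
  have hPm : Measurable (Function.uncurry P) := avm_meas j R hR
  have hPz : ∀ u, u ∉ II → ∀ v, P u v = 0 := fun u hu v => avm_zero j _ (hz u hu) v
  have hPN : ∫⁻ u in II, N2 (nuC m) P u ^ (p / 2) ≤ A ^ p := by
    refine le_trans (lintegral_mono fun u => ?_) hN
    exact ENNReal.rpow_le_rpow (N2_avm j R hR u) (by linarith)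
  have hRN : ∫⁻ u, N2 (nuC m) R u ≠ ∞ :=
    ne_top_of_le_ne_top (ENNReal.rpow_ne_top_of_nonneg (by norm_num) hAt)
      (N2_of_p R hR hz p hp2 A hN)
  -- notation
  set V : ℝ → ℝ≥0∞ := fun t => VV m γ j t ^ ((q - 2) / 2) with hV
  have hVVm : Measurable (VV m γ j) := by
    unfold VV
    exact measurable_const.min ((((AA_meas γ).const_mul _).mul_const _).pow_const m)
  have hVm : Measurable V := hVVm.pow_const _
  have hVt : ∀ t, V t ≠ ∞ := fun t => ENNReal.rpow_ne_top_of_nonneg (by linarith)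
    (ne_top_of_le_ne_top (ENNReal.pow_ne_top (by norm_num)) (VV_le γ j t))
  have hmeas : ∀ G : ℝ → (Fin m → ℝ) → ℂ, Measurable (Function.uncurry G) →
      Measurable (fun w : ℝ × ℝ => M2 (nuC m) G (-4 * Real.pi * w.1) (-8 * Real.pi * w.2) ^ (q / 2)) := by
    intro G hG
    have h1 := M2_meas (nuC m) G hG
    have h2 : Measurable (fun w : ℝ × ℝ => (-4 * Real.pi * w.1, -8 * Real.pi * w.2)) :=
      (measurable_fst.const_mul _).prodMk (measurable_snd.const_mul _)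
    have h3 := Measurable.comp h1 h2
    exact h3.pow_const _
  set Z : (ℝ → (Fin m → ℝ) → ℂ) → ℝ → ℝ≥0∞ := fun G t =>
    ∫⁻ x : ℝ, M2 (nuC m) G (-4 * Real.pi * x) (-8 * Real.pi * t) ^ (q / 2) with hZ
  have hZm : ∀ G : ℝ → (Fin m → ℝ) → ℂ, Measurable (Function.uncurry G) → Measurable (Z G) :=
    fun G hG => Measurable.lintegral_prod_left' (hmeas G hG)
  have hx : ∀ G : ℝ → (Fin m → ℝ) → ℂ, Measurable (Function.uncurry G) → ∀ t : ℝ,
      Measurable (fun x : ℝ => M2 (nuC m) G (-4 * Real.pi * x) (-8 * Real.pi * t) ^ (q / 2)) := by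
    intro G hG t
    have h2 : Measurable (fun x : ℝ => (x, t)) := measurable_id.prodMk measurable_const
    have h3 := Measurable.comp (hmeas G hG) h2
    exact h3
  have one : ∀ G : ℝ → (Fin m → ℝ) → ℂ, Measurable (Function.uncurry G) →
      (∀ u, u ∉ II → ∀ v, G u v = 0) → (∫⁻ u in II, N2 (nuC m) G u ^ (p / 2) ≤ A ^ p) →
      ∫⁻ t, V t * Z G t ≤ ((C1 : ℝ≥0∞) ^ ((m : ℝ) / (m + 1)) * (2 : ℝ≥0∞) ^ ((1 + η) *
        (m / (m + 1)) * (j : ℝ))) * ((C2 : ℝ≥0∞) ^ (1 / ((m : ℝ) + 1)) * A ^ q) := by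
    intro G hG hGz hGN
    refine (time_n (m + 1) (by omega) V (Z G) hVm (hZm G hG)).trans ?_
    have h1 := hC1 j
    have h2 := hC2 (Fin m → ℝ) (nuC m) G hG hGz A hA0 hAt hGN
    have e1 : ((m + 1 : ℕ) : ℝ) / ((m + 1 : ℕ) - 1) = ((m : ℝ) + 1) / m := by
      push_cast
      ring
    have e2 : (((m + 1 : ℕ) : ℝ) - 1) / ((m + 1 : ℕ)) = (m : ℝ) / (m + 1) := by
      push_cast
      ring
    have e3 : 1 / ((m + 1 : ℕ) : ℝ) = 1 / ((m : ℝ) + 1) := by push_cast; ring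
    rw [e1, e2, e3]
    calc (∫⁻ t, V t ^ (((m : ℝ) + 1) / m)) ^ ((m : ℝ) / (m + 1)) *
          (∫⁻ t, Z G t ^ (m + 1)) ^ (1 / ((m : ℝ) + 1)) ≤
        (C1 * (2 : ℝ≥0∞) ^ ((1 + η) * (j : ℝ))) ^ ((m : ℝ) / (m + 1)) *
          (C2 * A ^ (q * ((m + 1 : ℕ) : ℝ))) ^ (1 / ((m : ℝ) + 1)) := by
          gcongr
      _ = _ := by
          rw [ENNReal.mul_rpow_of_nonneg _ _ (by positivity),
            ENNReal.mul_rpow_of_nonneg _ _ (by positivity), ← ENNReal.rpow_mul, ← ENNReal.rpow_mul]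
          congr 3
          · ring
          · push_cast
            field_simp
  calc ∫⁻ t : ℝ, ∫⁻ x : ℝ, ∫⁻ y, ‖LL P (-4 * Real.pi * x) (-8 * Real.pi * t) (em y t)‖ₑ ^ q ≤
      ∫⁻ t : ℝ, ∫⁻ x : ℝ, V t * (M2 (nuC m) P (-4 * Real.pi * x) (-8 * Real.pi * t) ^ (q / 2) +
        M2 (nuC m) R (-4 * Real.pi * x) (-8 * Real.pi * t) ^ (q / 2)) := by
        refine lintegral_mono fun t => lintegral_mono fun x => ?_
        exact piece_y q hq2.le γ hγ0 hγ1 j R hR hz hRN _ _ t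
    _ = ∫⁻ t : ℝ, (V t * Z P t + V t * Z R t) := by
        congr 1
        ext t
        rw [lintegral_const_mul' _ _ (hVt t), lintegral_add_left (hx P hPm t), mul_add]
    _ = (∫⁻ t : ℝ, V t * Z P t) + ∫⁻ t : ℝ, V t * Z R t := by
        exact lintegral_add_left (hVm.mul (hZm P hPm)) _
    _ ≤ _ := add_le_add (one P hPm hPz hPN) (one R hR hz hN)
    _ = _ := by
        rw [hD]
        ring

end Pool.Agent.W771.MD
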