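import Mathlib
import Pool.Agent.W771.MG
set_option autoImplicit false

/-! The decomposition into pieces. -/

namespace Pool.Agent.W771.MD

open MeasureTheory Set Complex
open scoped ENNReal NNReal FourierTransform

variable {m : ℕ}

/-- the remainders -/
noncomputable def Rj (F : ℝ → (Fin m → ℝ) → ℂ) : ℕ → ℝ → (Fin m → ℝ) → ℂ
  | 0 => F
  | j + 1 => fun u v => F u v - avm j (F u) v

section
variable (F : ℝ → (Fin m → ℝ) → ℂ) (hF : Measurable (Function.uncurry F))
  (hz : ∀ u, u ∉ II → ∀ v, F u v = 0) (hfin : ∀ u, N2 (nuC m) F u ≠ ∞)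

include hF in
lemma Rj_meas (j : ℕ) : Measurable (Function.uncurry (Rj F j)) := by
  cases j with
  | zero => exact hF
  | succ j => exact hF.sub (avm_meas j F hF)

include hz in
lemma Rj_zero (j : ℕ) (u : ℝ) (hu : u ∉ II) (v : Fin m → ℝ) : Rj F j u v = 0 := by
  cases j with
  | zero => exact hz u hu v
  | succ j =>
    simp only [Rj]
    rw [hz u hu v, avm_zero j _ (hz u hu), sub_zero]

include hF hfin in
lemma F_int (u : ℝ) : IntegrableOn (F u) (CC m) := by
  have h2 : MemLp (F u) 2 (nuC m) := by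
    refine ⟨(a_meas_l F hF u).aestronglyMeasurable, ?_⟩
    rw [eLpNorm_lt_top_iff_lintegral_rpow_enorm_lt_top (by norm_num) (by norm_num)]
    simp only [ENNReal.toReal_ofNat, ENNReal.rpow_ofNat]
    exact lt_top_iff_ne_top.mpr (hfin u)
  exact h2.integrable (by norm_num)

include hF hfin in
lemma sum_P (n : ℕ) (u : ℝ) (v : Fin m → ℝ) (hv : v ∈ CC m) :
    ∑ j ∈ Finset.range (n + 1), avm j (Rj F j u) v = avm n (F u) v := by
  induction n with
  | zero => simp [Rj]
  | succ n ih =>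
    rw [Finset.sum_range_succ, ih]
    have h1 : Rj F (n + 1) u = fun w => F u w - avm n (F u) w := rfl
    have hint : IntegrableOn (avm n (F u)) (CC m) := by
      have hm := avm_meas n F hF
      have h2 : ∀ u', N2 (nuC m) (fun u => avm n (F u)) u' ≠ ∞ := fun u' =>
        ne_top_of_le_ne_top (hfin u') (N2_avm n F hF u')
      exact F_int (fun u => avm n (F u)) hm h2 u
    rw [h1, avm_sub (n + 1) (F u) (avm n (F u)) (F_int F hF hfin u) hint v,
      avm_avm n (F u) v hv]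
    ring

end

lemma jens {X : Type*} [MeasurableSpace X] (μ : Measure X) (f : X → ℝ≥0∞) (hf : Measurable f)
    (r : ℝ) (hr : 1 ≤ r) : (∫⁻ x, f x ∂μ) ^ r ≤ μ univ ^ (r - 1) * ∫⁻ x, f x ^ r ∂μ := by
  have h1 := eLpNorm'_le_eLpNorm'_mul_rpow_measure_univ (f := f) one_pos hr
    (μ := μ) hf.aestronglyMeasurable
  unfold eLpNorm' at h1
  simp only [enorm_eq_self, ENNReal.rpow_one, div_one] at h1
  have hr0 : 0 < r := by linarith
  calc (∫⁻ x, f x ∂μ) ^ r ≤ ((∫⁻ x, f x ^ r ∂μ) ^ (1 / r) * μ univ ^ (1 - 1 / r)) ^ r := by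
        gcongr
    _ = _ := by
        rw [ENNReal.mul_rpow_of_nonneg _ _ hr0.le, ← ENNReal.rpow_mul, ← ENNReal.rpow_mul]
        have e1 : 1 / r * r = 1 := by field_simp
        have e2 : (1 - 1 / r) * r = r - 1 := by field_simp
        rw [e1, e2, ENNReal.rpow_one, mul_comm]

lemma RM_meas (F : ℝ → (Fin m → ℝ) → ℂ) (hF : Measurable (Function.uncurry F)) :
    Measurable (fun w : ℝ × (Fin m → ℝ) => RM (F w.1) w.2) := by
  unfold RM
  set S : Set ((ℝ × (Fin m → ℝ)) × (Fin m → ℝ)) := {w | w.2 ∈ CC m ∧ w.2 + w.1.2 ∈ CC m} with hS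
  have hSm : MeasurableSet S := by
    have h1 : Measurable (fun w : (ℝ × (Fin m → ℝ)) × (Fin m → ℝ) => w.2 + w.1.2) :=
      measurable_snd.add (measurable_snd.comp measurable_fst)
    exact (measurable_snd CC_meas).inter (h1 CC_meas)
  have e1 : ∀ w : ℝ × (Fin m → ℝ), ∀ v, (CC m).indicator (fun v => (CC m).indicator
      (fun z => ‖F w.1 z - F w.1 v‖ₑ ^ 2) (v + w.2)) v = S.indicator
        (fun w => ‖F w.1.1 (w.2 + w.1.2) - F w.1.1 w.2‖ₑ ^ 2) (w, v) := by
    intro w v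
    by_cases h1 : v ∈ CC m
    · by_cases h2 : v + w.2 ∈ CC m
      · rw [indicator_of_mem h1, indicator_of_mem h2, indicator_of_mem (show (w, v) ∈ S from ⟨h1, h2⟩)]
      · rw [indicator_of_mem h1, indicator_of_notMem h2,
          indicator_of_notMem (show (w, v) ∉ S from fun h => h2 h.2)]
    · rw [indicator_of_notMem h1, indicator_of_notMem (show (w, v) ∉ S from fun h => h1 h.1)]
  simp only [e1]
  apply Measurable.lintegral_prod_right'
  apply Measurable.indicator _ hSm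
  have h1 : Measurable (fun w : (ℝ × (Fin m → ℝ)) × (Fin m → ℝ) => (w.1.1, w.2 + w.1.2)) :=
    (measurable_fst.comp measurable_fst).prodMk
      (measurable_snd.add (measurable_snd.comp measurable_fst))
  have h2 : Measurable (fun w : (ℝ × (Fin m → ℝ)) × (Fin m → ℝ) => (w.1.1, w.2)) :=
    (measurable_fst.comp measurable_fst).prodMk measurable_snd
  exact ((hF.comp h1).sub (hF.comp h2)).enorm.pow_const 2

/-- the size of the remainders -/
lemma Rj_size (F : ℝ → (Fin m → ℝ) → ℂ) (hF : Measurable (Function.uncurry F))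
    (hfin : ∀ u, N2 (nuC m) F u ≠ ∞) (p s : ℝ) (hp : 2 ≤ p) (hs0 : 0 ≤ s) (hs1 : s ≤ 1)
    (K : ℝ≥0∞) (hN : ∫⁻ u in II, N2 (nuC m) F u ^ (p / 2) ≤ K ^ p)
    (hM : ∀ h : Fin m → ℝ, ‖h‖ ≤ 1 → ∫⁻ u in II, RM (F u) h ^ (p / 2) ≤
      (K * ENNReal.ofReal (‖h‖ ^ s)) ^ p) (j : ℕ) :
    ∫⁻ u in II, N2 (nuC m) (Rj F j) u ^ (p / 2) ≤
      (2 ^ (m + 1) * K * (2 : ℝ≥0∞) ^ (-s * (j : ℝ))) ^ p := by
  have hp0 : 0 ≤ p := by linarith
  cases j with
  | zero =>
    refine hN.trans ?_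
    gcongr
    simp only [Nat.cast_zero, mul_zero, ENNReal.rpow_zero, mul_one]
    exact le_mul_of_one_le_left' (one_le_pow₀ (by norm_num))
  | succ j =>
    set μ : Measure (Fin m → ℝ) :=
      (nn m j) • (volume.restrict (Metric.closedBall (0 : Fin m → ℝ) ((1 / 2) ^ j))) with hμ
    have hμu : μ univ = 2 ^ m := by
      rw [hμ, Measure.smul_apply, Measure.restrict_apply_univ, ball_vol, smul_eq_mul,
        mul_left_comm, ENNReal.mul_inv_cancel (nn_ne_zero j) (nn_ne_top j), mul_one]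
    have hμf : IsFiniteMeasure μ := ⟨by
      rw [hμu]
      exact ENNReal.pow_lt_top (by norm_num)⟩
    have hRm := RM_meas F hF
    have h1 : ∀ u, N2 (nuC m) (Rj F (j + 1)) u ^ (p / 2) ≤
        (2 ^ m : ℝ≥0∞) ^ (p / 2 - 1) * ∫⁻ h, RM (F u) h ^ (p / 2) ∂μ := by
      intro u
      have h2 := avm_dist (F u) (a_meas_l F hF u) (F_int F hF hfin u) j
      have h3 : N2 (nuC m) (Rj F (j + 1)) u ≤ ∫⁻ h, RM (F u) h ∂μ := by
        rw [hμ, lintegral_smul_measure, smul_eq_mul]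
        exact h2
      have hRu : Measurable (fun h => RM (F u) h) := by
        have h4 : Measurable (fun h : Fin m → ℝ => (u, h)) := measurable_const.prodMk measurable_id
        have h5 := Measurable.comp hRm h4
        exact h5
      calc N2 (nuC m) (Rj F (j + 1)) u ^ (p / 2) ≤ (∫⁻ h, RM (F u) h ∂μ) ^ (p / 2) := by gcongr
        _ ≤ _ := by
            have := jens μ (fun h => RM (F u) h) hRu (p / 2) (by linarith)
            rwa [hμu] at this
    calc ∫⁻ u in II, N2 (nuC m) (Rj F (j + 1)) u ^ (p / 2) ≤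
        ∫⁻ u in II, (2 ^ m : ℝ≥0∞) ^ (p / 2 - 1) * ∫⁻ h, RM (F u) h ^ (p / 2) ∂μ :=
          lintegral_mono h1
      _ = (2 ^ m : ℝ≥0∞) ^ (p / 2 - 1) * ∫⁻ h, (∫⁻ u in II, RM (F u) h ^ (p / 2)) ∂μ := by
          rw [lintegral_const_mul', lintegral_lintegral_swap]
          · exact (hRm.pow_const _).aemeasurable
          · exact ENNReal.rpow_ne_top_of_nonneg (by linarith) (ENNReal.pow_ne_top (by norm_num))
      _ ≤ (2 ^ m : ℝ≥0∞) ^ (p / 2 - 1) * ∫⁻ _, (K * (2 : ℝ≥0∞) ^ (-s * (j : ℝ))) ^ p ∂μ := by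
          refine mul_le_mul' le_rfl ?_
          rw [hμ, lintegral_smul_measure, lintegral_smul_measure, smul_eq_mul, smul_eq_mul]
          refine mul_le_mul' le_rfl ?_
          apply setLIntegral_mono' measurableSet_closedBall
          intro h hh
          rw [mem_closedBall_zero_iff] at hh
          have hj1 : ((1 : ℝ) / 2) ^ j ≤ 1 := pow_le_one₀ (by norm_num) (by norm_num)
          refine (hM h (hh.trans hj1)).trans ?_
          gcongr
          rw [← ofReal_two_rpow]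
          apply ENNReal.ofReal_le_ofReal
          calc ‖h‖ ^ s ≤ (((1 : ℝ) / 2) ^ j) ^ s := by gcongr
            _ = _ := by
                rw [one_div, inv_pow, Real.inv_rpow (by positivity), ← Real.rpow_natCast,
                  ← Real.rpow_mul (by norm_num), ← Real.rpow_neg (by norm_num)]
                congr 1
                ring
      _ = (2 ^ m : ℝ≥0∞) ^ (p / 2) * (K * (2 : ℝ≥0∞) ^ (-s * (j : ℝ))) ^ p := by
          rw [lintegral_const, hμu]
          have e : (2 ^ m : ℝ≥0∞) ^ (p / 2) = (2 ^ m : ℝ≥0∞) ^ (p / 2 - 1) * 2 ^ m := by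
            nth_rewrite 3 [← ENNReal.rpow_one (2 ^ m : ℝ≥0∞)]
            rw [← ENNReal.rpow_add_of_nonneg _ _ (by linarith) zero_le_one]
            congr 1
            ring
          rw [e]
          ring
      _ ≤ (2 ^ m : ℝ≥0∞) ^ p * (K * (2 : ℝ≥0∞) ^ (-s * (j : ℝ))) ^ p := by
          gcongr
          · exact one_le_pow₀ (by norm_num)
          · linarith
      _ = (2 ^ m * (K * (2 : ℝ≥0∞) ^ (-s * (j : ℝ)))) ^ p := by
          rw [← ENNReal.mul_rpow_of_nonneg _ _ hp0]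
      _ ≤ _ := by
          refine ENNReal.rpow_le_rpow ?_ hp0
          rw [pow_succ]
          have e : (2 : ℝ≥0∞) ^ (-s * (j : ℝ)) ≤ 2 * (2 : ℝ≥0∞) ^ (-s * ((j + 1 : ℕ) : ℝ)) := by
            nth_rewrite 2 [← ENNReal.rpow_one (2 : ℝ≥0∞)]
            rw [← two_add]
            apply ENNReal.rpow_le_rpow_of_exponent_le (by norm_num)
            push_cast
            nlinarith
          calc 2 ^ m * (K * (2 : ℝ≥0∞) ^ (-s * (j : ℝ))) ≤
              2 ^ m * (K * (2 * (2 : ℝ≥0∞) ^ (-s * ((j + 1 : ℕ) : ℝ)))) := by gcongr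
            _ = _ := by ring

/-- the pointwise bound by the sum of the pieces -/
lemma LL_sum (F : ℝ → (Fin m → ℝ) → ℂ) (hF : Measurable (Function.uncurry F))
    (hz : ∀ u, u ∉ II → ∀ v, F u v = 0)
    (hfin : ∀ u, N2 (nuC m) F u ≠ ∞) (p s : ℝ) (hp : 2 ≤ p) (hs0 : 0 < s)
    (K : ℝ≥0∞) (hK : K ≠ ∞) (hR : ∀ j, ∫⁻ u in II, N2 (nuC m) (Rj F j) u ^ (p / 2) ≤
      (2 ^ (m + 1) * K * (2 : ℝ≥0∞) ^ (-s * (j : ℝ))) ^ p) (X T t : ℝ) (y : Fin m → ℝ) :
    ‖LL F X T (em y t)‖ₑ ≤ ∑' j : ℕ, ‖LL (fun u => avm j (Rj F j u)) X T (em y t)‖ₑ := by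
  have hRm := Rj_meas F hF
  have hRz := Rj_zero F hz
  have htop : ∀ j : ℕ, (2 ^ (m + 1) * K * (2 : ℝ≥0∞) ^ (-s * (j : ℝ))) ≠ ∞ := by
    intro j
    apply ENNReal.mul_ne_top
    · exact ENNReal.mul_ne_top (ENNReal.pow_ne_top (by norm_num)) hK
    · rw [← ofReal_two_rpow]
      exact ENNReal.ofReal_ne_top
  have hR2 : ∀ j, ∫⁻ u, N2 (nuC m) (Rj F j) u ≤
      (2 ^ (m + 1) * K * (2 : ℝ≥0∞) ^ (-s * (j : ℝ))) ^ (2 : ℝ) := fun j =>
    N2_of_p (Rj F j) (hRm j) (hRz j) p hp _ (hR j)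
  have hR2t : ∀ j, ∫⁻ u, N2 (nuC m) (Rj F j) u ≠ ∞ := fun j =>
    ne_top_of_le_ne_top (ENNReal.rpow_ne_top_of_nonneg (by norm_num) (htop j)) (hR2 j)
  have hiR : ∀ j, Integrable (Function.uncurry (Rj F j)) (volume.prod (nuC m)) := fun j =>
    int_of_N2 _ (hRm j) (hRz j) (hR2t j)
  have hPm : ∀ j, Measurable (Function.uncurry fun u => avm j (Rj F j u)) := fun j =>
    avm_meas j _ (hRm j)
  have hiP : ∀ j, Integrable (Function.uncurry fun u => avm j (Rj F j u)) (volume.prod (nuC m)) := by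
    intro j
    apply int_of_N2 _ (hPm j) (fun u hu v => avm_zero j _ (hRz j u hu) v)
    exact ne_top_of_le_ne_top (hR2t j) (lintegral_mono fun u => N2_avm j _ (hRm j) u)
  have hem := em_meas y t
  have hemb : ∀ v, ‖em y t v‖ ≤ 1 := fun v => (em_norm y t v).le
  have hn : ∀ n : ℕ, ‖LL F X T (em y t)‖ₑ ≤
      2 ^ m * (2 ^ (m + 1) * K * (2 : ℝ≥0∞) ^ (-s * ((n + 1 : ℕ) : ℝ))) +
        ∑' j : ℕ, ‖LL (fun u => avm j (Rj F j u)) X T (em y t)‖ₑ := by
    intro n
    have e1 : LL F X T (em y t) = LL (Rj F (n + 1)) X T (em y t) +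
        ∑ j ∈ Finset.range (n + 1), LL (fun u => avm j (Rj F j u)) X T (em y t) := by
      unfold LL
      rw [← integral_finsetSum, ← integral_add]
      · apply integral_congr_ae
        have hCC : ∀ᵐ w ∂((volume : Measure ℝ).prod (nuC m)), w.2 ∈ CC m := by
          have h1 : ∀ᵐ v ∂(nuC m), v ∈ CC m := ae_restrict_mem CC_meas
          exact Measure.quasiMeasurePreserving_snd.ae h1
        filter_upwards [hCC] with w hw
        have h2 := sum_P F hF hfin n w.1 w.2 hw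
        rw [← Finset.sum_mul, h2]
        simp only [Rj]
        ring
      · exact LL_int _ (hiR (n + 1)) X T _ hem hemb
      · exact integrable_finsetSum _ fun j _ => LL_int _ (hiP j) X T _ hem hemb
      · intro j _
        exact LL_int _ (hiP j) X T _ hem hemb
    rw [e1]
    refine (enorm_add_le _ _).trans ?_
    gcongr
    · have h1 := LL_cs (Rj F (n + 1)) (hRm _) (hiR _) X T (em y t) hem hemb
      simp only [em_enorm, one_pow] at h1
      rw [lintegral_const, Measure.restrict_apply_univ, CC_vol, one_mul] at h1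
      have h2 := (M2_le_N2 (Rj F (n + 1)) (hRm _) (hRz _) X T).trans (hR2 (n + 1))
      set A : ℝ≥0∞ := 2 ^ (m + 1) * K * (2 : ℝ≥0∞) ^ (-s * ((n + 1 : ℕ) : ℝ)) with hA
      have h3 : ‖LL (Rj F (n + 1)) X T (em y t)‖ₑ ^ 2 ≤ (2 ^ m * A) ^ 2 := by
        refine h1.trans ?_
        rw [ENNReal.rpow_ofNat] at h2
        calc M2 (nuC m) (Rj F (n + 1)) X T * 2 ^ m ≤ A ^ 2 * 2 ^ m := by gcongr
          _ ≤ A ^ 2 * (2 ^ m) ^ 2 := by
              refine mul_le_mul' le_rfl ?_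
              rw [sq]
              exact le_mul_of_one_le_left' (one_le_pow₀ (by norm_num))
          _ = _ := by ring
      exact (ENNReal.pow_le_pow_left_iff two_ne_zero).mp h3
    · refine (enorm_sum_le _ _).trans ?_
      exact ENNReal.sum_le_tsum _
  have hlim : Filter.Tendsto (fun n : ℕ => 2 ^ m * (2 ^ (m + 1) * K *
      (2 : ℝ≥0∞) ^ (-s * ((n + 1 : ℕ) : ℝ))) +
        ∑' j : ℕ, ‖LL (fun u => avm j (Rj F j u)) X T (em y t)‖ₑ) Filter.atTop
      (nhds (2 ^ m * (2 ^ (m + 1) * K * 0) +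
        ∑' j : ℕ, ‖LL (fun u => avm j (Rj F j u)) X T (em y t)‖ₑ)) := by
    apply Filter.Tendsto.add _ tendsto_const_nhds
    have h1 : Filter.Tendsto (fun n : ℕ => (2 : ℝ≥0∞) ^ (-s * ((n + 1 : ℕ) : ℝ))) Filter.atTop
        (nhds 0) := by
      have h2 : ∀ n : ℕ, (2 : ℝ≥0∞) ^ (-s * ((n + 1 : ℕ) : ℝ)) = ((2 : ℝ≥0∞) ^ (-s)) ^ (n + 1) := by
        intro n
        rw [ENNReal.rpow_mul, ENNReal.rpow_natCast]
      simp only [h2]
      have h3 : (2 : ℝ≥0∞) ^ (-s) < 1 :=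
        ENNReal.rpow_lt_one_of_one_lt_of_neg (by norm_num) (by linarith)
      exact (Filter.tendsto_add_atTop_iff_nat 1).mpr
        (ENNReal.tendsto_pow_atTop_nhds_zero_of_lt_one h3)
    apply ENNReal.Tendsto.const_mul _ (Or.inr (ENNReal.pow_ne_top (by norm_num)))
    exact ENNReal.Tendsto.const_mul h1
      (Or.inr (ENNReal.mul_ne_top (ENNReal.pow_ne_top (by norm_num)) hK))
  rw [mul_zero, mul_zero, zero_add] at hlim
  exact ge_of_tendsto' hlim hn

end Pool.Agent.W771.MD
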