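import Mathlib
import Pool.Agent.W771.MH
set_option autoImplicit false

/-! The sum over the pieces. -/

namespace Pool.Agent.W771.MD

open MeasureTheory Set Complex
open scoped ENNReal NNReal FourierTransform

variable {m : ℕ}

lemma LL_meas (G : ℝ → (Fin m → ℝ) → ℂ) (hG : Measurable (Function.uncurry G)) :
    Measurable (fun z : ℝ × (Fin m → ℝ) × ℝ =>
      LL G (-4 * Real.pi * z.1) (-8 * Real.pi * z.2.2) (em z.2.1 z.2.2)) := by
  unfold LL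
  apply StronglyMeasurable.measurable
  apply StronglyMeasurable.integral_prod_right'
    (f := fun w : (ℝ × (Fin m → ℝ) × ℝ) × (ℝ × (Fin m → ℝ)) => G w.2.1 w.2.2 *
      (ph (-4 * Real.pi * w.1.1) (-8 * Real.pi * w.1.2.2) w.2.1 * em w.1.2.1 w.1.2.2 w.2.2))
  apply Measurable.stronglyMeasurable
  apply Measurable.mul
  · have h : Measurable (fun w : (ℝ × (Fin m → ℝ) × ℝ) × (ℝ × (Fin m → ℝ)) => (w.2.1, w.2.2)) := by
      fun_prop
    exact hG.comp h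
  · apply Continuous.measurable
    unfold ph em qe
    fun_prop

lemma lintM (X : ℕ → ℝ → (Fin m → ℝ) → ℝ → ℝ≥0∞)
    (hX : ∀ j, Measurable (fun z : ℝ × (Fin m → ℝ) × ℝ => X j z.1 z.2.1 z.2.2)) (q : ℝ) (C : ℝ≥0)
    (c : ℕ → ℝ≥0∞) :
    ∫⁻ t, ∫⁻ x, ∫⁻ y, C * ∑' j : ℕ, c j * X j x y t ^ q =
      C * ∑' j : ℕ, c j * ∫⁻ t, ∫⁻ x, ∫⁻ y, X j x y t ^ q := by
  have hXq : ∀ j, Measurable (fun z : ℝ × (Fin m → ℝ) × ℝ => X j z.1 z.2.1 z.2.2 ^ q) := fun j =>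
    (hX j).pow_const q
  have k1 : ∀ j x t, Measurable (fun y => X j x y t ^ q) := by
    intro j x t
    have h : Measurable (fun y : Fin m → ℝ => (x, y, t)) :=
      measurable_const.prodMk (measurable_id.prodMk measurable_const)
    exact (hXq j).comp h
  have k2 : ∀ j t, Measurable (fun x => ∫⁻ y, X j x y t ^ q) := by
    intro j t
    have h : Measurable (fun w : ℝ × (Fin m → ℝ) => (w.1, w.2, t)) :=
      measurable_fst.prodMk (measurable_snd.prodMk measurable_const)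
    exact Measurable.lintegral_prod_right' ((hXq j).comp h)
  have k3 : ∀ j, Measurable (fun t => ∫⁻ x, ∫⁻ y, X j x y t ^ q) := by
    intro j
    have h : Measurable (fun w : (ℝ × ℝ) × (Fin m → ℝ) => (w.1.2, w.2, w.1.1)) :=
      (measurable_snd.comp measurable_fst).prodMk (measurable_snd.prodMk
        (measurable_fst.comp measurable_fst))
    have h2 : Measurable (fun w : (ℝ × ℝ) × (Fin m → ℝ) => X j w.1.2 w.2 w.1.1 ^ q) :=
      (hXq j).comp h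
    have h3 : Measurable (fun w : ℝ × ℝ => ∫⁻ y, X j w.2 y w.1 ^ q) :=
      Measurable.lintegral_prod_right' h2
    exact Measurable.lintegral_prod_right' h3
  have h1 : ∀ x t, ∫⁻ y, ∑' j : ℕ, c j * X j x y t ^ q =
      ∑' j : ℕ, c j * ∫⁻ y, X j x y t ^ q := by
    intro x t
    rw [lintegral_tsum fun j => ((k1 j x t).const_mul _).aemeasurable]
    refine tsum_congr fun j => ?_
    rw [lintegral_const_mul _ (k1 j x t)]
  have h2 : ∀ t, ∫⁻ x, ∑' j : ℕ, c j * ∫⁻ y, X j x y t ^ q =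
      ∑' j : ℕ, c j * ∫⁻ x, ∫⁻ y, X j x y t ^ q := by
    intro t
    rw [lintegral_tsum fun j => ((k2 j t).const_mul _).aemeasurable]
    refine tsum_congr fun j => ?_
    rw [lintegral_const_mul _ (k2 j t)]
  have h3 : ∫⁻ t, ∑' j : ℕ, c j * ∫⁻ x, ∫⁻ y, X j x y t ^ q =
      ∑' j : ℕ, c j * ∫⁻ t, ∫⁻ x, ∫⁻ y, X j x y t ^ q := by
    rw [lintegral_tsum fun j => ((k3 j).const_mul _).aemeasurable]
    refine tsum_congr fun j => ?_
    rw [lintegral_const_mul _ (k3 j)]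
  simp only [lintegral_const_mul' _ _ (ENNReal.coe_ne_top (r := C)), h1, h2, h3]

/-- **the main estimate** -/
theorem mainLL (hm : 1 ≤ m) (q p : ℝ) (hq : 2 * ((m : ℝ) + 2) / (m + 1) < q) (hp2 : 2 ≤ p)
    (hp : (m + 1) * q < p * ((m + 1) * (q - 1) - 2)) : ∃ C : ℝ≥0,
    ∀ F : ℝ → (Fin m → ℝ) → ℂ, Measurable (Function.uncurry F) →
    (∀ u, u ∉ II → ∀ v, F u v = 0) → (∀ u, N2 (nuC m) F u ≠ ∞) →
    ∀ K : ℝ≥0∞, K ≠ 0 → K ≠ ∞ → (∫⁻ u in II, N2 (nuC m) F u ^ (p / 2) ≤ K ^ p) →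
    (∀ h : Fin m → ℝ, ‖h‖ ≤ 1 → ∫⁻ u in II, RM (F u) h ^ (p / 2) ≤
      (K * ENNReal.ofReal (‖h‖ ^ ((m : ℝ) / (2 * (m + 2))))) ^ p) →
    ∫⁻ t : ℝ, ∫⁻ x : ℝ, ∫⁻ y, ‖LL F (-4 * Real.pi * x) (-8 * Real.pi * t) (em y t)‖ₑ ^ q ≤
      C * K ^ q := by
  have hm0 : (1 : ℝ) ≤ m := by exact_mod_cast hm
  set ρ : ℝ := q * (m + 1) / (2 * (m + 2)) with hρ
  have hρ1 : 1 < ρ := by
    rw [hρ, lt_div_iff₀ (by linarith)]
    rw [div_lt_iff₀ (by linarith)] at hq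
    linarith
  have hqρ : q = 2 * (m + 2) * ρ / (m + 1) := by
    rw [hρ]
    field_simp
  have hq0 : 0 < q := by
    rw [hqρ]
    positivity
  set η : ℝ := (ρ - 1) / 2 with hη
  have hη0 : 0 < η := by linarith
  have hκ : 1 + η ≤ (m + 1) * (q - 2) / 2 := by
    have e1 : (m + 1) * (q - 2) / 2 = (m + 2) * ρ - (m + 1) := by
      rw [hqρ]
      field_simp
    rw [e1, hη]
    nlinarith
  set s : ℝ := (m : ℝ) / (2 * (m + 2)) with hs
  have hs0 : 0 < s := by positivity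
  have hs1 : s ≤ 1 := by
    rw [hs, div_le_one (by positivity)]
    linarith
  set ε : ℝ := m * (ρ - 1) / (4 * (m + 1)) with hε
  have hε0 : 0 < ε := by
    have : 0 < ρ - 1 := by linarith
    positivity
  have hexp : ε + (1 + η) * (m / (m + 1)) - s * q = -ε := by
    rw [hε, hη, hs, hqρ]
    field_simp
    ring
  obtain ⟨C1, hC1⟩ := layer hm q p η hη0 hκ hp2 hp
  obtain ⟨C0, hC0⟩ := sum_pow' q ε hq0 hε0
  set D : ℝ≥0∞ := C0 * (C1 * ((2 : ℝ≥0∞) ^ (m + 1)) ^ q * ∑' j : ℕ, (2 : ℝ≥0∞) ^ (-ε * (j : ℝ)))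
    with hD
  have hDt : D ≠ ∞ := by
    apply ENNReal.mul_ne_top ENNReal.coe_ne_top
    apply ENNReal.mul_ne_top _ (tsum_two_ne_top _ (by linarith))
    apply ENNReal.mul_ne_top ENNReal.coe_ne_top
    exact ENNReal.rpow_ne_top_of_nonneg hq0.le (ENNReal.pow_ne_top (by norm_num))
  refine ⟨D.toNNReal, ?_⟩
  intro F hF hz hfin K hK0 hKt hN hM
  rw [ENNReal.coe_toNNReal hDt]
  have hR := Rj_size F hF hfin p s hp2 hs0.le hs1 K hN hM
  have hRm := Rj_meas F hF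
  have hRz := Rj_zero F hz
  set X : ℕ → ℝ → (Fin m → ℝ) → ℝ → ℝ≥0∞ := fun j x y t =>
    ‖LL (fun u => avm j (Rj F j u)) (-4 * Real.pi * x) (-8 * Real.pi * t) (em y t)‖ₑ with hX
  have hXm : ∀ j, Measurable (fun z : ℝ × (Fin m → ℝ) × ℝ => X j z.1 z.2.1 z.2.2) := fun j =>
    (LL_meas _ (avm_meas j _ (hRm j))).enorm
  set A : ℕ → ℝ≥0∞ := fun j => 2 ^ (m + 1) * K * (2 : ℝ≥0∞) ^ (-s * (j : ℝ)) with hA
  have htw : ∀ r : ℝ, (2 : ℝ≥0∞) ^ r ≠ 0 ∧ (2 : ℝ≥0∞) ^ r ≠ ∞ := by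
    intro r
    rw [← ofReal_two_rpow]
    refine ⟨?_, ENNReal.ofReal_ne_top⟩
    rw [Ne, ENNReal.ofReal_eq_zero, not_le]
    positivity
  have hA0 : ∀ j, A j ≠ 0 := by
    intro j
    refine mul_ne_zero (mul_ne_zero (pow_ne_zero _ two_ne_zero) hK0) (htw _).1
  have hAt : ∀ j, A j ≠ ∞ := by
    intro j
    exact ENNReal.mul_ne_top (ENNReal.mul_ne_top (ENNReal.pow_ne_top (by norm_num)) hKt) (htw _).2
  have hlay : ∀ j, ∫⁻ t, ∫⁻ x, ∫⁻ y, X j x y t ^ q ≤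
      C1 * ((2 : ℝ≥0∞) ^ ((1 + η) * (m / (m + 1)) * (j : ℝ)) * A j ^ q) := fun j =>
    hC1 j (Rj F j) (hRm j) (hRz j) (A j) (hA0 j) (hAt j) (hR j)
  calc ∫⁻ t : ℝ, ∫⁻ x : ℝ, ∫⁻ y, ‖LL F (-4 * Real.pi * x) (-8 * Real.pi * t) (em y t)‖ₑ ^ q ≤
      ∫⁻ t, ∫⁻ x, ∫⁻ y, C0 * ∑' j : ℕ, (2 : ℝ≥0∞) ^ (ε * (j : ℝ)) * X j x y t ^ q := by
        refine lintegral_mono fun t => lintegral_mono fun x => lintegral_mono fun y => ?_
        refine le_trans ?_ (hC0 _)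
        apply ENNReal.rpow_le_rpow _ hq0.le
        exact LL_sum F hF hz hfin p s hp2 hs0 K hKt hR _ _ t y
    _ = C0 * ∑' j : ℕ, (2 : ℝ≥0∞) ^ (ε * (j : ℝ)) * ∫⁻ t, ∫⁻ x, ∫⁻ y, X j x y t ^ q :=
        lintM X hXm q C0 (fun j => (2 : ℝ≥0∞) ^ (ε * (j : ℝ)))
    _ ≤ C0 * ∑' j : ℕ, (2 : ℝ≥0∞) ^ (ε * (j : ℝ)) *
        (C1 * ((2 : ℝ≥0∞) ^ ((1 + η) * (m / (m + 1)) * (j : ℝ)) * A j ^ q)) := by
        gcongr with j
        exact hlay j
    _ = C0 * ∑' j : ℕ, (C1 * ((2 : ℝ≥0∞) ^ (m + 1)) ^ q * K ^ q) * (2 : ℝ≥0∞) ^ (-ε * (j : ℝ)) := by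
        congr 2
        funext j
        have e1 : A j ^ q = ((2 : ℝ≥0∞) ^ (m + 1)) ^ q * K ^ q * (2 : ℝ≥0∞) ^ (-s * q * (j : ℝ)) := by
          rw [hA]
          simp only
          rw [ENNReal.mul_rpow_of_nonneg _ _ hq0.le, ENNReal.mul_rpow_of_nonneg _ _ hq0.le,
            ← ENNReal.rpow_mul 2 (-s * (j : ℝ))]
          congr 2
          ring
        have e2 : -ε * (j : ℝ) = ε * (j : ℝ) + ((1 + η) * (m / (m + 1)) * (j : ℝ) +
            -s * q * (j : ℝ)) := by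
          rw [← hexp]
          ring
        rw [e1, e2, two_add, two_add]
        ring
    _ = _ := by
        rw [ENNReal.tsum_mul_left, hD]
        ring

end Pool.Agent.W771.MD
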