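import Mathlib
import Pool.Agent.W771.MI
set_option autoImplicit false

/-! Conversion to the extension operator of the paraboloid. -/

namespace Pool.Agent.W771.MD

open MeasureTheory Set Complex
open scoped ENNReal NNReal FourierTransform

variable {m : ℕ}

/-- the closed cube -/
abbrev Cb (m : ℕ) : Set (Fin m → ℝ) := Icc (fun _ : Fin m => (-1 : ℝ)) (fun _ => 1)

lemma nuC_eq : nuC m = volume.restrict (Cb m) := by
  rw [Pool.Agent.H728R3.SR.restrict_cube]
  unfold nuC CC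
  rw [volume_pi, Measure.restrict_pi_pi]
  congr 1
  ext i : 1
  exact restrict_Ico_eq_restrict_Icc

/-- the integrand in the variables `(u, v)` -/
noncomputable def hh (f : (Fin (m + 1) → ℝ) → ℂ) (x : ℝ) (y : Fin m → ℝ) (t : ℝ)
    (w : ℝ × (Fin m → ℝ)) : ℂ :=
  (Icc (-1 : ℝ) 1).indicator (fun u => f (Fin.cons u w.2)) w.1 * (qe x t w.1 * em y t w.2)

lemma ext_cons (f : (Fin (m + 1) → ℝ) → ℂ) (x : ℝ) (y : Fin m → ℝ) (t : ℝ) :
    Pool.Agent.H728R3.SR.ext f (Fin.cons x y, t) = ∫ w, hh f x y t w ∂(volume.prod (nuC m)) := by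
  unfold Pool.Agent.H728R3.SR.ext
  have hmp := (volume_preserving_piFinSuccAbove (fun _ : Fin (m + 1) => ℝ) 0).symm
  rw [← integral_indicator measurableSet_Icc,
    ← hmp.integral_comp (MeasurableEquiv.measurableEmbedding _)]
  have h1 : (volume : Measure ℝ).prod (nuC m) =
      (volume.prod volume).restrict (univ ×ˢ Cb m) := by
    rw [nuC_eq, ← Measure.prod_restrict, Measure.restrict_univ]
  rw [h1, ← integral_indicator (MeasurableSet.univ.prod measurableSet_Icc)]
  congr 1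
  ext w
  obtain ⟨u, v⟩ := w
  have h2 : (MeasurableEquiv.piFinSuccAbove (fun _ : Fin (m + 1) => ℝ) 0).symm (u, v) =
      (Fin.cons u v : Fin (m + 1) → ℝ) := by
    simp [MeasurableEquiv.piFinSuccAbove]
    rfl
  rw [h2]
  have h3 : (Fin.cons u v : Fin (m + 1) → ℝ) ∈ Icc (fun _ : Fin (m + 1) => (-1 : ℝ)) (fun _ => 1) ↔
      u ∈ Icc (-1 : ℝ) 1 ∧ v ∈ Cb m := by
    simp only [mem_Icc, Pi.le_def, Fin.forall_fin_succ, Fin.cons_zero, Fin.cons_succ]
    tauto
  by_cases hv : v ∈ Cb m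
  · rw [indicator_of_mem (show ((u, v) : ℝ × (Fin m → ℝ)) ∈ univ ×ˢ Cb m from ⟨trivial, hv⟩)]
    unfold hh
    by_cases hu : u ∈ Icc (-1 : ℝ) 1
    · rw [indicator_of_mem (h3.mpr ⟨hu, hv⟩), indicator_of_mem hu]
      congr 1
      simp only [em, qe, Fin.sum_univ_succ, Fin.cons_zero, Fin.cons_succ]
      rw [← Complex.exp_sum, ← Complex.exp_add]
      congr 1
      push_cast
      rw [← Finset.mul_sum, Finset.sum_add_distrib, ← Finset.sum_mul]
      ring
    · rw [indicator_of_notMem (fun h => hu (h3.mp h).1), indicator_of_notMem hu, zero_mul]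
  · rw [indicator_of_notMem (fun h => hv (h3.mp h).2), indicator_of_notMem]
    exact fun h => hv h.2

lemma scale_prod (ν : Measure (Fin m → ℝ)) [SFinite ν] (h : ℝ × (Fin m → ℝ) → ℂ) :
    ∫ w, h w ∂(volume.prod ν) = 2 * ∫ w, h (2 * w.1, w.2) ∂((volume : Measure ℝ).prod ν) := by
  set e : ℝ × (Fin m → ℝ) ≃ᵐ ℝ × (Fin m → ℝ) :=
    (Homeomorph.mulLeft₀ (2 : ℝ) two_ne_zero).toMeasurableEquiv.prodCongr (MeasurableEquiv.refl _)
    with he
  have h1 : Measure.map e ((volume : Measure ℝ).prod ν) =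
      ENNReal.ofReal |(2 : ℝ)⁻¹| • ((volume : Measure ℝ).prod ν) := by
    have h2 := Measure.map_prod_map (volume : Measure ℝ) ν (measurable_const_mul (2 : ℝ))
      (measurable_id (α := Fin m → ℝ))
    rw [Measure.map_id, Real.map_volume_mul_left two_ne_zero, Measure.prod_smul_left] at h2
    exact h2.symm
  have h3 := integral_map_equiv (μ := (volume : Measure ℝ).prod ν) e h
  rw [h1, integral_smul_measure] at h3
  have h4 : ∀ w, e w = (2 * w.1, w.2) := fun w => rfl
  simp only [h4] at h3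
  rw [← h3, ENNReal.toReal_ofReal (abs_nonneg _)]
  rw [Complex.real_smul, ← mul_assoc]
  norm_num

/-- the function in the variables `(u, v)` -/
noncomputable def FFn (f : (Fin (m + 1) → ℝ) → ℂ) (u : ℝ) (v : Fin m → ℝ) : ℂ :=
  II.indicator (fun u => f (Fin.cons (2 * u) v)) u

lemma cons_meas : Measurable (fun w : ℝ × (Fin m → ℝ) => (Fin.cons w.1 w.2 : Fin (m + 1) → ℝ)) := by
  rw [measurable_pi_iff]
  intro i
  refine Fin.cases ?_ (fun i => ?_) i
  · simp only [Fin.cons_zero]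
    exact measurable_fst
  · simp only [Fin.cons_succ]
    exact (measurable_pi_apply i).comp measurable_snd

lemma FFn_meas (f : (Fin (m + 1) → ℝ) → ℂ) (hf : Measurable f) :
    Measurable (Function.uncurry (FFn f)) := by
  have h1 : Function.uncurry (FFn f) = (Prod.fst ⁻¹' II).indicator
      (fun w : ℝ × (Fin m → ℝ) => f (Fin.cons (2 * w.1) w.2)) := by
    ext w
    rfl
  rw [h1]
  apply Measurable.indicator _ (measurable_fst measurableSet_Icc)
  have h2 : Measurable (fun w : ℝ × (Fin m → ℝ) => ((2 * w.1, w.2) : ℝ × (Fin m → ℝ))) :=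
    (measurable_fst.const_mul 2).prodMk measurable_snd
  exact hf.comp (cons_meas.comp h2)

lemma two_mem (u : ℝ) : 2 * u ∈ Icc (-1 : ℝ) 1 ↔ u ∈ II := by
  simp only [mem_Icc]
  constructor
  · rintro ⟨h1, h2⟩
    constructor <;> linarith
  · rintro ⟨h1, h2⟩
    constructor <;> linarith

lemma ext_LL (f : (Fin (m + 1) → ℝ) → ℂ) (x : ℝ) (y : Fin m → ℝ) (t : ℝ) :
    Pool.Agent.H728R3.SR.ext f (Fin.cons x y, t) =
      2 * LL (FFn f) (-4 * Real.pi * x) (-8 * Real.pi * t) (em y t) := by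
  rw [ext_cons, scale_prod]
  unfold LL hh FFn
  congr 2
  ext w
  simp only
  have h1 : qe x t (2 * w.1) = ph (-4 * Real.pi * x) (-8 * Real.pi * t) w.1 := by
    unfold qe ph
    congr 1
    push_cast
    ring
  rw [h1]
  by_cases hu : w.1 ∈ II
  · rw [indicator_of_mem hu, indicator_of_mem ((two_mem _).mpr hu)]
  · rw [indicator_of_notMem hu, indicator_of_notMem (fun h => hu ((two_mem _).mp h))]

lemma II_scale (g : ℝ → ℝ≥0∞) (hg : Measurable g) :
    ∫⁻ u in II, g (2 * u) ≤ ∫⁻ u in Icc (-1 : ℝ) 1, g u := by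
  have h1 := lint_scale ((Icc (-1 : ℝ) 1).indicator g) (hg.indicator measurableSet_Icc) 2 two_ne_zero
  rw [← lintegral_indicator measurableSet_Icc, ← lintegral_indicator measurableSet_Icc]
  have h2 : ∀ u, II.indicator (fun u => g (2 * u)) u = (Icc (-1 : ℝ) 1).indicator g (2 * u) := by
    intro u
    by_cases hu : u ∈ II
    · rw [indicator_of_mem hu, indicator_of_mem ((two_mem _).mpr hu)]
    · rw [indicator_of_notMem hu, indicator_of_notMem (fun h => hu ((two_mem _).mp h))]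
  simp only [h2]
  rw [h1]
  calc ENNReal.ofReal |(2 : ℝ)⁻¹| * ∫⁻ u, (Icc (-1 : ℝ) 1).indicator g u ≤
      1 * ∫⁻ u, (Icc (-1 : ℝ) 1).indicator g u := by
        gcongr
        rw [← ENNReal.ofReal_one]
        apply ENNReal.ofReal_le_ofReal
        rw [abs_of_pos (by norm_num)]
        norm_num
    _ = _ := one_mul _

lemma FFn_N2 (f : (Fin (m + 1) → ℝ) → ℂ) (u : ℝ) (hu : u ∈ II) :
    N2 (nuC m) (FFn f) u = ∫⁻ v in Cb m, ‖f (Fin.cons (2 * u) v)‖ₑ ^ 2 := by
  unfold N2 FFn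
  rw [nuC_eq]
  simp only [indicator_of_mem hu]

lemma FFn_RM (f : (Fin (m + 1) → ℝ) → ℂ) (u : ℝ) (hu : u ∈ II) (h : Fin m → ℝ) :
    RM (FFn f u) h ≤ ∫⁻ v in {v | v ∈ Cb m ∧ v + h ∈ Cb m},
      ‖f (Fin.cons (2 * u) (v + h)) - f (Fin.cons (2 * u) v)‖ₑ ^ 2 := by
  have hsub : ∀ v, v ∈ CC m → v ∈ Cb m := by
    intro v hv
    rw [mem_CC] at hv
    exact ⟨fun i => (hv i).1, fun i => (hv i).2.le⟩
  have hm : MeasurableSet {v : Fin m → ℝ | v ∈ Cb m ∧ v + h ∈ Cb m} := by
    have h1 : Measurable (fun v : Fin m → ℝ => v + h) := measurable_id.add_const h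
    exact measurableSet_Icc.inter (h1 measurableSet_Icc)
  unfold RM
  rw [← lintegral_indicator hm]
  apply lintegral_mono
  intro v
  simp only
  by_cases h1 : v ∈ CC m
  · rw [indicator_of_mem h1]
    by_cases h2 : v + h ∈ CC m
    · rw [indicator_of_mem h2, indicator_of_mem (show v ∈ {v : Fin m → ℝ | v ∈ Cb m ∧ v + h ∈ Cb m}
        from ⟨hsub _ h1, hsub _ h2⟩)]
      unfold FFn
      rw [indicator_of_mem hu, indicator_of_mem hu]
    · rw [indicator_of_notMem h2]
      exact zero_le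
  · rw [indicator_of_notMem h1]
    exact zero_le

end Pool.Agent.W771.MD
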