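import Mathlib
import Pool.Agent.W771.MJ
set_option autoImplicit false

/-! Functions which are rough in one variable. -/

namespace Pool.Agent.W771.MD

open MeasureTheory Set Complex
open scoped ENNReal NNReal FourierTransform

variable {m : ℕ}

lemma ext_meas (n : ℕ) (f : (Fin n → ℝ) → ℂ) (hf : Measurable f) :
    Measurable (fun y : (Fin n → ℝ) × ℝ => Pool.Agent.H728R3.SR.ext f y) := by
  unfold Pool.Agent.H728R3.SR.ext
  apply StronglyMeasurable.measurable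
  apply StronglyMeasurable.integral_prod_right'
    (f := fun w : ((Fin n → ℝ) × ℝ) × (Fin n → ℝ) => f w.2 * cexp (2 * Real.pi * I *
      ((∑ j, w.2 j * w.1.1 j + (∑ j, w.2 j ^ 2) * w.1.2 : ℝ) : ℂ)))
  apply Measurable.stronglyMeasurable
  apply Measurable.mul
  · exact hf.comp measurable_snd
  · apply Continuous.measurable
    fun_prop

lemma lint_cons (g : (Fin (m + 1) → ℝ) × ℝ → ℝ≥0∞) (hg : Measurable g) :
    ∫⁻ z, g z = ∫⁻ t : ℝ, ∫⁻ x : ℝ, ∫⁻ y : Fin m → ℝ, g (Fin.cons x y, t) := by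
  rw [Measure.volume_eq_prod, lintegral_prod_symm _ hg.aemeasurable]
  congr 1
  ext t
  have hmp := (volume_preserving_piFinSuccAbove (fun _ : Fin (m + 1) => ℝ) 0).symm
  rw [← hmp.lintegral_comp_emb (MeasurableEquiv.measurableEmbedding _)]
  have h2 : ∀ w : ℝ × (Fin m → ℝ), (MeasurableEquiv.piFinSuccAbove
      (fun _ : Fin (m + 1) => ℝ) 0).symm w = (Fin.cons w.1 w.2 : Fin (m + 1) → ℝ) := by
    intro w
    simp [MeasurableEquiv.piFinSuccAbove]
    rfl
  simp only [h2]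
  have h3 : Measurable (fun w : ℝ × (Fin m → ℝ) => g (Fin.cons w.1 w.2, t)) :=
    hg.comp (cons_meas.prodMk measurable_const)
  exact lintegral_prod (μ := (volume : Measure ℝ)) (ν := (volume : Measure (Fin m → ℝ))) _
    h3.aemeasurable

/-- truncation -/
noncomputable def tr (F : ℝ → (Fin m → ℝ) → ℂ) (u : ℝ) (v : Fin m → ℝ) : ℂ :=
  {u | N2 (nuC m) F u ≠ ∞}.indicator (fun u => F u v) u

lemma tr_meas (F : ℝ → (Fin m → ℝ) → ℂ) (hF : Measurable (Function.uncurry F)) :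
    Measurable (Function.uncurry (tr F)) := by
  have hS : MeasurableSet {u | N2 (nuC m) F u ≠ ∞} := by
    have h := N2_meas (nuC m) F hF
    exact (measurableSet_eq_fun h measurable_const).compl
  have h1 : Function.uncurry (tr F) = (Prod.fst ⁻¹' {u | N2 (nuC m) F u ≠ ∞}).indicator
      (Function.uncurry F) := by
    ext w
    rfl
  rw [h1]
  exact hF.indicator (measurable_fst hS)

lemma tr_N2 (F : ℝ → (Fin m → ℝ) → ℂ) (u : ℝ) :
    N2 (nuC m) (tr F) u ≤ N2 (nuC m) F u ∧ N2 (nuC m) (tr F) u ≠ ∞ := by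
  by_cases h : u ∈ {u | N2 (nuC m) F u ≠ ∞}
  · have h1 : N2 (nuC m) (tr F) u = N2 (nuC m) F u := by
      conv_lhs => unfold N2 tr
      simp only [indicator_of_mem h]
      rfl
    rw [h1]
    exact ⟨le_rfl, h⟩
  · have h1 : N2 (nuC m) (tr F) u = 0 := by
      conv_lhs => unfold N2 tr
      simp only [indicator_of_notMem h]
      simp
    rw [h1]
    exact ⟨zero_le, ENNReal.zero_ne_top⟩

lemma tr_RM (F : ℝ → (Fin m → ℝ) → ℂ) (u : ℝ) (h : Fin m → ℝ) :
    RM (tr F u) h ≤ RM (F u) h := by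
  by_cases h1 : u ∈ {u | N2 (nuC m) F u ≠ ∞}
  · have : tr F u = F u := by
      ext v
      exact indicator_of_mem h1 _
    rw [this]
  · have : tr F u = fun _ => 0 := by
      ext v
      exact indicator_of_notMem h1 _
    rw [this]
    unfold RM
    simp only [sub_self, enorm_zero]
    have : ∫⁻ v, (CC m).indicator (fun v => (CC m).indicator
        (fun _ : Fin m → ℝ => (0 : ℝ≥0∞) ^ 2) (v + h)) v = 0 := by
      simp
    rw [this]
    exact zero_le

/-- **Functions which are rough in one variable**, general size. -/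
theorem mainExt (hm : 1 ≤ m) (q p : ℝ) (hq : 2 * ((m : ℝ) + 2) / (m + 1) < q) (hp2 : 2 ≤ p)
    (hp : (m + 1) * q < p * ((m + 1) * (q - 1) - 2)) : ∃ C : ℝ≥0,
    ∀ f : (Fin (m + 1) → ℝ) → ℂ, Measurable f → ∀ K : ℝ≥0∞, K ≠ 0 → K ≠ ∞ →
    (∫⁻ u in Icc (-1 : ℝ) 1, (∫⁻ v in Cb m, ‖f (Fin.cons u v)‖ₑ ^ 2) ^ (p / 2) ≤ K ^ p) →
    (∀ h : Fin m → ℝ, ‖h‖ ≤ 1 → ∫⁻ u in Icc (-1 : ℝ) 1,
      (∫⁻ v in {v | v ∈ Cb m ∧ v + h ∈ Cb m},
        ‖f (Fin.cons u (v + h)) - f (Fin.cons u v)‖ₑ ^ 2) ^ (p / 2) ≤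
      (K * ENNReal.ofReal (‖h‖ ^ ((m : ℝ) / (2 * (m + 2))))) ^ p) →
    ∫⁻ y : (Fin (m + 1) → ℝ) × ℝ, ‖Pool.Agent.H728R3.SR.ext f y‖ₑ ^ q ≤ (C * K) ^ q := by
  obtain ⟨C, hC⟩ := mainLL hm q p hq hp2 hp
  have hm0 : (1 : ℝ) ≤ m := by exact_mod_cast hm
  have hq0 : 0 < q := by
    refine lt_trans ?_ hq
    positivity
  have hp0 : 0 ≤ p / 2 := by linarith
  -- the constant
  have hCt : (2 : ℝ≥0∞) * (C : ℝ≥0∞) ^ (1 / q) ≠ ∞ :=
    ENNReal.mul_ne_top (by norm_num) (ENNReal.rpow_ne_top_of_nonneg (by positivity)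
      ENNReal.coe_ne_top)
  refine ⟨((2 : ℝ≥0∞) * (C : ℝ≥0∞) ^ (1 / q)).toNNReal, ?_⟩
  intro f hf K hK0 hKt hN hM
  rw [ENNReal.coe_toNNReal hCt]
  set F := FFn f with hFd
  have hF : Measurable (Function.uncurry F) := FFn_meas f hf
  -- the norm
  have hNF : ∫⁻ u in II, N2 (nuC m) F u ^ (p / 2) ≤ K ^ p := by
    refine le_trans ?_ hN
    have hgm : Measurable (fun u : ℝ => (∫⁻ v in Cb m, ‖f (Fin.cons u v)‖ₑ ^ 2) ^ (p / 2)) := by
      have h1 : Measurable (fun w : ℝ × (Fin m → ℝ) => ‖f (Fin.cons w.1 w.2)‖ₑ ^ 2) :=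
        (hf.comp cons_meas).enorm.pow_const 2
      exact (Measurable.lintegral_prod_right' h1).pow_const _
    refine le_trans (le_of_eq ?_) (II_scale _ hgm)
    apply setLIntegral_congr_fun measurableSet_Icc
    intro u hu
    simp only [hFd]
    rw [FFn_N2 f u hu]
  have hMF : ∀ h : Fin m → ℝ, ‖h‖ ≤ 1 → ∫⁻ u in II, RM (F u) h ^ (p / 2) ≤
      (K * ENNReal.ofReal (‖h‖ ^ ((m : ℝ) / (2 * (m + 2))))) ^ p := by
    intro h hh
    refine le_trans ?_ (hM h hh)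
    have hgm : Measurable (fun u : ℝ => (∫⁻ v in {v | v ∈ Cb m ∧ v + h ∈ Cb m},
        ‖f (Fin.cons u (v + h)) - f (Fin.cons u v)‖ₑ ^ 2) ^ (p / 2)) := by
      have h1 : Measurable (fun w : ℝ × (Fin m → ℝ) => f (Fin.cons w.1 w.2)) := hf.comp cons_meas
      have h3 : Measurable (fun w : ℝ × (Fin m → ℝ) => ((w.1, w.2 + h) : ℝ × (Fin m → ℝ))) :=
        measurable_fst.prodMk (measurable_snd.add_const h)
      have h4 := h1.comp h3
      have h2 : Measurable (fun w : ℝ × (Fin m → ℝ) =>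
          ‖f (Fin.cons w.1 (w.2 + h)) - f (Fin.cons w.1 w.2)‖ₑ ^ 2) :=
        (h4.sub h1).enorm.pow_const 2
      exact (Measurable.lintegral_prod_right' h2).pow_const _
    refine le_trans ?_ (II_scale _ hgm)
    apply setLIntegral_mono' measurableSet_Icc
    intro u hu
    exact ENNReal.rpow_le_rpow (FFn_RM f u hu h) hp0
  have hae : ∀ᵐ u : ℝ, N2 (nuC m) F u ≠ ∞ := by
    have h1 : ∀ᵐ u ∂(volume.restrict II), N2 (nuC m) F u ^ (p / 2) < ∞ := by
      apply ae_lt_top ((N2_meas (nuC m) F hF).pow_const _)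
      exact ne_top_of_le_ne_top (ENNReal.rpow_ne_top_of_nonneg (by linarith) hKt) hNF
    rw [ae_restrict_iff' measurableSet_Icc] at h1
    filter_upwards [h1] with u hu
    by_cases h : u ∈ II
    · intro hc
      have h2 := hu h
      rw [hc, ENNReal.top_rpow_of_pos (by linarith)] at h2
      exact absurd h2 (lt_irrefl _)
    · rw [N2_zero (nuC m) F II (fun u hu v => indicator_of_notMem hu _) u h]
      exact ENNReal.zero_ne_top
  have hLL : ∀ X T ψ, LL F X T ψ = LL (tr F) X T ψ := by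
    intro X T ψ
    unfold LL
    apply integral_congr_ae
    have h1 : ∀ᵐ w ∂((volume : Measure ℝ).prod (nuC m)), N2 (nuC m) F w.1 ≠ ∞ :=
      Measure.quasiMeasurePreserving_fst.ae hae
    filter_upwards [h1] with w hw
    have h2 : tr F w.1 w.2 = F w.1 w.2 := indicator_of_mem (by exact hw) _
    rw [h2]
  have hext : ∀ x y t, ‖Pool.Agent.H728R3.SR.ext f (Fin.cons x y, t)‖ₑ ^ q =
      (2 : ℝ≥0∞) ^ q * ‖LL (tr F) (-4 * Real.pi * x) (-8 * Real.pi * t) (em y t)‖ₑ ^ q := by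
    intro x y t
    rw [ext_LL, ← hFd, hLL, enorm_mul, ENNReal.mul_rpow_of_nonneg _ _ hq0.le]
    congr 2
    rw [← ofReal_norm]
    norm_num
  have h2q : (2 : ℝ≥0∞) ^ q ≠ ∞ := ENNReal.rpow_ne_top_of_nonneg hq0.le (by norm_num)
  rw [lint_cons _ ((ext_meas (m + 1) f hf).enorm.pow_const q)]
  simp only [hext, lintegral_const_mul' _ _ h2q]
  have hmain := hC (tr F) (tr_meas F hF) (fun u hu v => by
      unfold tr
      by_cases h : u ∈ {u | N2 (nuC m) F u ≠ ∞}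
      · rw [indicator_of_mem h]
        exact indicator_of_notMem hu _
      · rw [indicator_of_notMem h]) (fun u => (tr_N2 F u).2) K hK0 hKt
    ((lintegral_mono fun u => ENNReal.rpow_le_rpow (tr_N2 F u).1 hp0).trans hNF)
    (fun h hh => (lintegral_mono fun u => ENNReal.rpow_le_rpow (tr_RM F u h) hp0).trans
      (hMF h hh))
  calc (2 : ℝ≥0∞) ^ q * ∫⁻ t : ℝ, ∫⁻ x : ℝ, ∫⁻ y, ‖LL (tr F) (-4 * Real.pi * x)
        (-8 * Real.pi * t) (em y t)‖ₑ ^ q ≤ (2 : ℝ≥0∞) ^ q * (C * K ^ q) := by gcongr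
    _ = _ := by
        rw [ENNReal.mul_rpow_of_nonneg _ _ hq0.le, ENNReal.mul_rpow_of_nonneg _ _ hq0.le,
          ← ENNReal.rpow_mul, one_div, inv_mul_cancel₀ hq0.ne', ENNReal.rpow_one]
        ring

end Pool.Agent.W771.MD
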