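import Mathlib
set_option autoImplicit false

/-! Gaussian kernels of the Schroedinger group in one variable and the quadruple integral. -/

namespace Pool.Agent.W771.NN
open MeasureTheory Set Complex
open scoped ENNReal NNReal

/-- `1/(1 - 2it)` -/
noncomputable def zz (t : ℝ) : ℂ := (1 - 2 * I * t)⁻¹

/-- `1/(1+4t²)` -/
noncomputable def sg (t : ℝ) : ℝ := (1 + 4 * t ^ 2)⁻¹

/-- `2t/(1+4t²)` -/
noncomputable def ta (t : ℝ) : ℝ := 2 * t * (1 + 4 * t ^ 2)⁻¹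

lemma sg_pos (t : ℝ) : 0 < sg t := by unfold sg; positivity

lemma sg_le (t : ℝ) : sg t ≤ 1 := by
  unfold sg
  apply inv_le_one_of_one_le₀
  nlinarith [sq_nonneg t]

lemma den_ne (t : ℝ) : (1 - 2 * I * t : ℂ) ≠ 0 := by
  intro h
  have := congrArg Complex.re h
  simp at this

lemma zz_eq (t : ℝ) : zz t = (sg t : ℂ) + I * (ta t : ℂ) := by
  unfold zz sg ta
  have h2 : (1 + 4 * (t : ℂ) ^ 2) ≠ 0 := by
    have : ((1 + 4 * t ^ 2 : ℝ) : ℂ) ≠ 0 := by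
      exact_mod_cast (by positivity : (1 + 4 * t ^ 2 : ℝ) ≠ 0)
    push_cast at this
    exact this
  apply inv_eq_of_mul_eq_one_right
  push_cast
  have h3 : (1 + 4 * (t : ℂ) ^ 2)⁻¹ * (1 + 4 * (t : ℂ) ^ 2) = 1 := inv_mul_cancel₀ h2
  linear_combination h3 - 4 * (t : ℂ) ^ 2 * (1 + 4 * (t : ℂ) ^ 2)⁻¹ * I_sq

lemma sg_ta (t : ℝ) : sg t ^ 2 + ta t ^ 2 = sg t := by
  unfold sg ta
  have : (1 + 4 * t ^ 2 : ℝ) ≠ 0 := by positivity
  field_simp
  ring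

lemma zz_re (t : ℝ) : (zz t).re = sg t := by
  rw [zz_eq]
  simp

lemma zz_im (t : ℝ) : (zz t).im = ta t := by
  rw [zz_eq]
  simp

lemma zz_norm_sq (t : ℝ) : ‖zz t‖ ^ 2 = sg t := by
  rw [← Complex.normSq_eq_norm_sq, Complex.normSq_apply, zz_re, zz_im]
  have := sg_ta t
  nlinarith

lemma zz_ne (t : ℝ) : zz t ≠ 0 := inv_ne_zero (den_ne t)

lemma zz_conj (t : ℝ) : (starRingEnd ℂ) (zz t) = (sg t : ℂ) - I * (ta t : ℂ) := by
  rw [zz_eq]
  simp [sub_eq_add_neg]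

/-- the Gaussian kernel `∫ exp(-πv²) e(yv + tv²) dv` -/
noncomputable def gk (t y : ℝ) : ℂ := zz t ^ (1 / 2 : ℂ) * cexp (-Real.pi * zz t * y ^ 2)

lemma gk_int (t y : ℝ) : ∫ v : ℝ, cexp (-Real.pi * v ^ 2) * cexp (2 * Real.pi * I * (y * v + t * v ^ 2)) =
    gk t y := by
  have h := integral_cexp_quadratic (b := -Real.pi * (1 - 2 * I * t)) (by simp [Real.pi_pos])
    (2 * Real.pi * I * y) 0
  have e1 : ∀ v : ℝ, cexp (-Real.pi * v ^ 2) * cexp (2 * Real.pi * I * (y * v + t * v ^ 2)) =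
      cexp (-Real.pi * (1 - 2 * I * t) * v ^ 2 + 2 * Real.pi * I * y * v + 0) := by
    intro v
    rw [← Complex.exp_add]
    congr 1
    ring
  simp_rw [e1]
  rw [h]
  unfold gk zz
  have hd := den_ne t
  have hpi : (Real.pi : ℂ) ≠ 0 := by exact_mod_cast Real.pi_ne_zero
  congr 2
  · field_simp
  · field_simp
    ring_nf
    rw [I_sq]
    ring

lemma zsq_norm4 (t : ℝ) : ‖zz t ^ (1 / 2 : ℂ)‖ ^ 4 = sg t := by
  have h1 : ‖zz t ^ (1 / 2 : ℂ)‖ ^ 2 = ‖zz t‖ := by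
    rw [← norm_pow]
    congr 1
    rw [← Complex.cpow_nat_mul]
    norm_num
  calc ‖zz t ^ (1 / 2 : ℂ)‖ ^ 4 = (‖zz t ^ (1 / 2 : ℂ)‖ ^ 2) ^ 2 := by ring
    _ = sg t := by rw [h1, zz_norm_sq]

lemma zsq_norm (t : ℝ) : ‖zz t ^ (1 / 2 : ℂ)‖ ≤ 1 := by
  have h1 := zsq_norm4 t
  have h2 := sg_le t
  by_contra hc
  push Not at hc
  have : 1 < ‖zz t ^ (1 / 2 : ℂ)‖ ^ 4 := one_lt_pow₀ hc (by norm_num)
  linarith

lemma gk_norm (t y : ℝ) : ‖gk t y‖ = ‖zz t ^ (1 / 2 : ℂ)‖ * Real.exp (-Real.pi * sg t * y ^ 2) := by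
  unfold gk
  rw [norm_mul, Complex.norm_exp]
  congr 2
  have : (-Real.pi * zz t * y ^ 2 : ℂ) = ((-Real.pi * y ^ 2 : ℝ) : ℂ) * zz t := by
    push_cast; ring
  rw [this, Complex.re_ofReal_mul, zz_re]
  ring

lemma gk_le (t y : ℝ) : ‖gk t y‖ ≤ 1 := by
  rw [gk_norm]
  have h1 := zsq_norm t
  have h2 : Real.exp (-Real.pi * sg t * y ^ 2) ≤ 1 := by
    rw [Real.exp_le_one_iff]
    have := sg_pos t
    have := Real.pi_pos
    have : 0 ≤ Real.pi * sg t * y ^ 2 := by positivity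
    linarith
  calc _ ≤ 1 * 1 := mul_le_mul h1 h2 (Real.exp_pos _).le zero_le_one
    _ = 1 := one_mul 1

/-- the constant of the quadruple integral -/
lemma quad_const (t : ℝ) : zz t ^ (1 / 2 : ℂ) * (starRingEnd ℂ) (zz t ^ (1 / 2 : ℂ)) *
    (starRingEnd ℂ) (zz t ^ (1 / 2 : ℂ)) * zz t ^ (1 / 2 : ℂ) = (sg t : ℂ) := by
  have h1 : zz t ^ (1 / 2 : ℂ) * (starRingEnd ℂ) (zz t ^ (1 / 2 : ℂ)) =
      ((‖zz t ^ (1 / 2 : ℂ)‖ ^ 2 : ℝ) : ℂ) := by
    rw [Complex.mul_conj, Complex.normSq_eq_norm_sq]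
  calc _ = (zz t ^ (1 / 2 : ℂ) * (starRingEnd ℂ) (zz t ^ (1 / 2 : ℂ))) *
        (zz t ^ (1 / 2 : ℂ) * (starRingEnd ℂ) (zz t ^ (1 / 2 : ℂ))) := by ring
    _ = ((‖zz t ^ (1 / 2 : ℂ)‖ ^ 4 : ℝ) : ℂ) := by
        rw [h1]
        push_cast
        ring
    _ = _ := by rw [zsq_norm4]

/-- the quadruple kernel -/
noncomputable def qk (t p q r s : ℝ) : ℂ := ((1 / 2 * √(sg t) : ℝ) : ℂ) *
  cexp (((-(Real.pi / 4) * (p + s - q - r) ^ 2
    - Real.pi / 2 * sg t * ((p - s) ^ 2 + (q - r) ^ 2) : ℝ) : ℂ)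
    - I * ((Real.pi / 2 * ta t * ((p - s) ^ 2 - (q - r) ^ 2) : ℝ) : ℂ))

lemma gk_conj (t y : ℝ) : (starRingEnd ℂ) (gk t y) = (starRingEnd ℂ) (zz t ^ (1 / 2 : ℂ)) *
    cexp (-Real.pi * (starRingEnd ℂ) (zz t) * y ^ 2) := by
  unfold gk
  rw [map_mul, ← Complex.exp_conj]
  congr 2
  simp

lemma quad_int (t p q r s : ℝ) :
    ∫ y : ℝ, gk t (y + p) * (starRingEnd ℂ) (gk t (y + q)) * (starRingEnd ℂ) (gk t (y + r)) *
      gk t (y + s) = qk t p q r s := by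
  have hs := sg_pos t
  have hpi := Real.pi_pos
  have h := integral_cexp_quadratic (b := -4 * Real.pi * sg t) (by
    have : (-4 * Real.pi * sg t : ℂ) = ((-4 * Real.pi * sg t : ℝ) : ℂ) := by push_cast; ring
    rw [this, Complex.ofReal_re]
    have : 0 < Real.pi * sg t := by positivity
    linarith)
    (-2 * Real.pi * (zz t * (p + s) + (starRingEnd ℂ) (zz t) * (q + r)))
    (-Real.pi * (zz t * (p ^ 2 + s ^ 2) + (starRingEnd ℂ) (zz t) * (q ^ 2 + r ^ 2)))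
  have e1 : ∀ y : ℝ, gk t (y + p) * (starRingEnd ℂ) (gk t (y + q)) * (starRingEnd ℂ) (gk t (y + r)) *
      gk t (y + s) = (sg t : ℂ) * cexp (-4 * Real.pi * sg t * y ^ 2 +
        (-2 * Real.pi * (zz t * (p + s) + (starRingEnd ℂ) (zz t) * (q + r))) * y +
        (-Real.pi * (zz t * (p ^ 2 + s ^ 2) + (starRingEnd ℂ) (zz t) * (q ^ 2 + r ^ 2)))) := by
    intro y
    rw [gk_conj, gk_conj]
    unfold gk
    have e2 : ∀ a b c d : ℂ, ∀ A B : ℂ, (A * cexp a) * (B * cexp b) * (B * cexp c) * (A * cexp d) =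
        (A * B * B * A) * cexp (a + b + c + d) := by
      intro a b c d A B
      rw [Complex.exp_add, Complex.exp_add, Complex.exp_add]
      ring
    rw [e2, quad_const]
    congr 2
    rw [zz_conj, zz_eq]
    push_cast
    ring
  simp_rw [e1]
  rw [integral_const_mul, h]
  unfold qk
  have e3 : ((Real.pi : ℂ) / -(-4 * Real.pi * sg t)) ^ (1 / 2 : ℂ) =
      ((√(1 / (4 * sg t)) : ℝ) : ℂ) := by
    have : ((Real.pi : ℂ) / -(-4 * Real.pi * sg t)) = ((1 / (4 * sg t) : ℝ) : ℂ) := by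
      have h1 : (Real.pi : ℂ) ≠ 0 := by exact_mod_cast hpi.ne'
      have h2 : (sg t : ℂ) ≠ 0 := by exact_mod_cast hs.ne'
      push_cast
      field_simp
    rw [this, Real.sqrt_eq_rpow, Complex.ofReal_cpow (by positivity)]
    norm_num
  rw [e3, ← mul_assoc]
  congr 1
  · rw [← Complex.ofReal_mul]
    congr 1
    rw [Real.sqrt_div zero_le_one, Real.sqrt_one, Real.sqrt_mul (by norm_num : (0 : ℝ) ≤ 4),
      show (4 : ℝ) = 2 ^ 2 by norm_num, Real.sqrt_sq (by norm_num : (0 : ℝ) ≤ 2)]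
    have h3 : √(sg t) ≠ 0 := by positivity
    have h4 : sg t = √(sg t) * √(sg t) := (Real.mul_self_sqrt hs.le).symm
    field_simp
    nlinarith
  · congr 1
    rw [zz_conj, zz_eq]
    have h2 : (sg t : ℂ) ≠ 0 := by exact_mod_cast hs.ne'
    have h1 : (Real.pi : ℂ) ≠ 0 := by exact_mod_cast hpi.ne'
    have h5 : (ta t : ℂ) ^ 2 = sg t - sg t ^ 2 := by
      have := sg_ta t
      have h6 : ta t ^ 2 = sg t - sg t ^ 2 := by linarith
      exact_mod_cast congrArg (fun x : ℝ => (x : ℂ)) h6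
    push_cast
    field_simp
    ring_nf
    simp only [I_sq, h5]
    ring

end Pool.Agent.W771.NN
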