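import Mathlib
import Pool.Agent.W771.NA
set_option autoImplicit false

/-! The oscillatory integral in time. -/

namespace Pool.Agent.W771.NN
open MeasureTheory Set Complex
open scoped ENNReal NNReal

/-- first derivative test -/
lemma vdc (a b : ℝ) (hab : a ≤ b) (Φ Φ' W W' : ℝ → ℝ)
    (hΦ : ∀ t ∈ Icc a b, HasDerivAt Φ (Φ' t) t) (hW : ∀ t ∈ Icc a b, HasDerivAt W (W' t) t)
    (cΦ : ContinuousOn Φ' (Icc a b)) (cW : ContinuousOn W' (Icc a b)) (B B' : ℝ)
    (hB : ∀ t ∈ Icc a b, |W t| ≤ B) (hB' : ∀ t ∈ Icc a b, |W' t| ≤ B') :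
    ‖∫ t in a..b, ((W t * Φ' t : ℝ) : ℂ) * cexp (I * (Φ t : ℂ))‖ ≤ 2 * B + B' * (b - a) := by
  have hu : uIcc a b = Icc a b := uIcc_of_le hab
  have cΦ0 : ContinuousOn Φ (Icc a b) := fun t ht => (hΦ t ht).continuousAt.continuousWithinAt
  have cW0 : ContinuousOn W (Icc a b) := fun t ht => (hW t ht).continuousAt.continuousWithinAt
  have ce : ContinuousOn (fun t => cexp (I * (Φ t : ℂ))) (Icc a b) := by
    apply Complex.continuous_exp.comp_continuousOn
    exact continuousOn_const.mul (Complex.continuous_ofReal.comp_continuousOn cΦ0)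
  have hd : ∀ t ∈ uIcc a b, HasDerivAt (fun t => ((W t : ℝ) : ℂ) * cexp (I * (Φ t : ℂ)))
      (((W' t : ℝ) : ℂ) * cexp (I * (Φ t : ℂ)) +
        ((W t : ℝ) : ℂ) * (cexp (I * (Φ t : ℂ)) * (I * ((Φ' t : ℝ) : ℂ)))) t := by
    intro t ht
    rw [hu] at ht
    have h1 := (hW t ht).ofReal_comp
    have h2 := ((hΦ t ht).ofReal_comp.const_mul I).cexp
    exact h1.mul h2
  have c1 : ContinuousOn (fun t => ((W' t : ℝ) : ℂ) * cexp (I * (Φ t : ℂ))) (Icc a b) :=
    (Complex.continuous_ofReal.comp_continuousOn cW).mul ce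
  have c2 : ContinuousOn (fun t => ((W t : ℝ) : ℂ) * (cexp (I * (Φ t : ℂ)) * (I * ((Φ' t : ℝ) : ℂ))))
      (Icc a b) := (Complex.continuous_ofReal.comp_continuousOn cW0).mul
        (ce.mul (continuousOn_const.mul (Complex.continuous_ofReal.comp_continuousOn cΦ)))
  have i1 : IntervalIntegrable (fun t => ((W' t : ℝ) : ℂ) * cexp (I * (Φ t : ℂ))) volume a b := by
    apply ContinuousOn.intervalIntegrable
    rw [hu]; exact c1
  have i2 : IntervalIntegrable (fun t => ((W t : ℝ) : ℂ) * (cexp (I * (Φ t : ℂ)) *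
      (I * ((Φ' t : ℝ) : ℂ)))) volume a b := by
    apply ContinuousOn.intervalIntegrable
    rw [hu]; exact c2
  have h := intervalIntegral.integral_eq_sub_of_hasDerivAt hd (i1.add i2)
  rw [intervalIntegral.integral_add i1 i2] at h
  have e1 : ∫ t in a..b, ((W t : ℝ) : ℂ) * (cexp (I * (Φ t : ℂ)) * (I * ((Φ' t : ℝ) : ℂ))) =
      I * ∫ t in a..b, ((W t * Φ' t : ℝ) : ℂ) * cexp (I * (Φ t : ℂ)) := by
    rw [← intervalIntegral.integral_const_mul]
    congr 1
    ext t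
    push_cast
    ring
  rw [e1] at h
  set J := ∫ t in a..b, ((W t * Φ' t : ℝ) : ℂ) * cexp (I * (Φ t : ℂ)) with hJ
  have nexp : ∀ t, ‖cexp (I * (Φ t : ℂ))‖ = 1 := by
    intro t
    rw [mul_comm, Complex.norm_exp_ofReal_mul_I]
  have e2 : ‖I * J‖ = ‖J‖ := by rw [norm_mul, Complex.norm_I, one_mul]
  have e3 : I * J = ((W b : ℝ) : ℂ) * cexp (I * (Φ b : ℂ)) - ((W a : ℝ) : ℂ) * cexp (I * (Φ a : ℂ)) -
      ∫ t in a..b, ((W' t : ℝ) : ℂ) * cexp (I * (Φ t : ℂ)) := by
    rw [← h]; ring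
  rw [← e2, e3]
  have n1 : ‖((W b : ℝ) : ℂ) * cexp (I * (Φ b : ℂ))‖ ≤ B := by
    rw [norm_mul, nexp, mul_one, Complex.norm_real]
    exact hB b ⟨hab, le_rfl⟩
  have n2 : ‖((W a : ℝ) : ℂ) * cexp (I * (Φ a : ℂ))‖ ≤ B := by
    rw [norm_mul, nexp, mul_one, Complex.norm_real]
    exact hB a ⟨le_rfl, hab⟩
  have n3 : ‖∫ t in a..b, ((W' t : ℝ) : ℂ) * cexp (I * (Φ t : ℂ))‖ ≤ B' * |b - a| := by
    apply intervalIntegral.norm_integral_le_of_norm_le_const
    intro t ht
    rw [uIoc_of_le hab] at ht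
    rw [norm_mul, nexp, mul_one, Complex.norm_real]
    exact hB' t ⟨ht.1.le, ht.2⟩
  rw [abs_of_nonneg (by linarith)] at n3
  calc _ ≤ ‖((W b : ℝ) : ℂ) * cexp (I * (Φ b : ℂ)) - ((W a : ℝ) : ℂ) * cexp (I * (Φ a : ℂ))‖ +
        ‖∫ t in a..b, ((W' t : ℝ) : ℂ) * cexp (I * (Φ t : ℂ))‖ := norm_sub_le _ _
    _ ≤ (B + B) + B' * (b - a) := by
        have := norm_sub_le (((W b : ℝ) : ℂ) * cexp (I * (Φ b : ℂ)))
          (((W a : ℝ) : ℂ) * cexp (I * (Φ a : ℂ)))
        linarith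
    _ = _ := by ring

lemma hasDerivAt_sg (t : ℝ) : HasDerivAt sg (-8 * t * sg t ^ 2) t := by
  unfold sg
  have h1 : HasDerivAt (fun t : ℝ => 1 + 4 * t ^ 2) (8 * t) t := by
    have := ((hasDerivAt_pow 2 t).const_mul (4 : ℝ)).const_add (1 : ℝ)
    refine this.congr_deriv ?_
    push_cast
    ring
  have h2 := h1.inv (by positivity)
  refine h2.congr_deriv ?_
  field_simp

lemma hasDerivAt_ta (t : ℝ) : HasDerivAt ta (-((8 * t ^ 2 - 2) * sg t ^ 2)) t := by
  have h1 : HasDerivAt (fun t : ℝ => 2 * t) 2 t := by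
    simpa using (hasDerivAt_id t).const_mul 2
  have h2 := h1.mul (hasDerivAt_sg t)
  have e : ta = fun t => 2 * t * sg t := rfl
  rw [e]
  refine h2.congr_deriv ?_
  unfold sg
  field_simp
  ring

lemma hasDerivAt_sqrt (t : ℝ) : HasDerivAt (fun t => √(sg t)) (-4 * t * sg t * √(sg t)) t := by
  have h0 := sg_pos t
  have h := (hasDerivAt_sg t).sqrt h0.ne'
  refine h.congr_deriv ?_
  have h4 : √(sg t) ^ 2 = sg t := Real.sq_sqrt h0.le
  have h5 : √(sg t) ≠ 0 := by positivity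
  rw [div_eq_iff (by positivity)]
  linear_combination (8 * t * sg t) * h4

/-- the amplitude -/
noncomputable def psi (m : ℕ) (S t : ℝ) : ℝ := √(sg t) ^ m * Real.exp (-(Real.pi / 2) * sg t * S)

lemma hasDerivAt_psi (m : ℕ) (S t : ℝ) :
    HasDerivAt (psi m S) (psi m S t * (4 * t * sg t * (-m + Real.pi * S * sg t))) t := by
  have h1 := (hasDerivAt_sqrt t).pow m
  have h2 : HasDerivAt (fun t => -(Real.pi / 2) * sg t * S) (-(Real.pi / 2) * (-8 * t * sg t ^ 2) * S) t :=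
    ((hasDerivAt_sg t).const_mul _).mul_const _
  have h3 := h1.mul h2.exp
  refine h3.congr_deriv ?_
  unfold psi
  rcases Nat.eq_zero_or_pos m with hm | hm
  · subst hm
    simp
    ring
  · obtain ⟨n, rfl⟩ : ∃ n, m = n + 1 := ⟨m - 1, by omega⟩
    simp only [Nat.add_sub_cancel, Pi.pow_apply]
    rw [pow_succ]
    push_cast
    ring

/-- minus the derivative of `ta` -/
noncomputable def rh (t : ℝ) : ℝ := (8 * t ^ 2 - 2) * sg t ^ 2

lemma hasDerivAt_rh (t : ℝ) : HasDerivAt rh (16 * t * sg t ^ 3 * (3 - 4 * t ^ 2)) t := by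
  have h1 : HasDerivAt (fun t : ℝ => 8 * t ^ 2 - 2) (16 * t) t := by
    have := ((hasDerivAt_pow 2 t).const_mul (8 : ℝ)).sub_const (2 : ℝ)
    refine this.congr_deriv ?_
    push_cast
    ring
  have h2 := h1.mul ((hasDerivAt_sg t).pow 2)
  refine h2.congr_deriv ?_
  unfold sg
  have : (1 + 4 * t ^ 2 : ℝ) ≠ 0 := by positivity
  simp
  field_simp
  ring

lemma sg_cont : Continuous sg := by
  unfold sg
  apply Continuous.inv₀ (by fun_prop)
  intro t
  positivity

lemma four_sg (t : ℝ) : 4 * t ^ 2 * sg t ≤ 1 := by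
  unfold sg
  rw [← div_eq_mul_inv, div_le_one (by positivity)]
  linarith

lemma rh_pos {t : ℝ} (ht : 1 ≤ t) : 0 ≤ rh t := by
  unfold rh
  have : 0 ≤ 8 * t ^ 2 - 2 := by nlinarith
  positivity

lemma rh' {t : ℝ} (ht : 1 ≤ t) : |16 * t * sg t ^ 3 * (3 - 4 * t ^ 2)| ≤ 3 / t * rh t := by
  have h0 := sg_pos t
  have h1 := four_sg t
  have e1 : |3 - 4 * t ^ 2| ≤ 4 * t ^ 2 := by
    rw [abs_le]
    constructor <;> nlinarith
  have ht0 : 0 < t := by linarith
  rw [abs_mul, abs_of_nonneg (by positivity : 0 ≤ 16 * t * sg t ^ 3)]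
  calc 16 * t * sg t ^ 3 * |3 - 4 * t ^ 2| ≤ 16 * t * sg t ^ 3 * (4 * t ^ 2) := by gcongr
    _ = 16 * t * sg t ^ 2 * (4 * t ^ 2 * sg t) := by ring
    _ ≤ 16 * t * sg t ^ 2 * 1 := by gcongr
    _ ≤ 3 / t * rh t := by
        unfold rh
        have h2 : 6 * t ^ 2 ≤ 8 * t ^ 2 - 2 := by nlinarith
        calc 16 * t * sg t ^ 2 * 1 ≤ 3 / t * (6 * t ^ 2 * sg t ^ 2) := by
              have : 3 / t * (6 * t ^ 2 * sg t ^ 2) = 18 * t * sg t ^ 2 := by
                field_simp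
                ring
              rw [this]
              have : 0 ≤ t * sg t ^ 2 := by positivity
              nlinarith
          _ ≤ _ := by gcongr

lemma sqrt_sg_le {t T : ℝ} (hT : 1 ≤ T) (ht : T ≤ t) : √(sg t) ≤ T⁻¹ := by
  have h1 := four_sg t
  have h0 := sg_pos t
  have ht0 : 0 < T := by linarith
  rw [Real.sqrt_le_left (by positivity), ← one_div, div_pow, one_pow, le_div_iff₀ (by positivity)]
  have : sg t * T ^ 2 ≤ sg t * t ^ 2 := by gcongr
  nlinarith [mul_pos h0 (pow_pos ht0 2)]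

lemma psi_le {m : ℕ} {S t T : ℝ} (hS : 0 ≤ S) (hT : 1 ≤ T) (ht : T ≤ t) : psi m S t ≤ (T⁻¹) ^ m := by
  unfold psi
  have h0 := sg_pos t
  have h1 : Real.exp (-(Real.pi / 2) * sg t * S) ≤ 1 := by
    rw [Real.exp_le_one_iff]
    have := Real.pi_pos
    have : 0 ≤ (Real.pi / 2) * sg t * S := by positivity
    linarith
  calc √(sg t) ^ m * Real.exp (-(Real.pi / 2) * sg t * S) ≤ (T⁻¹) ^ m * 1 := by
        apply mul_le_mul _ h1 (Real.exp_pos _).le (by positivity)
        exact pow_le_pow_left₀ (Real.sqrt_nonneg _) (sqrt_sg_le hT ht) m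
    _ = _ := mul_one _

lemma psi_nonneg (m : ℕ) (S t : ℝ) : 0 ≤ psi m S t := by
  unfold psi
  positivity

lemma xexp {x : ℝ} (hx : 0 ≤ x) : x * Real.exp (-(x / 2)) ≤ 1 := by
  have h1 := Real.add_one_le_exp (x / 2)
  have h2 : x ≤ Real.exp (x / 2) := by
    have h3 := Real.add_one_le_exp (x / 4)
    have h4 : Real.exp (x / 2) = Real.exp (x / 4) ^ 2 := by
      rw [← Real.exp_nat_mul]
      congr 1
      push_cast
      ring
    rw [h4]
    have h5 : (x / 4 + 1) ^ 2 ≤ Real.exp (x / 4) ^ 2 := by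
      apply pow_le_pow_left₀ (by linarith) h3
    nlinarith [sq_nonneg (x / 4 - 1)]
  rw [Real.exp_neg]
  rw [← div_eq_mul_inv, div_le_one (Real.exp_pos _)]
  exact h2

lemma psi'_le {m : ℕ} {S t T : ℝ} (hS : 0 ≤ S) (hT : 1 ≤ T) (ht : T ≤ t) :
    |psi m S t * (4 * t * sg t * (-m + Real.pi * S * sg t))| ≤ (m + 1) * (T⁻¹) ^ m * T⁻¹ := by
  have h0 := sg_pos t
  have ht0 : 0 < t := by linarith
  have hT0 : 0 < T := by linarith
  have hpi := Real.pi_pos
  have h1 : 4 * t * sg t ≤ T⁻¹ := by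
    have := four_sg t
    calc 4 * t * sg t = (4 * t ^ 2 * sg t) * t⁻¹ := by field_simp
      _ ≤ 1 * T⁻¹ := by gcongr
      _ = _ := one_mul _
  have hx : 0 ≤ Real.pi * S * sg t := by positivity
  have h2 : |(-m + Real.pi * S * sg t : ℝ)| ≤ m + Real.pi * S * sg t := by
    rw [abs_le]
    have : (0 : ℝ) ≤ m := Nat.cast_nonneg m
    constructor <;> linarith
  have h3 := xexp hx
  rw [abs_mul, abs_mul, abs_of_nonneg (psi_nonneg m S t), abs_of_nonneg (by positivity : 0 ≤ 4 * t * sg t)]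
  unfold psi
  have e1 : -(Real.pi / 2) * sg t * S = -(Real.pi * S * sg t / 2) := by ring
  rw [e1]
  set E := Real.exp (-(Real.pi * S * sg t / 2)) with hE
  have hE1 : E ≤ 1 := by
    rw [hE, Real.exp_le_one_iff]
    linarith
  have hE0 : 0 < E := Real.exp_pos _
  have h4 : √(sg t) ^ m ≤ (T⁻¹) ^ m := pow_le_pow_left₀ (Real.sqrt_nonneg _) (sqrt_sg_le hT ht) m
  calc √(sg t) ^ m * E * (4 * t * sg t * |(-m + Real.pi * S * sg t : ℝ)|)
      ≤ √(sg t) ^ m * E * (4 * t * sg t * (m + Real.pi * S * sg t)) := by gcongr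
    _ = √(sg t) ^ m * (4 * t * sg t) * (m * E + (Real.pi * S * sg t) * E) := by ring
    _ ≤ (T⁻¹) ^ m * T⁻¹ * (m * 1 + 1) := by
        have hm : (0 : ℝ) ≤ m := Nat.cast_nonneg m
        apply mul_le_mul
        · apply mul_le_mul h4 h1 (by positivity) (by positivity)
        · have := mul_le_mul_of_nonneg_left hE1 hm
          linarith
        · positivity
        · positivity
    _ = _ := by ring

/-- the oscillatory integral, positive case -/
lemma osc_pos (m : ℕ) (T α S Δ : ℝ) (hT : 1 ≤ T) (hα : 0 < α) (hS : 0 ≤ S) (hΔ : 0 ≤ Δ) :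
    ‖∫ t in T..(2 * T), ((psi m S t : ℝ) : ℂ) *
      cexp (I * ((4 * Real.pi * α * t - Real.pi / 2 * ta t * Δ : ℝ) : ℂ))‖ ≤
      (m + 6) * (T⁻¹) ^ m * α⁻¹ := by
  have hpi := Real.pi_pos
  have hpi3 := Real.pi_gt_three
  have hT0 : 0 < T := by linarith
  have hab : T ≤ 2 * T := by linarith
  set P : ℝ → ℝ := fun t => 4 * Real.pi * α + Real.pi / 2 * rh t * Δ with hP
  set P' : ℝ → ℝ := fun t => Real.pi / 2 * (16 * t * sg t ^ 3 * (3 - 4 * t ^ 2)) * Δ with hP'
  have ht1 : ∀ t ∈ Icc T (2 * T), 1 ≤ t := fun t ht => hT.trans ht.1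
  have hPpos : ∀ t ∈ Icc T (2 * T), 4 * Real.pi * α ≤ P t := by
    intro t ht
    have := rh_pos (ht1 t ht)
    simp only [hP]
    have : 0 ≤ Real.pi / 2 * rh t * Δ := by positivity
    linarith
  have h4 : 0 < 4 * Real.pi * α := by positivity
  have hPne : ∀ t ∈ Icc T (2 * T), P t ≠ 0 := fun t ht => (h4.trans_le (hPpos t ht)).ne'
  have dP : ∀ t, HasDerivAt P (P' t) t := by
    intro t
    exact (((hasDerivAt_rh t).const_mul _).mul_const _).const_add _
  have dΦ : ∀ t, HasDerivAt (fun t => 4 * Real.pi * α * t - Real.pi / 2 * ta t * Δ) (P t) t := by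
    intro t
    have h1 := ((hasDerivAt_id t).const_mul (4 * Real.pi * α)).sub
      (((hasDerivAt_ta t).const_mul (Real.pi / 2)).mul_const Δ)
    refine h1.congr_deriv ?_
    simp only [hP, rh]
    ring
  set W : ℝ → ℝ := fun t => psi m S t / P t with hW
  set W' : ℝ → ℝ := fun t => (psi m S t * (4 * t * sg t * (-m + Real.pi * S * sg t)) * P t -
    psi m S t * P' t) / P t ^ 2 with hW'
  have dW : ∀ t ∈ Icc T (2 * T), HasDerivAt W (W' t) t := fun t ht =>
    (hasDerivAt_psi m S t).div (dP t) (hPne t ht)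
  have cs := sg_cont
  have cpsi : Continuous (psi m S) := by
    unfold psi
    fun_prop
  have crh : Continuous rh := by
    unfold rh
    fun_prop
  have cP : Continuous P := by
    simp only [hP]
    fun_prop
  have cP' : Continuous P' := by
    simp only [hP']
    fun_prop
  have cW' : ContinuousOn W' (Icc T (2 * T)) := by
    apply ContinuousOn.div
    · apply Continuous.continuousOn
      fun_prop
    · exact (cP.pow 2).continuousOn
    · intro t ht
      exact pow_ne_zero 2 (hPne t ht)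
  have h := vdc T (2 * T) hab _ P W W' (fun t _ => dΦ t) dW cP.continuousOn cW'
    ((T⁻¹) ^ m * (4 * Real.pi * α)⁻¹) ((m + 4) * (T⁻¹) ^ m * T⁻¹ * (4 * Real.pi * α)⁻¹) (by
      intro t ht
      simp only [hW]
      rw [abs_div, abs_of_nonneg (psi_nonneg m S t), abs_of_pos (h4.trans_le (hPpos t ht)),
        div_eq_mul_inv]
      apply mul_le_mul (psi_le hS hT ht.1) (inv_anti₀ h4 (hPpos t ht))
        (inv_nonneg.mpr (h4.le.trans (hPpos t ht))) (by positivity)) (by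
      intro t ht
      have hPp := h4.trans_le (hPpos t ht)
      have ht0 : 0 < t := by linarith [ht.1]
      simp only [hW']
      have e1 : (psi m S t * (4 * t * sg t * (-m + Real.pi * S * sg t)) * P t -
          psi m S t * P' t) / P t ^ 2 =
          psi m S t * (4 * t * sg t * (-m + Real.pi * S * sg t)) * (P t)⁻¹ -
          psi m S t * (P' t * (P t)⁻¹) * (P t)⁻¹ := by
        field_simp
      rw [e1]
      have b1 := psi'_le (m := m) hS hT ht.1
      have b2 := psi_le (m := m) hS hT ht.1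
      have b3 : (P t)⁻¹ ≤ (4 * Real.pi * α)⁻¹ := inv_anti₀ h4 (hPpos t ht)
      have b4 : |P' t * (P t)⁻¹| ≤ 3 * T⁻¹ := by
        have h5 : |P' t| ≤ 3 / t * P t := by
          simp only [hP', hP]
          rw [abs_mul, abs_mul, abs_of_nonneg hΔ, abs_of_nonneg (by positivity : 0 ≤ Real.pi / 2)]
          have h6 := rh' (ht1 t ht)
          calc Real.pi / 2 * |16 * t * sg t ^ 3 * (3 - 4 * t ^ 2)| * Δ ≤
                Real.pi / 2 * (3 / t * rh t) * Δ := by gcongr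
            _ ≤ 3 / t * (4 * Real.pi * α + Real.pi / 2 * rh t * Δ) := by
                have : 0 ≤ 3 / t * (4 * Real.pi * α) := by positivity
                nlinarith
        rw [abs_mul, abs_of_pos (inv_pos.mpr hPp), ← div_eq_mul_inv, div_le_iff₀ hPp]
        refine h5.trans ?_
        have : 3 / t ≤ 3 * T⁻¹ := by
          rw [div_eq_mul_inv]
          gcongr
          exact ht.1
        gcongr
      have b5 : 0 < (P t)⁻¹ := inv_pos.mpr hPp
      calc |psi m S t * (4 * t * sg t * (-m + Real.pi * S * sg t)) * (P t)⁻¹ -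
          psi m S t * (P' t * (P t)⁻¹) * (P t)⁻¹|
          ≤ |psi m S t * (4 * t * sg t * (-m + Real.pi * S * sg t)) * (P t)⁻¹| +
            |psi m S t * (P' t * (P t)⁻¹) * (P t)⁻¹| := abs_sub _ _
        _ = |psi m S t * (4 * t * sg t * (-m + Real.pi * S * sg t))| * (P t)⁻¹ +
            psi m S t * |P' t * (P t)⁻¹| * (P t)⁻¹ := by
            rw [abs_mul _ (P t)⁻¹, abs_mul _ (P t)⁻¹, abs_mul (psi m S t) (P' t * (P t)⁻¹),
              abs_of_pos b5, abs_of_nonneg (psi_nonneg m S t)]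
        _ ≤ ((m + 1) * (T⁻¹) ^ m * T⁻¹) * (4 * Real.pi * α)⁻¹ +
            (T⁻¹) ^ m * (3 * T⁻¹) * (4 * Real.pi * α)⁻¹ := by
            gcongr
        _ = _ := by ring)
  have e2 : ∫ t in T..(2 * T), ((psi m S t : ℝ) : ℂ) *
      cexp (I * ((4 * Real.pi * α * t - Real.pi / 2 * ta t * Δ : ℝ) : ℂ)) =
      ∫ t in T..(2 * T), ((W t * P t : ℝ) : ℂ) *
      cexp (I * ((4 * Real.pi * α * t - Real.pi / 2 * ta t * Δ : ℝ) : ℂ)) := by
    apply intervalIntegral.integral_congr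
    intro t ht
    rw [uIcc_of_le hab] at ht
    simp only [hW]
    rw [div_mul_cancel₀ _ (hPne t ht)]
  rw [e2]
  refine h.trans ?_
  have h7 : (4 * Real.pi * α)⁻¹ ≤ α⁻¹ := by
    apply inv_anti₀ hα
    nlinarith
  have hm : (0 : ℝ) ≤ m := Nat.cast_nonneg m
  calc 2 * ((T⁻¹) ^ m * (4 * Real.pi * α)⁻¹) + (m + 4) * (T⁻¹) ^ m * T⁻¹ * (4 * Real.pi * α)⁻¹ * (2 * T - T)
      = (m + 6) * (T⁻¹) ^ m * (4 * Real.pi * α)⁻¹ := by
        field_simp
        ring
    _ ≤ _ := by gcongr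

/-- the oscillatory integral -/
lemma osc_int (m : ℕ) (T α S Δ : ℝ) (hT : 1 ≤ T) (hα : α ≠ 0) (hS : 0 ≤ S) (hΔ : 0 ≤ α * Δ) :
    ‖∫ t in T..(2 * T), ((psi m S t : ℝ) : ℂ) *
      cexp (I * ((4 * Real.pi * α * t - Real.pi / 2 * ta t * Δ : ℝ) : ℂ))‖ ≤
      (m + 6) * (T⁻¹) ^ m * min T |α|⁻¹ := by
  have hT0 : 0 < T := by linarith
  have hm : (0 : ℝ) ≤ m := Nat.cast_nonneg m
  have triv : ‖∫ t in T..(2 * T), ((psi m S t : ℝ) : ℂ) *
      cexp (I * ((4 * Real.pi * α * t - Real.pi / 2 * ta t * Δ : ℝ) : ℂ))‖ ≤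
      (m + 6) * (T⁻¹) ^ m * T := by
    have h1 : ‖∫ t in T..(2 * T), ((psi m S t : ℝ) : ℂ) *
        cexp (I * ((4 * Real.pi * α * t - Real.pi / 2 * ta t * Δ : ℝ) : ℂ))‖ ≤
        (T⁻¹) ^ m * |2 * T - T| := by
      apply intervalIntegral.norm_integral_le_of_norm_le_const
      intro t ht
      rw [uIoc_of_le (by linarith)] at ht
      rw [norm_mul, mul_comm I, Complex.norm_exp_ofReal_mul_I, mul_one, Complex.norm_real,
        Real.norm_of_nonneg (psi_nonneg m S t)]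
      exact psi_le hS hT ht.1.le
    have e : |2 * T - T| = T := by
      rw [show 2 * T - T = T by ring, abs_of_pos hT0]
    rw [e] at h1
    refine h1.trans ?_
    have : 0 ≤ (T⁻¹) ^ m * T := by positivity
    nlinarith
  have main : ‖∫ t in T..(2 * T), ((psi m S t : ℝ) : ℂ) *
      cexp (I * ((4 * Real.pi * α * t - Real.pi / 2 * ta t * Δ : ℝ) : ℂ))‖ ≤
      (m + 6) * (T⁻¹) ^ m * |α|⁻¹ := by
    rcases lt_or_gt_of_ne hα with h | h
    · have h1 := osc_pos m T (-α) S (-Δ) hT (by linarith) hS (by nlinarith)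
      have h2 : ∫ t in T..(2 * T), ((psi m S t : ℝ) : ℂ) *
          cexp (I * ((4 * Real.pi * α * t - Real.pi / 2 * ta t * Δ : ℝ) : ℂ)) =
          (starRingEnd ℂ) (∫ t in T..(2 * T), ((psi m S t : ℝ) : ℂ) *
          cexp (I * ((4 * Real.pi * (-α) * t - Real.pi / 2 * ta t * (-Δ) : ℝ) : ℂ))) := by
        rw [intervalIntegral.integral_of_le (by linarith), intervalIntegral.integral_of_le (by linarith),
          ← integral_conj]
        congr 1
        ext t
        rw [map_mul, Complex.conj_ofReal, ← Complex.exp_conj, map_mul, Complex.conj_I,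
          Complex.conj_ofReal]
        congr 2
        push_cast
        ring
      rw [h2, RCLike.norm_conj, abs_of_neg h]
      exact h1
    · rw [abs_of_pos h]
      exact osc_pos m T α S Δ hT h hS (by
        by_contra hc
        push Not at hc
        nlinarith)
  rcases le_total T |α|⁻¹ with h | h
  · rw [min_eq_left h]
    exact triv
  · rw [min_eq_right h]
    exact main

/-- interpolated form -/
lemma osc_int' (m : ℕ) (T α S Δ ε : ℝ) (hT : 1 ≤ T) (hα : α ≠ 0) (hS : 0 ≤ S) (hΔ : 0 ≤ α * Δ)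
    (hε : 0 ≤ ε) (hε1 : ε ≤ 1) :
    ‖∫ t in T..(2 * T), ((psi m S t : ℝ) : ℂ) *
      cexp (I * ((4 * Real.pi * α * t - Real.pi / 2 * ta t * Δ : ℝ) : ℂ))‖ ≤
      (m + 6) * (T ^ (-(m : ℝ) + ε)) * |α| ^ (-(1 - ε)) := by
  have hT0 : 0 < T := by linarith
  have ha : 0 < |α| := abs_pos.mpr hα
  refine (osc_int m T α S Δ hT hα hS hΔ).trans ?_
  have h1 : min T |α|⁻¹ ≤ T ^ ε * (|α|⁻¹) ^ (1 - ε) := by
    have h0 : 0 < min T |α|⁻¹ := lt_min hT0 (inv_pos.mpr ha)
    calc min T |α|⁻¹ = (min T |α|⁻¹) ^ ε * (min T |α|⁻¹) ^ (1 - ε) := by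
          rw [← Real.rpow_add h0]
          simp
      _ ≤ _ := by
          apply mul_le_mul
          · exact Real.rpow_le_rpow h0.le (min_le_left _ _) hε
          · exact Real.rpow_le_rpow h0.le (min_le_right _ _) (by linarith)
          · positivity
          · positivity
  have hm : (0 : ℝ) ≤ m := Nat.cast_nonneg m
  calc (m + 6) * (T⁻¹) ^ m * min T |α|⁻¹ ≤ (m + 6) * (T⁻¹) ^ m * (T ^ ε * (|α|⁻¹) ^ (1 - ε)) := by gcongr
    _ = _ := by
        rw [Real.rpow_add hT0, Real.rpow_neg hT0.le, Real.rpow_natCast, Real.inv_rpow ha.le,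
          ← Real.rpow_neg ha.le, inv_pow]
        ring

end Pool.Agent.W771.NN
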