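import Mathlib
import Pool.Agent.W771.NB
import Pool.Agent.H153R4.Pl
import Pool.Agent.H728R3.SR.D
set_option autoImplicit false

/-! Plancherel in the rough variable: the `L⁴` identity, and expansion of squares. -/

namespace Pool.Agent.W771.NN
open MeasureTheory Set Complex FourierTransform
open scoped ENNReal NNReal ComplexConjugate

/-- `exp(2πi s)` -/
noncomputable def ee (s : ℝ) : ℂ := cexp (2 * Real.pi * I * (s : ℂ))

lemma ee_norm (s : ℝ) : ‖ee s‖ = 1 := by
  unfold ee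
  have : (2 * Real.pi * I * (s : ℂ)) = ((2 * Real.pi * s : ℝ) : ℂ) * I := by
    push_cast
    ring
  rw [this, Complex.norm_exp_ofReal_mul_I]

lemma ee_enorm (s : ℝ) : ‖ee s‖ₑ = 1 := by
  rw [← ofReal_norm, ee_norm, ENNReal.ofReal_one]

lemma ee_add (s t : ℝ) : ee (s + t) = ee s * ee t := by
  unfold ee
  rw [← Complex.exp_add]
  congr 1
  push_cast
  ring

lemma ee_conj (s : ℝ) : (starRingEnd ℂ) (ee s) = ee (-s) := by
  unfold ee
  rw [← Complex.exp_conj]
  congr 1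
  have : (2 * Real.pi * I * (s : ℂ)) = ((2 * Real.pi * s : ℝ) : ℂ) * I := by
    push_cast
    ring
  rw [this, map_mul, Complex.conj_ofReal, Complex.conj_I]
  push_cast
  ring

lemma ee_zero : ee 0 = 1 := by simp [ee]

lemma ee_cont : Continuous ee := by
  unfold ee
  fun_prop

lemma ee_meas : Measurable ee := ee_cont.measurable

lemma planch1 (g : ℝ → ℂ) (h1 : Integrable g) (h2 : MemLp g 2) :
    ∫⁻ x : ℝ, ‖∫ u, g u * ee (x * u)‖ₑ ^ 2 = ∫⁻ u, ‖g u‖ₑ ^ 2 := by
  have h3 := Pool.Agent.H153R4.plancherel g h1 h2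
  have e2 : ∀ ξ : ℝ, 𝓕 g ξ = ∫ u, g u * ee ((-ξ) * u) := by
    intro ξ
    rw [Real.fourier_eq' g ξ]
    congr 1
    ext u
    rw [smul_eq_mul, mul_comm]
    congr 1
    unfold ee
    congr 1
    simp
    ring
  rw [← h3]
  simp only [e2]
  have h5 := (Measure.measurePreserving_neg (volume : Measure ℝ)).lintegral_comp_emb
    (MeasurableEquiv.neg ℝ).measurableEmbedding (fun x : ℝ => ‖∫ u, g u * ee (x * u)‖ₑ ^ 2)
  exact h5.symm

/-- autocorrelation -/
noncomputable def cor (B : ℝ → ℂ) (h : ℝ) : ℂ := ∫ u, B (u + h) * (starRingEnd ℂ) (B u)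

/-- bounded functions supported in `[-1,1]` -/
structure Bd (M : ℝ) (B : ℝ → ℂ) : Prop where
  meas : Measurable B
  bd : ∀ u, ‖B u‖ ≤ M
  z : ∀ u, u ∉ Icc (-1 : ℝ) 1 → B u = 0

lemma Bd.nonneg {M : ℝ} {B : ℝ → ℂ} (h : Bd M B) : 0 ≤ M := (norm_nonneg _).trans (h.bd 0)

lemma Bd.int {M : ℝ} {B : ℝ → ℂ} (h : Bd M B) : Integrable B := by
  have h1 : IntegrableOn B (Icc (-1 : ℝ) 1) := by
    apply Measure.integrableOn_of_bounded (M := M)
    · simp
    · exact h.meas.aestronglyMeasurable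
    · exact ae_of_all _ h.bd
  rw [← integrable_indicator_iff measurableSet_Icc] at h1
  have e : (Icc (-1 : ℝ) 1).indicator B = B := by
    apply Set.indicator_eq_self.mpr
    intro u hu
    by_contra hc
    exact hu (h.z u hc)
  rwa [e] at h1

lemma Bd.memLp {M : ℝ} {B : ℝ → ℂ} (h : Bd M B) : MemLp B 2 := by
  have hi := h.int
  refine MemLp.mono_exponent_of_measure_support_ne_top (p := 2) (q := ⊤) (s := Icc (-1) 1) ?_ ?_ ?_ le_top
  · exact memLp_top_of_bound h.meas.aestronglyMeasurable M (ae_of_all _ h.bd)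
  · intro u hu
    exact h.z u hu
  · simp

lemma cor_meas {M : ℝ} {B : ℝ → ℂ} (h : Bd M B) : Measurable (cor B) := by
  unfold cor
  apply StronglyMeasurable.measurable
  apply StronglyMeasurable.integral_prod_right' (f := fun w : ℝ × ℝ => B (w.2 + w.1) *
    (starRingEnd ℂ) (B w.2))
  apply Measurable.stronglyMeasurable
  have h1 : Measurable (fun w : ℝ × ℝ => B (w.2 + w.1)) :=
    h.meas.comp (measurable_snd.add measurable_fst)
  have h2 : Measurable (fun w : ℝ × ℝ => (starRingEnd ℂ) (B w.2)) :=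
    Complex.continuous_conj.measurable.comp (h.meas.comp measurable_snd)
  exact h1.mul h2

lemma cor_bd {M : ℝ} {B : ℝ → ℂ} (h : Bd M B) (x : ℝ) : ‖cor B x‖ ≤ M * (M * 2) := by
  unfold cor
  have hM := h.nonneg
  have h1 : ∀ u, ‖B (u + x) * (starRingEnd ℂ) (B u)‖ ≤ M * ‖B u‖ := by
    intro u
    rw [norm_mul, RCLike.norm_conj]
    exact mul_le_mul_of_nonneg_right (h.bd _) (norm_nonneg _)
  refine (norm_integral_le_of_norm_le (h.int.norm.const_mul M) (ae_of_all _ h1)).trans ?_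
  rw [integral_const_mul]
  apply mul_le_mul_of_nonneg_left _ hM
  have h2 : ∀ u, ‖B u‖ ≤ (Icc (-1 : ℝ) 1).indicator (fun _ => M) u := by
    intro u
    by_cases hu : u ∈ Icc (-1 : ℝ) 1
    · rw [indicator_of_mem hu]
      exact h.bd u
    · rw [indicator_of_notMem hu, h.z u hu, norm_zero]
  calc ∫ u, ‖B u‖ ≤ ∫ u, (Icc (-1 : ℝ) 1).indicator (fun _ => M) u := by
        apply integral_mono h.int.norm _ h2
        rw [integrable_indicator_iff measurableSet_Icc]
        exact integrableOn_const (by simp)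
    _ = M * 2 := by
        rw [integral_indicator measurableSet_Icc, setIntegral_const]
        simp [Measure.real, Real.volume_Icc]
        norm_num
        ring

lemma cor_zero {M : ℝ} {B : ℝ → ℂ} (h : Bd M B) (x : ℝ) (hx : x ∉ Icc (-2 : ℝ) 2) : cor B x = 0 := by
  unfold cor
  have : ∀ u, B (u + x) * (starRingEnd ℂ) (B u) = 0 := by
    intro u
    by_cases hu : u ∈ Icc (-1 : ℝ) 1
    · rw [h.z (u + x), zero_mul]
      intro hc
      apply hx
      constructor
      · linarith [hc.1, hu.2]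
      · linarith [hc.2, hu.1]
    · rw [h.z u hu, map_zero, mul_zero]
  simp [this]

lemma cor_int {M : ℝ} {B : ℝ → ℂ} (h : Bd M B) : Integrable (cor B) := by
  have h1 : IntegrableOn (cor B) (Icc (-2 : ℝ) 2) := by
    apply Measure.integrableOn_of_bounded (M := M * (M * 2))
    · simp
    · exact (cor_meas h).aestronglyMeasurable
    · exact ae_of_all _ (cor_bd h)
  rw [← integrable_indicator_iff measurableSet_Icc] at h1
  have e : (Icc (-2 : ℝ) 2).indicator (cor B) = cor B := by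
    apply Set.indicator_eq_self.mpr
    intro u hu
    by_contra hc
    exact hu (cor_zero h u hc)
  rwa [e] at h1

lemma cor_memLp {M : ℝ} {B : ℝ → ℂ} (h : Bd M B) : MemLp (cor B) 2 := by
  refine MemLp.mono_exponent_of_measure_support_ne_top (p := 2) (q := ⊤) (s := Icc (-2) 2) ?_ ?_ ?_ le_top
  · exact memLp_top_of_bound (cor_meas h).aestronglyMeasurable _ (ae_of_all _ (cor_bd h))
  · intro u hu
    exact cor_zero h u hu
  · simp

/-- Fourier transform of the autocorrelation -/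
lemma cor_ft {M : ℝ} {B : ℝ → ℂ} (h : Bd M B) (x : ℝ) :
    ∫ y, cor B y * ee (x * y) = (∫ u, B u * ee (x * u)) * (starRingEnd ℂ) (∫ u, B u * ee (x * u)) := by
  have hint : Integrable (fun w : ℝ × ℝ => B (w.2 + w.1) * (starRingEnd ℂ) (B w.2) * ee (x * w.1))
      (volume.prod volume) := by
    have h2 : Measurable (fun w : ℝ × ℝ => B (w.2 + w.1) * (starRingEnd ℂ) (B w.2) * ee (x * w.1)) := by
      have a1 : Measurable (fun w : ℝ × ℝ => B (w.2 + w.1)) :=
        h.meas.comp (measurable_snd.add measurable_fst)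
      have a2 : Measurable (fun w : ℝ × ℝ => (starRingEnd ℂ) (B w.2)) :=
        Complex.continuous_conj.measurable.comp (h.meas.comp measurable_snd)
      have a3 : Measurable (fun w : ℝ × ℝ => ee (x * w.1)) :=
        ee_meas.comp (measurable_const.mul measurable_fst)
      exact (a1.mul a2).mul a3
    refine ⟨h2.aestronglyMeasurable, ?_⟩
    unfold HasFiniteIntegral
    rw [lintegral_prod_symm' _ h2.enorm]
    have e1 : ∀ u : ℝ, ∫⁻ y : ℝ, ‖B (u + y) * (starRingEnd ℂ) (B u) * ee (x * y)‖ₑ =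
        (∫⁻ w, ‖B w‖ₑ) * ‖B u‖ₑ := by
      intro u
      simp only [enorm_mul, ee_enorm, mul_one]
      have hm : Measurable (fun y : ℝ => ‖B (u + y)‖ₑ) := by
        have h3 : Measurable (fun y : ℝ => u + y) := measurable_const.add measurable_id
        have h4 := h.meas.comp h3
        exact h4.enorm
      rw [lintegral_mul_const _ hm, lintegral_add_left_eq_self (fun w => ‖B w‖ₑ) u]
      congr 1
      rw [← ofReal_norm, RCLike.norm_conj, ofReal_norm]
    simp only [e1]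
    rw [lintegral_const_mul _ h.meas.enorm]
    exact ENNReal.mul_lt_top h.int.2 h.int.2
  unfold cor
  have e0 : ∀ y, (∫ u, B (u + y) * (starRingEnd ℂ) (B u)) * ee (x * y) =
      ∫ u, B (u + y) * (starRingEnd ℂ) (B u) * ee (x * y) := by
    intro y
    rw [integral_mul_const]
  simp only [e0]
  rw [integral_integral_swap hint]
  have e1 : ∀ u : ℝ, ∫ y, B (u + y) * (starRingEnd ℂ) (B u) * ee (x * y) =
      (∫ w, B w * ee (x * w)) * ((starRingEnd ℂ) (B u * ee (x * u))) := by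
    intro u
    have e2 : ∀ y, B (u + y) * (starRingEnd ℂ) (B u) * ee (x * y) =
        (B (u + y) * ee (x * (u + y))) * ((starRingEnd ℂ) (B u * ee (x * u))) := by
      intro y
      rw [map_mul, ee_conj, mul_add, ee_add]
      have : ee (x * u) * ee (-(x * u)) = 1 := by
        rw [← ee_add, add_neg_cancel, ee_zero]
      linear_combination (-(B (u + y) * ee (x * y) * (starRingEnd ℂ) (B u))) * this
    simp only [e2]
    rw [integral_mul_const, integral_add_left_eq_self (fun w => B w * ee (x * w)) u]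
  simp only [e1]
  rw [integral_const_mul, integral_conj]

/-- the `L⁴` identity -/
lemma L4_id {M : ℝ} {B : ℝ → ℂ} (h : Bd M B) :
    ∫⁻ x : ℝ, ‖∫ u, B u * ee (x * u)‖ₑ ^ 4 = ∫⁻ y, ‖cor B y‖ₑ ^ 2 := by
  rw [← planch1 (cor B) (cor_int h) (cor_memLp h)]
  congr 1
  ext x
  rw [cor_ft h x, enorm_mul]
  have : ‖(starRingEnd ℂ) (∫ u, B u * ee (x * u))‖ₑ = ‖∫ u, B u * ee (x * u)‖ₑ := by
    rw [← ofReal_norm, RCLike.norm_conj, ofReal_norm]
  rw [this]
  ring

/-- the `L²` identity -/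
lemma L2_id {M : ℝ} {B : ℝ → ℂ} (h : Bd M B) :
    ∫⁻ x : ℝ, ‖∫ u, B u * ee (x * u)‖ₑ ^ 2 = ∫⁻ u, ‖B u‖ₑ ^ 2 :=
  planch1 B h.int h.memLp

/-- expansion of a square -/
lemma expand {X U : Type*} [MeasurableSpace X] [MeasurableSpace U] (μ : Measure X) (ν : Measure U)
    [SFinite μ] [SFinite ν] (J : X → U → ℂ)
    (hi : Integrable (fun w : X × (U × U) => J w.1 w.2.1 * (starRingEnd ℂ) (J w.1 w.2.2))
      (μ.prod (ν.prod ν))) :
    ∫⁻ x, ‖∫ u, J x u ∂ν‖ₑ ^ 2 ∂μ ≤
      ∫⁻ w : U × U, ‖∫ x, J x w.1 * (starRingEnd ℂ) (J x w.2) ∂μ‖ₑ ∂(ν.prod ν) := by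
  have e1 : ∀ x, ∫ w : U × U, J x w.1 * (starRingEnd ℂ) (J x w.2) ∂(ν.prod ν) =
      ((‖∫ u, J x u ∂ν‖ ^ 2 : ℝ) : ℂ) := by
    intro x
    rw [integral_prod_mul (fun u => J x u) (fun u => (starRingEnd ℂ) (J x u)), integral_conj,
      Complex.mul_conj, Complex.normSq_eq_norm_sq]
  have h1 : Integrable (fun x => ∫ w : U × U, J x w.1 * (starRingEnd ℂ) (J x w.2) ∂(ν.prod ν)) μ :=
    hi.integral_prod_left
  simp only [e1] at h1
  have h2 : Integrable (fun x => ‖∫ u, J x u ∂ν‖ ^ 2) μ := by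
    simpa using h1.norm
  have e2 : ∫⁻ x, ‖∫ u, J x u ∂ν‖ₑ ^ 2 ∂μ = ENNReal.ofReal (∫ x, ‖∫ u, J x u ∂ν‖ ^ 2 ∂μ) := by
    rw [ofReal_integral_eq_lintegral_ofReal h2 (ae_of_all _ fun x => by positivity)]
    congr 1
    ext x
    rw [ENNReal.ofReal_pow (norm_nonneg _), ofReal_norm]
  rw [e2]
  have e3 : ((∫ x, ‖∫ u, J x u ∂ν‖ ^ 2 ∂μ : ℝ) : ℂ) =
      ∫ w : U × U, ∫ x, J x w.1 * (starRingEnd ℂ) (J x w.2) ∂μ ∂(ν.prod ν) := by
    rw [← integral_complex_ofReal, integral_integral_swap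
      (f := fun (w : U × U) (x : X) => J x w.1 * (starRingEnd ℂ) (J x w.2)) (by
        exact hi.swap)]
    congr 1
    ext x
    rw [e1]
  have h3 : ∫ x, ‖∫ u, J x u ∂ν‖ ^ 2 ∂μ ≤
      ‖∫ w : U × U, ∫ x, J x w.1 * (starRingEnd ℂ) (J x w.2) ∂μ ∂(ν.prod ν)‖ := by
    rw [← e3, Complex.norm_real]
    exact le_abs_self _
  calc ENNReal.ofReal (∫ x, ‖∫ u, J x u ∂ν‖ ^ 2 ∂μ) ≤
        ENNReal.ofReal ‖∫ w : U × U, ∫ x, J x w.1 * (starRingEnd ℂ) (J x w.2) ∂μ ∂(ν.prod ν)‖ :=
          ENNReal.ofReal_le_ofReal h3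
    _ = ‖∫ w : U × U, ∫ x, J x w.1 * (starRingEnd ℂ) (J x w.2) ∂μ ∂(ν.prod ν)‖ₑ := ofReal_norm _
    _ ≤ _ := enorm_integral_le_lintegral_enorm _

end Pool.Agent.W771.NN
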