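import Mathlib
import Pool.Agent.W771.NC
set_option autoImplicit false

/-! The singular kernel and the quadrilinear form. -/

namespace Pool.Agent.W771.NN
open MeasureTheory Set Complex
open scoped ENNReal NNReal

/-- the truncated singular kernel -/
noncomputable def kk (ε : ℝ) (x : ℝ) : ℝ≥0∞ :=
  (Icc (-2 : ℝ) 2).indicator (fun x => ENNReal.ofReal |x| ^ (-(1 - ε))) x

lemma kk_meas (ε : ℝ) : Measurable (kk ε) := by
  unfold kk
  apply Measurable.indicator _ measurableSet_Icc
  exact (ENNReal.measurable_ofReal.comp measurable_norm).pow_const _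

lemma kk_of {ε x : ℝ} (hx : |x| ≤ 2) : kk ε x = ENNReal.ofReal |x| ^ (-(1 - ε)) := by
  unfold kk
  rw [indicator_of_mem]
  rw [abs_le] at hx
  exact hx

lemma kk_zero {ε : ℝ} (hε : ε < 1) : kk ε 0 = ∞ := by
  rw [kk_of (by simp)]
  simp only [abs_zero, ENNReal.ofReal_zero]
  rw [ENNReal.zero_rpow_of_neg (by linarith)]

lemma kk_ne {ε x : ℝ} (hε : ε < 1) (hx : |x| ≤ 2) : kk ε x ≠ 0 := by
  rw [kk_of hx]
  rw [ENNReal.rpow_neg]
  apply ENNReal.inv_ne_zero.mpr
  apply ENNReal.rpow_ne_top_of_nonneg (by linarith) ENNReal.ofReal_ne_top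

lemma kk_int {ε : ℝ} (hε : 0 < ε) : ∫⁻ x, kk ε x ≠ ∞ := by
  have hi : IntegrableOn (fun x : ℝ => x ^ (-(1 - ε))) (Ioc 0 2) := by
    have h := intervalIntegral.intervalIntegrable_rpow' (r := -(1 - ε)) (a := 0) (b := 2) (by linarith)
    rwa [intervalIntegrable_iff_integrableOn_Ioc_of_le (by norm_num)] at h
  have h1 : ∫⁻ x in Ioc (0 : ℝ) 2, ENNReal.ofReal |x| ^ (-(1 - ε)) < ∞ := by
    have h2 := hi.2
    unfold HasFiniteIntegral at h2
    refine lt_of_eq_of_lt ?_ h2
    apply setLIntegral_congr_fun measurableSet_Ioc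
    intro x hx
    simp only
    rw [abs_of_pos hx.1, ENNReal.ofReal_rpow_of_pos hx.1, ← ofReal_norm, Real.norm_of_nonneg]
    exact Real.rpow_nonneg hx.1.le _
  have h3 : ∫⁻ x in Ico (-2 : ℝ) 0, ENNReal.ofReal |x| ^ (-(1 - ε)) =
      ∫⁻ x in Ioc (0 : ℝ) 2, ENNReal.ofReal |x| ^ (-(1 - ε)) := by
    rw [← lintegral_indicator measurableSet_Ioc, ← lintegral_indicator measurableSet_Ico]
    rw [← lintegral_neg_eq_self (fun x => (Ioc (0 : ℝ) 2).indicator
      (fun x => ENNReal.ofReal |x| ^ (-(1 - ε))) x) ]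
    congr 1
    ext x
    by_cases hx : x ∈ Ico (-2 : ℝ) 0
    · rw [indicator_of_mem hx, indicator_of_mem (show -x ∈ Ioc (0 : ℝ) 2 from
        ⟨by linarith [hx.2], by linarith [hx.1]⟩), abs_neg]
    · rw [indicator_of_notMem hx, indicator_of_notMem]
      intro hc
      exact hx ⟨by linarith [hc.2], by linarith [hc.1]⟩
  have h4 : ∫⁻ x, kk ε x ≤ (∫⁻ x in Ico (-2 : ℝ) 0, ENNReal.ofReal |x| ^ (-(1 - ε))) +
      ∫⁻ x in Ioc (0 : ℝ) 2, ENNReal.ofReal |x| ^ (-(1 - ε)) := by
    unfold kk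
    rw [lintegral_indicator measurableSet_Icc]
    have e : ∫⁻ x in Icc (-2 : ℝ) 2, ENNReal.ofReal |x| ^ (-(1 - ε)) =
        ∫⁻ x in Icc (-2 : ℝ) 2 \ {0}, ENNReal.ofReal |x| ^ (-(1 - ε)) := by
      apply setLIntegral_congr
      exact (sdiff_ae_eq_self.mpr (by
        apply measure_mono_null inter_subset_right
        simp)).symm
    rw [e]
    refine le_trans (lintegral_mono_set ?_) (lintegral_union_le _ _ _)
    intro x hx
    rcases lt_or_gt_of_ne (show x ≠ 0 from hx.2) with h | h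
    · left; exact ⟨hx.1.1, h⟩
    · right; exact ⟨h, hx.1.2⟩
  refine ne_top_of_le_ne_top ?_ h4
  rw [h3]
  exact (ENNReal.add_lt_top.mpr ⟨h1, h1⟩).ne

lemma mul_le_sq (x y : ℝ≥0∞) : x * y ≤ x ^ 2 + y ^ 2 := by
  rcases le_total x y with h | h
  · calc x * y ≤ y * y := mul_le_mul' h le_rfl
      _ = y ^ 2 := (sq y).symm
      _ ≤ _ := le_add_self
  · calc x * y ≤ x * x := mul_le_mul' le_rfl h
      _ = x ^ 2 := (sq x).symm
      _ ≤ _ := le_self_add

/-- the quadrilinear form -/
lemma quadform (k a : ℝ → ℝ≥0∞) (hk : Measurable k) (ha : Measurable a) :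
    ∫⁻ h, ∫⁻ u, ∫⁻ w, a (u + h) * a u * (a (w + h) * a w) * (k h * k (u - w)) ≤
      4 * (∫⁻ x, k x) ^ 2 * ∫⁻ u, a u ^ 4 := by
  set K := ∫⁻ x, k x with hK
  have hG : Measurable (fun z : ℝ × ℝ => a z.1 ^ 2 * a z.2 ^ 2 * k (z.1 - z.2)) := by
    have h1 : Measurable (fun z : ℝ × ℝ => k (z.1 - z.2)) :=
      hk.comp (measurable_fst.sub measurable_snd)
    have h2 : Measurable (fun z : ℝ × ℝ => a z.1 ^ 2) := (ha.comp measurable_fst).pow_const 2
    have h3 : Measurable (fun z : ℝ × ℝ => a z.2 ^ 2) := (ha.comp measurable_snd).pow_const 2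
    exact (h2.mul h3).mul h1
  set G : ℝ → ℝ≥0∞ := fun u => ∫⁻ w, a u ^ 2 * a w ^ 2 * k (u - w) with hGd
  have hGm : Measurable G := hG.lintegral_prod_right'
  -- the bound for `Q`
  have hQ : ∫⁻ u, G u ≤ 2 * K * ∫⁻ u, a u ^ 4 := by
    have h1 : ∀ u w, a u ^ 2 * a w ^ 2 * k (u - w) ≤ a u ^ 4 * k (u - w) + a w ^ 4 * k (u - w) := by
      intro u w
      rw [← add_mul]
      apply mul_le_mul' _ le_rfl
      refine (mul_le_sq _ _).trans (le_of_eq ?_)
      rw [← pow_mul, ← pow_mul]
    have mk1 : ∀ u : ℝ, Measurable (fun w => k (u - w)) := fun u =>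
      hk.comp (measurable_const.sub measurable_id)
    have m4 : Measurable (fun z : ℝ × ℝ => a z.2 ^ 4 * k (z.1 - z.2)) := by
      have h1 : Measurable (fun z : ℝ × ℝ => k (z.1 - z.2)) :=
        hk.comp (measurable_fst.sub measurable_snd)
      have h3 : Measurable (fun z : ℝ × ℝ => a z.2 ^ 4) := (ha.comp measurable_snd).pow_const 4
      exact h3.mul h1
    calc ∫⁻ u, G u ≤ ∫⁻ u, ((a u ^ 4 * K) + ∫⁻ w, a w ^ 4 * k (u - w)) := by
          apply lintegral_mono
          intro u
          simp only [hGd]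
          calc ∫⁻ w, a u ^ 2 * a w ^ 2 * k (u - w) ≤
                ∫⁻ w, (a u ^ 4 * k (u - w) + a w ^ 4 * k (u - w)) := lintegral_mono (h1 u)
            _ = (∫⁻ w, a u ^ 4 * k (u - w)) + ∫⁻ w, a w ^ 4 * k (u - w) :=
                lintegral_add_left ((mk1 u).const_mul _) _
            _ = a u ^ 4 * K + ∫⁻ w, a w ^ 4 * k (u - w) := by
                rw [lintegral_const_mul _ (mk1 u), lintegral_sub_left_eq_self k u]
      _ = (∫⁻ u, a u ^ 4 * K) + ∫⁻ u, ∫⁻ w, a w ^ 4 * k (u - w) :=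
          lintegral_add_left ((ha.pow_const 4).mul_const _) _
      _ = (∫⁻ u, a u ^ 4) * K + ∫⁻ w, ∫⁻ u, a w ^ 4 * k (u - w) := by
          rw [lintegral_mul_const _ (ha.pow_const 4), lintegral_lintegral_swap m4.aemeasurable]
      _ = (∫⁻ u, a u ^ 4) * K + ∫⁻ w, a w ^ 4 * K := by
          congr 2
          ext w
          have mk2 : Measurable (fun u => k (u - w)) := hk.comp (measurable_id.sub measurable_const)
          rw [lintegral_const_mul _ mk2, lintegral_sub_right_eq_self k w]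
      _ = _ := by
          rw [lintegral_mul_const _ (ha.pow_const 4)]
          ring
  have hb : ∀ h u w, a (u + h) * a u * (a (w + h) * a w) * (k h * k (u - w)) ≤
      k h * (a (u + h) ^ 2 * a (w + h) ^ 2 * k (u + h - (w + h)) + a u ^ 2 * a w ^ 2 * k (u - w)) := by
    intro h u w
    have e1 : u + h - (w + h) = u - w := by ring
    rw [e1, ← add_mul, ← mul_pow, ← mul_pow]
    have h2 := mul_le_sq (a (u + h) * a (w + h)) (a u * a w)
    calc a (u + h) * a u * (a (w + h) * a w) * (k h * k (u - w)) =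
          k h * ((a (u + h) * a (w + h) * (a u * a w)) * k (u - w)) := by ring
      _ ≤ _ := by gcongr
  have hin : ∀ h u, ∫⁻ w, a (u + h) * a u * (a (w + h) * a w) * (k h * k (u - w)) ≤
      k h * (G (u + h) + G u) := by
    intro h u
    have m1 : Measurable (fun w => a (u + h) ^ 2 * a w ^ 2 * k (u + h - w)) := by
      have := hG.comp (measurable_const.prodMk measurable_id : Measurable fun w : ℝ => (u + h, w))
      exact this
    have m1' : Measurable (fun w => a (u + h) ^ 2 * a (w + h) ^ 2 * k (u + h - (w + h))) := by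
      have := m1.comp (measurable_id.add measurable_const : Measurable fun w : ℝ => w + h)
      exact this
    have m2 : Measurable (fun w => a u ^ 2 * a w ^ 2 * k (u - w)) := by
      have := hG.comp (measurable_const.prodMk measurable_id : Measurable fun w : ℝ => (u, w))
      exact this
    have m12 : Measurable (fun w => a (u + h) ^ 2 * a (w + h) ^ 2 * k (u + h - (w + h)) +
          a u ^ 2 * a w ^ 2 * k (u - w)) := m1'.add m2
    calc _ ≤ ∫⁻ w, k h * (a (u + h) ^ 2 * a (w + h) ^ 2 * k (u + h - (w + h)) +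
          a u ^ 2 * a w ^ 2 * k (u - w)) := lintegral_mono (hb h u)
      _ = k h * ((∫⁻ w, a (u + h) ^ 2 * a (w + h) ^ 2 * k (u + h - (w + h))) +
          ∫⁻ w, a u ^ 2 * a w ^ 2 * k (u - w)) := by
          rw [lintegral_const_mul _ m12, lintegral_add_left m1']
      _ = _ := by
          rw [lintegral_add_right_eq_self (fun w => a (u + h) ^ 2 * a w ^ 2 * k (u + h - w)) h]
  calc _ ≤ ∫⁻ h, ∫⁻ u, k h * (G (u + h) + G u) := by
        apply lintegral_mono
        intro h
        apply lintegral_mono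
        intro u
        exact hin h u
    _ = ∫⁻ h, k h * (2 * ∫⁻ u, G u) := by
        congr 1
        ext h
        have mg : Measurable (fun u => G (u + h)) := hGm.comp (measurable_id.add measurable_const)
        have mg2 : Measurable (fun u => G (u + h) + G u) := mg.add hGm
        rw [lintegral_const_mul _ mg2, lintegral_add_left mg,
          lintegral_add_right_eq_self G h, two_mul]
    _ = K * (2 * ∫⁻ u, G u) := lintegral_mul_const _ hk
    _ ≤ K * (2 * (2 * K * ∫⁻ u, a u ^ 4)) := by gcongr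
    _ = _ := by ring

end Pool.Agent.W771.NN
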