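import Mathlib
import Pool.Agent.W771.ND
set_option autoImplicit false

/-! The `L⁴` bound on time slabs for one twist. -/

namespace Pool.Agent.W771.NN
open MeasureTheory Set Complex
open scoped ENNReal NNReal

variable {m : ℕ}

lemma zz_cont : Continuous zz := by
  unfold zz
  apply Continuous.inv₀ (by fun_prop) den_ne

lemma gk_meas : Measurable (fun w : ℝ × ℝ => gk w.1 w.2) := by
  unfold gk
  have h1 : Measurable (fun w : ℝ × ℝ => zz w.1 ^ (1 / 2 : ℂ)) :=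
    (zz_cont.measurable.comp measurable_fst).pow_const _
  have h2 : Continuous (fun w : ℝ × ℝ => cexp (-Real.pi * zz w.1 * w.2 ^ 2)) := by
    have := zz_cont
    fun_prop
  exact h1.mul h2.measurable

lemma gk_meas' {X : Type*} [MeasurableSpace X] {f g : X → ℝ} (hf : Measurable f) (hg : Measurable g) :
    Measurable (fun x => gk (f x) (g x)) := by
  have := gk_meas.comp (hf.prodMk hg)
  exact this

lemma zsq_norm2 (t : ℝ) : ‖zz t ^ (1 / 2 : ℂ)‖ ^ 2 = √(sg t) := by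
  have h := zsq_norm4 t
  rw [← h, show ‖zz t ^ (1 / 2 : ℂ)‖ ^ 4 = (‖zz t ^ (1 / 2 : ℂ)‖ ^ 2) ^ 2 by ring,
    Real.sqrt_sq (by positivity)]

lemma gk_sq (t : ℝ) : ∫⁻ y, ‖gk t y‖ₑ ^ 2 ≤ 1 := by
  have hs := sg_pos t
  have hpi := Real.pi_pos
  have e1 : ∀ y, ‖gk t y‖ₑ ^ 2 = ENNReal.ofReal (√(sg t) * Real.exp (-(2 * Real.pi * sg t) * y ^ 2)) := by
    intro y
    rw [← ofReal_norm, ← ENNReal.ofReal_pow (norm_nonneg _), gk_norm, mul_pow, zsq_norm2,
      ← Real.exp_nat_mul]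
    congr 3
    push_cast
    ring
  simp only [e1]
  have hi : Integrable (fun y : ℝ => √(sg t) * Real.exp (-(2 * Real.pi * sg t) * y ^ 2)) :=
    (integrable_exp_neg_mul_sq (by positivity)).const_mul _
  rw [← ofReal_integral_eq_lintegral_ofReal hi (ae_of_all _ fun y => by positivity),
    integral_const_mul, integral_gaussian, ← Real.sqrt_mul hs.le]
  rw [show sg t * (Real.pi / (2 * Real.pi * sg t)) = 1 / 2 by field_simp]
  rw [ENNReal.ofReal_le_one, Real.sqrt_le_left (by norm_num)]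
  norm_num

lemma gk_sq' (t p : ℝ) : ∫⁻ y, ‖gk t (y + p)‖ₑ ^ 2 ≤ 1 := by
  rw [lintegral_add_right_eq_self (fun y => ‖gk t y‖ₑ ^ 2) p]
  exact gk_sq t

lemma gk_ele (t y : ℝ) : ‖gk t y‖ₑ ≤ 1 := by
  rw [← ofReal_norm, ENNReal.ofReal_le_one]
  exact gk_le t y

lemma gk4 (t p q r s : ℝ) : ∫⁻ y, ‖gk t (y + p)‖ₑ * ‖gk t (y + q)‖ₑ * (‖gk t (y + r)‖ₑ * ‖gk t (y + s)‖ₑ) ≤
    2 := by
  have hm : ∀ p, Measurable (fun y => ‖gk t (y + p)‖ₑ ^ 2) := fun p =>
    (gk_meas' measurable_const (measurable_id.add_const p)).enorm.pow_const 2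
  calc _ ≤ ∫⁻ y, (‖gk t (y + p)‖ₑ ^ 2 + ‖gk t (y + s)‖ₑ ^ 2) := by
        apply lintegral_mono
        intro y
        simp only
        calc ‖gk t (y + p)‖ₑ * ‖gk t (y + q)‖ₑ * (‖gk t (y + r)‖ₑ * ‖gk t (y + s)‖ₑ) ≤
              ‖gk t (y + p)‖ₑ * 1 * (1 * ‖gk t (y + s)‖ₑ) := by
              gcongr
              · exact gk_ele _ _
              · exact gk_ele _ _
          _ = ‖gk t (y + p)‖ₑ * ‖gk t (y + s)‖ₑ := by ring
          _ ≤ _ := mul_le_sq _ _
    _ = (∫⁻ y, ‖gk t (y + p)‖ₑ ^ 2) + ∫⁻ y, ‖gk t (y + s)‖ₑ ^ 2 := lintegral_add_left (hm p) _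
    _ ≤ 1 + 1 := add_le_add (gk_sq' t p) (gk_sq' t s)
    _ = 2 := by norm_num

/-- increasing chords -/
def Ch (lam : ℝ → Fin m → ℝ) : Prop := ∀ a b c d : ℝ, a ∈ Icc (-1 : ℝ) 1 → d ∈ Icc (-1 : ℝ) 1 →
  a ≤ b → a ≤ c → b ≤ d → c ≤ d → a + d = b + c →
  ∑ j, (lam b j - lam c j) ^ 2 ≤ ∑ j, (lam d j - lam a j) ^ 2

lemma Ch.shift {lam : ℝ → Fin m → ℝ} (h : Ch lam) (η : Fin m → ℝ) : Ch (fun u j => lam u j + η j) := by
  intro a b c d h1 h2 h3 h4 h5 h6 h7
  have := h a b c d h1 h2 h3 h4 h5 h6 h7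
  simpa using this

lemma ch_sign {lam : ℝ → Fin m → ℝ} (hc : Ch lam) (h u w : ℝ) (h1 : u ∈ Icc (-1 : ℝ) 1)
    (h2 : u + h ∈ Icc (-1 : ℝ) 1) (h3 : w ∈ Icc (-1 : ℝ) 1) (h4 : w + h ∈ Icc (-1 : ℝ) 1) :
    0 ≤ (h * (u - w)) * ∑ j, ((lam (u + h) j - lam w j) ^ 2 - (lam u j - lam (w + h) j) ^ 2) := by
  rw [Finset.sum_sub_distrib]
  have sw : ∀ x y : ℝ, ∑ j, (lam x j - lam y j) ^ 2 = ∑ j, (lam y j - lam x j) ^ 2 := by
    intro x y
    apply Finset.sum_congr rfl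
    intro j _
    ring
  rcases le_total 0 h with hh | hh <;> rcases le_total w u with hu | hu
  · apply mul_nonneg (mul_nonneg hh (by linarith))
    have := hc w u (w + h) (u + h) h3 h2 hu (by linarith) (by linarith) (by linarith) (by ring)
    linarith
  · apply mul_nonneg_of_nonpos_of_nonpos (mul_nonpos_of_nonneg_of_nonpos hh (by linarith))
    have := hc u (u + h) w (w + h) h1 h4 (by linarith) hu (by linarith) (by linarith) (by ring)
    rw [sw (w + h) u] at this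
    linarith
  · apply mul_nonneg_of_nonpos_of_nonpos (mul_nonpos_of_nonpos_of_nonneg hh (by linarith))
    have := hc (w + h) (u + h) w u h4 h1 (by linarith) (by linarith) (by linarith) hu (by ring)
    linarith
  · apply mul_nonneg (mul_nonneg_of_nonpos_of_nonpos hh (by linarith))
    have := hc (u + h) u (w + h) w h2 h3 (by linarith) (by linarith) hu (by linarith) (by ring)
    rw [sw w (u + h)] at this
    linarith

/-- one twist -/
noncomputable def FF (A : ℝ → ℂ) (lam : ℝ → Fin m → ℝ) (x : ℝ) (y : Fin m → ℝ) (t : ℝ) : ℂ :=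
  ∫ u, (A u * ee (t * u ^ 2) * ∏ j, gk t (y j + lam u j)) * ee (x * u)

/-- the density of one twist -/
noncomputable def BB (A : ℝ → ℂ) (lam : ℝ → Fin m → ℝ) (y : Fin m → ℝ) (t u : ℝ) : ℂ :=
  A u * ee (t * u ^ 2) * ∏ j, gk t (y j + lam u j)

lemma lamj {X : Type*} [MeasurableSpace X] {lam : ℝ → Fin m → ℝ} (hl : Measurable lam) {f : X → ℝ}
    (hf : Measurable f) (j : Fin m) : Measurable (fun x => lam (f x) j) := by
  have h1 := (measurable_pi_iff.mp hl j).comp hf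
  exact h1

lemma BB_bd {A : ℝ → ℂ} {M : ℝ} (hA : Bd M A) {lam : ℝ → Fin m → ℝ} (hl : Measurable lam)
    (y : Fin m → ℝ) (t : ℝ) : Bd M (BB A lam y t) := by
  refine ⟨?_, ?_, ?_⟩
  · unfold BB
    apply Measurable.mul
    · apply hA.meas.mul
      exact ee_meas.comp (measurable_const.mul (measurable_id.pow_const 2))
    · apply Finset.measurable_prod
      intro j _
      exact gk_meas' measurable_const ((lamj hl measurable_id j).const_add _)
  · intro u
    unfold BB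
    rw [norm_mul, norm_mul, ee_norm, mul_one, norm_prod]
    have h1 : ∏ j, ‖gk t (y j + lam u j)‖ ≤ 1 :=
      Finset.prod_le_one (fun _ _ => norm_nonneg _) (fun _ _ => gk_le _ _)
    calc ‖A u‖ * ∏ j, ‖gk t (y j + lam u j)‖ ≤ M * 1 :=
          mul_le_mul (hA.bd u) h1 (Finset.prod_nonneg fun _ _ => norm_nonneg _) hA.nonneg
      _ = M := mul_one M
  · intro u hu
    unfold BB
    rw [hA.z u hu, zero_mul, zero_mul]

/-- the integrand after Plancherel -/
noncomputable def Jf (A : ℝ → ℂ) (lam : ℝ → Fin m → ℝ) (h : ℝ) (z : ℝ × (Fin m → ℝ)) (u : ℝ) : ℂ :=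
  A (u + h) * (starRingEnd ℂ) (A u) * ee (2 * z.1 * h * u) *
    ∏ j, (gk z.1 (z.2 j + lam (u + h) j) * (starRingEnd ℂ) (gk z.1 (z.2 j + lam u j)))

lemma cor_BB (A : ℝ → ℂ) (lam : ℝ → Fin m → ℝ) (h : ℝ) (y : Fin m → ℝ) (t : ℝ) :
    cor (BB A lam y t) h = ee (t * h ^ 2) * ∫ u, Jf A lam h (t, y) u := by
  unfold cor
  rw [← integral_const_mul]
  congr 1
  ext u
  unfold BB Jf
  simp only [map_mul, map_prod, ee_conj, Finset.prod_mul_distrib]
  have e1 : ee (t * (u + h) ^ 2) * ee (-(t * u ^ 2)) = ee (t * h ^ 2) * ee (2 * t * h * u) := by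
    rw [← ee_add, ← ee_add]
    congr 1
    ring
  linear_combination (A (u + h) * (starRingEnd ℂ) (A u) * (∏ j, gk t (y j + lam (u + h) j)) *
    (∏ j, (starRingEnd ℂ) (gk t (y j + lam u j)))) * e1

lemma Jf_enorm (A : ℝ → ℂ) (lam : ℝ → Fin m → ℝ) (h : ℝ) (z : ℝ × (Fin m → ℝ)) (u : ℝ) :
    ‖Jf A lam h z u‖ₑ = ‖A (u + h)‖ₑ * ‖A u‖ₑ *
      ∏ j, (‖gk z.1 (z.2 j + lam (u + h) j)‖ₑ * ‖gk z.1 (z.2 j + lam u j)‖ₑ) := by
  have hc : ∀ c : ℂ, ‖(starRingEnd ℂ) c‖ₑ = ‖c‖ₑ := by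
    intro c
    rw [← ofReal_norm, RCLike.norm_conj, ofReal_norm]
  unfold Jf
  rw [enorm_mul, enorm_mul, enorm_mul, ee_enorm, mul_one, hc]
  congr 1
  rw [← ofReal_norm, norm_prod, ENNReal.ofReal_prod_of_nonneg (fun _ _ => norm_nonneg _)]
  apply Finset.prod_congr rfl
  intro j _
  rw [ofReal_norm, enorm_mul, hc]

lemma Jf_meas {A : ℝ → ℂ} (hA : Measurable A) {lam : ℝ → Fin m → ℝ} (hl : Measurable lam) :
    Measurable (fun w : ℝ × ((ℝ × (Fin m → ℝ)) × ℝ) => Jf A lam w.1 w.2.1 w.2.2) := by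
  have hh : Measurable (fun w : ℝ × ((ℝ × (Fin m → ℝ)) × ℝ) => w.1) := measurable_fst
  have hu : Measurable (fun w : ℝ × ((ℝ × (Fin m → ℝ)) × ℝ) => w.2.2) :=
    measurable_snd.comp measurable_snd
  have ht : Measurable (fun w : ℝ × ((ℝ × (Fin m → ℝ)) × ℝ) => w.2.1.1) :=
    measurable_fst.comp (measurable_fst.comp measurable_snd)
  have hy : ∀ j, Measurable (fun w : ℝ × ((ℝ × (Fin m → ℝ)) × ℝ) => w.2.1.2 j) := fun j =>
    (measurable_pi_apply j).comp (measurable_snd.comp (measurable_fst.comp measurable_snd))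
  have hc : Measurable (fun c : ℂ => (starRingEnd ℂ) c) := Complex.continuous_conj.measurable
  unfold Jf
  have h1 : Measurable (fun w : ℝ × ((ℝ × (Fin m → ℝ)) × ℝ) => A (w.2.2 + w.1)) := hA.comp (hu.add hh)
  have h2 : Measurable (fun w : ℝ × ((ℝ × (Fin m → ℝ)) × ℝ) => (starRingEnd ℂ) (A w.2.2)) :=
    hc.comp (hA.comp hu)
  have h3 : Measurable (fun w : ℝ × ((ℝ × (Fin m → ℝ)) × ℝ) => ee (2 * w.2.1.1 * w.1 * w.2.2)) :=
    ee_meas.comp (((ht.const_mul 2).mul hh).mul hu)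
  have h4 : ∀ j, Measurable (fun w : ℝ × ((ℝ × (Fin m → ℝ)) × ℝ) =>
      gk w.2.1.1 (w.2.1.2 j + lam (w.2.2 + w.1) j)) := fun j =>
    gk_meas' ht ((hy j).add (lamj hl (hu.add hh) j))
  have h5 : ∀ j, Measurable (fun w : ℝ × ((ℝ × (Fin m → ℝ)) × ℝ) =>
      (starRingEnd ℂ) (gk w.2.1.1 (w.2.1.2 j + lam w.2.2 j))) := fun j =>
    hc.comp (gk_meas' ht ((hy j).add (lamj hl hu j)))
  exact ((h1.mul h2).mul h3).mul (Finset.measurable_prod _ fun j _ => (h4 j).mul (h5 j))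

/-- the measure on time and the regular space variables -/
noncomputable def muT (m : ℕ) (T : ℝ) : Measure (ℝ × (Fin m → ℝ)) :=
  (volume.restrict (Icc T (2 * T))).prod volume

instance (m : ℕ) (T : ℝ) : SFinite (muT m T) := by
  unfold muT
  infer_instance

lemma JJ_bd {A : ℝ → ℂ} {M : ℝ} (hA : Bd M A) {lam : ℝ → Fin m → ℝ} (hl : Measurable lam)
    (h T u w : ℝ) : ∫⁻ z, ‖Jf A lam h z u * (starRingEnd ℂ) (Jf A lam h z w)‖ₑ ∂(muT m T) ≤
      ENNReal.ofReal M ^ 4 * (2 ^ m * volume (Icc T (2 * T))) := by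
  have hc : ∀ c : ℂ, ‖(starRingEnd ℂ) c‖ₑ = ‖c‖ₑ := by
    intro c
    rw [← ofReal_norm, RCLike.norm_conj, ofReal_norm]
  have hAe : ∀ u, ‖A u‖ₑ ≤ ENNReal.ofReal M := fun u => by
    rw [← ofReal_norm]
    exact ENNReal.ofReal_le_ofReal (hA.bd u)
  have hm1 : ∀ u, Measurable (fun z : ℝ × (Fin m → ℝ) => Jf A lam h z u) := by
    intro u
    have h1 : Measurable (fun z : ℝ × (Fin m → ℝ) => (h, (z, u))) :=
      measurable_const.prodMk (measurable_id.prodMk measurable_const)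
    have h2 := (Jf_meas hA.meas hl).comp h1
    exact h2
  have hm : Measurable (fun z : ℝ × (Fin m → ℝ) => ‖Jf A lam h z u * (starRingEnd ℂ) (Jf A lam h z w)‖ₑ) :=
    ((hm1 u).mul (Complex.continuous_conj.measurable.comp (hm1 w))).enorm
  unfold muT
  rw [lintegral_prod _ hm.aemeasurable]
  have e1 : ∀ t : ℝ, ∫⁻ y : Fin m → ℝ, ‖Jf A lam h (t, y) u * (starRingEnd ℂ) (Jf A lam h (t, y) w)‖ₑ ≤
      ENNReal.ofReal M ^ 4 * 2 ^ m := by
    intro t
    calc ∫⁻ y : Fin m → ℝ, ‖Jf A lam h (t, y) u * (starRingEnd ℂ) (Jf A lam h (t, y) w)‖ₑ ≤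
          ∫⁻ y : Fin m → ℝ, ENNReal.ofReal M ^ 4 * ∏ j, (‖gk t (y j + lam (u + h) j)‖ₑ *
            ‖gk t (y j + lam u j)‖ₑ * (‖gk t (y j + lam (w + h) j)‖ₑ * ‖gk t (y j + lam w j)‖ₑ)) := by
          apply lintegral_mono
          intro y
          simp only
          rw [enorm_mul, hc, Jf_enorm, Jf_enorm, Finset.prod_mul_distrib (f := fun j =>
            ‖gk t (y j + lam (u + h) j)‖ₑ * ‖gk t (y j + lam u j)‖ₑ)]
          calc _ ≤ ENNReal.ofReal M * ENNReal.ofReal M * (∏ j, (‖gk t (y j + lam (u + h) j)‖ₑ *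
                ‖gk t (y j + lam u j)‖ₑ)) * (ENNReal.ofReal M * ENNReal.ofReal M *
                (∏ j, (‖gk t (y j + lam (w + h) j)‖ₑ * ‖gk t (y j + lam w j)‖ₑ))) := by
                gcongr
                · exact hAe _
                · exact hAe _
                · exact hAe _
                · exact hAe _
            _ = _ := by ring
      _ = ENNReal.ofReal M ^ 4 * ∏ j, ∫⁻ y, (‖gk t (y + lam (u + h) j)‖ₑ *
            ‖gk t (y + lam u j)‖ₑ * (‖gk t (y + lam (w + h) j)‖ₑ * ‖gk t (y + lam w j)‖ₑ)) := by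
          have hmj : ∀ p : ℝ, Measurable (fun y => ‖gk t (y + p)‖ₑ) := fun p =>
            (gk_meas' measurable_const (measurable_id.add_const p)).enorm
          have hmj4 : ∀ j, Measurable (fun y => ‖gk t (y + lam (u + h) j)‖ₑ *
            ‖gk t (y + lam u j)‖ₑ * (‖gk t (y + lam (w + h) j)‖ₑ * ‖gk t (y + lam w j)‖ₑ)) := fun j =>
              ((hmj _).mul (hmj _)).mul ((hmj _).mul (hmj _))
          have hmP : Measurable (fun y : Fin m → ℝ => ∏ j, (‖gk t (y j + lam (u + h) j)‖ₑ *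
              ‖gk t (y j + lam u j)‖ₑ * (‖gk t (y j + lam (w + h) j)‖ₑ *
                ‖gk t (y j + lam w j)‖ₑ))) := by
            apply Finset.measurable_prod
            intro j _
            have := (hmj4 j).comp (show Measurable (fun y : Fin m → ℝ => y j) from
              measurable_pi_apply j)
            exact this
          rw [lintegral_const_mul _ hmP]
          rw [Pool.Agent.H728R3.SR.lint_prod m (fun j y => ‖gk t (y + lam (u + h) j)‖ₑ *
            ‖gk t (y + lam u j)‖ₑ * (‖gk t (y + lam (w + h) j)‖ₑ * ‖gk t (y + lam w j)‖ₑ)) hmj4]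
      _ ≤ ENNReal.ofReal M ^ 4 * ∏ _j : Fin m, 2 := by
          gcongr
          exact gk4 _ _ _ _ _
      _ = _ := by rw [Finset.prod_const, Finset.card_univ, Fintype.card_fin]
  calc _ ≤ ∫⁻ t in Icc T (2 * T), ENNReal.ofReal M ^ 4 * 2 ^ m := lintegral_mono e1
    _ = _ := by
        rw [setLIntegral_const]
        ring

/-- product of the one dimensional kernels -/
lemma qprod (t : ℝ) (p q r s : Fin m → ℝ) : ∏ j, qk t (p j) (q j) (r j) (s j) =
    (((1 / 2) ^ m * Real.exp (-(Real.pi / 4) * ∑ j, (p j + s j - q j - r j) ^ 2) : ℝ) : ℂ) *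
    (((psi m (∑ j, ((p j - s j) ^ 2 + (q j - r j) ^ 2)) t : ℝ) : ℂ) *
      cexp (-(I * ((Real.pi / 2 * ta t * ∑ j, ((p j - s j) ^ 2 - (q j - r j) ^ 2) : ℝ) : ℂ)))) := by
  unfold qk psi
  rw [Finset.prod_mul_distrib, Finset.prod_const, Finset.card_univ, Fintype.card_fin,
    ← Complex.exp_sum]
  push_cast
  rw [mul_pow]
  have e1 : ∀ a b c d e : ℂ, a * b * cexp (c + d + e) = a * cexp c * (b * cexp d * cexp e) := by
    intro a b c d e
    rw [Complex.exp_add, Complex.exp_add]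
    ring
  rw [← e1]
  congr 2
  rw [Finset.mul_sum, Finset.mul_sum, Finset.mul_sum, Finset.mul_sum, ← Finset.sum_neg_distrib,
    ← Finset.sum_add_distrib, ← Finset.sum_add_distrib]
  apply Finset.sum_congr rfl
  intro j _
  ring

/-- integrability of the product -/
lemma JJ_int {A : ℝ → ℂ} {M : ℝ} (hA : Bd M A) {lam : ℝ → Fin m → ℝ} (hl : Measurable lam)
    (h T u w : ℝ) : Integrable (fun z => Jf A lam h z u * (starRingEnd ℂ) (Jf A lam h z w)) (muT m T) := by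
  have hm1 : ∀ u, Measurable (fun z : ℝ × (Fin m → ℝ) => Jf A lam h z u) := by
    intro u
    have h1 : Measurable (fun z : ℝ × (Fin m → ℝ) => (h, (z, u))) :=
      measurable_const.prodMk (measurable_id.prodMk measurable_const)
    have h2 := (Jf_meas hA.meas hl).comp h1
    exact h2
  refine ⟨((hm1 u).mul (Complex.continuous_conj.measurable.comp (hm1 w))).aestronglyMeasurable, ?_⟩
  unfold HasFiniteIntegral
  refine (JJ_bd hA hl h T u w).trans_lt ?_
  apply ENNReal.mul_lt_top (ENNReal.pow_lt_top ENNReal.ofReal_lt_top)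
  apply ENNReal.mul_lt_top (ENNReal.pow_lt_top (by norm_num))
  simp

/-- the integral over the regular variables and time -/
lemma JJ_eval {A : ℝ → ℂ} {M : ℝ} (hA : Bd M A) {lam : ℝ → Fin m → ℝ} (hl : Measurable lam)
    (h T u w : ℝ) (hT : 0 ≤ T) : ∫ z, Jf A lam h z u * (starRingEnd ℂ) (Jf A lam h z w) ∂(muT m T) =
    (A (u + h) * (starRingEnd ℂ) (A u) * ((starRingEnd ℂ) (A (w + h)) * A w)) *
    (((1 / 2) ^ m * Real.exp (-(Real.pi / 4) *
      ∑ j, (lam (u + h) j + lam w j - lam u j - lam (w + h) j) ^ 2) : ℝ) : ℂ) *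
    ∫ t in T..(2 * T), ((psi m (∑ j, ((lam (u + h) j - lam w j) ^ 2 +
      (lam u j - lam (w + h) j) ^ 2)) t : ℝ) : ℂ) *
      cexp (I * ((4 * Real.pi * (h * (u - w)) * t - Real.pi / 2 * ta t *
        ∑ j, ((lam (u + h) j - lam w j) ^ 2 - (lam u j - lam (w + h) j) ^ 2) : ℝ) : ℂ)) := by
  have hi := JJ_int hA hl h T u w
  unfold muT at hi ⊢
  rw [integral_prod _ hi, intervalIntegral.integral_of_le (by linarith), ← integral_Icc_eq_integral_Ioc,
    ← integral_const_mul]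
  congr 1
  ext t
  have e1 : ∀ y : Fin m → ℝ, Jf A lam h (t, y) u * (starRingEnd ℂ) (Jf A lam h (t, y) w) =
      (A (u + h) * (starRingEnd ℂ) (A u) * ((starRingEnd ℂ) (A (w + h)) * A w)) *
      (ee (2 * t * h * u) * ee (-(2 * t * h * w))) *
      ∏ j, (gk t (y j + lam (u + h) j) * (starRingEnd ℂ) (gk t (y j + lam u j)) *
        (starRingEnd ℂ) (gk t (y j + lam (w + h) j)) * gk t (y j + lam w j)) := by
    intro y
    unfold Jf
    simp only [map_mul, map_prod, ee_conj, Finset.prod_mul_distrib, Complex.conj_conj]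
    ring
  simp only [e1]
  rw [integral_const_mul, integral_fintype_prod_volume_eq_prod (fun j y =>
    gk t (y + lam (u + h) j) * (starRingEnd ℂ) (gk t (y + lam u j)) *
        (starRingEnd ℂ) (gk t (y + lam (w + h) j)) * gk t (y + lam w j))]
  simp only [quad_int]
  rw [qprod t (lam (u + h)) (lam u) (lam (w + h)) (lam w), ← ee_add]
  have e2 : ee (2 * t * h * u + -(2 * t * h * w)) = cexp (I * ((4 * Real.pi * (h * (u - w)) * t : ℝ) : ℂ)) := by
    unfold ee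
    congr 1
    push_cast
    ring
  have e3 : cexp (I * ((4 * Real.pi * (h * (u - w)) * t - Real.pi / 2 * ta t *
        ∑ j, ((lam (u + h) j - lam w j) ^ 2 - (lam u j - lam (w + h) j) ^ 2) : ℝ) : ℂ)) =
      cexp (I * ((4 * Real.pi * (h * (u - w)) * t : ℝ) : ℂ)) *
      cexp (-(I * ((Real.pi / 2 * ta t * ∑ j, ((lam (u + h) j - lam w j) ^ 2 -
        (lam u j - lam (w + h) j) ^ 2) : ℝ) : ℂ))) := by
    rw [← Complex.exp_add]
    congr 1
    rw [Complex.ofReal_sub]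
    ring
  rw [e2, e3]
  ring

/-- the bound of the kernel -/
lemma JJ_le {A : ℝ → ℂ} {M : ℝ} (hA : Bd M A) {lam : ℝ → Fin m → ℝ} (hl : Measurable lam)
    (hc : Ch lam) (h T u w ε : ℝ) (hT : 1 ≤ T) (hε : 0 < ε) (hε1 : ε < 1) :
    ‖∫ z, Jf A lam h z u * (starRingEnd ℂ) (Jf A lam h z w) ∂(muT m T)‖ₑ ≤
    ENNReal.ofReal ((m + 6) * T ^ (-(m : ℝ) + ε)) *
    (‖A (u + h)‖ₑ * ‖A u‖ₑ * (‖A (w + h)‖ₑ * ‖A w‖ₑ) * (kk ε h * kk ε (u - w))) := by
  rw [JJ_eval hA hl h T u w (by linarith)]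
  by_cases h0 : A (u + h) * (starRingEnd ℂ) (A u) * ((starRingEnd ℂ) (A (w + h)) * A w) = 0
  · rw [h0]
    simp
  have a1 : A (u + h) ≠ 0 := fun hc => h0 (by rw [hc]; ring)
  have a2 : A u ≠ 0 := fun hc => h0 (by rw [hc]; simp)
  have a3 : A (w + h) ≠ 0 := fun hc => h0 (by rw [hc]; simp)
  have a4 : A w ≠ 0 := fun hc => h0 (by rw [hc]; ring)
  have b1 : u + h ∈ Icc (-1 : ℝ) 1 := by
    by_contra hcon; exact a1 (hA.z _ hcon)
  have b2 : u ∈ Icc (-1 : ℝ) 1 := by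
    by_contra hcon; exact a2 (hA.z _ hcon)
  have b3 : w + h ∈ Icc (-1 : ℝ) 1 := by
    by_contra hcon; exact a3 (hA.z _ hcon)
  have b4 : w ∈ Icc (-1 : ℝ) 1 := by
    by_contra hcon; exact a4 (hA.z _ hcon)
  have hh : |h| ≤ 2 := by
    rw [abs_le]
    constructor <;> linarith [b1.1, b1.2, b2.1, b2.2]
  have huw : |u - w| ≤ 2 := by
    rw [abs_le]
    constructor <;> linarith [b4.1, b4.2, b2.1, b2.2]
  have hT0 : 0 < T := by linarith
  have hC : 0 < (m + 6) * T ^ (-(m : ℝ) + ε) := by positivity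
  have ne : ∀ c : ℂ, c ≠ 0 → ‖c‖ₑ ≠ 0 := fun c hc => by simpa using hc
  by_cases hα : h * (u - w) = 0
  · have : kk ε h * kk ε (u - w) = ∞ := by
      rcases mul_eq_zero.mp hα with h1 | h1
      · rw [h1, kk_zero hε1]
        exact ENNReal.top_mul (kk_ne hε1 huw)
      · rw [h1, kk_zero hε1]
        exact ENNReal.mul_top (kk_ne hε1 hh)
    rw [this]
    rw [ENNReal.mul_top (by
      simp only [mul_ne_zero_iff]
      exact ⟨⟨ne _ a1, ne _ a2⟩, ne _ a3, ne _ a4⟩), ENNReal.mul_top]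
    · exact le_top
    · simpa using hC
  · have hsgn := ch_sign hc h u w b2 b1 b4 b3
    have hS : 0 ≤ ∑ j, ((lam (u + h) j - lam w j) ^ 2 + (lam u j - lam (w + h) j) ^ 2) :=
      Finset.sum_nonneg fun j _ => by positivity
    have hosc := osc_int' m T (h * (u - w)) _ _ ε hT hα hS hsgn hε.le hε1.le
    have hcst : ‖(((1 / 2) ^ m * Real.exp (-(Real.pi / 4) *
        ∑ j, (lam (u + h) j + lam w j - lam u j - lam (w + h) j) ^ 2) : ℝ) : ℂ)‖ ≤ 1 := by
      rw [Complex.norm_real, Real.norm_of_nonneg (by positivity)]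
      have h1 : Real.exp (-(Real.pi / 4) *
        ∑ j, (lam (u + h) j + lam w j - lam u j - lam (w + h) j) ^ 2) ≤ 1 := by
        rw [Real.exp_le_one_iff]
        have := Real.pi_pos
        have : 0 ≤ ∑ j, (lam (u + h) j + lam w j - lam u j - lam (w + h) j) ^ 2 :=
          Finset.sum_nonneg fun j _ => by positivity
        have : 0 ≤ Real.pi / 4 * ∑ j, (lam (u + h) j + lam w j - lam u j - lam (w + h) j) ^ 2 := by
          positivity
        linarith
      have h2 : (1 / 2 : ℝ) ^ m ≤ 1 := pow_le_one₀ (by norm_num) (by norm_num)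
      calc _ ≤ (1 : ℝ) * 1 := mul_le_mul h2 h1 (Real.exp_pos _).le zero_le_one
        _ = 1 := one_mul 1
    rw [← ofReal_norm, norm_mul, norm_mul, norm_mul, norm_mul, norm_mul, RCLike.norm_conj,
      RCLike.norm_conj]
    set OO := ‖∫ t in T..(2 * T), ((psi m (∑ j, ((lam (u + h) j - lam w j) ^ 2 +
      (lam u j - lam (w + h) j) ^ 2)) t : ℝ) : ℂ) *
      cexp (I * ((4 * Real.pi * (h * (u - w)) * t - Real.pi / 2 * ta t *
        ∑ j, ((lam (u + h) j - lam w j) ^ 2 - (lam u j - lam (w + h) j) ^ 2) : ℝ) : ℂ))‖ with hOO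
    have step : ‖A (u + h)‖ * ‖A u‖ * (‖A (w + h)‖ * ‖A w‖) * ‖(((1 / 2) ^ m * Real.exp (-(Real.pi / 4) *
        ∑ j, (lam (u + h) j + lam w j - lam u j - lam (w + h) j) ^ 2) : ℝ) : ℂ)‖ * OO ≤
        (m + 6) * T ^ (-(m : ℝ) + ε) * (‖A (u + h)‖ * ‖A u‖ * (‖A (w + h)‖ * ‖A w‖) *
          (|h| ^ (-(1 - ε)) * |u - w| ^ (-(1 - ε)))) := by
      calc _ ≤ ‖A (u + h)‖ * ‖A u‖ * (‖A (w + h)‖ * ‖A w‖) * 1 *
            ((m + 6) * (T ^ (-(m : ℝ) + ε)) * |h * (u - w)| ^ (-(1 - ε))) := by gcongr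
        _ = _ := by
            rw [abs_mul, Real.mul_rpow (abs_nonneg _) (abs_nonneg _)]
            ring
    refine (ENNReal.ofReal_le_ofReal step).trans (le_of_eq ?_)
    have hh0 : 0 < |h| := abs_pos.mpr fun hc => hα (by rw [hc]; ring)
    have huw0 : 0 < |u - w| := abs_pos.mpr fun hc => hα (by rw [hc]; ring)
    rw [ENNReal.ofReal_mul hC.le, ENNReal.ofReal_mul (by positivity), ENNReal.ofReal_mul (by positivity),
      ENNReal.ofReal_mul (by positivity), ENNReal.ofReal_mul (by positivity),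
      ENNReal.ofReal_mul (by positivity), kk_of hh, kk_of huw,
      ENNReal.ofReal_rpow_of_pos hh0, ENNReal.ofReal_rpow_of_pos huw0]
    rw [ENNReal.ofReal_mul (p := |h| ^ (-(1 - ε))) (by positivity)]
    simp only [ofReal_norm]

end Pool.Agent.W771.NN
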