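import Mathlib
import Pool.Agent.W771.NE
set_option autoImplicit false

/-! The `L⁴` bound on time slabs for one twist: conclusion. -/

namespace Pool.Agent.W771.NN
open MeasureTheory Set Complex
open scoped ENNReal NNReal

variable {m : ℕ}

lemma conj_enorm (c : ℂ) : ‖(starRingEnd ℂ) c‖ₑ = ‖c‖ₑ := by
  rw [← ofReal_norm, RCLike.norm_conj, ofReal_norm]

lemma Jf_meas_zu {A : ℝ → ℂ} (hA : Measurable A) {lam : ℝ → Fin m → ℝ} (hl : Measurable lam) (h : ℝ) :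
    Measurable (fun w : (ℝ × (Fin m → ℝ)) × ℝ => Jf A lam h w.1 w.2) := by
  have h1 : Measurable (fun w : (ℝ × (Fin m → ℝ)) × ℝ => (h, w)) :=
    measurable_const.prodMk measurable_id
  have h2 := (Jf_meas hA hl).comp h1
  exact h2

lemma Jf_zero {A : ℝ → ℂ} {M : ℝ} (hA : Bd M A) {lam : ℝ → Fin m → ℝ} (h : ℝ)
    (z : ℝ × (Fin m → ℝ)) (u : ℝ) (hu : u ∉ Icc (-1 : ℝ) 1) : Jf A lam h z u = 0 := by
  unfold Jf
  rw [hA.z u hu]
  simp

lemma JJ_int3 {A : ℝ → ℂ} {M : ℝ} (hA : Bd M A) {lam : ℝ → Fin m → ℝ} (hl : Measurable lam)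
    (h T : ℝ) : Integrable (fun w : (ℝ × (Fin m → ℝ)) × (ℝ × ℝ) => Jf A lam h w.1 w.2.1 *
      (starRingEnd ℂ) (Jf A lam h w.1 w.2.2)) ((muT m T).prod (volume.prod volume)) := by
  have hJ := Jf_meas_zu hA.meas hl h
  have m1 : Measurable (fun w : (ℝ × (Fin m → ℝ)) × (ℝ × ℝ) => Jf A lam h w.1 w.2.1) := by
    have h1 : Measurable (fun w : (ℝ × (Fin m → ℝ)) × (ℝ × ℝ) => (w.1, w.2.1)) :=
      measurable_fst.prodMk (measurable_fst.comp measurable_snd)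
    have h2 := hJ.comp h1
    exact h2
  have m2 : Measurable (fun w : (ℝ × (Fin m → ℝ)) × (ℝ × ℝ) => Jf A lam h w.1 w.2.2) := by
    have h1 : Measurable (fun w : (ℝ × (Fin m → ℝ)) × (ℝ × ℝ) => (w.1, w.2.2)) :=
      measurable_fst.prodMk (measurable_snd.comp measurable_snd)
    have h2 := hJ.comp h1
    exact h2
  have hm : Measurable (fun w : (ℝ × (Fin m → ℝ)) × (ℝ × ℝ) => Jf A lam h w.1 w.2.1 *
      (starRingEnd ℂ) (Jf A lam h w.1 w.2.2)) :=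
    m1.mul (Complex.continuous_conj.measurable.comp m2)
  refine ⟨hm.aestronglyMeasurable, ?_⟩
  unfold HasFiniteIntegral
  rw [lintegral_prod_symm' _ hm.enorm]
  set C := ENNReal.ofReal M ^ 4 * (2 ^ m * volume (Icc T (2 * T))) with hC
  have hCt : C < ∞ := by
    apply ENNReal.mul_lt_top (ENNReal.pow_lt_top ENNReal.ofReal_lt_top)
    apply ENNReal.mul_lt_top (ENNReal.pow_lt_top (by norm_num))
    simp
  have hb : ∀ w : ℝ × ℝ, ∫⁻ z, ‖Jf A lam h z w.1 * (starRingEnd ℂ) (Jf A lam h z w.2)‖ₑ ∂(muT m T) ≤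
      (Icc (-1 : ℝ) 1 ×ˢ Icc (-1 : ℝ) 1).indicator (fun _ => C) w := by
    intro w
    by_cases hw : w ∈ Icc (-1 : ℝ) 1 ×ˢ Icc (-1 : ℝ) 1
    · rw [indicator_of_mem hw]
      exact JJ_bd hA hl h T w.1 w.2
    · rw [indicator_of_notMem hw]
      rw [mem_prod, not_and_or] at hw
      have : ∀ z, Jf A lam h z w.1 * (starRingEnd ℂ) (Jf A lam h z w.2) = 0 := by
        intro z
        rcases hw with hw | hw
        · rw [Jf_zero hA h z w.1 hw, zero_mul]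
        · rw [Jf_zero hA h z w.2 hw, map_zero, mul_zero]
      simp [this]
  refine (lintegral_mono hb).trans_lt ?_
  rw [lintegral_indicator (measurableSet_Icc.prod measurableSet_Icc), setLIntegral_const]
  apply ENNReal.mul_lt_top hCt
  rw [Measure.prod_prod]
  simp [Real.volume_Icc]
  exact ENNReal.mul_lt_top ENNReal.ofReal_lt_top ENNReal.ofReal_lt_top

/-- the `L⁴` estimate for one twist -/
theorem L4_one {A : ℝ → ℂ} {M : ℝ} (hA : Bd M A) {lam : ℝ → Fin m → ℝ} (hl : Measurable lam)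
    (hc : Ch lam) (T ε : ℝ) (hT : 1 ≤ T) (hε : 0 < ε) (hε1 : ε < 1) :
    ∫⁻ t in Icc T (2 * T), ∫⁻ y : Fin m → ℝ, ∫⁻ x : ℝ, ‖FF A lam x y t‖ₑ ^ 4 ≤
    ENNReal.ofReal ((m + 6) * T ^ (-(m : ℝ) + ε)) * (4 * (∫⁻ x, kk ε x) ^ 2 * ∫⁻ u, ‖A u‖ₑ ^ 4) := by
  have hG : Measurable (fun w : ℝ × (ℝ × (Fin m → ℝ)) => ‖∫ u, Jf A lam w.1 w.2 u‖ₑ ^ 2) := by
    have h0 : Measurable (fun w : (ℝ × (ℝ × (Fin m → ℝ))) × ℝ => Jf A lam w.1.1 w.1.2 w.2) := by
      have h1 : Measurable (fun w : (ℝ × (ℝ × (Fin m → ℝ))) × ℝ => (w.1.1, (w.1.2, w.2))) :=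
        (measurable_fst.comp measurable_fst).prodMk
          ((measurable_snd.comp measurable_fst).prodMk measurable_snd)
      have h2 := (Jf_meas hA.meas hl).comp h1
      exact h2
    have h1 : StronglyMeasurable (fun w : ℝ × (ℝ × (Fin m → ℝ)) => ∫ u, Jf A lam w.1 w.2 u) :=
      StronglyMeasurable.integral_prod_right' (f := fun w : (ℝ × (ℝ × (Fin m → ℝ))) × ℝ =>
        Jf A lam w.1.1 w.1.2 w.2) h0.stronglyMeasurable
    exact h1.measurable.enorm.pow_const 2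
  have e1 : ∀ (t : ℝ) (y : Fin m → ℝ), ∫⁻ x : ℝ, ‖FF A lam x y t‖ₑ ^ 4 =
      ∫⁻ h, ‖∫ u, Jf A lam h (t, y) u‖ₑ ^ 2 := by
    intro t y
    have h1 := L4_id (BB_bd hA hl y t)
    have h2 : ∀ x, FF A lam x y t = ∫ u, BB A lam y t u * ee (x * u) := fun x => rfl
    simp only [h2]
    rw [h1]
    congr 1
    ext h
    rw [cor_BB, enorm_mul, ee_enorm, one_mul]
  simp only [e1]
  have e2 : ∫⁻ t in Icc T (2 * T), ∫⁻ y : Fin m → ℝ, ∫⁻ h, ‖∫ u, Jf A lam h (t, y) u‖ₑ ^ 2 =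
      ∫⁻ h, ∫⁻ z, ‖∫ u, Jf A lam h z u‖ₑ ^ 2 ∂(muT m T) := by
    symm
    rw [lintegral_lintegral_swap (μ := volume) (ν := muT m T) hG.aemeasurable]
    unfold muT
    rw [lintegral_prod]
    exact (hG.comp measurable_swap).lintegral_prod_right'.aemeasurable
  rw [e2]
  calc ∫⁻ h, ∫⁻ z, ‖∫ u, Jf A lam h z u‖ₑ ^ 2 ∂(muT m T) ≤
        ∫⁻ h, ∫⁻ u, ∫⁻ w, ENNReal.ofReal ((m + 6) * T ^ (-(m : ℝ) + ε)) *
          (‖A (u + h)‖ₑ * ‖A u‖ₑ * (‖A (w + h)‖ₑ * ‖A w‖ₑ) * (kk ε h * kk ε (u - w))) := by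
        apply lintegral_mono
        intro h
        simp only
        refine (expand (muT m T) volume (fun z u => Jf A lam h z u) (JJ_int3 hA hl h T)).trans ?_
        rw [lintegral_prod]
        · apply lintegral_mono
          intro u
          apply lintegral_mono
          intro w
          exact JJ_le hA hl hc h T u w ε hT hε hε1
        · have h3 := (JJ_int3 hA hl h T).swap.integral_prod_left
          exact h3.1.enorm
    _ = ENNReal.ofReal ((m + 6) * T ^ (-(m : ℝ) + ε)) * ∫⁻ h, ∫⁻ u, ∫⁻ w,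
          (‖A (u + h)‖ₑ * ‖A u‖ₑ * (‖A (w + h)‖ₑ * ‖A w‖ₑ) * (kk ε h * kk ε (u - w))) := by
        rw [← lintegral_const_mul' _ _ ENNReal.ofReal_ne_top]
        congr 1
        ext h
        rw [← lintegral_const_mul' _ _ ENNReal.ofReal_ne_top]
        congr 1
        ext u
        rw [← lintegral_const_mul' _ _ ENNReal.ofReal_ne_top]
    _ ≤ _ := by
        gcongr
        exact quadform (kk ε) (fun u => ‖A u‖ₑ) (kk_meas ε) hA.meas.enorm

end Pool.Agent.W771.NN
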