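import Mathlib
import Pool.Agent.W771.NF
set_option autoImplicit false

/-! Truncation in frequency. -/

namespace Pool.Agent.W771.NN
open MeasureTheory Set Complex
open scoped ENNReal NNReal

/-- Fourier transform -/
noncomputable def ft (G : ℝ → ℂ) (η : ℝ) : ℂ := ∫ w, G w * ee (-(η * w))

lemma int_mul_bd {X : Type*} [MeasurableSpace X] {μ : Measure X} {f g : X → ℂ} (hf : Integrable f μ)
    (hg : Measurable g) (C : ℝ) (hb : ∀ x, ‖g x‖ ≤ C) : Integrable (fun x => f x * g x) μ :=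
  hf.mul_bdd (c := C) hg.aestronglyMeasurable (ae_of_all _ hb)

lemma ft_cont {G : ℝ → ℂ} (hG : Integrable G) : Continuous (ft G) := by
  unfold ft
  apply continuous_of_dominated (bound := fun w => ‖G w‖)
  · intro η
    have h1 : Measurable (fun w : ℝ => ee (-(η * w))) :=
      ee_meas.comp ((measurable_id.const_mul η).neg)
    exact hG.1.mul h1.aestronglyMeasurable
  · intro η
    exact ae_of_all _ fun w => by rw [norm_mul, ee_norm, mul_one]
  · exact hG.norm
  · apply ae_of_all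
    intro w
    apply Continuous.mul continuous_const
    exact ee_cont.comp (by fun_prop)

lemma ft_le {G : ℝ → ℂ} (η : ℝ) : ‖ft G η‖ ≤ ∫ w, ‖G w‖ := by
  unfold ft
  refine (norm_integral_le_integral_norm _).trans (le_of_eq ?_)
  congr 1
  ext w
  rw [norm_mul, ee_norm, mul_one]

lemma sq_int_of_lint {f : ℝ → ℂ} (hf : MemLp f 2) :
    Integrable (fun x => ‖f x‖ ^ 2) := by
  have := hf.integrable_norm_pow (by norm_num : (2 : ℕ) ≠ 0)
  exact this

lemma lint_sq_eq {f : ℝ → ℂ} (hf : MemLp f 2) :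
    ∫⁻ x, ‖f x‖ₑ ^ 2 = ENNReal.ofReal (∫ x, ‖f x‖ ^ 2) := by
  rw [ofReal_integral_eq_lintegral_ofReal (sq_int_of_lint hf) (ae_of_all _ fun x => by positivity)]
  congr 1
  ext x
  rw [ENNReal.ofReal_pow (norm_nonneg _), ofReal_norm]

lemma memLp2_of {f : ℝ → ℂ} (hm : AEStronglyMeasurable f volume) (h : ∫⁻ x, ‖f x‖ₑ ^ 2 ≠ ∞) :
    MemLp f 2 := by
  refine ⟨hm, ?_⟩
  rw [eLpNorm_lt_top_iff_lintegral_rpow_enorm_lt_top (by norm_num) (by norm_num)]
  simp only [ENNReal.toReal_ofNat, ENNReal.rpow_ofNat]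
  exact lt_top_iff_ne_top.mpr h

lemma inv_tail {M : ℝ} {G : ℝ → ℂ} (hG : Bd M G) (R : ℝ) :
    ∫⁻ v, ‖G v - ∫ η in Icc (-R) R, ft G η * ee (v * η)‖ₑ ^ 2 ≤
      ∫⁻ η in (Icc (-R) R)ᶜ, ‖ft G η‖ₑ ^ 2 := by
  have hGi := hG.int
  have hG2 := hG.memLp
  have hc := ft_cont hGi
  -- Plancherel for `G`
  have p1 : ∫⁻ η, ‖ft G η‖ₑ ^ 2 = ∫⁻ v, ‖G v‖ₑ ^ 2 := by
    rw [← planch1 G hGi hG2]
    have h5 := (Measure.measurePreserving_neg (volume : Measure ℝ)).lintegral_comp_emb
      (MeasurableEquiv.neg ℝ).measurableEmbedding (fun x : ℝ => ‖∫ u, G u * ee (x * u)‖ₑ ^ 2)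
    rw [← h5]
    congr 1
    ext η
    unfold ft
    congr 3
    ext w
    congr 2
    ring
  have hGfin : ∫⁻ v, ‖G v‖ₑ ^ 2 ≠ ∞ := by
    rw [lint_sq_eq hG2]
    exact ENNReal.ofReal_ne_top
  have hF2 : MemLp (ft G) 2 := memLp2_of hc.aestronglyMeasurable (by rw [p1]; exact hGfin)
  set P : ℝ → ℂ := (Icc (-R) R).indicator (ft G) with hP
  have hPi : Integrable P := by
    rw [hP, integrable_indicator_iff measurableSet_Icc]
    exact hc.integrableOn_Icc
  have hP2 : MemLp P 2 := hF2.indicator measurableSet_Icc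
  set GR : ℝ → ℂ := fun v => ∫ η, P η * ee (v * η) with hGR
  have eGR : ∀ v, ∫ η in Icc (-R) R, ft G η * ee (v * η) = GR v := by
    intro v
    rw [hGR, ← integral_indicator measurableSet_Icc]
    congr 1
    ext η
    simp only [hP]
    by_cases h : η ∈ Icc (-R) R
    · rw [indicator_of_mem h, indicator_of_mem h]
    · rw [indicator_of_notMem h, indicator_of_notMem h, zero_mul]
  have cGR : Continuous GR := by
    have h1 := ft_cont hPi
    have h2 : GR = fun v => ft P (-v) := by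
      ext v
      simp only [hGR, ft]
      congr 1
      ext η
      congr 2
      ring
    rw [h2]
    exact h1.comp continuous_neg
  have p2 : ∫⁻ v, ‖GR v‖ₑ ^ 2 = ∫⁻ η, ‖P η‖ₑ ^ 2 := planch1 P hPi hP2
  have hGR2 : MemLp GR 2 := memLp2_of cGR.aestronglyMeasurable (by
    rw [p2, lint_sq_eq hP2]
    exact ENNReal.ofReal_ne_top)
  have bGR : ∀ v, ‖GR v‖ ≤ ∫ η, ‖P η‖ := by
    intro v
    simp only [hGR]
    refine (norm_integral_le_integral_norm _).trans (le_of_eq ?_)
    congr 1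
    ext w
    rw [norm_mul, ee_norm, mul_one]
  -- the mixed term
  have p3 : ∫ v, G v * (starRingEnd ℂ) (GR v) = ((∫ η, ‖P η‖ ^ 2 : ℝ) : ℂ) := by
    have hint : Integrable (fun w : ℝ × ℝ => G w.1 * (starRingEnd ℂ) (P w.2) * ee (-(w.2 * w.1)))
        (volume.prod volume) := by
      have hPc : Integrable (fun η => (starRingEnd ℂ) (P η)) := by
        refine hPi.norm.mono (Complex.continuous_conj.comp_aestronglyMeasurable hPi.1)
          (ae_of_all _ fun u => by simp)
      have h1 := hGi.mul_prod hPc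
      apply int_mul_bd h1 _ 1
      · intro w
        rw [ee_norm]
      · exact ee_meas.comp ((measurable_snd.mul measurable_fst).neg)
    have e1 : ∀ v, G v * (starRingEnd ℂ) (GR v) = ∫ η, G v * (starRingEnd ℂ) (P η) * ee (-(η * v)) := by
      intro v
      simp only [hGR]
      rw [← integral_conj, ← integral_const_mul]
      congr 1
      ext η
      rw [map_mul, ee_conj, mul_comm v η]
      ring
    simp only [e1]
    rw [integral_integral_swap hint, ← integral_complex_ofReal]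
    congr 1
    ext η
    have e2 : ∀ v, G v * (starRingEnd ℂ) (P η) * ee (-(η * v)) =
        (starRingEnd ℂ) (P η) * (G v * ee (-(η * v))) := by
      intro v; ring
    simp only [e2]
    rw [integral_const_mul]
    change (starRingEnd ℂ) (P η) * ft G η = _
    simp only [hP]
    by_cases h : η ∈ Icc (-R) R
    · rw [indicator_of_mem h, mul_comm, Complex.mul_conj, Complex.normSq_eq_norm_sq]
    · rw [indicator_of_notMem h]
      simp
  have hdiff : MemLp (fun v => G v - GR v) 2 := hG2.sub hGR2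
  have i1 := sq_int_of_lint hG2
  have i2 := sq_int_of_lint hGR2
  have i3 : Integrable (fun v => G v * (starRingEnd ℂ) (GR v)) := by
    apply int_mul_bd hGi _ (∫ η, ‖P η‖)
    · intro v
      rw [RCLike.norm_conj]
      exact bGR v
    · exact Complex.continuous_conj.measurable.comp cGR.measurable
  have key : ∫ v, ‖G v - GR v‖ ^ 2 = (∫ v, ‖G v‖ ^ 2) - 2 * (∫ η, ‖P η‖ ^ 2) + ∫ v, ‖GR v‖ ^ 2 := by
    have e1 : ∀ v, ‖G v - GR v‖ ^ 2 = ‖G v‖ ^ 2 - 2 * (G v * (starRingEnd ℂ) (GR v)).re + ‖GR v‖ ^ 2 := by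
      intro v
      rw [← Complex.normSq_eq_norm_sq, ← Complex.normSq_eq_norm_sq, ← Complex.normSq_eq_norm_sq,
        Complex.normSq_sub]
      ring
    simp only [e1]
    have i4 : Integrable (fun v => 2 * (G v * (starRingEnd ℂ) (GR v)).re) := i3.re.const_mul 2
    have i5 : Integrable (fun v => ‖G v‖ ^ 2 - 2 * (G v * (starRingEnd ℂ) (GR v)).re) := i1.sub i4
    rw [integral_add i5 i2, integral_sub i1 i4, integral_const_mul]
    have : ∫ v, (G v * (starRingEnd ℂ) (GR v)).re = ∫ η, ‖P η‖ ^ 2 := by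
      have h := integral_re i3
      have h' : ∫ v, (G v * (starRingEnd ℂ) (GR v)).re = (∫ v, G v * (starRingEnd ℂ) (GR v)).re := h
      rw [h', p3, Complex.ofReal_re]
    rw [this]
  have q2 : ∫ v, ‖GR v‖ ^ 2 = ∫ η, ‖P η‖ ^ 2 := by
    rw [lint_sq_eq hGR2, lint_sq_eq hP2] at p2
    rwa [ENNReal.ofReal_eq_ofReal_iff (integral_nonneg fun _ => by positivity)
      (integral_nonneg fun _ => by positivity)] at p2
  have q1 : ∫ v, ‖G v‖ ^ 2 = ∫ η, ‖ft G η‖ ^ 2 := by
    rw [lint_sq_eq hF2, lint_sq_eq hG2] at p1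
    rw [ENNReal.ofReal_eq_ofReal_iff (integral_nonneg fun _ => by positivity)
      (integral_nonneg fun _ => by positivity)] at p1
    exact p1.symm
  have q3 : ∫ η, ‖P η‖ ^ 2 = ∫ η in Icc (-R) R, ‖ft G η‖ ^ 2 := by
    rw [← integral_indicator measurableSet_Icc]
    congr 1
    ext η
    simp only [hP]
    by_cases h : η ∈ Icc (-R) R
    · rw [indicator_of_mem h, indicator_of_mem h]
    · rw [indicator_of_notMem h, indicator_of_notMem h]
      simp
  have iF := sq_int_of_lint hF2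
  have q4 := integral_add_compl (s := Icc (-R) R) measurableSet_Icc iF
  simp only [eGR]
  rw [lint_sq_eq hdiff, key, q2, q1]
  have e5 : ∫⁻ η in (Icc (-R) R)ᶜ, ‖ft G η‖ₑ ^ 2 =
      ENNReal.ofReal (∫ η in (Icc (-R) R)ᶜ, ‖ft G η‖ ^ 2) := by
    rw [ofReal_integral_eq_lintegral_ofReal iF.integrableOn (ae_of_all _ fun x => by positivity)]
    congr 1
    ext x
    rw [ENNReal.ofReal_pow (norm_nonneg _), ofReal_norm]
  rw [e5]
  apply ENNReal.ofReal_le_ofReal
  rw [q3]
  linarith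

end Pool.Agent.W771.NN
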