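import Mathlib
import Pool.Agent.W771.NG
set_option autoImplicit false

/-! Fibre extension operators and their truncations. -/

namespace Pool.Agent.W771.NN
open MeasureTheory Set Complex
open scoped ENNReal NNReal

/-- the fibre with the window removed -/
noncomputable def GG (g : ℝ × ℝ → ℂ) (u : ℝ) (v : ℝ) : ℂ :=
  (Icc (-1 : ℝ) 1).indicator (fun v => ((Real.exp (Real.pi * v ^ 2) : ℝ) : ℂ) * g (u, v)) v

lemma GG_bd {g : ℝ × ℝ → ℂ} (hg : Measurable g) (hb : ∀ w, ‖g w‖ ≤ 1) (u : ℝ) :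
    Bd (Real.exp Real.pi) (GG g u) := by
  refine ⟨?_, ?_, ?_⟩
  · unfold GG
    apply Measurable.indicator _ measurableSet_Icc
    apply Measurable.mul
    · apply Complex.measurable_ofReal.comp
      apply Continuous.measurable
      fun_prop
    · exact hg.comp (measurable_const.prodMk measurable_id)
  · intro v
    unfold GG
    by_cases hv : v ∈ Icc (-1 : ℝ) 1
    · rw [indicator_of_mem hv, norm_mul, Complex.norm_real, Real.norm_of_nonneg (Real.exp_pos _).le]
      have h1 : Real.exp (Real.pi * v ^ 2) ≤ Real.exp Real.pi := by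
        apply Real.exp_le_exp.mpr
        have h2 : v ^ 2 ≤ 1 := by nlinarith [hv.1, hv.2]
        have := Real.pi_pos
        nlinarith
      calc _ ≤ Real.exp Real.pi * 1 := mul_le_mul h1 (hb _) (norm_nonneg _) (Real.exp_pos _).le
        _ = _ := mul_one _
    · rw [indicator_of_notMem hv, norm_zero]
      exact (Real.exp_pos _).le
  · intro v hv
    unfold GG
    rw [indicator_of_notMem hv]

lemma GG_meas {g : ℝ × ℝ → ℂ} (hg : Measurable g) : Measurable (fun w : ℝ × ℝ => GG g w.1 w.2) := by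
  unfold GG
  have hS : MeasurableSet {w : ℝ × ℝ | w.2 ∈ Icc (-1 : ℝ) 1} := measurable_snd measurableSet_Icc
  have h1 : Measurable (fun w : ℝ × ℝ => ((Real.exp (Real.pi * w.2 ^ 2) : ℝ) : ℂ) * g (w.1, w.2)) := by
    apply Measurable.mul
    · apply Complex.measurable_ofReal.comp
      apply Continuous.measurable
      fun_prop
    · exact hg
  exact h1.indicator hS

/-- the fibre extension operator -/
noncomputable def HH (g : ℝ × ℝ → ℂ) (u t y : ℝ) : ℂ :=
  ∫ v in Icc (-1 : ℝ) 1, g (u, v) * ee (y * v + t * v ^ 2)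

/-- its truncation -/
noncomputable def HR (g : ℝ × ℝ → ℂ) (R u t y : ℝ) : ℂ :=
  ∫ η in Icc (-R) R, ft (GG g u) η * gk t (y + η)

/-- the Gaussian window -/
noncomputable def wd (v : ℝ) : ℂ := ((Real.exp (-Real.pi * v ^ 2) : ℝ) : ℂ)

lemma wd_cont : Continuous wd := by
  unfold wd
  fun_prop

lemma wd_norm (v : ℝ) : ‖wd v‖ = Real.exp (-Real.pi * v ^ 2) := by
  unfold wd
  rw [Complex.norm_real, Real.norm_of_nonneg (Real.exp_pos _).le]

lemma wd_le (v : ℝ) : ‖wd v‖ ≤ 1 := by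
  rw [wd_norm, Real.exp_le_one_iff]
  have := Real.pi_pos
  nlinarith [sq_nonneg v]

lemma wd_int : Integrable wd := by
  have h := integrable_exp_neg_mul_sq Real.pi_pos
  refine (h.mono' wd_cont.aestronglyMeasurable (ae_of_all _ fun v => ?_))
  rw [wd_norm]

lemma wd_GG (g : ℝ × ℝ → ℂ) (u v : ℝ) : wd v * GG g u v = (Icc (-1 : ℝ) 1).indicator (fun v => g (u, v)) v := by
  unfold GG
  by_cases hv : v ∈ Icc (-1 : ℝ) 1
  · rw [indicator_of_mem hv, indicator_of_mem hv, ← mul_assoc]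
    unfold wd
    rw [← Complex.ofReal_mul, ← Real.exp_add]
    simp
  · rw [indicator_of_notMem hv, indicator_of_notMem hv, mul_zero]

lemma HH_eq (g : ℝ × ℝ → ℂ) (u t y : ℝ) :
    HH g u t y = ∫ v, wd v * GG g u v * ee (t * v ^ 2) * ee (y * v) := by
  unfold HH
  rw [← integral_indicator measurableSet_Icc]
  congr 1
  ext v
  rw [wd_GG]
  by_cases hv : v ∈ Icc (-1 : ℝ) 1
  · rw [indicator_of_mem hv, indicator_of_mem hv, add_comm, ee_add]
    ring
  · rw [indicator_of_notMem hv, indicator_of_notMem hv, zero_mul, zero_mul]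

/-- inverse transform of the truncation -/
noncomputable def GT (g : ℝ × ℝ → ℂ) (R u v : ℝ) : ℂ := ∫ η in Icc (-R) R, ft (GG g u) η * ee (v * η)

lemma gk_int' (t y : ℝ) : ∫ v, wd v * ee (y * v + t * v ^ 2) = gk t y := by
  rw [← gk_int]
  congr 1
  ext v
  unfold wd ee
  push_cast
  congr 1

lemma HR_eq {g : ℝ × ℝ → ℂ} (hg : Measurable g) (hb : ∀ w, ‖g w‖ ≤ 1) (R u t y : ℝ) :
    HR g R u t y = ∫ v, wd v * GT g R u v * ee (t * v ^ 2) * ee (y * v) := by
  have hG := GG_bd hg hb u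
  have hc := ft_cont hG.int
  have hFi : IntegrableOn (ft (GG g u)) (Icc (-R) R) := hc.integrableOn_Icc
  have hint : Integrable (fun w : ℝ × ℝ => ft (GG g u) w.1 * wd w.2 *
      ee ((y + w.1) * w.2 + t * w.2 ^ 2)) ((volume.restrict (Icc (-R) R)).prod volume) := by
    have h1 := Integrable.mul_prod hFi wd_int
    apply int_mul_bd h1 _ 1
    · intro w
      rw [ee_norm]
    · apply ee_meas.comp
      apply Continuous.measurable
      fun_prop
  unfold HR GT
  have e1 : ∀ η, ft (GG g u) η * gk t (y + η) = ∫ v, ft (GG g u) η * wd v * ee ((y + η) * v + t * v ^ 2) := by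
    intro η
    rw [← gk_int', ← integral_const_mul]
    congr 1
    ext v
    ring
  simp only [e1]
  rw [integral_integral_swap hint]
  congr 1
  ext v
  have e2 : ∀ η, ft (GG g u) η * wd v * ee ((y + η) * v + t * v ^ 2) =
      (ft (GG g u) η * ee (v * η)) * (wd v * ee (t * v ^ 2) * ee (y * v)) := by
    intro η
    have : (y + η) * v + t * v ^ 2 = v * η + (t * v ^ 2 + y * v) := by ring
    rw [this, ee_add, ee_add]
    ring
  simp only [e2]
  rw [integral_mul_const]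
  ring

lemma GT_cont {g : ℝ × ℝ → ℂ} (hg : Measurable g) (hb : ∀ w, ‖g w‖ ≤ 1) (R u : ℝ) :
    Continuous (GT g R u) := by
  have hG := GG_bd hg hb u
  have hc := ft_cont hG.int
  have hPi : Integrable ((Icc (-R) R).indicator (ft (GG g u))) := by
    rw [integrable_indicator_iff measurableSet_Icc]
    exact hc.integrableOn_Icc
  have h1 := ft_cont hPi
  have h2 : GT g R u = fun v => ft ((Icc (-R) R).indicator (ft (GG g u))) (-v) := by
    ext v
    unfold GT
    rw [← integral_indicator measurableSet_Icc]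
    conv_rhs => unfold ft
    congr 1
    ext η
    by_cases h : η ∈ Icc (-R) R
    · rw [indicator_of_mem h, indicator_of_mem h]
      congr 2
      ring
    · rw [indicator_of_notMem h, indicator_of_notMem h, zero_mul]
  rw [h2]
  exact h1.comp continuous_neg

lemma GT_bd (g : ℝ × ℝ → ℂ) (R u v : ℝ) :
    ‖GT g R u v‖ ≤ ∫ η in Icc (-R) R, ‖ft (GG g u) η‖ := by
  unfold GT
  refine (norm_integral_le_integral_norm _).trans (le_of_eq ?_)
  congr 1
  ext w
  rw [norm_mul, ee_norm, mul_one]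

lemma HH_HR {g : ℝ × ℝ → ℂ} (hg : Measurable g) (hb : ∀ w, ‖g w‖ ≤ 1) (R u t : ℝ) :
    ∫⁻ y, ‖HH g u t y - HR g R u t y‖ₑ ^ 2 ≤ ∫⁻ η in (Icc (-R) R)ᶜ, ‖ft (GG g u) η‖ₑ ^ 2 := by
  have hG := GG_bd hg hb u
  have hTc := GT_cont hg hb R u
  set D : ℝ → ℂ := fun v => wd v * (GG g u v - GT g R u v) * ee (t * v ^ 2) with hD
  have hee : Measurable (fun v : ℝ => ee (t * v ^ 2)) := by
    apply ee_meas.comp
    apply Continuous.measurable
    fun_prop
  have hDm : Measurable D := (wd_cont.measurable.mul (hG.meas.sub hTc.measurable)).mul hee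
  set C := Real.exp Real.pi + ∫ η in Icc (-R) R, ‖ft (GG g u) η‖ with hC
  have hbd : ∀ v, ‖GG g u v - GT g R u v‖ ≤ C := fun v =>
    (norm_sub_le _ _).trans (add_le_add (hG.bd v) (GT_bd g R u v))
  have h1 : Integrable D := by
    have k1 : Integrable (fun v => wd v * (GG g u v - GT g R u v)) :=
      int_mul_bd wd_int (hG.meas.sub hTc.measurable) C hbd
    apply int_mul_bd k1 hee 1
    intro v
    rw [ee_norm]
  have hDn : ∀ v, ‖D v‖ₑ ≤ ‖GG g u v - GT g R u v‖ₑ := by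
    intro v
    simp only [hD, enorm_mul, ee_enorm, mul_one]
    have : ‖wd v‖ₑ ≤ 1 := by
      rw [← ofReal_norm, ENNReal.ofReal_le_one]
      exact wd_le v
    calc _ ≤ 1 * ‖GG g u v - GT g R u v‖ₑ := mul_le_mul' this le_rfl
      _ = _ := one_mul _
  have htail := inv_tail hG R
  have hfin : ∫⁻ η in (Icc (-R) R)ᶜ, ‖ft (GG g u) η‖ₑ ^ 2 ≠ ∞ := by
    have p1 : ∫⁻ η, ‖ft (GG g u) η‖ₑ ^ 2 = ∫⁻ v, ‖GG g u v‖ₑ ^ 2 := by
      rw [← planch1 (GG g u) hG.int hG.memLp]
      have h5 := (Measure.measurePreserving_neg (volume : Measure ℝ)).lintegral_comp_emb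
        (MeasurableEquiv.neg ℝ).measurableEmbedding (fun x : ℝ => ‖∫ w, GG g u w * ee (x * w)‖ₑ ^ 2)
      rw [← h5]
      congr 1
      ext η
      unfold ft
      congr 3
      ext w
      congr 2
      ring
    refine ne_top_of_le_ne_top ?_ (setLIntegral_le_lintegral _ _)
    rw [p1, lint_sq_eq hG.memLp]
    exact ENNReal.ofReal_ne_top
  have hle : ∫⁻ v, ‖D v‖ₑ ^ 2 ≤ ∫⁻ η in (Icc (-R) R)ᶜ, ‖ft (GG g u) η‖ₑ ^ 2 := by
    refine le_trans (lintegral_mono fun v => ?_) htail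
    have := hDn v
    simp only
    unfold GT at this
    gcongr
  have h2 : MemLp D 2 := memLp2_of hDm.aestronglyMeasurable (ne_top_of_le_ne_top hfin hle)
  have e1 : ∀ y, HH g u t y - HR g R u t y = ∫ v, D v * ee (y * v) := by
    intro y
    rw [HH_eq, HR_eq hg hb]
    rw [← integral_sub]
    · congr 1
      ext v
      simp only [hD]
      ring
    · have hey : Measurable (fun v : ℝ => ee (y * v)) := ee_meas.comp (measurable_id.const_mul y)
      apply int_mul_bd (int_mul_bd (int_mul_bd wd_int hG.meas _ hG.bd) hee 1 _) hey 1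
      · intro v; rw [ee_norm]
      · intro v; rw [ee_norm]
    · have hey : Measurable (fun v : ℝ => ee (y * v)) := ee_meas.comp (measurable_id.const_mul y)
      apply int_mul_bd (int_mul_bd (int_mul_bd wd_int hTc.measurable _ (GT_bd g R u)) hee 1 _) hey 1
      · intro v; rw [ee_norm]
      · intro v; rw [ee_norm]
  simp only [e1]
  rw [planch1 D h1 h2]
  exact hle

lemma HH_sq {g : ℝ × ℝ → ℂ} (hg : Measurable g) (hb : ∀ w, ‖g w‖ ≤ 1) (u t : ℝ) :
    ∫⁻ y, ‖HH g u t y‖ₑ ^ 2 ≤ 2 := by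
  have hee : Measurable (fun v : ℝ => ee (t * v ^ 2)) := by
    apply ee_meas.comp
    apply Continuous.measurable
    fun_prop
  set D : ℝ → ℂ := fun v => (Icc (-1 : ℝ) 1).indicator (fun v => g (u, v)) v * ee (t * v ^ 2) with hD
  have hBd : Bd 1 D := by
    refine ⟨?_, ?_, ?_⟩
    · exact ((hg.comp (measurable_const.prodMk measurable_id)).indicator measurableSet_Icc).mul hee
    · intro v
      simp only [hD, norm_mul, ee_norm, mul_one]
      by_cases hv : v ∈ Icc (-1 : ℝ) 1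
      · rw [indicator_of_mem hv]; exact hb _
      · rw [indicator_of_notMem hv, norm_zero]; exact zero_le_one
    · intro v hv
      simp only [hD]
      rw [indicator_of_notMem hv, zero_mul]
  have e1 : ∀ y, HH g u t y = ∫ v, D v * ee (y * v) := by
    intro y
    rw [HH_eq]
    congr 1
    ext v
    rw [wd_GG]
  simp only [e1]
  rw [L2_id hBd]
  calc ∫⁻ v, ‖D v‖ₑ ^ 2 ≤ ∫⁻ v, (Icc (-1 : ℝ) 1).indicator (fun _ => 1) v := by
        apply lintegral_mono
        intro v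
        simp only
        by_cases hv : v ∈ Icc (-1 : ℝ) 1
        · rw [indicator_of_mem hv]
          have : ‖D v‖ₑ ≤ 1 := by
            rw [← ofReal_norm, ENNReal.ofReal_le_one]
            exact hBd.bd v
          exact pow_le_one' this 2
        · rw [hBd.z v hv, indicator_of_notMem hv]
          simp
    _ = 2 := by
        rw [lintegral_indicator measurableSet_Icc, setLIntegral_const, one_mul, Real.volume_Icc]
        norm_num

lemma HH_le {g : ℝ × ℝ → ℂ} (hb : ∀ w, ‖g w‖ ≤ 1) (u t y : ℝ) : ‖HH g u t y‖ ≤ 2 := by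
  unfold HH
  have h := norm_setIntegral_le_of_norm_le_const (μ := (volume : Measure ℝ)) (s := Icc (-1 : ℝ) 1)
    (f := fun v => g (u, v) * ee (y * v + t * v ^ 2)) (C := 1) (by simp) (by
      intro v _
      rw [norm_mul, ee_norm, mul_one]
      exact hb _)
  refine h.trans ?_
  simp [Measure.real, Real.volume_Icc]
  norm_num

/-- fibre functions with decaying Fourier transform -/
structure Gd (K : ℝ) (g : ℝ × ℝ → ℂ) : Prop where
  meas : Measurable g
  bd : ∀ w, ‖g w‖ ≤ 1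
  hat : ∀ u η, ‖ft (GG g u) η‖ ≤ K * (1 + |η|)⁻¹

/-- the weight -/
noncomputable def ww (η : ℝ) : ℝ≥0∞ := ENNReal.ofReal ((1 + |η|)⁻¹)

lemma ww_meas : Measurable ww := by
  unfold ww
  apply ENNReal.measurable_ofReal.comp
  apply Measurable.inv
  exact measurable_const.add measurable_norm

lemma ww_ne (η : ℝ) : ww η ≠ 0 := by
  unfold ww
  have : 0 < (1 + |η|)⁻¹ := by positivity
  simpa using this

lemma ww_ne_top (η : ℝ) : ww η ≠ ∞ := ENNReal.ofReal_ne_top

lemma Gd.K0 {K : ℝ} {g : ℝ × ℝ → ℂ} (h : Gd K g) : 0 ≤ K := by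
  have h1 := (norm_nonneg _).trans (h.hat 0 0)
  simpa using h1

lemma Gd.ehat {K : ℝ} {g : ℝ × ℝ → ℂ} (h : Gd K g) (u η : ℝ) :
    ‖ft (GG g u) η‖ₑ ≤ ENNReal.ofReal K * ww η := by
  unfold ww
  rw [← ENNReal.ofReal_mul h.K0, ← ofReal_norm]
  exact ENNReal.ofReal_le_ofReal (h.hat u η)

lemma tail_le {K : ℝ} {g : ℝ × ℝ → ℂ} (h : Gd K g) (u : ℝ) {R : ℝ} (hR : 0 < R) :
    ∫⁻ η in (Icc (-R) R)ᶜ, ‖ft (GG g u) η‖ₑ ^ 2 ≤ ENNReal.ofReal (2 * K ^ 2 * R⁻¹) := by
  have hK := h.K0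
  have h1 : ∀ η : ℝ, η ≠ 0 → ‖ft (GG g u) η‖ₑ ^ 2 ≤ ENNReal.ofReal (K ^ 2 * |η| ^ (-2 : ℝ)) := by
    intro η h0
    rw [← ofReal_norm, ← ENNReal.ofReal_pow (norm_nonneg _)]
    apply ENNReal.ofReal_le_ofReal
    have h2 := h.hat u η
    have h3 : 0 < |η| := abs_pos.mpr h0
    calc ‖ft (GG g u) η‖ ^ 2 ≤ (K * (1 + |η|)⁻¹) ^ 2 := pow_le_pow_left₀ (norm_nonneg _) h2 2
      _ ≤ (K * |η|⁻¹) ^ 2 := by
          gcongr
          linarith
      _ = _ := by
          rw [mul_pow, Real.rpow_neg h3.le, inv_pow]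
          norm_num
  have hI : ∫⁻ η in Ioi R, ENNReal.ofReal (K ^ 2 * |η| ^ (-2 : ℝ)) = ENNReal.ofReal (K ^ 2 * R⁻¹) := by
    have e1 : ∫⁻ η in Ioi R, ENNReal.ofReal (K ^ 2 * |η| ^ (-2 : ℝ)) =
        ∫⁻ η in Ioi R, ENNReal.ofReal (K ^ 2 * η ^ (-2 : ℝ)) := by
      apply setLIntegral_congr_fun measurableSet_Ioi
      intro η hη
      simp only
      rw [abs_of_pos (hR.trans hη)]
    have hi := (integrableOn_Ioi_rpow_of_lt (by norm_num : (-2 : ℝ) < -1) hR).const_mul (K ^ 2)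
    rw [e1, ← ofReal_integral_eq_lintegral_ofReal hi, integral_const_mul,
      integral_Ioi_rpow_of_lt (by norm_num : (-2 : ℝ) < -1) hR]
    · congr 2
      norm_num
      rw [Real.rpow_neg_one]
    · filter_upwards [ae_restrict_mem measurableSet_Ioi] with η hη
      have h2 : 0 ≤ η ^ (-2 : ℝ) := Real.rpow_nonneg (hR.trans hη).le _
      have h3 : 0 ≤ K ^ 2 * η ^ (-2 : ℝ) := by positivity
      exact h3
  have hJ : ∫⁻ η in Iio (-R), ENNReal.ofReal (K ^ 2 * |η| ^ (-2 : ℝ)) =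
      ∫⁻ η in Ioi R, ENNReal.ofReal (K ^ 2 * |η| ^ (-2 : ℝ)) := by
    rw [← lintegral_indicator measurableSet_Ioi, ← lintegral_indicator measurableSet_Iio,
      ← lintegral_neg_eq_self (fun η => (Ioi R).indicator
        (fun η => ENNReal.ofReal (K ^ 2 * |η| ^ (-2 : ℝ))) η)]
    congr 1
    ext η
    by_cases hx : η ∈ Iio (-R)
    · rw [indicator_of_mem hx, indicator_of_mem (show -η ∈ Ioi R from by
        have : η < -R := hx
        show R < -η
        linarith), abs_neg]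
    · rw [indicator_of_notMem hx, indicator_of_notMem]
      intro hc
      apply hx
      have : R < -η := hc
      show η < -R
      linarith
  have hS : (Icc (-R) R)ᶜ ⊆ Iio (-R) ∪ Ioi R := by
    intro η hη
    by_contra hc
    simp only [mem_union, mem_Iio, mem_Ioi, not_or, not_lt] at hc
    exact hη ⟨hc.1, hc.2⟩
  have hnz : ∀ η ∈ Iio (-R) ∪ Ioi R, η ≠ 0 := by
    intro η hη h0
    subst h0
    rcases hη with h | h
    · have : (0 : ℝ) < -R := h
      linarith
    · have : R < 0 := h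
      linarith
  calc ∫⁻ η in (Icc (-R) R)ᶜ, ‖ft (GG g u) η‖ₑ ^ 2 ≤
        ∫⁻ η in Iio (-R) ∪ Ioi R, ‖ft (GG g u) η‖ₑ ^ 2 := lintegral_mono_set hS
    _ ≤ ∫⁻ η in Iio (-R) ∪ Ioi R, ENNReal.ofReal (K ^ 2 * |η| ^ (-2 : ℝ)) :=
        setLIntegral_mono' (measurableSet_Iio.union measurableSet_Ioi) fun η hη => h1 η (hnz η hη)
    _ ≤ (∫⁻ η in Iio (-R), ENNReal.ofReal (K ^ 2 * |η| ^ (-2 : ℝ))) +
        ∫⁻ η in Ioi R, ENNReal.ofReal (K ^ 2 * |η| ^ (-2 : ℝ)) := lintegral_union_le _ _ _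
    _ = ENNReal.ofReal (K ^ 2 * R⁻¹) + ENNReal.ofReal (K ^ 2 * R⁻¹) := by rw [hJ, hI]
    _ = _ := by
        rw [← ENNReal.ofReal_add (by positivity) (by positivity)]
        congr 1
        ring

/-- the integral of the weight -/
noncomputable def WR (R : ℝ) : ℝ≥0∞ := ∫⁻ η in Icc (-R) R, ww η

lemma WR_le (δ : ℝ) (hδ : 0 < δ) (hδ1 : δ ≤ 1) : ∃ C : ℝ≥0, ∀ R : ℝ, 1 ≤ R →
    WR R ≤ C * ENNReal.ofReal (R ^ δ) := by
  have hi : Integrable (fun η : ℝ => (1 + ‖η‖) ^ (-(1 + δ))) := by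
    apply integrable_one_add_norm
    simpa using hδ
  set c : ℝ := ∫ η : ℝ, (1 + ‖η‖) ^ (-(1 + δ)) with hc
  have hc0 : 0 ≤ c := integral_nonneg fun η => by positivity
  refine ⟨(2 * c).toNNReal, ?_⟩
  intro R hR
  have hR0 : 0 < R := by linarith
  unfold WR
  calc ∫⁻ η in Icc (-R) R, ww η ≤
        ∫⁻ η in Icc (-R) R, ENNReal.ofReal ((2 * R ^ δ) * (1 + ‖η‖) ^ (-(1 + δ))) := by
        apply setLIntegral_mono' measurableSet_Icc
        intro η hη
        unfold ww
        apply ENNReal.ofReal_le_ofReal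
        have h1 : |η| ≤ R := abs_le.mpr hη
        have h0 : 0 < 1 + |η| := by positivity
        rw [Real.norm_eq_abs]
        have e1 : (1 + |η|)⁻¹ = (1 + |η|) ^ δ * (1 + |η|) ^ (-(1 + δ)) := by
          rw [← Real.rpow_add h0, show δ + -(1 + δ) = -1 by ring, Real.rpow_neg_one]
        rw [e1]
        apply mul_le_mul_of_nonneg_right _ (by positivity)
        calc (1 + |η|) ^ δ ≤ (2 * R) ^ δ := Real.rpow_le_rpow h0.le (by linarith) hδ.le
          _ = 2 ^ δ * R ^ δ := Real.mul_rpow (by norm_num) hR0.le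
          _ ≤ 2 * R ^ δ := by
              apply mul_le_mul_of_nonneg_right _ (by positivity)
              calc (2 : ℝ) ^ δ ≤ 2 ^ (1 : ℝ) := Real.rpow_le_rpow_of_exponent_le (by norm_num) hδ1
                _ = 2 := Real.rpow_one 2
    _ ≤ ∫⁻ η, ENNReal.ofReal ((2 * R ^ δ) * (1 + ‖η‖) ^ (-(1 + δ))) := setLIntegral_le_lintegral _ _
    _ = ENNReal.ofReal ((2 * R ^ δ) * c) := by
        rw [← ofReal_integral_eq_lintegral_ofReal (hi.const_mul _) (ae_of_all _ fun η => by positivity),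
          integral_const_mul]
    _ = _ := by
        rw [show 2 * R ^ δ * c = (2 * c) * R ^ δ by ring, ENNReal.ofReal_mul (by positivity)]
        rfl

lemma WR_ne_top (R : ℝ) : WR R ≠ ∞ := by
  unfold WR
  have h : ∫⁻ η in Icc (-R) R, ww η ≤ ∫⁻ η in Icc (-R) R, 1 := by
    apply lintegral_mono
    intro η
    unfold ww
    rw [ENNReal.ofReal_le_one]
    apply inv_le_one_of_one_le₀
    linarith [abs_nonneg η]
  refine ne_top_of_le_ne_top ?_ h
  simp

lemma HR_le {K : ℝ} {g : ℝ × ℝ → ℂ} (h : Gd K g) (R u t y : ℝ) :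
    ‖HR g R u t y‖ₑ ≤ ENNReal.ofReal K * WR R := by
  unfold HR WR
  refine (enorm_integral_le_lintegral_enorm _).trans ?_
  rw [← lintegral_const_mul _ ww_meas]
  apply lintegral_mono
  intro η
  simp only
  rw [enorm_mul]
  calc _ ≤ ENNReal.ofReal K * ww η * 1 := mul_le_mul' (h.ehat u η) (gk_ele _ _)
    _ = _ := mul_one _

lemma sq_add_le3 (x y : ℝ≥0∞) : (x + y) ^ 2 ≤ 3 * (x ^ 2 + y ^ 2) := by
  have h := mul_le_sq x y
  calc (x + y) ^ 2 = (x ^ 2 + y ^ 2) + 2 * (x * y) := by ring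
    _ ≤ (x ^ 2 + y ^ 2) + 2 * (x ^ 2 + y ^ 2) := by gcongr
    _ = _ := by ring

lemma pow4_add_le (x y : ℝ≥0∞) : (x + y) ^ 4 ≤ 27 * (x ^ 4 + y ^ 4) := by
  calc (x + y) ^ 4 = ((x + y) ^ 2) ^ 2 := by ring
    _ ≤ (3 * (x ^ 2 + y ^ 2)) ^ 2 := by
        gcongr
        exact sq_add_le3 x y
    _ = 9 * (x ^ 2 + y ^ 2) ^ 2 := by ring
    _ ≤ 9 * (3 * ((x ^ 2) ^ 2 + (y ^ 2) ^ 2)) := by
        gcongr
        exact sq_add_le3 _ _
    _ = _ := by ring

lemma HH_meas {g : ℝ × ℝ → ℂ} (hg : Measurable g) :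
    Measurable (fun w : ℝ × (ℝ × ℝ) => HH g w.1 w.2.1 w.2.2) := by
  unfold HH
  apply StronglyMeasurable.measurable
  apply StronglyMeasurable.integral_prod_right' (f := fun w : (ℝ × (ℝ × ℝ)) × ℝ =>
    g (w.1.1, w.2) * ee (w.1.2.2 * w.2 + w.1.2.1 * w.2 ^ 2))
  apply Measurable.stronglyMeasurable
  apply Measurable.mul
  · exact hg.comp ((measurable_fst.comp measurable_fst).prodMk measurable_snd)
  · apply ee_meas.comp
    apply Continuous.measurable
    fun_prop

lemma ft_meas {g : ℝ × ℝ → ℂ} (hg : Measurable g) :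
    Measurable (fun w : ℝ × ℝ => ft (GG g w.1) w.2) := by
  unfold ft
  apply StronglyMeasurable.measurable
  apply StronglyMeasurable.integral_prod_right' (f := fun w : (ℝ × ℝ) × ℝ =>
    GG g w.1.1 w.2 * ee (-(w.1.2 * w.2)))
  apply Measurable.stronglyMeasurable
  apply Measurable.mul
  · exact (GG_meas hg).comp ((measurable_fst.comp measurable_fst).prodMk measurable_snd)
  · apply ee_meas.comp
    apply Continuous.measurable
    fun_prop

lemma HR_meas {g : ℝ × ℝ → ℂ} (hg : Measurable g) (R : ℝ) :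
    Measurable (fun w : ℝ × (ℝ × ℝ) => HR g R w.1 w.2.1 w.2.2) := by
  unfold HR
  apply StronglyMeasurable.measurable
  apply StronglyMeasurable.integral_prod_right' (f := fun w : (ℝ × (ℝ × ℝ)) × ℝ =>
    ft (GG g w.1.1) w.2 * gk w.1.2.1 (w.1.2.2 + w.2))
  apply Measurable.stronglyMeasurable
  apply Measurable.mul
  · exact (ft_meas hg).comp ((measurable_fst.comp measurable_fst).prodMk measurable_snd)
  · apply gk_meas'
    · exact measurable_fst.comp (measurable_snd.comp measurable_fst)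
    · exact (measurable_snd.comp (measurable_snd.comp measurable_fst)).add measurable_snd

lemma HR_sq {K : ℝ} {g : ℝ × ℝ → ℂ} (h : Gd K g) {R : ℝ} (hR : 1 ≤ R) (u t : ℝ) :
    ∫⁻ y, ‖HR g R u t y‖ₑ ^ 2 ≤ 3 * (2 + ENNReal.ofReal (2 * K ^ 2)) := by
  have hR0 : 0 < R := by linarith
  have hm : Measurable (fun y => ‖HH g u t y‖ₑ ^ 2) := by
    have h1 : Measurable (fun y : ℝ => (u, (t, y))) :=
      measurable_const.prodMk (measurable_const.prodMk measurable_id)
    have h2 := (HH_meas h.meas).comp h1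
    exact h2.enorm.pow_const 2
  have h1 : ∀ y, ‖HR g R u t y‖ₑ ^ 2 ≤ 3 * (‖HH g u t y‖ₑ ^ 2 + ‖HH g u t y - HR g R u t y‖ₑ ^ 2) := by
    intro y
    refine le_trans ?_ (sq_add_le3 _ _)
    have e : HR g R u t y = HH g u t y - (HH g u t y - HR g R u t y) := by ring
    gcongr
    conv_lhs => rw [e]
    exact enorm_sub_le
  calc ∫⁻ y, ‖HR g R u t y‖ₑ ^ 2 ≤
        ∫⁻ y, 3 * (‖HH g u t y‖ₑ ^ 2 + ‖HH g u t y - HR g R u t y‖ₑ ^ 2) := lintegral_mono h1
    _ = 3 * ((∫⁻ y, ‖HH g u t y‖ₑ ^ 2) + ∫⁻ y, ‖HH g u t y - HR g R u t y‖ₑ ^ 2) := by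
        rw [lintegral_const_mul' _ _ (by norm_num), lintegral_add_left hm]
    _ ≤ _ := by
        gcongr
        · exact HH_sq h.meas h.bd u t
        · refine (HH_HR h.meas h.bd R u t).trans ((tail_le h u hR0).trans ?_)
          apply ENNReal.ofReal_le_ofReal
          have : R⁻¹ ≤ 1 := inv_le_one_of_one_le₀ hR
          have h0 : 0 ≤ 2 * K ^ 2 := by positivity
          nlinarith

end Pool.Agent.W771.NN
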