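import Mathlib
import Pool.Agent.W771.NH
set_option autoImplicit false

/-! Multiplier operators in the rough variable, differences of products. -/

namespace Pool.Agent.W771.NN
open MeasureTheory Set Complex
open scoped ENNReal NNReal

variable {m : ℕ}

/-- the index which differs -/
noncomputable def cij {ι : Type*} [DecidableEq ι] (a b : ι → ℝ≥0∞) (d : ι → ℝ≥0∞) (i j : ι) : ℝ≥0∞ :=
  if j = i then d i else a j + b j

lemma prod_sub_le {ι : Type*} [DecidableEq ι] (a b : ι → ℂ) (s : Finset ι) :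
    ‖∏ j ∈ s, a j - ∏ j ∈ s, b j‖ₑ ≤
      ∑ i ∈ s, ∏ j ∈ s, cij (fun j => ‖a j‖ₑ) (fun j => ‖b j‖ₑ) (fun j => ‖a j - b j‖ₑ) i j := by
  have nprod : ∀ (c : ι → ℂ) (s : Finset ι), ‖∏ j ∈ s, c j‖ₑ = ∏ j ∈ s, ‖c j‖ₑ := by
    intro c s
    rw [← ofReal_norm, norm_prod, ENNReal.ofReal_prod_of_nonneg (fun _ _ => norm_nonneg _)]
    simp only [ofReal_norm]
  induction s using Finset.induction_on with
  | empty => simp
  | insert k s hk ih =>
    rw [Finset.prod_insert hk, Finset.prod_insert hk, Finset.sum_insert hk]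
    have e1 : a k * ∏ j ∈ s, a j - b k * ∏ j ∈ s, b j =
        (a k - b k) * ∏ j ∈ s, a j + b k * (∏ j ∈ s, a j - ∏ j ∈ s, b j) := by ring
    rw [e1]
    refine (enorm_add_le _ _).trans (add_le_add ?_ ?_)
    · rw [enorm_mul, nprod, Finset.prod_insert hk]
      apply mul_le_mul'
      · unfold cij
        rw [if_pos rfl]
      · apply Finset.prod_le_prod'
        intro j hj
        unfold cij
        rw [if_neg (by rintro rfl; exact hk hj)]
        exact le_self_add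
    · rw [enorm_mul]
      refine (mul_le_mul' le_rfl ih).trans ?_
      rw [Finset.mul_sum]
      apply Finset.sum_le_sum
      intro i hi
      rw [Finset.prod_insert hk]
      apply mul_le_mul' _ le_rfl
      unfold cij
      rw [if_neg (by rintro rfl; exact hk hi)]
      exact le_add_self

lemma sum_sq_le {ι : Type*} [DecidableEq ι] (x : ι → ℝ≥0∞) (s : Finset ι) :
    (∑ i ∈ s, x i) ^ 2 ≤ 3 ^ s.card * ∑ i ∈ s, x i ^ 2 := by
  induction s using Finset.induction_on with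
  | empty => simp
  | insert k s hk ih =>
    rw [Finset.sum_insert hk, Finset.sum_insert hk, Finset.card_insert_of_notMem hk]
    have h3 : (1 : ℝ≥0∞) ≤ 3 ^ s.card := one_le_pow₀ (by norm_num)
    calc (x k + ∑ i ∈ s, x i) ^ 2 ≤ 3 * (x k ^ 2 + (∑ i ∈ s, x i) ^ 2) := sq_add_le3 _ _
      _ ≤ 3 * (3 ^ s.card * x k ^ 2 + 3 ^ s.card * ∑ i ∈ s, x i ^ 2) := by
          gcongr
          calc x k ^ 2 = 1 * x k ^ 2 := (one_mul _).symm
            _ ≤ _ := mul_le_mul' h3 le_rfl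
      _ = _ := by rw [pow_succ]; ring

/-- difference of products -/
lemma prod_diff (a b : Fin m → ℝ → ℂ) (ha : ∀ j, Measurable (a j)) (hb : ∀ j, Measurable (b j))
    (P e : ℝ≥0∞) (hP : 1 ≤ P) (h1 : ∀ j, ∫⁻ y, ‖a j y‖ₑ ^ 2 ≤ P) (h2 : ∀ j, ∫⁻ y, ‖b j y‖ₑ ^ 2 ≤ P)
    (h3 : ∀ j, ∫⁻ y, ‖a j y - b j y‖ₑ ^ 2 ≤ e) :
    ∫⁻ y : Fin m → ℝ, ‖∏ j, a j (y j) - ∏ j, b j (y j)‖ₑ ^ 2 ≤ 3 ^ m * (m * (e * (6 * P) ^ m)) := by
  classical
  have hcm : ∀ i j, Measurable (fun y : ℝ => cij (fun j => ‖a j y‖ₑ) (fun j => ‖b j y‖ₑ)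
      (fun j => ‖a j y - b j y‖ₑ) i j) := by
    intro i j
    unfold cij
    split_ifs with h
    · exact ((ha i).sub (hb i)).enorm
    · exact (ha j).enorm.add (hb j).enorm
  have e0 : ∀ (y : Fin m → ℝ) (i j : Fin m), cij (fun j => ‖a j (y j)‖ₑ) (fun j => ‖b j (y j)‖ₑ)
      (fun j => ‖a j (y j) - b j (y j)‖ₑ) i j =
      cij (fun k => ‖a k (y j)‖ₑ) (fun k => ‖b k (y j)‖ₑ) (fun k => ‖a k (y j) - b k (y j)‖ₑ) i j := by
    intro y i j
    unfold cij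
    split_ifs with h
    · subst h; rfl
    · rfl
  have hb1 : ∀ y : Fin m → ℝ, ‖∏ j, a j (y j) - ∏ j, b j (y j)‖ₑ ^ 2 ≤
      3 ^ m * ∑ i, ∏ j, cij (fun k => ‖a k (y j)‖ₑ) (fun k => ‖b k (y j)‖ₑ)
        (fun k => ‖a k (y j) - b k (y j)‖ₑ) i j ^ 2 := by
    intro y
    have k1 := prod_sub_le (fun j => a j (y j)) (fun j => b j (y j)) Finset.univ
    simp only [e0] at k1
    calc _ ≤ (∑ i, ∏ j, cij (fun k => ‖a k (y j)‖ₑ) (fun k => ‖b k (y j)‖ₑ)
        (fun k => ‖a k (y j) - b k (y j)‖ₑ) i j) ^ 2 := by gcongr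
      _ ≤ _ := by
          refine (sum_sq_le _ _).trans (le_of_eq ?_)
          rw [Finset.card_univ, Fintype.card_fin]
          congr 1
          apply Finset.sum_congr rfl
          intro i _
          rw [Finset.prod_pow]
  have hint : ∀ i, ∫⁻ y : Fin m → ℝ, ∏ j, cij (fun k => ‖a k (y j)‖ₑ) (fun k => ‖b k (y j)‖ₑ)
        (fun k => ‖a k (y j) - b k (y j)‖ₑ) i j ^ 2 ≤ e * (6 * P) ^ m := by
    intro i
    rw [Pool.Agent.H728R3.SR.lint_prod m (fun j y => cij (fun k => ‖a k y‖ₑ) (fun k => ‖b k y‖ₑ)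
        (fun k => ‖a k y - b k y‖ₑ) i j ^ 2) (fun j => (hcm i j).pow_const 2)]
    have f1 : ∫⁻ y, cij (fun k => ‖a k y‖ₑ) (fun k => ‖b k y‖ₑ)
        (fun k => ‖a k y - b k y‖ₑ) i i ^ 2 ≤ e := by
      refine le_trans (le_of_eq ?_) (h3 i)
      congr 1
      ext y
      unfold cij
      rw [if_pos rfl]
    have f2 : ∀ j ∈ Finset.univ.erase i, ∫⁻ y, cij (fun k => ‖a k y‖ₑ) (fun k => ‖b k y‖ₑ)
        (fun k => ‖a k y - b k y‖ₑ) i j ^ 2 ≤ 6 * P := by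
      intro j hj
      have hji : j ≠ i := Finset.ne_of_mem_erase hj
      calc _ ≤ ∫⁻ y, 3 * (‖a j y‖ₑ ^ 2 + ‖b j y‖ₑ ^ 2) := by
            apply lintegral_mono
            intro y
            simp only
            unfold cij
            rw [if_neg hji]
            exact sq_add_le3 _ _
        _ = 3 * ((∫⁻ y, ‖a j y‖ₑ ^ 2) + ∫⁻ y, ‖b j y‖ₑ ^ 2) := by
            rw [lintegral_const_mul' _ _ (by norm_num), lintegral_add_left ((ha j).enorm.pow_const 2)]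
        _ ≤ 3 * (P + P) := by
            gcongr
            · exact h1 j
            · exact h2 j
        _ = _ := by ring
    rw [← Finset.mul_prod_erase Finset.univ _ (Finset.mem_univ i)]
    apply mul_le_mul' f1
    calc _ ≤ ∏ _j ∈ Finset.univ.erase i, 6 * P := Finset.prod_le_prod' f2
      _ = (6 * P) ^ (m - 1) := by
          rw [Finset.prod_const, Finset.card_erase_of_mem (Finset.mem_univ i), Finset.card_univ,
            Fintype.card_fin]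
      _ ≤ (6 * P) ^ m := by
          apply pow_le_pow_right₀ _ (by omega)
          calc (1 : ℝ≥0∞) = 1 * 1 := by norm_num
            _ ≤ 6 * P := mul_le_mul' (by norm_num) hP
  calc ∫⁻ y : Fin m → ℝ, ‖∏ j, a j (y j) - ∏ j, b j (y j)‖ₑ ^ 2 ≤
        ∫⁻ y : Fin m → ℝ, 3 ^ m * ∑ i, ∏ j, cij (fun k => ‖a k (y j)‖ₑ) (fun k => ‖b k (y j)‖ₑ)
        (fun k => ‖a k (y j) - b k (y j)‖ₑ) i j ^ 2 := lintegral_mono hb1
    _ = 3 ^ m * ∑ i, ∫⁻ y : Fin m → ℝ, ∏ j, cij (fun k => ‖a k (y j)‖ₑ) (fun k => ‖b k (y j)‖ₑ)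
        (fun k => ‖a k (y j) - b k (y j)‖ₑ) i j ^ 2 := by
        rw [lintegral_const_mul' _ _ (ENNReal.pow_ne_top (by norm_num)), lintegral_finsetSum]
        intro i _
        apply Finset.measurable_prod
        intro j _
        have := (hcm i j).comp (show Measurable (fun y : Fin m → ℝ => y j) from measurable_pi_apply j)
        exact this.pow_const 2
    _ ≤ 3 ^ m * ∑ _i : Fin m, e * (6 * P) ^ m := by
        gcongr with i _
        exact hint i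
    _ = _ := by
        rw [Finset.sum_const, Finset.card_univ, Fintype.card_fin, nsmul_eq_mul]

/-- space-time points: time, regular variables, rough variable -/
abbrev ZZ (m : ℕ) := ℝ × ((Fin m → ℝ) × ℝ)

/-- bounded measurable multipliers -/
structure Mu (C : ℝ≥0) (Φ : ℝ → ℝ → (Fin m → ℝ) → ℂ) : Prop where
  meas : Measurable (fun w : ℝ × (ℝ × (Fin m → ℝ)) => Φ w.1 w.2.1 w.2.2)
  bd : ∀ u t y, ‖Φ u t y‖ ≤ C

/-- the operator -/
noncomputable def FZ (Φ : ℝ → ℝ → (Fin m → ℝ) → ℂ) (A : ℝ → ℂ) (z : ZZ m) : ℂ :=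
  ∫ u, (A u * ee (z.1 * u ^ 2) * Φ u z.1 z.2.1) * ee (z.2.2 * u)

/-- the slab -/
noncomputable def mS (m : ℕ) (S : Set ℝ) : Measure (ZZ m) := (volume.restrict S).prod (volume.prod volume)

instance (S : Set ℝ) : SFinite (mS m S) := by unfold mS; infer_instance

lemma FZ_meas {C : ℝ≥0} {Φ : ℝ → ℝ → (Fin m → ℝ) → ℂ} (h : Mu C Φ) {A : ℝ → ℂ} (hA : Measurable A) :
    Measurable (FZ Φ A) := by
  unfold FZ
  apply StronglyMeasurable.measurable
  apply StronglyMeasurable.integral_prod_right' (f := fun w : ZZ m × ℝ =>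
    (A w.2 * ee (w.1.1 * w.2 ^ 2) * Φ w.2 w.1.1 w.1.2.1) * ee (w.1.2.2 * w.2))
  apply Measurable.stronglyMeasurable
  have hu : Measurable (fun w : ZZ m × ℝ => w.2) := measurable_snd
  have ht : Measurable (fun w : ZZ m × ℝ => w.1.1) := measurable_fst.comp measurable_fst
  have hy : Measurable (fun w : ZZ m × ℝ => w.1.2.1) :=
    measurable_fst.comp (measurable_snd.comp measurable_fst)
  have hx : Measurable (fun w : ZZ m × ℝ => w.1.2.2) :=
    measurable_snd.comp (measurable_snd.comp measurable_fst)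
  have h1 : Measurable (fun w : ZZ m × ℝ => Φ w.2 w.1.1 w.1.2.1) := by
    have := h.meas.comp (hu.prodMk (ht.prodMk hy))
    exact this
  exact (((hA.comp hu).mul (ee_meas.comp (ht.mul (hu.pow_const 2)))).mul h1).mul
    (ee_meas.comp (hx.mul hu))

lemma nest (f : ZZ m → ℝ≥0∞) (hf : Measurable f) (S : Set ℝ) :
    ∫⁻ z, f z ∂(mS m S) = ∫⁻ t in S, ∫⁻ y : Fin m → ℝ, ∫⁻ x : ℝ, f (t, (y, x)) := by
  unfold mS
  rw [lintegral_prod _ hf.aemeasurable]
  congr 1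
  ext t
  rw [lintegral_prod]
  exact (hf.comp (measurable_const.prodMk measurable_id)).aemeasurable

lemma FZ_bd {M : ℝ} {C : ℝ≥0} {Φ : ℝ → ℝ → (Fin m → ℝ) → ℂ} (h : Mu C Φ) {A : ℝ → ℂ} (hA : Bd M A)
    (t : ℝ) (y : Fin m → ℝ) : Bd (M * C) (fun u => A u * ee (t * u ^ 2) * Φ u t y) := by
  refine ⟨?_, ?_, ?_⟩
  · have h1 : Measurable (fun u => Φ u t y) := by
      have := h.meas.comp (measurable_id.prodMk (measurable_const.prodMk measurable_const) :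
        Measurable fun u : ℝ => (u, (t, y)))
      exact this
    exact (hA.meas.mul (ee_meas.comp ((measurable_id.pow_const 2).const_mul t))).mul h1
  · intro u
    rw [norm_mul, norm_mul, ee_norm, mul_one]
    exact mul_le_mul (hA.bd u) (h.bd u t y) (norm_nonneg _) hA.nonneg
  · intro u hu
    rw [hA.z u hu, zero_mul, zero_mul]

lemma FZ_L2x {M : ℝ} {C : ℝ≥0} {Φ : ℝ → ℝ → (Fin m → ℝ) → ℂ} (h : Mu C Φ) {A : ℝ → ℂ} (hA : Bd M A)
    (t : ℝ) (y : Fin m → ℝ) : ∫⁻ x : ℝ, ‖FZ Φ A (t, (y, x))‖ₑ ^ 2 = ∫⁻ u, ‖A u‖ₑ ^ 2 * ‖Φ u t y‖ₑ ^ 2 := by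
  have := L2_id (FZ_bd h hA t y)
  unfold FZ
  simp only
  rw [this]
  congr 1
  ext u
  rw [enorm_mul, enorm_mul, ee_enorm, mul_one, mul_pow]

lemma FZ_L2 {M : ℝ} {C : ℝ≥0} {Φ : ℝ → ℝ → (Fin m → ℝ) → ℂ} (h : Mu C Φ) {A : ℝ → ℂ} (hA : Bd M A)
    (S : Set ℝ) (c : ℝ≥0∞) (hc : ∀ u t, ∫⁻ y : Fin m → ℝ, ‖Φ u t y‖ₑ ^ 2 ≤ c) :
    ∫⁻ z, ‖FZ Φ A z‖ₑ ^ 2 ∂(mS m S) ≤ c * volume S * ∫⁻ u, ‖A u‖ₑ ^ 2 := by
  rw [nest _ ((FZ_meas h hA.meas).enorm.pow_const 2)]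
  simp only [FZ_L2x h hA]
  have hm : ∀ t, Measurable (fun w : (Fin m → ℝ) × ℝ => ‖A w.2‖ₑ ^ 2 * ‖Φ w.2 t w.1‖ₑ ^ 2) := by
    intro t
    have h1 : Measurable (fun w : (Fin m → ℝ) × ℝ => Φ w.2 t w.1) := by
      have := h.meas.comp (measurable_snd.prodMk (measurable_const.prodMk measurable_fst) :
        Measurable fun w : (Fin m → ℝ) × ℝ => (w.2, (t, w.1)))
      exact this
    exact ((hA.meas.comp measurable_snd).enorm.pow_const 2).mul (h1.enorm.pow_const 2)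
  have hin : ∀ t, ∫⁻ y : Fin m → ℝ, ∫⁻ u, ‖A u‖ₑ ^ 2 * ‖Φ u t y‖ₑ ^ 2 ≤ c * ∫⁻ u, ‖A u‖ₑ ^ 2 := by
    intro t
    rw [lintegral_lintegral_swap (hm t).aemeasurable, ← lintegral_const_mul _ (hA.meas.enorm.pow_const 2)]
    apply lintegral_mono
    intro u
    simp only
    have h1 : Measurable (fun y : Fin m → ℝ => ‖Φ u t y‖ₑ ^ 2) := by
      have := h.meas.comp (measurable_const.prodMk (measurable_const.prodMk measurable_id) :
        Measurable fun y : Fin m → ℝ => (u, (t, y)))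
      exact this.enorm.pow_const 2
    rw [lintegral_const_mul _ h1, mul_comm]
    exact mul_le_mul' (hc u t) le_rfl
  calc _ ≤ ∫⁻ _t in S, c * ∫⁻ u, ‖A u‖ₑ ^ 2 := lintegral_mono hin
    _ = _ := by
        rw [setLIntegral_const]
        ring

lemma FZ_sup {C : ℝ≥0} {Φ : ℝ → ℝ → (Fin m → ℝ) → ℂ} (h : Mu C Φ) (A : ℝ → ℂ) (z : ZZ m) :
    ‖FZ Φ A z‖ₑ ≤ C * ∫⁻ u, ‖A u‖ₑ := by
  unfold FZ
  refine (enorm_integral_le_lintegral_enorm _).trans ?_
  rw [← lintegral_const_mul' _ _ ENNReal.coe_ne_top]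
  apply lintegral_mono
  intro u
  simp only
  rw [enorm_mul, enorm_mul, enorm_mul, ee_enorm, ee_enorm, mul_one, mul_one, mul_comm]
  apply mul_le_mul' _ le_rfl
  rw [← ofReal_norm]
  have := h.bd u z.1 z.2.1
  calc ENNReal.ofReal ‖Φ u z.1 z.2.1‖ ≤ ENNReal.ofReal (C : ℝ) := ENNReal.ofReal_le_ofReal this
    _ = C := ENNReal.ofReal_coe_nnreal

lemma FZ_sub {M : ℝ} {C D : ℝ≥0} {Φ Ψ : ℝ → ℝ → (Fin m → ℝ) → ℂ} (h : Mu C Φ) (h' : Mu D Ψ)
    {A : ℝ → ℂ} (hA : Bd M A) (z : ZZ m) :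
    FZ Φ A z - FZ Ψ A z = FZ (fun u t y => Φ u t y - Ψ u t y) A z := by
  unfold FZ
  have he : Measurable (fun u : ℝ => ee (z.2.2 * u)) := ee_meas.comp (measurable_id.const_mul _)
  have i1 : Integrable (fun u => (A u * ee (z.1 * u ^ 2) * Φ u z.1 z.2.1) * ee (z.2.2 * u)) :=
    int_mul_bd (FZ_bd h hA z.1 z.2.1).int he 1 (fun u => by rw [ee_norm])
  have i2 : Integrable (fun u => (A u * ee (z.1 * u ^ 2) * Ψ u z.1 z.2.1) * ee (z.2.2 * u)) :=
    int_mul_bd (FZ_bd h' hA z.1 z.2.1).int he 1 (fun u => by rw [ee_norm])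
  rw [← integral_sub i1 i2]
  congr 1
  ext u
  ring

lemma Mu.sub {C D : ℝ≥0} {Φ Ψ : ℝ → ℝ → (Fin m → ℝ) → ℂ} (h : Mu C Φ) (h' : Mu D Ψ) :
    Mu (C + D) (fun u t y => Φ u t y - Ψ u t y) := by
  refine ⟨h.meas.sub h'.meas, ?_⟩
  intro u t y
  push_cast
  exact (norm_sub_le _ _).trans (add_le_add (h.bd u t y) (h'.bd u t y))

end Pool.Agent.W771.NN
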