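import Mathlib
import Pool.Agent.W771.NI
set_option autoImplicit false

/-! Superposition of twists: the `L⁴` bound for truncated fibre operators. -/

namespace Pool.Agent.W771.NN
open MeasureTheory Set Complex
open scoped ENNReal NNReal

variable {m : ℕ}

/-- exact multiplier -/
noncomputable def PH (g : Fin m → ℝ × ℝ → ℂ) (lam : ℝ → Fin m → ℝ) (u t : ℝ) (y : Fin m → ℝ) : ℂ :=
  ∏ j, HH (g j) u t (y j + lam u j)

/-- truncated multiplier -/
noncomputable def PR (g : Fin m → ℝ × ℝ → ℂ) (lam : ℝ → Fin m → ℝ) (R u t : ℝ) (y : Fin m → ℝ) : ℂ :=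
  ∏ j, HR (g j) R u t (y j + lam u j)

/-- Gaussian multiplier -/
noncomputable def PG (lam : ℝ → Fin m → ℝ) (u t : ℝ) (y : Fin m → ℝ) : ℂ :=
  ∏ j, gk t (y j + lam u j)

lemma trip_meas {lam : ℝ → Fin m → ℝ} (hl : Measurable lam) (j : Fin m) :
    Measurable (fun w : ℝ × (ℝ × (Fin m → ℝ)) => (w.1, (w.2.1, w.2.2 j + lam w.1 j))) := by
  refine measurable_fst.prodMk ((measurable_fst.comp measurable_snd).prodMk ?_)
  have h1 : Measurable (fun w : ℝ × (ℝ × (Fin m → ℝ)) => w.2.2 j) :=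
    (measurable_pi_apply j).comp (measurable_snd.comp measurable_snd)
  exact h1.add (lamj hl measurable_fst j)

lemma PH_mu {g : Fin m → ℝ × ℝ → ℂ} (hg : ∀ j, Measurable (g j)) (hb : ∀ j w, ‖g j w‖ ≤ 1)
    {lam : ℝ → Fin m → ℝ} (hl : Measurable lam) : Mu (2 ^ m) (PH g lam) := by
  refine ⟨?_, ?_⟩
  · unfold PH
    apply Finset.measurable_prod
    intro j _
    have := (HH_meas (hg j)).comp (trip_meas hl j)
    exact this
  · intro u t y
    unfold PH
    rw [norm_prod]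
    calc ∏ j, ‖HH (g j) u t (y j + lam u j)‖ ≤ ∏ _j : Fin m, (2 : ℝ) :=
          Finset.prod_le_prod (fun _ _ => norm_nonneg _) (fun j _ => HH_le (hb j) _ _ _)
      _ = _ := by
          rw [Finset.prod_const, Finset.card_univ, Fintype.card_fin]
          push_cast
          rfl

lemma PG_mu {lam : ℝ → Fin m → ℝ} (hl : Measurable lam) : Mu 1 (PG lam) := by
  refine ⟨?_, ?_⟩
  · unfold PG
    apply Finset.measurable_prod
    intro j _
    apply gk_meas'
    · exact measurable_fst.comp measurable_snd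
    · have := (measurable_snd.comp measurable_snd).comp (trip_meas hl j)
      exact this
  · intro u t y
    unfold PG
    rw [norm_prod]
    exact Finset.prod_le_one (fun _ _ => norm_nonneg _) (fun _ _ => gk_le _ _)

/-- constant for the truncated multiplier -/
noncomputable def cR (m : ℕ) (K R : ℝ) : ℝ≥0 := ((ENNReal.ofReal K * WR R) ^ m).toNNReal

lemma cR_eq (m : ℕ) (K R : ℝ) : (cR m K R : ℝ≥0∞) = (ENNReal.ofReal K * WR R) ^ m := by
  unfold cR
  rw [ENNReal.coe_toNNReal]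
  exact ENNReal.pow_ne_top (ENNReal.mul_ne_top ENNReal.ofReal_ne_top (WR_ne_top R))

lemma enorm_prod' {ι : Type*} (s : Finset ι) (c : ι → ℂ) : ‖∏ j ∈ s, c j‖ₑ = ∏ j ∈ s, ‖c j‖ₑ := by
  rw [← ofReal_norm, norm_prod, ENNReal.ofReal_prod_of_nonneg (fun _ _ => norm_nonneg _)]
  simp only [ofReal_norm]

lemma PR_mu {K : ℝ} {g : Fin m → ℝ × ℝ → ℂ} (hg : ∀ j, Gd K (g j)) (R : ℝ)
    {lam : ℝ → Fin m → ℝ} (hl : Measurable lam) : Mu (cR m K R) (PR g lam R) := by
  refine ⟨?_, ?_⟩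
  · unfold PR
    apply Finset.measurable_prod
    intro j _
    have := (HR_meas (hg j).meas R).comp (trip_meas hl j)
    exact this
  · intro u t y
    have h1 : ‖PR g lam R u t y‖ₑ ≤ (cR m K R : ℝ≥0∞) := by
      unfold PR
      rw [enorm_prod', cR_eq]
      calc ∏ j, ‖HR (g j) R u t (y j + lam u j)‖ₑ ≤ ∏ _j : Fin m, (ENNReal.ofReal K * WR R) :=
            Finset.prod_le_prod' (fun j _ => HR_le (hg j) R _ _ _)
        _ = _ := by rw [Finset.prod_const, Finset.card_univ, Fintype.card_fin]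
    have h2 : ENNReal.ofReal ‖PR g lam R u t y‖ ≤ ENNReal.ofReal (cR m K R : ℝ) := by
      rw [ofReal_norm, ENNReal.ofReal_coe_nnreal]
      exact h1
    exact (ENNReal.ofReal_le_ofReal_iff (cR m K R).2).mp h2

/-- the cube of frequencies -/
noncomputable def rho (m : ℕ) (R : ℝ) : Measure (Fin m → ℝ) :=
  Measure.pi (fun _ : Fin m => (volume : Measure ℝ).restrict (Icc (-R) R))

instance (m : ℕ) (R : ℝ) : IsFiniteMeasure (rho m R) := by
  unfold rho
  infer_instance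

/-- density of the superposition -/
noncomputable def AE (g : Fin m → ℝ × ℝ → ℂ) (A : ℝ → ℂ) (η : Fin m → ℝ) (u : ℝ) : ℂ :=
  A u * ∏ j, ft (GG (g j) u) (η j)

lemma AE_bd {K M : ℝ} {g : Fin m → ℝ × ℝ → ℂ} (hg : ∀ j, Gd K (g j)) {A : ℝ → ℂ} (hA : Bd M A)
    (η : Fin m → ℝ) : Bd (M * K ^ m) (AE g A η) := by
  refine ⟨?_, ?_, ?_⟩
  · unfold AE
    apply hA.meas.mul
    apply Finset.measurable_prod
    intro j _
    have := (ft_meas (hg j).meas).comp (measurable_id.prodMk measurable_const :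
      Measurable fun u : ℝ => (u, η j))
    exact this
  · intro u
    unfold AE
    rw [norm_mul, norm_prod]
    apply mul_le_mul (hA.bd u) _ (Finset.prod_nonneg fun _ _ => norm_nonneg _) hA.nonneg
    calc ∏ j, ‖ft (GG (g j) u) (η j)‖ ≤ ∏ _j : Fin m, K := by
          apply Finset.prod_le_prod (fun _ _ => norm_nonneg _)
          intro j _
          refine ((hg j).hat u (η j)).trans ?_
          have h1 : (1 + |η j|)⁻¹ ≤ 1 := inv_le_one_of_one_le₀ (by linarith [abs_nonneg (η j)])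
          have h2 := (hg j).K0
          nlinarith
      _ = _ := by rw [Finset.prod_const, Finset.card_univ, Fintype.card_fin]
  · intro u hu
    unfold AE
    rw [hA.z u hu, zero_mul]

lemma AE_le {K : ℝ} {g : Fin m → ℝ × ℝ → ℂ} (hg : ∀ j, Gd K (g j)) (A : ℝ → ℂ)
    (η : Fin m → ℝ) (u : ℝ) : ‖AE g A η u‖ₑ ≤ ‖A u‖ₑ * (ENNReal.ofReal K ^ m * ∏ j, ww (η j)) := by
  unfold AE
  rw [enorm_mul, enorm_prod']
  apply mul_le_mul' le_rfl
  calc ∏ j, ‖ft (GG (g j) u) (η j)‖ₑ ≤ ∏ j, (ENNReal.ofReal K * ww (η j)) :=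
        Finset.prod_le_prod' (fun j _ => (hg j).ehat u (η j))
    _ = _ := by rw [Finset.prod_mul_distrib, Finset.prod_const, Finset.card_univ, Fintype.card_fin]

/-- the integrand of the superposition -/
noncomputable def SP (g : Fin m → ℝ × ℝ → ℂ) (lam : ℝ → Fin m → ℝ) (A : ℝ → ℂ) (z : ZZ m)
    (η : Fin m → ℝ) : ℂ := FZ (PG (fun u j => lam u j + η j)) (AE g A η) z

lemma SP_aux_meas {g : Fin m → ℝ × ℝ → ℂ} (hg : ∀ j, Measurable (g j)) {lam : ℝ → Fin m → ℝ}
    (hl : Measurable lam) {A : ℝ → ℂ} (hA : Measurable A) :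
    Measurable (fun w : (ZZ m × (Fin m → ℝ)) × ℝ =>
      (AE g A w.1.2 w.2 * ee (w.1.1.1 * w.2 ^ 2) *
        PG (fun u j => lam u j + w.1.2 j) w.2 w.1.1.1 w.1.1.2.1) * ee (w.1.1.2.2 * w.2)) := by
  have hu : Measurable (fun w : (ZZ m × (Fin m → ℝ)) × ℝ => w.2) := measurable_snd
  have hη : ∀ j, Measurable (fun w : (ZZ m × (Fin m → ℝ)) × ℝ => w.1.2 j) := fun j =>
    (measurable_pi_apply j).comp (measurable_snd.comp measurable_fst)
  have ht : Measurable (fun w : (ZZ m × (Fin m → ℝ)) × ℝ => w.1.1.1) :=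
    measurable_fst.comp (measurable_fst.comp measurable_fst)
  have hy : ∀ j, Measurable (fun w : (ZZ m × (Fin m → ℝ)) × ℝ => w.1.1.2.1 j) := fun j =>
    (measurable_pi_apply j).comp (measurable_fst.comp (measurable_snd.comp
      (measurable_fst.comp measurable_fst)))
  have hx : Measurable (fun w : (ZZ m × (Fin m → ℝ)) × ℝ => w.1.1.2.2) :=
    measurable_snd.comp (measurable_snd.comp (measurable_fst.comp measurable_fst))
  have h1 : Measurable (fun w : (ZZ m × (Fin m → ℝ)) × ℝ => AE g A w.1.2 w.2) := by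
    unfold AE
    apply (hA.comp hu).mul
    apply Finset.measurable_prod
    intro j _
    have := (ft_meas (hg j)).comp (hu.prodMk (hη j))
    exact this
  have h2 : Measurable (fun w : (ZZ m × (Fin m → ℝ)) × ℝ =>
      PG (fun u j => lam u j + w.1.2 j) w.2 w.1.1.1 w.1.1.2.1) := by
    unfold PG
    apply Finset.measurable_prod
    intro j _
    exact gk_meas' ht ((hy j).add ((lamj hl hu j).add (hη j)))
  exact ((h1.mul (ee_meas.comp (ht.mul (hu.pow_const 2)))).mul h2).mul (ee_meas.comp (hx.mul hu))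

lemma SP_meas {g : Fin m → ℝ × ℝ → ℂ} (hg : ∀ j, Measurable (g j)) {lam : ℝ → Fin m → ℝ}
    (hl : Measurable lam) {A : ℝ → ℂ} (hA : Measurable A) :
    Measurable (fun w : ZZ m × (Fin m → ℝ) => SP g lam A w.1 w.2) := by
  unfold SP FZ
  apply StronglyMeasurable.measurable
  apply StronglyMeasurable.integral_prod_right' (f := fun w : (ZZ m × (Fin m → ℝ)) × ℝ =>
      (AE g A w.1.2 w.2 * ee (w.1.1.1 * w.2 ^ 2) *
        PG (fun u j => lam u j + w.1.2 j) w.2 w.1.1.1 w.1.1.2.1) * ee (w.1.1.2.2 * w.2))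
  exact (SP_aux_meas hg hl hA).stronglyMeasurable

/-- the superposition -/
lemma FZ_PR {K M : ℝ} {g : Fin m → ℝ × ℝ → ℂ} (hg : ∀ j, Gd K (g j)) (R : ℝ)
    {lam : ℝ → Fin m → ℝ} (hl : Measurable lam) {A : ℝ → ℂ} (hA : Bd M A) (z : ZZ m) :
    FZ (PR g lam R) A z = ∫ η, SP g lam A z η ∂(rho m R) := by
  have e1 : ∀ u, PR g lam R u z.1 z.2.1 = ∫ η, ∏ j, (ft (GG (g j) u) (η j) *
      gk z.1 (z.2.1 j + lam u j + η j)) ∂(rho m R) := by
    intro u
    unfold PR HR rho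
    rw [integral_fintype_prod_eq_prod (fun j η => ft (GG (g j) u) η * gk z.1 (z.2.1 j + lam u j + η))]
  have e2 : ∀ u, (A u * ee (z.1 * u ^ 2) * PR g lam R u z.1 z.2.1) * ee (z.2.2 * u) =
      ∫ η, (AE g A η u * ee (z.1 * u ^ 2) * PG (fun u j => lam u j + η j) u z.1 z.2.1) *
        ee (z.2.2 * u) ∂(rho m R) := by
    intro u
    rw [e1, ← integral_const_mul, ← integral_mul_const]
    congr 1
    ext η
    unfold AE PG
    rw [Finset.prod_mul_distrib]
    simp only [add_assoc]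
    ring
  have hm := SP_aux_meas (fun j => (hg j).meas) hl hA.meas
  have hm2 : Measurable (fun w : ℝ × (Fin m → ℝ) => (AE g A w.2 w.1 * ee (z.1 * w.1 ^ 2) *
      PG (fun u j => lam u j + w.2 j) w.1 z.1 z.2.1) * ee (z.2.2 * w.1)) := by
    have h1 : Measurable (fun w : ℝ × (Fin m → ℝ) => (((z, w.2), w.1) : (ZZ m × (Fin m → ℝ)) × ℝ)) :=
      (measurable_const.prodMk measurable_snd).prodMk measurable_fst
    have h2 := hm.comp h1
    exact h2
  have hint : Integrable (fun w : ℝ × (Fin m → ℝ) => (AE g A w.2 w.1 * ee (z.1 * w.1 ^ 2) *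
      PG (fun u j => lam u j + w.2 j) w.1 z.1 z.2.1) * ee (z.2.2 * w.1)) (volume.prod (rho m R)) := by
    have h1 : Integrable (fun w : ℝ × (Fin m → ℝ) => A w.1 * 1) (volume.prod (rho m R)) :=
      hA.int.mul_prod (integrable_const (1 : ℂ))
    have h2 : Integrable (fun w : ℝ × (Fin m → ℝ) => K ^ m * ‖A w.1 * 1‖) (volume.prod (rho m R)) :=
      h1.norm.const_mul _
    refine h2.mono' hm2.aestronglyMeasurable (ae_of_all _ fun w => ?_)
    rw [norm_mul, norm_mul, norm_mul, ee_norm, ee_norm, mul_one, mul_one]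
    have h3 : ‖AE g A w.2 w.1‖ ≤ ‖A w.1‖ * K ^ m := by
      unfold AE
      rw [norm_mul, norm_prod]
      apply mul_le_mul_of_nonneg_left _ (norm_nonneg _)
      calc ∏ j, ‖ft (GG (g j) w.1) (w.2 j)‖ ≤ ∏ _j : Fin m, K := by
            apply Finset.prod_le_prod (fun _ _ => norm_nonneg _)
            intro j _
            refine ((hg j).hat w.1 (w.2 j)).trans ?_
            have h1 : (1 + |w.2 j|)⁻¹ ≤ 1 := inv_le_one_of_one_le₀ (by linarith [abs_nonneg (w.2 j)])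
            have h2 := (hg j).K0
            nlinarith
        _ = _ := by rw [Finset.prod_const, Finset.card_univ, Fintype.card_fin]
    have h4 : ‖PG (fun u j => lam u j + w.2 j) w.1 z.1 z.2.1‖ ≤ 1 := by
      unfold PG
      rw [norm_prod]
      exact Finset.prod_le_one (fun _ _ => norm_nonneg _) (fun _ _ => gk_le _ _)
    calc _ ≤ (‖A w.1‖ * K ^ m) * 1 := mul_le_mul h3 h4 (norm_nonneg _)
          ((norm_nonneg _).trans h3)
      _ = _ := by rw [mul_one, mul_one]; ring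
  unfold FZ SP
  simp only [e2]
  rw [integral_integral_swap hint]
  rfl

/-- weighted Hölder inequality -/
lemma holder4 {X : Type*} [MeasurableSpace X] (μ : Measure X) (w f : X → ℝ≥0∞) (hw : Measurable w)
    (hf : Measurable f) (h0 : ∀ x, w x ≠ 0) (ht : ∀ x, w x ≠ ∞) :
    (∫⁻ x, f x ∂μ) ^ 4 ≤ (∫⁻ x, w x ∂μ) ^ 3 * ∫⁻ x, (w x)⁻¹ ^ 3 * f x ^ 4 ∂μ := by
  have hpq : Real.HolderConjugate 4 (4 / 3) := by
    rw [Real.holderConjugate_iff]
    norm_num
  have h := ENNReal.lintegral_mul_le_Lp_mul_Lq μ hpq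
    (f := fun x => (w x)⁻¹ ^ (3 / 4 : ℝ) * f x) (g := fun x => w x ^ (3 / 4 : ℝ))
    ((hw.inv.pow_const _).mul hf).aemeasurable (hw.pow_const _).aemeasurable
  have e1 : ∀ x, ((fun x => (w x)⁻¹ ^ (3 / 4 : ℝ) * f x) * fun x => w x ^ (3 / 4 : ℝ)) x = f x := by
    intro x
    simp only [Pi.mul_apply]
    have : (w x)⁻¹ ^ (3 / 4 : ℝ) * w x ^ (3 / 4 : ℝ) = 1 := by
      rw [← ENNReal.mul_rpow_of_nonneg _ _ (by norm_num), ENNReal.inv_mul_cancel (h0 x) (ht x),
        ENNReal.one_rpow]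
    calc _ = ((w x)⁻¹ ^ (3 / 4 : ℝ) * w x ^ (3 / 4 : ℝ)) * f x := by ring
      _ = f x := by rw [this, one_mul]
  have e2 : ∀ x, ((w x)⁻¹ ^ (3 / 4 : ℝ) * f x) ^ (4 : ℝ) = (w x)⁻¹ ^ 3 * f x ^ 4 := by
    intro x
    rw [ENNReal.mul_rpow_of_nonneg _ _ (by norm_num), ← ENNReal.rpow_mul]
    norm_num
  have e3 : ∀ x, (w x ^ (3 / 4 : ℝ)) ^ (4 / 3 : ℝ) = w x := by
    intro x
    rw [← ENNReal.rpow_mul]
    norm_num
  simp only [e1, e2, e3] at h
  calc (∫⁻ x, f x ∂μ) ^ 4 ≤ ((∫⁻ x, (w x)⁻¹ ^ 3 * f x ^ 4 ∂μ) ^ (1 / 4 : ℝ) *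
        (∫⁻ x, w x ∂μ) ^ (1 / (4 / 3) : ℝ)) ^ 4 := by gcongr
    _ = _ := by
        rw [mul_pow, ← ENNReal.rpow_natCast, ← ENNReal.rpow_mul, ← ENNReal.rpow_natCast,
          ← ENNReal.rpow_mul]
        norm_num
        rw [mul_comm]

end Pool.Agent.W771.NN
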