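import Mathlib
import Pool.Agent.W771.NJ
set_option autoImplicit false

/-! The `L⁴` bound on time slabs for superpositions and for exact fibre operators. -/

namespace Pool.Agent.W771.NN
open MeasureTheory Set Complex
open scoped ENNReal NNReal

variable {m : ℕ}

lemma rho_w (m : ℕ) (R : ℝ) : ∫⁻ η, ∏ j, ww (η j) ∂(rho m R) = WR R ^ m := by
  unfold rho
  rw [← Measure.restrict_pi_pi, ← lintegral_indicator (MeasurableSet.univ_pi fun _ => measurableSet_Icc)]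
  have e : ∀ η : Fin m → ℝ, (Set.pi univ fun _ : Fin m => Icc (-R) R).indicator
      (fun η : Fin m → ℝ => ∏ j, ww (η j)) η = ∏ j, (Icc (-R) R).indicator ww (η j) := by
    intro η
    by_cases h : η ∈ Set.pi univ fun _ : Fin m => Icc (-R) R
    · rw [indicator_of_mem h]
      apply Finset.prod_congr rfl
      intro j _
      rw [indicator_of_mem (h j (mem_univ j))]
    · rw [indicator_of_notMem h]
      simp only [Set.mem_pi, mem_univ, true_implies, not_forall] at h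
      obtain ⟨j, hj⟩ := h
      symm
      apply Finset.prod_eq_zero (Finset.mem_univ j)
      rw [indicator_of_notMem hj]
  simp only [e]
  have := Pool.Agent.H728R3.SR.lint_prod m (fun _ => (Icc (-R) R).indicator ww)
    (fun _ => ww_meas.indicator measurableSet_Icc)
  rw [← volume_pi, this, Finset.prod_const, Finset.card_univ, Fintype.card_fin,
    lintegral_indicator measurableSet_Icc]
  rfl

lemma FZ_PG_FF (A : ℝ → ℂ) (lam : ℝ → Fin m → ℝ) (t : ℝ) (y : Fin m → ℝ) (x : ℝ) :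
    FZ (PG lam) A (t, (y, x)) = FF A lam x y t := rfl

/-- `L⁴` for one twist, product form -/
lemma L4_PG {A : ℝ → ℂ} {M : ℝ} (hA : Bd M A) {lam : ℝ → Fin m → ℝ} (hl : Measurable lam)
    (hc : Ch lam) (T ε : ℝ) (hT : 1 ≤ T) (hε : 0 < ε) (hε1 : ε < 1) :
    ∫⁻ z, ‖FZ (PG lam) A z‖ₑ ^ 4 ∂(mS m (Icc T (2 * T))) ≤
    ENNReal.ofReal ((m + 6) * T ^ (-(m : ℝ) + ε)) * (4 * (∫⁻ x, kk ε x) ^ 2 * ∫⁻ u, ‖A u‖ₑ ^ 4) := by
  rw [nest _ ((FZ_meas (PG_mu hl) hA.meas).enorm.pow_const 4)]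
  exact L4_one hA hl hc T ε hT hε hε1

lemma shift_meas {lam : ℝ → Fin m → ℝ} (hl : Measurable lam) (η : Fin m → ℝ) :
    Measurable (fun u j => lam u j + η j) := by
  apply measurable_pi_iff.mpr
  intro j
  exact (lamj hl measurable_id j).add_const _

/-- `L⁴` for superpositions -/
theorem L4_PR {K M : ℝ} {g : Fin m → ℝ × ℝ → ℂ} (hg : ∀ j, Gd K (g j)) (R : ℝ)
    {A : ℝ → ℂ} (hA : Bd M A) {lam : ℝ → Fin m → ℝ} (hl : Measurable lam)
    (hc : Ch lam) (T ε : ℝ) (hT : 1 ≤ T) (hε : 0 < ε) (hε1 : ε < 1) :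
    ∫⁻ z, ‖FZ (PR g lam R) A z‖ₑ ^ 4 ∂(mS m (Icc T (2 * T))) ≤ (cR m K R : ℝ≥0∞) ^ 4 *
    (ENNReal.ofReal ((m + 6) * T ^ (-(m : ℝ) + ε)) *
      (4 * (∫⁻ x, kk ε x) ^ 2 * ∫⁻ u, ‖A u‖ₑ ^ 4)) := by
  set D := ENNReal.ofReal ((m + 6) * T ^ (-(m : ℝ) + ε)) with hD
  set kap := ∫⁻ x, kk ε x with hkap
  set w : (Fin m → ℝ) → ℝ≥0∞ := fun η => ∏ j, ww (η j) with hw
  have hwm : Measurable w := Finset.measurable_prod _ fun j _ => ww_meas.comp (measurable_pi_apply j)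
  have hw0 : ∀ η, w η ≠ 0 := fun η => Finset.prod_ne_zero_iff.mpr fun j _ => ww_ne _
  have hwt : ∀ η, w η ≠ ∞ := fun η => ENNReal.prod_ne_top fun j _ => ww_ne_top _
  have hS := SP_meas (fun j => (hg j).meas) hl hA.meas
  have hSz : ∀ z, Measurable (fun η => ‖SP g lam A z η‖ₑ) := by
    intro z
    have := hS.comp (measurable_const.prodMk measurable_id : Measurable fun η : Fin m → ℝ => (z, η))
    exact this.enorm
  have hpt : ∀ z, ‖FZ (PR g lam R) A z‖ₑ ^ 4 ≤ (WR R ^ m) ^ 3 *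
      ∫⁻ η, (w η)⁻¹ ^ 3 * ‖SP g lam A z η‖ₑ ^ 4 ∂(rho m R) := by
    intro z
    rw [FZ_PR hg R hl hA z]
    calc ‖∫ η, SP g lam A z η ∂(rho m R)‖ₑ ^ 4 ≤ (∫⁻ η, ‖SP g lam A z η‖ₑ ∂(rho m R)) ^ 4 := by
          gcongr
          exact enorm_integral_le_lintegral_enorm _
      _ ≤ _ := by
          have := holder4 (rho m R) w (fun η => ‖SP g lam A z η‖ₑ) hwm (hSz z) hw0 hwt
          rw [← rho_w m R]
          exact this
  have hmm : Measurable (fun q : ZZ m × (Fin m → ℝ) => (w q.2)⁻¹ ^ 3 * ‖SP g lam A q.1 q.2‖ₑ ^ 4) :=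
    ((hwm.comp measurable_snd).inv.pow_const 3).mul (hS.enorm.pow_const 4)
  have hcc : (WR R ^ m) ^ 3 ≠ ∞ := ENNReal.pow_ne_top (ENNReal.pow_ne_top (WR_ne_top R))
  have hAE : ∀ η, ∫⁻ u, ‖AE g A η u‖ₑ ^ 4 ≤ (ENNReal.ofReal K ^ m * w η) ^ 4 * ∫⁻ u, ‖A u‖ₑ ^ 4 := by
    intro η
    rw [← lintegral_const_mul _ (hA.meas.enorm.pow_const 4)]
    apply lintegral_mono
    intro u
    simp only
    rw [← mul_pow]
    have := AE_le hg A η u
    calc ‖AE g A η u‖ₑ ^ 4 ≤ (‖A u‖ₑ * (ENNReal.ofReal K ^ m * ∏ j, ww (η j))) ^ 4 := by gcongr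
      _ = _ := by rw [mul_comm]
  have hSP : ∀ η, ∫⁻ z, ‖SP g lam A z η‖ₑ ^ 4 ∂(mS m (Icc T (2 * T))) ≤
      D * (4 * kap ^ 2 * ((ENNReal.ofReal K ^ m * w η) ^ 4 * ∫⁻ u, ‖A u‖ₑ ^ 4)) := by
    intro η
    unfold SP
    refine (L4_PG (AE_bd hg hA η) (shift_meas hl η) (hc.shift η) T ε hT hε hε1).trans ?_
    gcongr
    exact hAE η
  calc ∫⁻ z, ‖FZ (PR g lam R) A z‖ₑ ^ 4 ∂(mS m (Icc T (2 * T))) ≤
        ∫⁻ z, (WR R ^ m) ^ 3 * ∫⁻ η, (w η)⁻¹ ^ 3 * ‖SP g lam A z η‖ₑ ^ 4 ∂(rho m R)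
          ∂(mS m (Icc T (2 * T))) := lintegral_mono hpt
    _ = (WR R ^ m) ^ 3 * ∫⁻ η, ∫⁻ z, (w η)⁻¹ ^ 3 * ‖SP g lam A z η‖ₑ ^ 4
          ∂(mS m (Icc T (2 * T))) ∂(rho m R) := by
        rw [lintegral_const_mul' _ _ hcc, lintegral_lintegral_swap hmm.aemeasurable]
    _ ≤ (WR R ^ m) ^ 3 * ∫⁻ η, (D * (4 * kap ^ 2 * (ENNReal.ofReal K ^ m) ^ 4 * ∫⁻ u, ‖A u‖ₑ ^ 4)) * w η
          ∂(rho m R) := by
        gcongr with η
        have hmz : Measurable (fun z => ‖SP g lam A z η‖ₑ ^ 4) := by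
          have := hS.comp (measurable_id.prodMk measurable_const : Measurable fun z : ZZ m => (z, η))
          exact this.enorm.pow_const 4
        rw [lintegral_const_mul _ hmz]
        calc (w η)⁻¹ ^ 3 * ∫⁻ z, ‖SP g lam A z η‖ₑ ^ 4 ∂(mS m (Icc T (2 * T))) ≤
              (w η)⁻¹ ^ 3 * (D * (4 * kap ^ 2 * ((ENNReal.ofReal K ^ m * w η) ^ 4 *
                ∫⁻ u, ‖A u‖ₑ ^ 4))) := by
              gcongr
              exact hSP η
          _ = (D * (4 * kap ^ 2 * (ENNReal.ofReal K ^ m) ^ 4 * ∫⁻ u, ‖A u‖ₑ ^ 4)) *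
                (((w η)⁻¹ * w η) ^ 3 * w η) := by ring
          _ = _ := by
              rw [ENNReal.inv_mul_cancel (hw0 η) (hwt η), one_pow, one_mul]
    _ = (WR R ^ m) ^ 3 * ((D * (4 * kap ^ 2 * (ENNReal.ofReal K ^ m) ^ 4 * ∫⁻ u, ‖A u‖ₑ ^ 4)) *
          WR R ^ m) := by
        rw [lintegral_const_mul _ hwm, rho_w]
    _ = _ := by
        rw [cR_eq, mul_pow]
        ring

/-- `L²` distance of the exact multiplier to the truncated one -/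
lemma PHR_sq {K : ℝ} {g : Fin m → ℝ × ℝ → ℂ} (hg : ∀ j, Gd K (g j)) {R : ℝ} (hR : 1 ≤ R)
    (lam : ℝ → Fin m → ℝ) (u t : ℝ) :
    ∫⁻ y : Fin m → ℝ, ‖PH g lam u t y - PR g lam R u t y‖ₑ ^ 2 ≤
    3 ^ m * (m * (ENNReal.ofReal (2 * K ^ 2 * R⁻¹) * (6 * (3 * (2 + ENNReal.ofReal (2 * K ^ 2)))) ^ m)) := by
  have hR0 : 0 < R := by linarith
  unfold PH PR
  have hm1 : ∀ (p : ℝ) j, Measurable (fun y => HH (g j) u t (y + p)) := by
    intro p j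
    have := (HH_meas (hg j).meas).comp (measurable_const.prodMk (measurable_const.prodMk
      (measurable_id.add_const p)) : Measurable fun y : ℝ => (u, (t, y + p)))
    exact this
  have hm2 : ∀ (p : ℝ) j, Measurable (fun y => HR (g j) R u t (y + p)) := by
    intro p j
    have := (HR_meas (hg j).meas R).comp (measurable_const.prodMk (measurable_const.prodMk
      (measurable_id.add_const p)) : Measurable fun y : ℝ => (u, (t, y + p)))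
    exact this
  apply prod_diff (fun j y => HH (g j) u t (y + lam u j)) (fun j y => HR (g j) R u t (y + lam u j))
    (fun j => hm1 _ j) (fun j => hm2 _ j)
  · calc (1 : ℝ≥0∞) = 1 * 1 := by norm_num
      _ ≤ 3 * (2 + ENNReal.ofReal (2 * K ^ 2)) := by
          apply mul_le_mul' (by norm_num)
          exact le_add_right (by norm_num)
  · intro j
    rw [lintegral_add_right_eq_self (fun y => ‖HH (g j) u t y‖ₑ ^ 2) (lam u j)]
    refine (HH_sq (hg j).meas (hg j).bd u t).trans ?_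
    calc (2 : ℝ≥0∞) = 1 * (2 + 0) := by norm_num
      _ ≤ _ := by
          gcongr
          · norm_num
          · exact zero_le
  · intro j
    rw [lintegral_add_right_eq_self (fun y => ‖HR (g j) R u t y‖ₑ ^ 2) (lam u j)]
    exact HR_sq (hg j) hR u t
  · intro j
    rw [lintegral_add_right_eq_self (fun y => ‖HH (g j) u t y - HR (g j) R u t y‖ₑ ^ 2) (lam u j)]
    exact (HH_HR (hg j).meas (hg j).bd R u t).trans (tail_le (hg j) u hR0)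

lemma jen (a : ℝ → ℝ≥0∞) (ha : Measurable a) (hz : ∀ u, u ∉ Icc (-1 : ℝ) 1 → a u = 0) :
    (∫⁻ u, a u) ^ 2 ≤ 2 * ∫⁻ u, a u ^ 2 := by
  set b : ℝ → ℝ≥0∞ := (Icc (-1 : ℝ) 1).indicator (fun _ => 1) with hb
  have h := ENNReal.lintegral_mul_le_Lp_mul_Lq (volume : Measure ℝ) Real.HolderConjugate.two_two
    (f := a) (g := b) ha.aemeasurable
    (measurable_const.indicator measurableSet_Icc).aemeasurable
  have e1 : ∀ u, (a * b) u = a u := by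
    intro u
    simp only [Pi.mul_apply, hb]
    by_cases hu : u ∈ Icc (-1 : ℝ) 1
    · rw [indicator_of_mem hu, mul_one]
    · rw [indicator_of_notMem hu, hz u hu, mul_zero]
  have e2 : ∫⁻ u, b u ^ (2 : ℝ) = 2 := by
    have : ∀ u, b u ^ (2 : ℝ) = b u := by
      intro u
      simp only [hb]
      by_cases hu : u ∈ Icc (-1 : ℝ) 1
      · rw [indicator_of_mem hu, ENNReal.one_rpow]
      · rw [indicator_of_notMem hu, ENNReal.zero_rpow_of_pos (by norm_num)]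
    simp only [this]
    rw [hb, lintegral_indicator measurableSet_Icc, setLIntegral_const, one_mul, Real.volume_Icc]
    norm_num
  simp only [e1, e2] at h
  simp only [ENNReal.rpow_ofNat] at h
  calc (∫⁻ u, a u) ^ 2 ≤ ((∫⁻ u, a u ^ 2) ^ (1 / 2 : ℝ) * 2 ^ (1 / 2 : ℝ)) ^ 2 := by gcongr
    _ = _ := by
        rw [mul_pow, ← ENNReal.rpow_natCast, ← ENNReal.rpow_mul, ← ENNReal.rpow_natCast,
          ← ENNReal.rpow_mul]
        norm_num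
        rw [mul_comm]

/-- the `L⁴` bound of the error -/
lemma L4_err {K M : ℝ} {g : Fin m → ℝ × ℝ → ℂ} (hg : ∀ j, Gd K (g j)) {R : ℝ} (hR : 1 ≤ R)
    {A : ℝ → ℂ} (hA : Bd M A) {lam : ℝ → Fin m → ℝ} (hl : Measurable lam) (T : ℝ) :
    ∫⁻ z, ‖FZ (PH g lam) A z - FZ (PR g lam R) A z‖ₑ ^ 4 ∂(mS m (Icc T (2 * T))) ≤
    (2 ^ m + (cR m K R : ℝ≥0∞)) ^ 2 * (3 ^ m * (m * (ENNReal.ofReal (2 * K ^ 2 * R⁻¹) *
      (6 * (3 * (2 + ENNReal.ofReal (2 * K ^ 2)))) ^ m))) * ENNReal.ofReal T *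
      (4 * ∫⁻ u, ‖A u‖ₑ ^ 4) := by
  have h1 := PH_mu (fun j => (hg j).meas) (fun j => (hg j).bd) hl
  have h2 := PR_mu hg R hl
  have h3 := h1.sub h2
  simp only [FZ_sub h1 h2 hA]
  set B := ∫⁻ u, ‖A u‖ₑ with hB
  have hsup : ∀ z, ‖FZ (fun u t y => PH g lam u t y - PR g lam R u t y) A z‖ₑ ^ 4 ≤
      ((2 ^ m + (cR m K R : ℝ≥0∞)) * B) ^ 2 *
        ‖FZ (fun u t y => PH g lam u t y - PR g lam R u t y) A z‖ₑ ^ 2 := by
    intro z
    have h4 := FZ_sup h3 A z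
    push_cast at h4
    calc _ = ‖FZ (fun u t y => PH g lam u t y - PR g lam R u t y) A z‖ₑ ^ 2 *
          ‖FZ (fun u t y => PH g lam u t y - PR g lam R u t y) A z‖ₑ ^ 2 := by ring
      _ ≤ _ := by gcongr
  have hL2 := FZ_L2 h3 hA (Icc T (2 * T)) _ (fun u t => PHR_sq hg hR lam u t)
  have hvol : volume (Icc T (2 * T)) = ENNReal.ofReal T := by
    rw [Real.volume_Icc]
    congr 1
    ring
  rw [hvol] at hL2
  have hmeas := (FZ_meas h3 hA.meas).enorm.pow_const 2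
  have hz : ∀ u, u ∉ Icc (-1 : ℝ) 1 → ‖A u‖ₑ = 0 := fun u hu => by rw [hA.z u hu, enorm_zero]
  have j1 : B ^ 2 ≤ 2 * ∫⁻ u, ‖A u‖ₑ ^ 2 := jen _ hA.meas.enorm hz
  have j2 : (∫⁻ u, ‖A u‖ₑ ^ 2) ^ 2 ≤ 2 * ∫⁻ u, ‖A u‖ₑ ^ 4 := by
    have := jen (fun u => ‖A u‖ₑ ^ 2) (hA.meas.enorm.pow_const 2) (fun u hu => by
      rw [hz u hu]
      simp)
    refine this.trans (le_of_eq ?_)
    congr 2
    ext u
    rw [← pow_mul]
  calc _ ≤ ∫⁻ z, ((2 ^ m + (cR m K R : ℝ≥0∞)) * B) ^ 2 *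
        ‖FZ (fun u t y => PH g lam u t y - PR g lam R u t y) A z‖ₑ ^ 2 ∂(mS m (Icc T (2 * T))) :=
        lintegral_mono hsup
    _ = ((2 ^ m + (cR m K R : ℝ≥0∞)) * B) ^ 2 * ∫⁻ z,
        ‖FZ (fun u t y => PH g lam u t y - PR g lam R u t y) A z‖ₑ ^ 2 ∂(mS m (Icc T (2 * T))) :=
        lintegral_const_mul _ hmeas
    _ ≤ ((2 ^ m + (cR m K R : ℝ≥0∞)) * B) ^ 2 * (3 ^ m * (m * (ENNReal.ofReal (2 * K ^ 2 * R⁻¹) *
      (6 * (3 * (2 + ENNReal.ofReal (2 * K ^ 2)))) ^ m)) * ENNReal.ofReal T *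
        ∫⁻ u, ‖A u‖ₑ ^ 2) := mul_le_mul' le_rfl hL2
    _ = (2 ^ m + (cR m K R : ℝ≥0∞)) ^ 2 * (3 ^ m * (m * (ENNReal.ofReal (2 * K ^ 2 * R⁻¹) *
      (6 * (3 * (2 + ENNReal.ofReal (2 * K ^ 2)))) ^ m))) * ENNReal.ofReal T *
      (B ^ 2 * ∫⁻ u, ‖A u‖ₑ ^ 2) := by ring
    _ ≤ _ := by
        apply mul_le_mul' le_rfl
        calc B ^ 2 * ∫⁻ u, ‖A u‖ₑ ^ 2 ≤ (2 * ∫⁻ u, ‖A u‖ₑ ^ 2) * ∫⁻ u, ‖A u‖ₑ ^ 2 := by gcongr
          _ = 2 * (∫⁻ u, ‖A u‖ₑ ^ 2) ^ 2 := by ring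
          _ ≤ 2 * (2 * ∫⁻ u, ‖A u‖ₑ ^ 4) := by gcongr
          _ = _ := by ring

end Pool.Agent.W771.NN
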