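import Mathlib
import Pool.Agent.W771.NK
set_option autoImplicit false

/-! The final `L⁴` and `L²` bounds on time slabs. -/

namespace Pool.Agent.W771.NN
open MeasureTheory Set Complex
open scoped ENNReal NNReal

variable {m : ℕ}

lemma cR_le (m : ℕ) (K ε : ℝ) (hε : 0 < ε) (hε1 : ε < 1) : ∃ c : ℝ≥0, ∀ T : ℝ, 1 ≤ T →
    (cR m K (T ^ (m + 1)) : ℝ≥0∞) ≤ c * ENNReal.ofReal (T ^ (ε / 8)) := by
  have hm0 : (0 : ℝ) ≤ m := Nat.cast_nonneg m
  have hm1 : (0 : ℝ) < m + 1 := by positivity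
  set δ : ℝ := ε / (8 * (m + 1) ^ 2) with hδ
  have hδ0 : 0 < δ := by positivity
  have hδ1 : δ ≤ 1 := by
    rw [hδ, div_le_one (by positivity)]
    nlinarith
  obtain ⟨C, hC⟩ := WR_le δ hδ0 hδ1
  refine ⟨((ENNReal.ofReal K * C) ^ m).toNNReal, ?_⟩
  intro T hT
  have hT0 : 0 < T := by linarith
  have hfin : (ENNReal.ofReal K * C) ^ m ≠ ∞ :=
    ENNReal.pow_ne_top (ENNReal.mul_ne_top ENNReal.ofReal_ne_top ENNReal.coe_ne_top)
  rw [cR_eq, ENNReal.coe_toNNReal hfin]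
  have hR : 1 ≤ T ^ (m + 1) := one_le_pow₀ hT
  calc (ENNReal.ofReal K * WR (T ^ (m + 1))) ^ m ≤
        (ENNReal.ofReal K * (C * ENNReal.ofReal ((T ^ (m + 1)) ^ δ))) ^ m := by
        gcongr
        exact hC _ hR
    _ = (ENNReal.ofReal K * C) ^ m * ENNReal.ofReal ((T ^ (m + 1)) ^ δ) ^ m := by
        rw [← mul_assoc, mul_pow]
    _ ≤ _ := by
        gcongr
        rw [← ENNReal.ofReal_pow (by positivity)]
        apply ENNReal.ofReal_le_ofReal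
        rw [← Real.rpow_natCast T (m + 1), ← Real.rpow_mul hT0.le, ← Real.rpow_natCast _ m,
          ← Real.rpow_mul hT0.le]
        apply Real.rpow_le_rpow_of_exponent_le hT
        rw [hδ]
        push_cast
        rw [show ((m : ℝ) + 1) * (ε / (8 * (m + 1) ^ 2)) * m = ε / 8 * (m / (m + 1)) by
          field_simp]
        have : (m : ℝ) / (m + 1) ≤ 1 := by
          rw [div_le_one hm1]
          linarith
        nlinarith

/-- `L⁴` on slabs -/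
theorem L4_slab (m : ℕ) (K ε : ℝ) (hε : 0 < ε) (hε1 : ε < 1) : ∃ C : ℝ≥0,
    ∀ (g : Fin m → ℝ × ℝ → ℂ) (lam : ℝ → Fin m → ℝ) (A : ℝ → ℂ) (M : ℝ), (∀ j, Gd K (g j)) →
      Measurable lam → Ch lam → Bd M A → ∀ T : ℝ, 1 ≤ T →
      ∫⁻ z, ‖FZ (PH g lam) A z‖ₑ ^ 4 ∂(mS m (Icc T (2 * T))) ≤
        C * ENNReal.ofReal (T ^ (-(m : ℝ) + ε)) * ∫⁻ u, ‖A u‖ₑ ^ 4 := by
  obtain ⟨c, hc⟩ := cR_le m K ε hε hε1
  have hm0 : (0 : ℝ) ≤ m := Nat.cast_nonneg m
  set kap := ∫⁻ x, kk (ε / 2) x with hkap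
  have hkt : kap ≠ ∞ := kk_int (by linarith)
  set Q : ℝ≥0∞ := (6 * (3 * (2 + ENNReal.ofReal (2 * K ^ 2)))) ^ m with hQ
  have hQt : Q ≠ ∞ := by
    apply ENNReal.pow_ne_top
    apply ENNReal.mul_ne_top (by norm_num)
    apply ENNReal.mul_ne_top (by norm_num)
    exact ENNReal.add_ne_top.mpr ⟨by norm_num, ENNReal.ofReal_ne_top⟩
  set C1 : ℝ≥0∞ := c ^ 4 * (ENNReal.ofReal (m + 6) * (4 * kap ^ 2)) with hC1
  set C2 : ℝ≥0∞ := (2 ^ m + c) ^ 2 * (3 ^ m * (m * (ENNReal.ofReal (2 * K ^ 2) * Q))) * 4 with hC2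
  have hC1t : C1 ≠ ∞ := by
    apply ENNReal.mul_ne_top (ENNReal.pow_ne_top ENNReal.coe_ne_top)
    apply ENNReal.mul_ne_top ENNReal.ofReal_ne_top
    exact ENNReal.mul_ne_top (by norm_num) (ENNReal.pow_ne_top hkt)
  have hC2t : C2 ≠ ∞ := by
    apply ENNReal.mul_ne_top _ (by norm_num)
    apply ENNReal.mul_ne_top
    · apply ENNReal.pow_ne_top
      exact ENNReal.add_ne_top.mpr ⟨ENNReal.pow_ne_top (by norm_num), ENNReal.coe_ne_top⟩
    · apply ENNReal.mul_ne_top (ENNReal.pow_ne_top (by norm_num))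
      apply ENNReal.mul_ne_top (by simp)
      exact ENNReal.mul_ne_top ENNReal.ofReal_ne_top hQt
  refine ⟨(27 * (C1 + C2)).toNNReal, ?_⟩
  intro g lam A M hg hl hch hA T hT
  rw [ENNReal.coe_toNNReal (ENNReal.mul_ne_top (by norm_num) (ENNReal.add_ne_top.mpr ⟨hC1t, hC2t⟩))]
  have hT0 : 0 < T := by linarith
  have hR : 1 ≤ T ^ (m + 1) := one_le_pow₀ hT
  set R : ℝ := T ^ (m + 1) with hRd
  have hcR : (cR m K R : ℝ≥0∞) ≤ c * ENNReal.ofReal (T ^ (ε / 8)) := hc T hT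
  set N4 := ∫⁻ u, ‖A u‖ₑ ^ 4 with hN4
  have b1 := L4_PR hg R hA hl hch T (ε / 2) hT (by linarith) (by linarith)
  have b2 := L4_err hg hR hA hl T
  have k1 : ∫⁻ z, ‖FZ (PR g lam R) A z‖ₑ ^ 4 ∂(mS m (Icc T (2 * T))) ≤
      C1 * ENNReal.ofReal (T ^ (-(m : ℝ) + ε)) * N4 := by
    refine b1.trans ?_
    calc (cR m K R : ℝ≥0∞) ^ 4 * (ENNReal.ofReal ((m + 6) * T ^ (-(m : ℝ) + ε / 2)) *
          (4 * kap ^ 2 * N4)) ≤ (c * ENNReal.ofReal (T ^ (ε / 8))) ^ 4 *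
          (ENNReal.ofReal ((m + 6) * T ^ (-(m : ℝ) + ε / 2)) * (4 * kap ^ 2 * N4)) := by gcongr
      _ = C1 * (ENNReal.ofReal (T ^ (ε / 8)) ^ 4 * ENNReal.ofReal (T ^ (-(m : ℝ) + ε / 2))) * N4 := by
          rw [ENNReal.ofReal_mul (by positivity), hC1]
          ring
      _ = _ := by
          congr 2
          rw [← ENNReal.ofReal_pow (by positivity), ← ENNReal.ofReal_mul (by positivity)]
          congr 1
          rw [← Real.rpow_natCast, ← Real.rpow_mul hT0.le, ← Real.rpow_add hT0]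
          congr 1
          push_cast
          ring
  have hone : 1 ≤ ENNReal.ofReal (T ^ (ε / 8)) := by
    rw [ENNReal.one_le_ofReal]
    exact Real.one_le_rpow hT (by linarith)
  have k2 : ∫⁻ z, ‖FZ (PH g lam) A z - FZ (PR g lam R) A z‖ₑ ^ 4 ∂(mS m (Icc T (2 * T))) ≤
      C2 * ENNReal.ofReal (T ^ (-(m : ℝ) + ε)) * N4 := by
    refine b2.trans ?_
    calc (2 ^ m + (cR m K R : ℝ≥0∞)) ^ 2 * (3 ^ m * (m * (ENNReal.ofReal (2 * K ^ 2 * R⁻¹) * Q))) *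
          ENNReal.ofReal T * (4 * N4) ≤
          ((2 ^ m + c) * ENNReal.ofReal (T ^ (ε / 8))) ^ 2 *
          (3 ^ m * (m * (ENNReal.ofReal (2 * K ^ 2 * R⁻¹) * Q))) * ENNReal.ofReal T * (4 * N4) := by
          gcongr
          calc 2 ^ m + (cR m K R : ℝ≥0∞) ≤ 2 ^ m * ENNReal.ofReal (T ^ (ε / 8)) +
                c * ENNReal.ofReal (T ^ (ε / 8)) := by
                apply add_le_add _ hcR
                calc (2 : ℝ≥0∞) ^ m = 2 ^ m * 1 := (mul_one _).symm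
                  _ ≤ _ := mul_le_mul' le_rfl hone
            _ = _ := by ring
      _ = C2 * (ENNReal.ofReal (T ^ (ε / 8)) ^ 2 * (ENNReal.ofReal R⁻¹ * ENNReal.ofReal T)) * N4 := by
          rw [ENNReal.ofReal_mul (p := 2 * K ^ 2) (by positivity), hC2]
          ring
      _ ≤ _ := by
          gcongr
          rw [← ENNReal.ofReal_pow (by positivity), ← ENNReal.ofReal_mul (by positivity),
            ← ENNReal.ofReal_mul (by positivity)]
          apply ENNReal.ofReal_le_ofReal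
          have e1 : R⁻¹ * T = T ^ (-(m : ℝ)) := by
            rw [hRd, Real.rpow_neg hT0.le, Real.rpow_natCast, pow_succ]
            field_simp
          rw [e1, ← Real.rpow_natCast, ← Real.rpow_mul hT0.le, ← Real.rpow_add hT0]
          apply Real.rpow_le_rpow_of_exponent_le hT
          push_cast
          linarith
  have h1 := PH_mu (fun j => (hg j).meas) (fun j => (hg j).bd) hl
  have h2 := PR_mu hg R hl
  have hmeas : Measurable (fun z => ‖FZ (PR g lam R) A z‖ₑ ^ 4) := (FZ_meas h2 hA.meas).enorm.pow_const 4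
  calc ∫⁻ z, ‖FZ (PH g lam) A z‖ₑ ^ 4 ∂(mS m (Icc T (2 * T))) ≤
        ∫⁻ z, 27 * (‖FZ (PR g lam R) A z‖ₑ ^ 4 + ‖FZ (PH g lam) A z - FZ (PR g lam R) A z‖ₑ ^ 4)
          ∂(mS m (Icc T (2 * T))) := by
        apply lintegral_mono
        intro z
        simp only
        refine le_trans ?_ (pow4_add_le _ _)
        have e : FZ (PH g lam) A z = FZ (PR g lam R) A z + (FZ (PH g lam) A z - FZ (PR g lam R) A z) := by
          ring
        gcongr
        conv_lhs => rw [e]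
        exact enorm_add_le _ _
    _ = 27 * ((∫⁻ z, ‖FZ (PR g lam R) A z‖ₑ ^ 4 ∂(mS m (Icc T (2 * T)))) +
        ∫⁻ z, ‖FZ (PH g lam) A z - FZ (PR g lam R) A z‖ₑ ^ 4 ∂(mS m (Icc T (2 * T)))) := by
        rw [lintegral_const_mul' _ _ (by norm_num), lintegral_add_left hmeas]
    _ ≤ 27 * (C1 * ENNReal.ofReal (T ^ (-(m : ℝ) + ε)) * N4 +
          C2 * ENNReal.ofReal (T ^ (-(m : ℝ) + ε)) * N4) := by gcongr
    _ = _ := by ring

/-- `L²` of the exact multiplier -/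
lemma PH_sq {g : Fin m → ℝ × ℝ → ℂ} (hg : ∀ j, Measurable (g j)) (hb : ∀ j w, ‖g j w‖ ≤ 1)
    (lam : ℝ → Fin m → ℝ) (u t : ℝ) : ∫⁻ y : Fin m → ℝ, ‖PH g lam u t y‖ₑ ^ 2 ≤ 2 ^ m := by
  unfold PH
  have hm1 : ∀ (p : ℝ) j, Measurable (fun y => HH (g j) u t (y + p)) := by
    intro p j
    have := (HH_meas (hg j)).comp (measurable_const.prodMk (measurable_const.prodMk
      (measurable_id.add_const p)) : Measurable fun y : ℝ => (u, (t, y + p)))
    exact this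
  simp only [enorm_prod', ← Finset.prod_pow]
  rw [Pool.Agent.H728R3.SR.lint_prod m (fun j y => ‖HH (g j) u t (y + lam u j)‖ₑ ^ 2)
    (fun j => (hm1 _ j).enorm.pow_const 2)]
  calc ∏ j, ∫⁻ y, ‖HH (g j) u t (y + lam u j)‖ₑ ^ 2 ≤ ∏ _j : Fin m, (2 : ℝ≥0∞) := by
        apply Finset.prod_le_prod'
        intro j _
        rw [lintegral_add_right_eq_self (fun y => ‖HH (g j) u t y‖ₑ ^ 2) (lam u j)]
        exact HH_sq (hg j) (hb j) u t
    _ = _ := by rw [Finset.prod_const, Finset.card_univ, Fintype.card_fin]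

/-- `L²` on sets of times -/
theorem L2_slab {g : Fin m → ℝ × ℝ → ℂ} (hg : ∀ j, Measurable (g j)) (hb : ∀ j w, ‖g j w‖ ≤ 1)
    {lam : ℝ → Fin m → ℝ} (hl : Measurable lam) {A : ℝ → ℂ} {M : ℝ} (hA : Bd M A) (S : Set ℝ) :
    ∫⁻ z, ‖FZ (PH g lam) A z‖ₑ ^ 2 ∂(mS m S) ≤ 2 ^ m * volume S * ∫⁻ u, ‖A u‖ₑ ^ 2 :=
  FZ_L2 (PH_mu hg hb hl) hA S _ (fun u t => PH_sq hg hb lam u t)

end Pool.Agent.W771.NN
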