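import Mathlib
import Pool.Agent.W771.NL
import Pool.Agent.H438R2.RZ.M1
set_option autoImplicit false

/-! Interpolation on slabs and summation, for times at least one. -/

namespace Pool.Agent.W771.NN
open MeasureTheory Set Complex
open scoped ENNReal NNReal

variable {m : ℕ}

lemma Bd.mul_ind {M : ℝ} {A : ℝ → ℂ} (hA : Bd M A) {S : Set ℝ} (hS : MeasurableSet S) :
    Bd M (S.indicator A) := by
  refine ⟨hA.meas.indicator hS, ?_, ?_⟩
  · intro u
    by_cases hu : u ∈ S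
    · rw [indicator_of_mem hu]; exact hA.bd u
    · rw [indicator_of_notMem hu, norm_zero]; exact hA.nonneg
  · intro u hu
    by_cases hu' : u ∈ S
    · rw [indicator_of_mem hu']; exact hA.z u hu
    · rw [indicator_of_notMem hu']

lemma FZ_split {M : ℝ} {C : ℝ≥0} {Φ : ℝ → ℝ → (Fin m → ℝ) → ℂ} (h : Mu C Φ) {A : ℝ → ℂ} (hA : Bd M A)
    {S : Set ℝ} (hS : MeasurableSet S) (z : ZZ m) :
    FZ Φ A z = FZ Φ (S.indicator A) z + FZ Φ (Sᶜ.indicator A) z := by
  unfold FZ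
  have he : Measurable (fun u : ℝ => ee (z.2.2 * u)) := ee_meas.comp (measurable_id.const_mul _)
  have i1 : Integrable (fun u => (S.indicator A u * ee (z.1 * u ^ 2) * Φ u z.1 z.2.1) * ee (z.2.2 * u)) :=
    int_mul_bd (FZ_bd h (hA.mul_ind hS) z.1 z.2.1).int he 1 (fun u => by rw [ee_norm])
  have i2 : Integrable (fun u => (Sᶜ.indicator A u * ee (z.1 * u ^ 2) * Φ u z.1 z.2.1) *
      ee (z.2.2 * u)) :=
    int_mul_bd (FZ_bd h (hA.mul_ind hS.compl) z.1 z.2.1).int he 1 (fun u => by rw [ee_norm])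
  rw [← integral_add i1 i2]
  congr 1
  ext u
  by_cases hu : u ∈ S
  · rw [indicator_of_mem hu, indicator_of_notMem (by simpa using hu)]
    ring
  · rw [indicator_of_notMem hu, indicator_of_mem (by simpa using hu)]
    ring

/-- `L^q` on slabs -/
theorem Lq_slab (m : ℕ) (K q ε : ℝ) (hq2 : 2 < q) (hq4 : q < 4) (hε : 0 < ε) (hε1 : ε < 1) : ∃ C : ℝ≥0,
    ∀ (g : Fin m → ℝ × ℝ → ℂ) (lam : ℝ → Fin m → ℝ) (A : ℝ → ℂ) (M : ℝ), (∀ j, Gd K (g j)) →
      Measurable lam → Ch lam → Bd M A → ∀ T : ℝ, 1 ≤ T →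
      ∫⁻ z, ‖FZ (PH g lam) A z‖ₑ ^ q ∂(mS m (Icc T (2 * T))) ≤
        C * ENNReal.ofReal (T ^ ((4 - q) / 2 + (-(m : ℝ) + ε) * ((q - 2) / 2))) * ∫⁻ u, ‖A u‖ₑ ^ q := by
  obtain ⟨C4, hC4⟩ := L4_slab m K ε hε hε1
  obtain ⟨c, hc0, hc⟩ := Pool.Agent.H438R2.RZ.marc24 q hq2 hq4
  refine ⟨(ENNReal.ofReal (c * (2 ^ m) ^ ((4 - q) / 2) * (C4 + 1) ^ ((q - 2) / 2))).toNNReal, ?_⟩
  intro g lam A M hg hl hch hA T hT
  rw [ENNReal.coe_toNNReal ENNReal.ofReal_ne_top]
  have hT0 : 0 < T := by linarith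
  have h1 := PH_mu (fun j => (hg j).meas) (fun j => (hg j).bd) hl
  have hM2 : 0 < 2 ^ m * T := by positivity
  have hM4 : 0 < (C4 + 1 : ℝ) * T ^ (-(m : ℝ) + ε) := by positivity
  have hvol : volume (Icc T (2 * T)) = ENNReal.ofReal T := by
    rw [Real.volume_Icc]
    congr 1
    ring
  have main := hc (volume : Measure ℝ) (mS m (Icc T (2 * T))) (fun z => ‖FZ (PH g lam) A z‖)
    (fun u => ‖A u‖) (FZ_meas h1 hA.meas).norm hA.meas.norm (fun _ => norm_nonneg _)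
    (fun _ => norm_nonneg _) _ _ hM2 hM4 (by
      intro t ht
      have hS : MeasurableSet {u | t < ‖A u‖} := measurableSet_lt measurable_const hA.meas.norm
      have eS : {u | t < ‖A u‖}ᶜ = {u | ‖A u‖ ≤ t} := by
        ext u
        simp
      refine ⟨fun z => ‖FZ (PH g lam) ({u | t < ‖A u‖}.indicator A) z‖ₑ,
        fun z => ‖FZ (PH g lam) ({u | t < ‖A u‖}ᶜ.indicator A) z‖ₑ,
        (FZ_meas h1 (hA.mul_ind hS).meas).enorm, (FZ_meas h1 (hA.mul_ind hS.compl).meas).enorm,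
        ae_of_all _ fun z => ?_, ?_, ?_⟩
      · simp only
        rw [ofReal_norm, FZ_split h1 hA hS z]
        exact enorm_add_le _ _
      · refine (L2_slab (fun j => (hg j).meas) (fun j => (hg j).bd) hl (hA.mul_ind hS)
          (Icc T (2 * T))).trans ?_
        rw [hvol, ENNReal.ofReal_mul (by positivity), ENNReal.ofReal_pow (by norm_num)]
        apply mul_le_mul'
        · norm_num
        · rw [← lintegral_indicator hS]
          apply lintegral_mono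
          intro u
          simp only
          by_cases hu : u ∈ {u | t < ‖A u‖}
          · rw [indicator_of_mem hu, indicator_of_mem hu, ofReal_norm]
          · rw [indicator_of_notMem hu, indicator_of_notMem hu]
            simp
      · refine (hC4 g lam _ M hg hl hch (hA.mul_ind hS.compl) T hT).trans ?_
        rw [ENNReal.ofReal_mul (by positivity)]
        apply mul_le_mul'
        · apply mul_le_mul' _ le_rfl
          rw [ENNReal.ofReal_add (by positivity) (by norm_num), ENNReal.ofReal_coe_nnreal]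
          exact le_self_add
        · rw [eS, ← lintegral_indicator (eS ▸ hS.compl)]
          apply lintegral_mono
          intro u
          simp only
          by_cases hu : u ∈ {u | ‖A u‖ ≤ t}
          · rw [indicator_of_mem hu, indicator_of_mem hu, ofReal_norm]
          · rw [indicator_of_notMem hu, indicator_of_notMem hu]
            simp)
  simp only [ofReal_norm] at main
  refine main.trans (mul_le_mul' (le_of_eq ?_) le_rfl)
  rw [← ENNReal.ofReal_mul (by positivity)]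
  congr 1
  rw [Real.mul_rpow (by positivity) hT0.le, Real.mul_rpow (by positivity) (by positivity),
    ← Real.rpow_mul hT0.le, Real.rpow_add hT0]
  ring

lemma FZ_t_meas {C : ℝ≥0} {Φ : ℝ → ℝ → (Fin m → ℝ) → ℂ} (h : Mu C Φ) {A : ℝ → ℂ} (hA : Measurable A)
    (q : ℝ) : Measurable (fun z => ‖FZ Φ A z‖ₑ ^ q) := (FZ_meas h hA).enorm.pow_const q

/-- `L^q` for times at least one -/
theorem Lq_pos (m : ℕ) (K q : ℝ) (hq : 4 - q < m * (q - 2)) (hq2 : 2 < q) (hq4 : q < 4) : ∃ C : ℝ≥0,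
    ∀ (g : Fin m → ℝ × ℝ → ℂ) (lam : ℝ → Fin m → ℝ) (A : ℝ → ℂ) (M : ℝ), (∀ j, Gd K (g j)) →
      Measurable lam → Ch lam → Bd M A →
      ∫⁻ z, ‖FZ (PH g lam) A z‖ₑ ^ q ∂(mS m (Ici 1)) ≤ C * ∫⁻ u, ‖A u‖ₑ ^ q := by
  have h2 : 0 < q - 2 := by linarith
  set δ := m * (q - 2) - (4 - q) with hδ
  have hδ0 : 0 < δ := by linarith
  set ε := min (1 / 2) (δ / (2 * (q - 2))) with hεd
  have hε : 0 < ε := lt_min (by norm_num) (by positivity)
  have hε1 : ε < 1 := (min_le_left _ _).trans_lt (by norm_num)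
  have hε2 : ε * (q - 2) ≤ δ / 2 := by
    calc ε * (q - 2) ≤ δ / (2 * (q - 2)) * (q - 2) := by
          gcongr
          exact min_le_right _ _
      _ = δ / 2 := by field_simp
  set e := (4 - q) / 2 + (-(m : ℝ) + ε) * ((q - 2) / 2) with he
  have he0 : e < 0 := by
    rw [he]
    nlinarith
  obtain ⟨C, hC⟩ := Lq_slab m K q ε hq2 hq4 hε hε1
  set r : ℝ≥0∞ := ENNReal.ofReal (2 ^ e) with hr
  have hr1 : r < 1 := by
    rw [hr, ENNReal.ofReal_lt_one]
    exact Real.rpow_lt_one_of_one_lt_of_neg (by norm_num) he0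
  have hgeo : (1 - r)⁻¹ ≠ ∞ := by
    apply ENNReal.inv_ne_top.mpr
    exact (tsub_pos_of_lt hr1).ne'
  refine ⟨(C * (1 - r)⁻¹).toNNReal, ?_⟩
  intro g lam A M hg hl hch hA
  rw [ENNReal.coe_toNNReal (ENNReal.mul_ne_top ENNReal.coe_ne_top hgeo)]
  have h1 := PH_mu (fun j => (hg j).meas) (fun j => (hg j).bd) hl
  have hm := FZ_t_meas h1 hA.meas q
  rw [nest _ hm]
  have hcov : Ici (1 : ℝ) ⊆ ⋃ k : ℕ, Icc ((2 : ℝ) ^ k) (2 * 2 ^ k) := by
    intro t ht
    have ht1 : (1 : ℝ) ≤ t := ht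
    obtain ⟨k, hk1, hk2⟩ := exists_nat_pow_near ht1 (by norm_num : (1 : ℝ) < 2)
    rw [mem_iUnion]
    refine ⟨k, hk1, ?_⟩
    rw [pow_succ] at hk2
    linarith
  calc ∫⁻ t in Ici (1 : ℝ), ∫⁻ y : Fin m → ℝ, ∫⁻ x : ℝ, ‖FZ (PH g lam) A (t, (y, x))‖ₑ ^ q ≤
        ∫⁻ t in ⋃ k : ℕ, Icc ((2 : ℝ) ^ k) (2 * 2 ^ k), ∫⁻ y : Fin m → ℝ, ∫⁻ x : ℝ,
          ‖FZ (PH g lam) A (t, (y, x))‖ₑ ^ q := lintegral_mono_set hcov
    _ ≤ ∑' k : ℕ, ∫⁻ t in Icc ((2 : ℝ) ^ k) (2 * 2 ^ k), ∫⁻ y : Fin m → ℝ, ∫⁻ x : ℝ,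
          ‖FZ (PH g lam) A (t, (y, x))‖ₑ ^ q := lintegral_iUnion_le _ _
    _ ≤ ∑' k : ℕ, C * r ^ k * ∫⁻ u, ‖A u‖ₑ ^ q := by
        apply ENNReal.tsum_le_tsum
        intro k
        rw [← nest _ hm]
        refine (hC g lam A M hg hl hch hA (2 ^ k) (one_le_pow₀ (by norm_num))).trans (le_of_eq ?_)
        congr 2
        rw [hr, ← ENNReal.ofReal_pow (by positivity)]
        congr 1
        rw [← Real.rpow_natCast, ← Real.rpow_mul (by norm_num), ← Real.rpow_natCast,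
          ← Real.rpow_mul (by norm_num), mul_comm]
    _ = _ := by
        rw [ENNReal.tsum_mul_right, ENNReal.tsum_mul_left, ENNReal.tsum_geometric]

end Pool.Agent.W771.NN
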