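import Mathlib
import Pool.Agent.W771.NM
set_option autoImplicit false

/-! All times and all exponents. -/

namespace Pool.Agent.W771.NN
open MeasureTheory Set Complex
open scoped ENNReal NNReal

variable {m : ℕ}

lemma jenr {M : ℝ} {A : ℝ → ℂ} (hA : Bd M A) {r q : ℝ} (hr : 0 < r) (hrq : r ≤ q) :
    ∫⁻ u, ‖A u‖ₑ ^ r ≤ 2 ^ (1 - r / q) * (∫⁻ u, ‖A u‖ₑ ^ q) ^ (r / q) := by
  have hq : 0 < q := hr.trans_le hrq
  have h := eLpNorm'_le_eLpNorm'_mul_rpow_measure_univ hr hrq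
    (μ := volume.restrict (Icc (-1 : ℝ) 1)) (f := A) hA.meas.aestronglyMeasurable
  unfold eLpNorm' at h
  have e : ∀ p : ℝ, 0 < p → ∫⁻ u in Icc (-1 : ℝ) 1, ‖A u‖ₑ ^ p = ∫⁻ u, ‖A u‖ₑ ^ p := by
    intro p hp
    rw [← lintegral_indicator measurableSet_Icc]
    congr 1
    ext u
    by_cases hu : u ∈ Icc (-1 : ℝ) 1
    · rw [indicator_of_mem hu]
    · rw [indicator_of_notMem hu, hA.z u hu, enorm_zero, ENNReal.zero_rpow_of_pos hp]
  rw [e r hr, e q hq] at h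
  have hv : (volume.restrict (Icc (-1 : ℝ) 1)) univ = 2 := by
    rw [Measure.restrict_apply_univ, Real.volume_Icc]
    norm_num
  rw [hv] at h
  calc ∫⁻ u, ‖A u‖ₑ ^ r = ((∫⁻ u, ‖A u‖ₑ ^ r) ^ (1 / r)) ^ r := by
        rw [← ENNReal.rpow_mul, one_div_mul_cancel hr.ne', ENNReal.rpow_one]
    _ ≤ ((∫⁻ u, ‖A u‖ₑ ^ q) ^ (1 / q) * 2 ^ (1 / r - 1 / q)) ^ r := ENNReal.rpow_le_rpow h hr.le
    _ = _ := by
        rw [ENNReal.mul_rpow_of_nonneg _ _ hr.le, ← ENNReal.rpow_mul, ← ENNReal.rpow_mul, mul_comm]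
        congr 2
        · field_simp
        · field_simp

lemma two_rpow_ne_top (x : ℝ) : (2 : ℝ≥0∞) ^ x ≠ ∞ :=
  ENNReal.rpow_ne_top_of_ne_zero (by norm_num) (by norm_num)

lemma ft_GG_conj (g : ℝ × ℝ → ℂ) (u η : ℝ) :
    ft (GG (fun w => (starRingEnd ℂ) (g w)) u) η = (starRingEnd ℂ) (ft (GG g u) (-η)) := by
  unfold ft
  rw [← integral_conj]
  congr 1
  ext v
  rw [map_mul, ee_conj]
  unfold GG
  congr 1
  · by_cases hv : v ∈ Icc (-1 : ℝ) 1
    · rw [indicator_of_mem hv, indicator_of_mem hv, map_mul, Complex.conj_ofReal]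
    · rw [indicator_of_notMem hv, indicator_of_notMem hv, map_zero]
  · congr 1
    ring

lemma Gd.conj {K : ℝ} {g : ℝ × ℝ → ℂ} (h : Gd K g) : Gd K (fun w => (starRingEnd ℂ) (g w)) := by
  refine ⟨Complex.continuous_conj.measurable.comp h.meas, ?_, ?_⟩
  · intro w
    rw [RCLike.norm_conj]
    exact h.bd w
  · intro u η
    rw [ft_GG_conj, RCLike.norm_conj]
    have := h.hat u (-η)
    rwa [abs_neg] at this

lemma Bd.conj {M : ℝ} {A : ℝ → ℂ} (h : Bd M A) : Bd M (fun u => (starRingEnd ℂ) (A u)) := by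
  refine ⟨Complex.continuous_conj.measurable.comp h.meas, ?_, ?_⟩
  · intro w
    rw [RCLike.norm_conj]
    exact h.bd w
  · intro u hu
    rw [h.z u hu, map_zero]

lemma Ch.neg {lam : ℝ → Fin m → ℝ} (h : Ch lam) : Ch (fun u j => - lam u j) := by
  intro a b c d h1 h2 h3 h4 h5 h6 h7
  have := h a b c d h1 h2 h3 h4 h5 h6 h7
  have e : ∀ x y : ℝ, (-x - -y) ^ 2 = (x - y) ^ 2 := fun x y => by ring
  simp only [e]
  exact this

lemma HH_conj (g : ℝ × ℝ → ℂ) (u t y : ℝ) :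
    (starRingEnd ℂ) (HH g u t y) = HH (fun w => (starRingEnd ℂ) (g w)) u (-t) (-y) := by
  unfold HH
  rw [← integral_conj]
  congr 1
  ext v
  rw [map_mul, ee_conj]
  congr 2
  ring

lemma FZ_conj (g : Fin m → ℝ × ℝ → ℂ) (lam : ℝ → Fin m → ℝ) (A : ℝ → ℂ) (t : ℝ) (y : Fin m → ℝ)
    (x : ℝ) : (starRingEnd ℂ) (FZ (PH g lam) A (-t, (-y, -x))) =
      FZ (PH (fun j w => (starRingEnd ℂ) (g j w)) (fun u j => - lam u j))
        (fun u => (starRingEnd ℂ) (A u)) (t, (y, x)) := by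
  unfold FZ
  rw [← integral_conj]
  congr 1
  ext u
  unfold PH
  simp only [map_mul, map_prod, ee_conj, HH_conj]
  congr 2
  · congr 2
    ring
  · apply Finset.prod_congr rfl
    intro j _
    congr 1
    · ring
    · simp only [Pi.neg_apply]
      ring
  · ring

/-- the whole space -/
theorem Lq_all4 (m : ℕ) (K q : ℝ) (hq : 4 - q < m * (q - 2)) (hq2 : 2 < q) (hq4 : q < 4) : ∃ C : ℝ≥0,
    ∀ (g : Fin m → ℝ × ℝ → ℂ) (lam : ℝ → Fin m → ℝ) (A : ℝ → ℂ) (M : ℝ), (∀ j, Gd K (g j)) →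
      Measurable lam → Ch lam → Bd M A →
      ∫⁻ t : ℝ, ∫⁻ y : Fin m → ℝ, ∫⁻ x : ℝ, ‖FZ (PH g lam) A (t, (y, x))‖ₑ ^ q ≤
        C * ∫⁻ u, ‖A u‖ₑ ^ q := by
  obtain ⟨C, hC⟩ := Lq_pos m K q hq hq2 hq4
  set c0 : ℝ≥0∞ := (2 ^ m * 2 ^ (1 - 1 / q)) ^ (q - 2) * (2 ^ m * 2 * 2 ^ (1 - 2 / q)) with hc0
  have hq0 : 0 < q := by linarith
  have hc0t : c0 ≠ ∞ := by
    apply ENNReal.mul_ne_top
    · apply ENNReal.rpow_ne_top_of_nonneg (by linarith)
      exact ENNReal.mul_ne_top (ENNReal.pow_ne_top (by norm_num)) (two_rpow_ne_top _)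
    · exact ENNReal.mul_ne_top (ENNReal.mul_ne_top (ENNReal.pow_ne_top (by norm_num)) (by norm_num))
        (two_rpow_ne_top _)
  refine ⟨C + C + c0.toNNReal, ?_⟩
  intro g lam A M hg hl hch hA
  push_cast
  rw [ENNReal.coe_toNNReal hc0t]
  have h1 := PH_mu (fun j => (hg j).meas) (fun j => (hg j).bd) hl
  have hm := FZ_t_meas h1 hA.meas q
  set N := ∫⁻ u, ‖A u‖ₑ ^ q with hN
  set G : ℝ → ℝ≥0∞ := fun t => ∫⁻ y : Fin m → ℝ, ∫⁻ x : ℝ, ‖FZ (PH g lam) A (t, (y, x))‖ₑ ^ q with hG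
  -- large positive times
  have p1 : ∫⁻ t in Ici (1 : ℝ), G t ≤ C * N := by
    have := hC g lam A M hg hl hch hA
    rwa [nest _ hm] at this
  -- large negative times
  have p2 : ∫⁻ t in Iic (-1 : ℝ), G t ≤ C * N := by
    have h3 := hC (fun j w => (starRingEnd ℂ) (g j w)) (fun u j => - lam u j)
      (fun u => (starRingEnd ℂ) (A u)) M (fun j => (hg j).conj) (by
        apply measurable_pi_iff.mpr
        intro j
        exact (lamj hl measurable_id j).neg) hch.neg hA.conj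
    have hm' := FZ_t_meas (PH_mu (fun j => ((hg j).conj).meas) (fun j => ((hg j).conj).bd) (by
        apply measurable_pi_iff.mpr
        intro j
        exact (lamj hl measurable_id j).neg : Measurable (fun u j => - lam u j))) hA.conj.meas q
    rw [nest _ hm'] at h3
    simp only [conj_enorm] at h3
    refine le_trans (le_of_eq ?_) h3
    have e1 : ∀ t, ∫⁻ y : Fin m → ℝ, ∫⁻ x : ℝ, ‖FZ (PH (fun j w => (starRingEnd ℂ) (g j w))
        (fun u j => - lam u j)) (fun u => (starRingEnd ℂ) (A u)) (t, (y, x))‖ₑ ^ q = G (-t) := by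
      intro t
      simp only [hG]
      rw [← (Measure.measurePreserving_neg (volume : Measure (Fin m → ℝ))).lintegral_comp_emb
        (MeasurableEquiv.neg (Fin m → ℝ)).measurableEmbedding (fun y => ∫⁻ x : ℝ,
          ‖FZ (PH g lam) A (-t, (y, x))‖ₑ ^ q)]
      congr 1
      ext y
      rw [← lintegral_neg_eq_self (fun x => ‖FZ (PH g lam) A (-t, (-y, x))‖ₑ ^ q)]
      congr 1
      ext x
      rw [← FZ_conj, conj_enorm]
    simp only [e1]
    rw [← lintegral_indicator measurableSet_Ici, ← lintegral_indicator measurableSet_Iic,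
      ← lintegral_neg_eq_self (fun t => (Iic (-1 : ℝ)).indicator G t)]
    congr 1
    ext t
    by_cases ht : t ∈ Ici (1 : ℝ)
    · rw [indicator_of_mem ht, indicator_of_mem (show -t ∈ Iic (-1 : ℝ) from by
        have : 1 ≤ t := ht
        show -t ≤ -1
        linarith)]
    · rw [indicator_of_notMem ht, indicator_of_notMem]
      intro hc
      apply ht
      have : -t ≤ -1 := hc
      show 1 ≤ t
      linarith
  -- small times
  have p3 : ∫⁻ t in Icc (-1 : ℝ) 1, G t ≤ c0 * N := by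
    have h4 : ∫⁻ t in Icc (-1 : ℝ) 1, G t = ∫⁻ z, ‖FZ (PH g lam) A z‖ₑ ^ q ∂(mS m (Icc (-1) 1)) :=
      (nest _ hm _).symm
    rw [h4]
    have hA1 : ∫⁻ u, ‖A u‖ₑ ≤ 2 ^ (1 - 1 / q) * N ^ (1 / q) := by
      have := jenr hA (r := 1) (q := q) one_pos (by linarith)
      simpa using this
    have hA2 : ∫⁻ u, ‖A u‖ₑ ^ 2 ≤ 2 ^ (1 - 2 / q) * N ^ (2 / q) := by
      have := jenr hA (r := 2) (q := q) two_pos (by linarith)
      simpa using this
    have hL2 := L2_slab (fun j => (hg j).meas) (fun j => (hg j).bd) hl hA (Icc (-1 : ℝ) 1)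
    have hvol : volume (Icc (-1 : ℝ) 1) = 2 := by
      rw [Real.volume_Icc]
      norm_num
    rw [hvol] at hL2
    have hm2 : Measurable (fun z => ‖FZ (PH g lam) A z‖ₑ ^ 2) := (FZ_meas h1 hA.meas).enorm.pow_const 2
    calc ∫⁻ z, ‖FZ (PH g lam) A z‖ₑ ^ q ∂(mS m (Icc (-1) 1)) ≤
          ∫⁻ z, (2 ^ m * ∫⁻ u, ‖A u‖ₑ) ^ (q - 2) * ‖FZ (PH g lam) A z‖ₑ ^ 2 ∂(mS m (Icc (-1) 1)) := by
          apply lintegral_mono
          intro z
          simp only
          have h5 := FZ_sup h1 A z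
          push_cast at h5
          calc ‖FZ (PH g lam) A z‖ₑ ^ q = ‖FZ (PH g lam) A z‖ₑ ^ (q - 2) *
                ‖FZ (PH g lam) A z‖ₑ ^ (2 : ℝ) := by
                rw [← ENNReal.rpow_add_of_nonneg _ _ (by linarith) (by norm_num)]
                congr 1
                ring
            _ ≤ _ := by
                rw [ENNReal.rpow_ofNat]
                apply mul_le_mul' _ le_rfl
                exact ENNReal.rpow_le_rpow h5 (by linarith)
      _ = (2 ^ m * ∫⁻ u, ‖A u‖ₑ) ^ (q - 2) * ∫⁻ z, ‖FZ (PH g lam) A z‖ₑ ^ 2 ∂(mS m (Icc (-1) 1)) :=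
          lintegral_const_mul _ hm2
      _ ≤ (2 ^ m * (2 ^ (1 - 1 / q) * N ^ (1 / q))) ^ (q - 2) *
            (2 ^ m * 2 * (2 ^ (1 - 2 / q) * N ^ (2 / q))) := by
          apply mul_le_mul'
          · apply ENNReal.rpow_le_rpow _ (by linarith)
            exact mul_le_mul' le_rfl hA1
          · exact hL2.trans (mul_le_mul' le_rfl hA2)
      _ = _ := by
          have e3 : ((2 : ℝ≥0∞) ^ m * (2 ^ (1 - 1 / q) * N ^ (1 / q))) ^ (q - 2) =
              (2 ^ m * 2 ^ (1 - 1 / q)) ^ (q - 2) * (N ^ (1 / q)) ^ (q - 2) := by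
            rw [← mul_assoc, ENNReal.mul_rpow_of_nonneg _ _ (by linarith : 0 ≤ q - 2)]
          rw [e3, hc0]
          have e2 : (N ^ (1 / q)) ^ (q - 2) * N ^ (2 / q) = N := by
            rw [← ENNReal.rpow_mul, ← ENNReal.rpow_add_of_nonneg _ _ (by
              have : 0 < q - 2 := by linarith
              positivity) (by positivity)]
            rw [show 1 / q * (q - 2) + 2 / q = 1 by field_simp; ring, ENNReal.rpow_one]
          calc _ = (2 ^ m * 2 ^ (1 - 1 / q)) ^ (q - 2) * (2 ^ m * 2 * 2 ^ (1 - 2 / q)) *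
                ((N ^ (1 / q)) ^ (q - 2) * N ^ (2 / q)) := by ring
            _ = _ := by rw [e2]
  have hcov : (univ : Set ℝ) ⊆ (Ici 1 ∪ Iic (-1)) ∪ Icc (-1) 1 := by
    intro t _
    rcases le_total 1 t with h | h
    · left; left; exact h
    · rcases le_total t (-1) with h' | h'
      · left; right; exact h'
      · right; exact ⟨h', h⟩
  calc ∫⁻ t : ℝ, G t = ∫⁻ t in univ, G t := by rw [Measure.restrict_univ]
    _ ≤ ∫⁻ t in (Ici 1 ∪ Iic (-1)) ∪ Icc (-1) 1, G t := lintegral_mono_set hcov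
    _ ≤ (∫⁻ t in Ici 1 ∪ Iic (-1), G t) + ∫⁻ t in Icc (-1 : ℝ) 1, G t := lintegral_union_le _ _ _
    _ ≤ ((∫⁻ t in Ici 1, G t) + ∫⁻ t in Iic (-1 : ℝ), G t) + ∫⁻ t in Icc (-1 : ℝ) 1, G t := by
        gcongr
        exact lintegral_union_le _ _ _
    _ ≤ (C * N + C * N) + c0 * N := by gcongr
    _ = _ := by ring

/-- all exponents -/
theorem Lq_all (m : ℕ) (hm : 1 ≤ m) (K q : ℝ) (hq : 2 * ((m : ℝ) + 2) / (m + 1) < q) : ∃ C : ℝ≥0,
    ∀ (g : Fin m → ℝ × ℝ → ℂ) (lam : ℝ → Fin m → ℝ) (A : ℝ → ℂ) (M : ℝ), (∀ j, Gd K (g j)) →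
      Measurable lam → Ch lam → Bd M A →
      ∫⁻ t : ℝ, ∫⁻ y : Fin m → ℝ, ∫⁻ x : ℝ, ‖FZ (PH g lam) A (t, (y, x))‖ₑ ^ q ≤
        C * ∫⁻ u, ‖A u‖ₑ ^ q := by
  have hm1 : (1 : ℝ) ≤ m := by exact_mod_cast hm
  have hqm : 2 * ((m : ℝ) + 2) < q * (m + 1) := by
    rwa [div_lt_iff₀ (by positivity)] at hq
  rcases lt_or_ge q 4 with h4 | h4
  · have hq2 : 2 < q := by nlinarith
    exact Lq_all4 m K q (by nlinarith) hq2 h4
  · obtain ⟨C, hC⟩ := Lq_all4 m K (7 / 2) (by nlinarith) (by norm_num) (by norm_num)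
    have hq0 : 0 < q := by linarith
    set c0 : ℝ≥0∞ := (2 ^ m * 2 ^ (1 - 1 / q)) ^ (q - 7 / 2) * (C * 2 ^ (1 - (7 / 2) / q)) with hc0
    have hc0t : c0 ≠ ∞ := by
      apply ENNReal.mul_ne_top
      · apply ENNReal.rpow_ne_top_of_nonneg (by linarith)
        exact ENNReal.mul_ne_top (ENNReal.pow_ne_top (by norm_num)) (two_rpow_ne_top _)
      · exact ENNReal.mul_ne_top ENNReal.coe_ne_top (two_rpow_ne_top _)
    refine ⟨c0.toNNReal, ?_⟩
    intro g lam A M hg hl hch hA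
    rw [ENNReal.coe_toNNReal hc0t]
    have h1 := PH_mu (fun j => (hg j).meas) (fun j => (hg j).bd) hl
    set N := ∫⁻ u, ‖A u‖ₑ ^ q with hN
    have hA1 : ∫⁻ u, ‖A u‖ₑ ≤ 2 ^ (1 - 1 / q) * N ^ (1 / q) := by
      have := jenr hA (r := 1) (q := q) one_pos (by linarith)
      simpa using this
    have hA2 : ∫⁻ u, ‖A u‖ₑ ^ (7 / 2 : ℝ) ≤ 2 ^ (1 - (7 / 2) / q) * N ^ ((7 / 2) / q) :=
      jenr hA (by norm_num) (by linarith)
    have hB := hC g lam A M hg hl hch hA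
    set B : ℝ≥0∞ := (2 ^ m * ∫⁻ u, ‖A u‖ₑ) ^ (q - 7 / 2) with hBd
    have hBt : B ≠ ∞ := by
      apply ENNReal.rpow_ne_top_of_nonneg (by linarith)
      apply ENNReal.mul_ne_top (ENNReal.pow_ne_top (by norm_num))
      exact hA.int.2.ne
    have hpt : ∀ (t : ℝ) (y : Fin m → ℝ) (x : ℝ), ‖FZ (PH g lam) A (t, (y, x))‖ₑ ^ q ≤
        B * ‖FZ (PH g lam) A (t, (y, x))‖ₑ ^ (7 / 2 : ℝ) := by
      intro t y x
      have h5 := FZ_sup h1 A (t, (y, x))
      push_cast at h5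
      calc ‖FZ (PH g lam) A (t, (y, x))‖ₑ ^ q = ‖FZ (PH g lam) A (t, (y, x))‖ₑ ^ (q - 7 / 2) *
            ‖FZ (PH g lam) A (t, (y, x))‖ₑ ^ (7 / 2 : ℝ) := by
            rw [← ENNReal.rpow_add_of_nonneg _ _ (by linarith) (by norm_num)]
            congr 1
            ring
        _ ≤ _ := by
            apply mul_le_mul' _ le_rfl
            exact ENNReal.rpow_le_rpow h5 (by linarith)
    calc ∫⁻ t : ℝ, ∫⁻ y : Fin m → ℝ, ∫⁻ x : ℝ, ‖FZ (PH g lam) A (t, (y, x))‖ₑ ^ q ≤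
          ∫⁻ t : ℝ, ∫⁻ y : Fin m → ℝ, ∫⁻ x : ℝ, B * ‖FZ (PH g lam) A (t, (y, x))‖ₑ ^ (7 / 2 : ℝ) :=
          lintegral_mono fun t => lintegral_mono fun y => lintegral_mono fun x => hpt t y x
      _ = B * ∫⁻ t : ℝ, ∫⁻ y : Fin m → ℝ, ∫⁻ x : ℝ, ‖FZ (PH g lam) A (t, (y, x))‖ₑ ^ (7 / 2 : ℝ) := by
          rw [← lintegral_const_mul' _ _ hBt]
          congr 1
          ext t
          rw [← lintegral_const_mul' _ _ hBt]
          congr 1
          ext y
          rw [← lintegral_const_mul' _ _ hBt]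
      _ ≤ (2 ^ m * (2 ^ (1 - 1 / q) * N ^ (1 / q))) ^ (q - 7 / 2) *
            (C * (2 ^ (1 - (7 / 2) / q) * N ^ ((7 / 2) / q))) := by
          apply mul_le_mul'
          · apply ENNReal.rpow_le_rpow _ (by linarith)
            exact mul_le_mul' le_rfl hA1
          · exact hB.trans (mul_le_mul' le_rfl hA2)
      _ = _ := by
          have e3 : ((2 : ℝ≥0∞) ^ m * (2 ^ (1 - 1 / q) * N ^ (1 / q))) ^ (q - 7 / 2) =
              (2 ^ m * 2 ^ (1 - 1 / q)) ^ (q - 7 / 2) * (N ^ (1 / q)) ^ (q - 7 / 2) := by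
            rw [← mul_assoc, ENNReal.mul_rpow_of_nonneg _ _ (by linarith : 0 ≤ q - 7 / 2)]
          rw [e3, hc0]
          have e2 : (N ^ (1 / q)) ^ (q - 7 / 2) * N ^ ((7 / 2) / q) = N := by
            rw [← ENNReal.rpow_mul, ← ENNReal.rpow_add_of_nonneg _ _ (by
              have : 0 < q - 7 / 2 := by linarith
              positivity) (by positivity)]
            rw [show 1 / q * (q - 7 / 2) + 7 / 2 / q = 1 by field_simp; ring, ENNReal.rpow_one]
          calc _ = (2 ^ m * 2 ^ (1 - 1 / q)) ^ (q - 7 / 2) * (C * 2 ^ (1 - (7 / 2) / q)) *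
                ((N ^ (1 / q)) ^ (q - 7 / 2) * N ^ ((7 / 2) / q)) := by ring
            _ = _ := by rw [e2]

end Pool.Agent.W771.NN
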