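import Mathlib
import Pool.Agent.W771.NO
set_option autoImplicit false

/-! Functions of bounded variation have fibre transforms of size `1/|η|`. -/

namespace Pool.Agent.W771.NN
open MeasureTheory Set Complex
open scoped ENNReal NNReal

lemma exp_sub_le {a b B : ℝ} (ha : a ≤ B) (hb : b ≤ B) :
    |Real.exp a - Real.exp b| ≤ Real.exp B * |a - b| := by
  have key : ∀ a b : ℝ, a ≤ B → b ≤ a → Real.exp a - Real.exp b ≤ Real.exp B * (a - b) := by
    intro a b ha hba
    have h1 : Real.exp a - Real.exp b = Real.exp a * (1 - Real.exp (b - a)) := by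
      rw [mul_sub, mul_one, ← Real.exp_add]
      congr 2
      ring
    have h2 : 1 - Real.exp (b - a) ≤ a - b := by
      have := Real.add_one_le_exp (b - a)
      linarith
    rw [h1]
    calc Real.exp a * (1 - Real.exp (b - a)) ≤ Real.exp a * (a - b) := by
          gcongr
      _ ≤ _ := by
          apply mul_le_mul_of_nonneg_right _ (by linarith)
          exact Real.exp_le_exp.mpr ha
  rcases le_total b a with h | h
  · rw [abs_of_nonneg (by have := Real.exp_le_exp.mpr h; linarith), abs_of_nonneg (by linarith)]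
    exact key a b ha h
  · rw [abs_sub_comm, abs_sub_comm a b, abs_of_nonneg (by have := Real.exp_le_exp.mpr h; linarith),
      abs_of_nonneg (by linarith)]
    exact key b a hb h

lemma ft_shift {M : ℝ} {G : ℝ → ℂ} (hG : Bd M G) (η h : ℝ) :
    ft G η * (ee (η * h) - 1) = ∫ v, (G (v + h) - G v) * ee (-(η * v)) := by
  have he : Measurable (fun v : ℝ => ee (-(η * v))) := ee_meas.comp ((measurable_id.const_mul η).neg)
  have i1 : Integrable (fun v => G v * ee (-(η * v))) :=
    int_mul_bd hG.int he 1 (fun v => by rw [ee_norm])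
  have i2 : Integrable (fun v => G (v + h) * ee (-(η * v))) :=
    int_mul_bd (hG.int.comp_add_right h) he 1 (fun v => by rw [ee_norm])
  have e1 : ∀ v, (G (v + h) - G v) * ee (-(η * v)) = G (v + h) * ee (-(η * v)) - G v * ee (-(η * v)) := by
    intro v; ring
  simp only [e1]
  rw [integral_sub i2 i1]
  have e2 : ∫ v, G (v + h) * ee (-(η * v)) = ft G η * ee (η * h) := by
    have e3 : ∀ v, G (v + h) * ee (-(η * v)) = (fun w => G w * ee (-(η * w)) * ee (η * h)) (v + h) := by
      intro v
      simp only
      rw [mul_assoc, ← ee_add]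
      congr 2
      ring
    simp only [e3]
    rw [integral_add_right_eq_self (fun w => G w * ee (-(η * w)) * ee (η * h)) h, integral_mul_const]
    rfl
  rw [e2]
  unfold ft
  ring

lemma ee_half (s : ℝ) (hs : s = 1 / 2 ∨ s = -(1 / 2)) : ee s = -1 := by
  unfold ee
  rcases hs with h | h
  · rw [h]
    have : (2 * Real.pi * I * ((1 / 2 : ℝ) : ℂ)) = Real.pi * I := by
      push_cast
      ring
    rw [this, Complex.exp_pi_mul_I]
  · rw [h]
    have : (2 * Real.pi * I * ((-(1 / 2) : ℝ) : ℂ)) = -(Real.pi * I) := by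
      push_cast
      ring
    rw [this, Complex.exp_neg, Complex.exp_pi_mul_I]
    norm_num

/-- the modulus of continuity of the windowed fibre -/
lemma mod_GG {V : ℝ} (hV : 0 ≤ V) {g : ℝ × ℝ → ℂ} (hg : Measurable g) (hb : ∀ w, ‖g w‖ ≤ 1) (u h : ℝ)
    (h0 : 0 ≤ h) (hmod : ∫⁻ v in Icc (-1 : ℝ) (1 - h), ‖g (u, v + h) - g (u, v)‖ₑ ≤
      ENNReal.ofReal (V * h)) :
    ∫⁻ v, ‖GG g u (v + h) - GG g u v‖ₑ ≤
      ENNReal.ofReal (Real.exp Real.pi * (V + 4 * Real.pi + 2) * h) := by
  have hpi := Real.pi_pos
  set E := Real.exp Real.pi with hE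
  have hE0 : 0 < E := Real.exp_pos _
  have hG := GG_bd hg hb u
  have hgm : Measurable (fun v : ℝ => ‖g (u, v + h) - g (u, v)‖ₑ) := by
    have h1 : Measurable (fun v : ℝ => g (u, v + h)) :=
      hg.comp (measurable_const.prodMk (measurable_id.add_const h))
    have h2 : Measurable (fun v : ℝ => g (u, v)) := hg.comp (measurable_const.prodMk measurable_id)
    exact (h1.sub h2).enorm
  have hpt : ∀ v, ‖GG g u (v + h) - GG g u v‖ₑ ≤
      (Icc (-1 : ℝ) (1 - h)).indicator (fun v => ENNReal.ofReal E * ‖g (u, v + h) - g (u, v)‖ₑ +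
        ENNReal.ofReal (E * (2 * Real.pi * h))) v +
      ((Icc (-1 - h) (-1 : ℝ)).indicator (fun _ => ENNReal.ofReal E) v +
       (Icc (1 - h) (1 : ℝ)).indicator (fun _ => ENNReal.ofReal E) v) := by
    intro v
    have hGe : ∀ w, ‖GG g u w‖ₑ ≤ ENNReal.ofReal E := fun w => by
      rw [← ofReal_norm]
      exact ENNReal.ofReal_le_ofReal (hG.bd w)
    by_cases h1 : v ∈ Icc (-1 : ℝ) (1 - h)
    · rw [indicator_of_mem h1]
      refine le_trans ?_ le_self_add
      have hv1 : v ∈ Icc (-1 : ℝ) 1 := ⟨h1.1, by linarith [h1.2]⟩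
      have hv2 : v + h ∈ Icc (-1 : ℝ) 1 := ⟨by linarith [h1.1], by linarith [h1.2]⟩
      have e1 : GG g u (v + h) - GG g u v =
          ((Real.exp (Real.pi * (v + h) ^ 2) : ℝ) : ℂ) * (g (u, v + h) - g (u, v)) +
          (((Real.exp (Real.pi * (v + h) ^ 2) - Real.exp (Real.pi * v ^ 2) : ℝ)) : ℂ) * g (u, v) := by
        unfold GG
        rw [indicator_of_mem hv1, indicator_of_mem hv2]
        push_cast
        ring
      have s1 : Real.pi * v ^ 2 ≤ Real.pi := by
        have : v ^ 2 ≤ 1 := by nlinarith [hv1.1, hv1.2]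
        nlinarith
      have s2 : Real.pi * (v + h) ^ 2 ≤ Real.pi := by
        have : (v + h) ^ 2 ≤ 1 := by nlinarith [hv2.1, hv2.2]
        nlinarith
      rw [e1]
      refine (enorm_add_le _ _).trans (add_le_add ?_ ?_)
      · rw [enorm_mul]
        apply mul_le_mul' _ le_rfl
        rw [← ofReal_norm, Complex.norm_real, Real.norm_of_nonneg (Real.exp_pos _).le]
        apply ENNReal.ofReal_le_ofReal
        exact Real.exp_le_exp.mpr s2
      · rw [enorm_mul, ← ofReal_norm, ← ofReal_norm, ← ENNReal.ofReal_mul (norm_nonneg _)]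
        apply ENNReal.ofReal_le_ofReal
        rw [Complex.norm_real, Real.norm_eq_abs]
        have k1 := exp_sub_le s2 s1
        have k2 : |Real.pi * (v + h) ^ 2 - Real.pi * v ^ 2| ≤ 2 * Real.pi * h := by
          rw [show Real.pi * (v + h) ^ 2 - Real.pi * v ^ 2 = Real.pi * h * ((v + h) + v) by ring,
            abs_mul, abs_of_nonneg (by positivity)]
          have : |(v + h) + v| ≤ 2 := by
            rw [abs_le]
            constructor <;> linarith [hv1.1, hv1.2, hv2.1, hv2.2]
          have := mul_le_mul_of_nonneg_left this (by positivity : 0 ≤ Real.pi * h)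
          linarith
        calc _ ≤ (E * (2 * Real.pi * h)) * 1 := by
              apply mul_le_mul _ (hb _) (norm_nonneg _) (by positivity)
              exact k1.trans (mul_le_mul_of_nonneg_left k2 hE0.le)
          _ = _ := mul_one _
    · rw [indicator_of_notMem h1, zero_add]
      by_cases h2 : v ∈ Icc (-1 : ℝ) 1
      · have h3 : v ∈ Icc (1 - h) (1 : ℝ) := by
          refine ⟨?_, h2.2⟩
          by_contra hc
          push Not at hc
          exact h1 ⟨h2.1, hc.le⟩
        rw [indicator_of_mem h3]
        refine le_trans ?_ le_add_self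
        by_cases h4 : v + h ∈ Icc (-1 : ℝ) 1
        · have h5 : v = 1 - h := le_antisymm (by linarith [h4.2]) h3.1
          exfalso
          apply h1
          rw [h5]
          exact ⟨by linarith [h2.1], le_rfl⟩
        · have : GG g u (v + h) = 0 := hG.z _ h4
          rw [this, zero_sub, enorm_neg]
          exact hGe v
      · have h3 : GG g u v = 0 := hG.z _ h2
        rw [h3, sub_zero]
        by_cases h4 : v + h ∈ Icc (-1 : ℝ) 1
        · have h5 : v ∈ Icc (-1 - h) (-1 : ℝ) := by
            refine ⟨by linarith [h4.1], ?_⟩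
            by_contra hc
            push Not at hc
            exact h2 ⟨hc.le, by linarith [h4.2]⟩
          rw [indicator_of_mem h5]
          exact (hGe _).trans le_self_add
        · rw [hG.z _ h4, enorm_zero]
          exact zero_le
  have hmA : Measurable (fun v => (Icc (-1 : ℝ) (1 - h)).indicator (fun v => ENNReal.ofReal E *
      ‖g (u, v + h) - g (u, v)‖ₑ + ENNReal.ofReal (E * (2 * Real.pi * h))) v) :=
    ((hgm.const_mul _).add_const _).indicator measurableSet_Icc
  have hmB : Measurable (fun v => (Icc (-1 - h) (-1 : ℝ)).indicator (fun _ => ENNReal.ofReal E) v) :=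
    measurable_const.indicator measurableSet_Icc
  calc ∫⁻ v, ‖GG g u (v + h) - GG g u v‖ₑ ≤ _ := lintegral_mono hpt
    _ = (∫⁻ v in Icc (-1 : ℝ) (1 - h), (ENNReal.ofReal E * ‖g (u, v + h) - g (u, v)‖ₑ +
          ENNReal.ofReal (E * (2 * Real.pi * h)))) +
        ((∫⁻ _v in Icc (-1 - h) (-1 : ℝ), ENNReal.ofReal E) + ∫⁻ _v in Icc (1 - h) (1 : ℝ),
          ENNReal.ofReal E) := by
        rw [lintegral_add_left hmA, lintegral_add_left hmB, lintegral_indicator measurableSet_Icc,
          lintegral_indicator measurableSet_Icc, lintegral_indicator measurableSet_Icc]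
    _ ≤ (ENNReal.ofReal E * ENNReal.ofReal (V * h) +
          ENNReal.ofReal (E * (2 * Real.pi * h)) * ENNReal.ofReal 2) +
        (ENNReal.ofReal E * ENNReal.ofReal h + ENNReal.ofReal E * ENNReal.ofReal h) := by
        apply add_le_add
        · rw [lintegral_add_right _ measurable_const, lintegral_const_mul _ hgm, setLIntegral_const,
            Real.volume_Icc]
          apply add_le_add
          · exact mul_le_mul' le_rfl hmod
          · apply mul_le_mul' le_rfl
            apply ENNReal.ofReal_le_ofReal
            linarith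
        · rw [setLIntegral_const, setLIntegral_const, Real.volume_Icc, Real.volume_Icc]
          apply add_le_add
          · apply mul_le_mul' le_rfl
            apply ENNReal.ofReal_le_ofReal
            linarith
          · apply mul_le_mul' le_rfl
            apply ENNReal.ofReal_le_ofReal
            linarith
    _ = _ := by
        rw [← ENNReal.ofReal_mul hE0.le, ← ENNReal.ofReal_mul (by positivity),
          ← ENNReal.ofReal_mul hE0.le, ← ENNReal.ofReal_add (by positivity) (by positivity),
          ← ENNReal.ofReal_add (by positivity) (by positivity),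
          ← ENNReal.ofReal_add (by positivity) (by positivity)]
        congr 1
        ring

/-- bounded variation gives decay of the fibre transform -/
lemma Gd_of {V : ℝ} (hV : 0 ≤ V) {g : ℝ × ℝ → ℂ} (hg : Measurable g) (hb : ∀ w, ‖g w‖ ≤ 1)
    (hmod : ∀ u, ∀ h ∈ Icc (0 : ℝ) 1, ∫⁻ v in Icc (-1 : ℝ) (1 - h), ‖g (u, v + h) - g (u, v)‖ₑ ≤
      ENNReal.ofReal (V * h)) : Gd (Real.exp Real.pi * (V + 4 * Real.pi + 2)) g := by
  refine ⟨hg, hb, ?_⟩
  intro u η
  have hpi := Real.pi_pos
  have hpi3 := Real.pi_gt_three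
  set E := Real.exp Real.pi with hE
  have hE0 : 0 < E := Real.exp_pos _
  have hG := GG_bd hg hb u
  have hη0 := abs_nonneg η
  rcases lt_or_ge |η| (1 / 2) with h1 | h1
  · have h2 : ‖ft (GG g u) η‖ ≤ E * 2 := by
      refine (ft_le η).trans ?_
      have h3 : ∀ v, ‖GG g u v‖ ≤ (Icc (-1 : ℝ) 1).indicator (fun _ => E) v := by
        intro v
        by_cases hu : v ∈ Icc (-1 : ℝ) 1
        · rw [indicator_of_mem hu]
          exact hG.bd v
        · rw [indicator_of_notMem hu, hG.z v hu, norm_zero]
      calc ∫ v, ‖GG g u v‖ ≤ ∫ v, (Icc (-1 : ℝ) 1).indicator (fun _ => E) v := by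
            apply integral_mono hG.int.norm _ h3
            rw [integrable_indicator_iff measurableSet_Icc]
            exact integrableOn_const (by simp)
        _ = E * 2 := by
            rw [integral_indicator measurableSet_Icc, setIntegral_const]
            simp [Measure.real, Real.volume_Icc]
            norm_num
            ring
    refine h2.trans ?_
    rw [← div_eq_mul_inv, le_div_iff₀ (by positivity)]
    have : E * 2 * (1 + |η|) ≤ E * 2 * (3 / 2) := by
      gcongr
      linarith
    refine this.trans ?_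
    have : E * 2 * (3 / 2) = E * 3 := by ring
    rw [this]
    apply mul_le_mul_of_nonneg_left _ hE0.le
    linarith
  · have hη : 0 < |η| := by linarith
    set h : ℝ := 1 / (2 * |η|) with hh
    have hh0 : 0 < h := by positivity
    have hh1 : h ≤ 1 := by
      rw [hh, div_le_one (by positivity)]
      linarith
    have hs : η * h = 1 / 2 ∨ η * h = -(1 / 2) := by
      rcases abs_cases η with ⟨h2, _⟩ | ⟨h2, _⟩
      · left
        rw [hh, h2]
        have : η ≠ 0 := by
          intro hc
          rw [hc, abs_zero] at hη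
          exact lt_irrefl _ hη
        field_simp
      · right
        rw [hh, h2]
        have : η ≠ 0 := by
          intro hc
          rw [hc, abs_zero] at hη
          exact lt_irrefl _ hη
        field_simp
    have k1 := ft_shift hG η h
    rw [ee_half _ hs] at k1
    have k2 : 2 * ‖ft (GG g u) η‖ₑ ≤ ENNReal.ofReal (E * (V + 4 * Real.pi + 2) * h) := by
      have k3 : ‖ft (GG g u) η * (-1 - 1)‖ₑ ≤ ENNReal.ofReal (E * (V + 4 * Real.pi + 2) * h) := by
        rw [k1]
        refine (enorm_integral_le_lintegral_enorm _).trans ?_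
        simp only [enorm_mul, ee_enorm, mul_one]
        exact mod_GG hV hg hb u h hh0.le (hmod u h ⟨hh0.le, hh1⟩)
      rw [enorm_mul] at k3
      have : ‖(-1 - 1 : ℂ)‖ₑ = 2 := by
        rw [← ofReal_norm]
        norm_num
      rw [this, mul_comm] at k3
      exact k3
    have k4 : 2 * ‖ft (GG g u) η‖ ≤ E * (V + 4 * Real.pi + 2) * h := by
      have : ENNReal.ofReal (2 * ‖ft (GG g u) η‖) ≤ ENNReal.ofReal (E * (V + 4 * Real.pi + 2) * h) := by
        rw [ENNReal.ofReal_mul (by norm_num), ofReal_norm]
        simpa using k2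
      exact (ENNReal.ofReal_le_ofReal_iff (by positivity)).mp this
    have k5 : h ≤ 2 * (1 + |η|)⁻¹ := by
      rw [hh, ← div_eq_mul_inv, div_le_div_iff₀ (by positivity) (by positivity)]
      linarith
    have hc : 0 ≤ E * (V + 4 * Real.pi + 2) := by positivity
    calc ‖ft (GG g u) η‖ ≤ E * (V + 4 * Real.pi + 2) * h / 2 := by linarith
      _ ≤ E * (V + 4 * Real.pi + 2) * (2 * (1 + |η|)⁻¹) / 2 := by gcongr
      _ = _ := by ring

end Pool.Agent.W771.NN
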