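import Mathlib
import Pool.Agent.W771.NP
import Pool.Agent.W771.MK
set_option autoImplicit false

/-! General densities, and the extension operator. -/

namespace Pool.Agent.W771.NN
open MeasureTheory Set Complex Filter Topology
open scoped ENNReal NNReal

variable {m : ℕ}

/-- unbounded densities -/
theorem Lq_gen (m : ℕ) (hm : 1 ≤ m) (K q : ℝ) (hq : 2 * ((m : ℝ) + 2) / (m + 1) < q) : ∃ C : ℝ≥0,
    ∀ (g : Fin m → ℝ × ℝ → ℂ) (lam : ℝ → Fin m → ℝ) (A : ℝ → ℂ), (∀ j, Gd K (g j)) →
      Measurable lam → Ch lam → Measurable A → (∀ u, u ∉ Icc (-1 : ℝ) 1 → A u = 0) →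
      ∫⁻ u, ‖A u‖ₑ ^ q ≠ ∞ →
      Integrable A ∧ ∫⁻ t : ℝ, ∫⁻ y : Fin m → ℝ, ∫⁻ x : ℝ, ‖FZ (PH g lam) A (t, (y, x))‖ₑ ^ q ≤
        C * ∫⁻ u, ‖A u‖ₑ ^ q := by
  obtain ⟨C, hC⟩ := Lq_all m hm K q hq
  have hm1 : (1 : ℝ) ≤ m := by exact_mod_cast hm
  have hq1 : 1 < q := by
    refine lt_trans ?_ hq
    rw [lt_div_iff₀ (by positivity)]
    linarith
  have hq0 : 0 < q := by linarith
  refine ⟨C, ?_⟩
  intro g lam A hg hl hch hA hz hN
  have hAi : Integrable A := by
    refine ⟨hA.aestronglyMeasurable, ?_⟩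
    unfold HasFiniteIntegral
    have h1 : ∀ u, ‖A u‖ₑ ≤ (Icc (-1 : ℝ) 1).indicator (fun _ => 1) u + ‖A u‖ₑ ^ q := by
      intro u
      by_cases hu : u ∈ Icc (-1 : ℝ) 1
      · rw [indicator_of_mem hu]
        rcases le_total ‖A u‖ₑ 1 with h | h
        · exact h.trans le_self_add
        · refine le_trans ?_ le_add_self
          calc ‖A u‖ₑ = ‖A u‖ₑ ^ (1 : ℝ) := (ENNReal.rpow_one _).symm
            _ ≤ ‖A u‖ₑ ^ q := ENNReal.rpow_le_rpow_of_exponent_le h hq1.le
      · rw [hz u hu, enorm_zero]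
        exact zero_le
    refine (lintegral_mono h1).trans_lt ?_
    rw [lintegral_add_left (measurable_const.indicator measurableSet_Icc),
      lintegral_indicator measurableSet_Icc, setLIntegral_const, Real.volume_Icc]
    exact ENNReal.add_lt_top.mpr ⟨ENNReal.mul_lt_top ENNReal.one_lt_top ENNReal.ofReal_lt_top,
      lt_top_iff_ne_top.mpr hN⟩
  refine ⟨hAi, ?_⟩
  have h1 := PH_mu (fun j => (hg j).meas) (fun j => (hg j).bd) hl
  set An : ℕ → ℝ → ℂ := fun n => {u | ‖A u‖ ≤ n}.indicator A with hAn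
  have hS : ∀ n : ℕ, MeasurableSet {u | ‖A u‖ ≤ n} := fun n =>
    measurableSet_le hA.norm measurable_const
  have hBd : ∀ n : ℕ, Bd n (An n) := by
    intro n
    refine ⟨hA.indicator (hS n), ?_, ?_⟩
    · intro u
      simp only [hAn]
      by_cases hu : u ∈ {u | ‖A u‖ ≤ n}
      · rw [indicator_of_mem hu]; exact hu
      · rw [indicator_of_notMem hu, norm_zero]
        exact Nat.cast_nonneg n
    · intro u hu
      simp only [hAn]
      by_cases hu' : u ∈ {u | ‖A u‖ ≤ n}
      · rw [indicator_of_mem hu']; exact hz u hu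
      · rw [indicator_of_notMem hu']
  have hAnA : ∀ n u, ‖An n u‖ ≤ ‖A u‖ := by
    intro n u
    simp only [hAn]
    exact norm_indicator_le_norm_self _ _
  have hlim : ∀ z : ZZ m, Tendsto (fun n => FZ (PH g lam) (An n) z) atTop (𝓝 (FZ (PH g lam) A z)) := by
    intro z
    unfold FZ
    apply tendsto_integral_of_dominated_convergence (fun u => ‖A u‖ * 2 ^ m)
    · intro n
      have he : Measurable (fun u : ℝ => ee (z.2.2 * u)) := ee_meas.comp (measurable_id.const_mul _)
      exact ((FZ_bd h1 (hBd n) z.1 z.2.1).meas.mul he).aestronglyMeasurable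
    · exact hAi.norm.mul_const _
    · intro n
      apply ae_of_all
      intro u
      rw [norm_mul, norm_mul, norm_mul, ee_norm, ee_norm, mul_one, mul_one]
      have h2 := h1.bd u z.1 z.2.1
      push_cast at h2
      exact mul_le_mul (hAnA n u) h2 (norm_nonneg _) (norm_nonneg _)
    · apply ae_of_all
      intro u
      have h2 : ∀ᶠ n : ℕ in atTop, An n u = A u := by
        obtain ⟨N, hN⟩ := exists_nat_ge ‖A u‖
        filter_upwards [eventually_ge_atTop N] with n hn
        simp only [hAn]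
        rw [indicator_of_mem]
        show ‖A u‖ ≤ n
        exact hN.trans (by exact_mod_cast hn)
      apply tendsto_const_nhds.congr'
      filter_upwards [h2] with n hn
      rw [hn]
  have hmz : Measurable (fun z => ‖FZ (PH g lam) A z‖ₑ ^ q) := FZ_t_meas h1 hA q
  have e1 : ∀ (B : ℝ → ℂ), Measurable B → ∫⁻ t : ℝ, ∫⁻ y : Fin m → ℝ, ∫⁻ x : ℝ,
      ‖FZ (PH g lam) B (t, (y, x))‖ₑ ^ q = ∫⁻ z, ‖FZ (PH g lam) B z‖ₑ ^ q ∂(mS m univ) := by
    intro B hB
    rw [nest _ (FZ_t_meas h1 hB q), Measure.restrict_univ]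
  rw [e1 A hA]
  have e2 : ∀ z, ‖FZ (PH g lam) A z‖ₑ ^ q = liminf (fun n => ‖FZ (PH g lam) (An n) z‖ₑ ^ q) atTop := by
    intro z
    symm
    apply Tendsto.liminf_eq
    exact ((ENNReal.continuous_rpow_const (y := q)).tendsto _).comp ((hlim z).enorm)
  simp only [e2]
  refine (lintegral_liminf_le fun n => FZ_t_meas h1 (hBd n).meas q).trans ?_
  apply liminf_le_of_le (by isBoundedDefault)
  intro b hb
  obtain ⟨n, hn⟩ := hb.exists
  refine hn.trans ?_
  rw [← e1 _ (hBd n).meas]
  refine (hC g lam (An n) n hg hl hch (hBd n)).trans ?_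
  apply mul_le_mul' le_rfl
  apply lintegral_mono
  intro u
  apply ENNReal.rpow_le_rpow _ hq0.le
  rw [← ofReal_norm, ← ofReal_norm]
  exact ENNReal.ofReal_le_ofReal (hAnA n u)

/-- the density `a(ξ₀) ∏ g_j(ξ₀, ξ_j) e(λ_j(ξ₀) ξ_j)` -/
noncomputable def dens (a : ℝ → ℂ) (g : Fin m → ℝ × ℝ → ℂ) (lam : ℝ → Fin m → ℝ)
    (ξ : Fin (m + 1) → ℝ) : ℂ := a (ξ 0) * ∏ j : Fin m, (g j (ξ 0, ξ j.succ) * ee (lam (ξ 0) j * ξ j.succ))

lemma ext_FZ (a : ℝ → ℂ) (ha : Measurable a) (g : Fin m → ℝ × ℝ → ℂ) (hg : ∀ j, Measurable (g j))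
    (hb : ∀ j w, ‖g j w‖ ≤ 1) (lam : ℝ → Fin m → ℝ) (hl : Measurable lam)
    (hi : Integrable ((Icc (-1 : ℝ) 1).indicator a)) (x : ℝ) (y : Fin m → ℝ) (t : ℝ) :
    Pool.Agent.H728R3.SR.ext (dens a g lam) (Fin.cons x y, t) =
      FZ (PH g lam) ((Icc (-1 : ℝ) 1).indicator a) (t, (y, x)) := by
  unfold Pool.Agent.H728R3.SR.ext
  set cube : Set (Fin (m + 1) → ℝ) := Icc (fun _ => (-1 : ℝ)) (fun _ => 1) with hcube
  have hcm : MeasurableSet cube := measurableSet_Icc
  rw [← integral_indicator hcm]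
  set H : (Fin (m + 1) → ℝ) → ℂ := cube.indicator (fun ξ => dens a g lam ξ * cexp (2 * Real.pi * I *
    ((∑ j, ξ j * (Fin.cons x y : Fin (m + 1) → ℝ) j + (∑ j, ξ j ^ 2) * t : ℝ) : ℂ))) with hH
  have hmp := (volume_preserving_piFinSuccAbove (fun _ : Fin (m + 1) => ℝ) 0).symm
  have h2 : ∀ w : ℝ × (Fin m → ℝ), (MeasurableEquiv.piFinSuccAbove
      (fun _ : Fin (m + 1) => ℝ) 0).symm w = (Fin.cons w.1 w.2 : Fin (m + 1) → ℝ) := by
    intro w
    simp [MeasurableEquiv.piFinSuccAbove]
    rfl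
  have e0 : ∫ ξ, H ξ = ∫ w : ℝ × (Fin m → ℝ), H (Fin.cons w.1 w.2) := by
    rw [← hmp.integral_comp (MeasurableEquiv.measurableEmbedding _)]
    simp only [h2]
  rw [e0]
  -- the integrand
  have e1 : ∀ w : ℝ × (Fin m → ℝ), H (Fin.cons w.1 w.2) =
      ((Icc (-1 : ℝ) 1).indicator a w.1 * ee (t * w.1 ^ 2) * ee (x * w.1)) *
      ∏ j, (Icc (-1 : ℝ) 1).indicator (fun v => g j (w.1, v) *
        ee ((y j + lam w.1 j) * v + t * v ^ 2)) (w.2 j) := by
    intro w
    obtain ⟨u, v⟩ := w
    simp only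
    have hmem : (Fin.cons u v : Fin (m + 1) → ℝ) ∈ cube ↔ u ∈ Icc (-1 : ℝ) 1 ∧
        ∀ j, v j ∈ Icc (-1 : ℝ) 1 := by
      rw [hcube, mem_Icc, Pi.le_def, Pi.le_def, Fin.forall_fin_succ, Fin.forall_fin_succ]
      simp only [Fin.cons_zero, Fin.cons_succ, mem_Icc]
      constructor
      · rintro ⟨⟨h1, h2⟩, h3, h4⟩
        exact ⟨⟨h1, h3⟩, fun j => ⟨h2 j, h4 j⟩⟩
      · rintro ⟨⟨h1, h2⟩, h3⟩
        exact ⟨⟨h1, fun j => (h3 j).1⟩, h2, fun j => (h3 j).2⟩
    by_cases hc : (Fin.cons u v : Fin (m + 1) → ℝ) ∈ cube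
    · obtain ⟨hu, hv⟩ := hmem.mp hc
      rw [hH, indicator_of_mem hc, indicator_of_mem hu]
      have e2 : ∏ j, (Icc (-1 : ℝ) 1).indicator (fun v => g j (u, v) *
          ee ((y j + lam u j) * v + t * v ^ 2)) (v j) =
          ∏ j, (g j (u, v j) * ee ((y j + lam u j) * v j + t * v j ^ 2)) := by
        apply Finset.prod_congr rfl
        intro j _
        rw [indicator_of_mem (hv j)]
      rw [e2]
      unfold dens
      simp only [Fin.cons_zero, Fin.cons_succ, Fin.sum_univ_succ]
      have e3 : ∀ j, ee ((y j + lam u j) * v j + t * v j ^ 2) =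
          ee (lam u j * v j) * ee (v j * y j + v j ^ 2 * t) := by
        intro j
        rw [← ee_add]
        congr 1
        ring
      simp only [e3]
      have e4 : cexp (2 * Real.pi * I * ((u * x + ∑ j, v j * y j + (u ^ 2 + ∑ j, v j ^ 2) * t : ℝ) : ℂ)) =
          ee (t * u ^ 2) * ee (x * u) * ∏ j, ee (v j * y j + v j ^ 2 * t) := by
        have e5 : ∏ j, ee (v j * y j + v j ^ 2 * t) = ee (∑ j, (v j * y j + v j ^ 2 * t)) := by
          unfold ee
          rw [← Complex.exp_sum]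
          congr 1
          push_cast
          rw [Finset.mul_sum]
        rw [e5, ← ee_add, ← ee_add]
        unfold ee
        congr 3
        rw [Finset.sum_add_distrib, ← Finset.sum_mul]
        ring
      rw [e4]
      simp only [Finset.prod_mul_distrib]
      ring
    · rw [hH, indicator_of_notMem hc]
      rw [hmem, not_and_or] at hc
      rcases hc with hc | hc
      · rw [indicator_of_notMem hc]
        ring
      · push Not at hc
        obtain ⟨j, hj⟩ := hc
        symm
        apply mul_eq_zero_of_right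
        apply Finset.prod_eq_zero (Finset.mem_univ j)
        rw [indicator_of_notMem hj]
  simp only [e1]
  -- measurability and integrability
  have hPm : Measurable (fun w : ℝ × (Fin m → ℝ) => ∏ j, (Icc (-1 : ℝ) 1).indicator
      (fun v => g j (w.1, v) * ee ((y j + lam w.1 j) * v + t * v ^ 2)) (w.2 j)) := by
    apply Finset.measurable_prod
    intro j _
    have hvj : Measurable (fun w : ℝ × (Fin m → ℝ) => w.2 j) :=
      (measurable_pi_apply j).comp measurable_snd
    have hset : MeasurableSet {w : ℝ × (Fin m → ℝ) | w.2 j ∈ Icc (-1 : ℝ) 1} := hvj measurableSet_Icc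
    have h3 : Measurable (fun w : ℝ × (Fin m → ℝ) => g j (w.1, w.2 j) *
        ee ((y j + lam w.1 j) * w.2 j + t * w.2 j ^ 2)) := by
      apply Measurable.mul
      · exact (hg j).comp (measurable_fst.prodMk hvj)
      · apply ee_meas.comp
        exact (((lamj hl measurable_fst j).const_add _).mul hvj).add ((hvj.pow_const 2).const_mul _)
    exact h3.indicator hset
  have hint : Integrable (fun w : ℝ × (Fin m → ℝ) =>
      ((Icc (-1 : ℝ) 1).indicator a w.1 * ee (t * w.1 ^ 2) * ee (x * w.1)) *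
      ∏ j, (Icc (-1 : ℝ) 1).indicator (fun v => g j (w.1, v) *
        ee ((y j + lam w.1 j) * v + t * v ^ 2)) (w.2 j)) (volume.prod volume) := by
    have hbm : MeasurableSet (Set.pi univ fun _ : Fin m => Icc (-1 : ℝ) 1) :=
      MeasurableSet.univ_pi fun _ => measurableSet_Icc
    have k1 : Integrable (fun v : Fin m → ℝ => (Set.pi univ fun _ : Fin m => Icc (-1 : ℝ) 1).indicator
        (fun _ => (1 : ℝ)) v) := by
      rw [integrable_indicator_iff hbm]
      have hvol : volume (Set.pi univ fun _ : Fin m => Icc (-1 : ℝ) 1) ≠ ∞ := by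
        rw [volume_pi_pi]
        simp
      have hone : ‖(1 : ℝ)‖ₑ ≠ ∞ := enorm_ne_top
      exact integrableOn_const (hs := hvol) (hC := hone)
    have k2 := hi.norm.mul_prod k1
    refine k2.mono' ?_ ?_
    · apply Measurable.aestronglyMeasurable
      apply Measurable.mul _ hPm
      apply Measurable.mul
      · apply Measurable.mul
        · exact (ha.indicator measurableSet_Icc).comp measurable_fst
        · exact ee_meas.comp ((measurable_fst.pow_const 2).const_mul _)
      · exact ee_meas.comp (measurable_fst.const_mul _)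
    · apply ae_of_all
      intro w
      rw [norm_mul, norm_mul, norm_mul, ee_norm, ee_norm, mul_one, mul_one, norm_prod]
      apply mul_le_mul_of_nonneg_left _ (norm_nonneg _)
      by_cases hw : ∀ j, w.2 j ∈ Icc (-1 : ℝ) 1
      · rw [indicator_of_mem (show w.2 ∈ Set.pi univ fun _ : Fin m => Icc (-1 : ℝ) 1 from fun j _ => hw j)]
        apply Finset.prod_le_one
        · intro j _
          exact norm_nonneg _
        · intro j _
          rw [indicator_of_mem (hw j), norm_mul, ee_norm, mul_one]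
          exact hb j _
      · rw [indicator_of_notMem (show w.2 ∉ Set.pi univ fun _ : Fin m => Icc (-1 : ℝ) 1 from fun h => hw fun j => h j (mem_univ j))]
        push Not at hw
        obtain ⟨j, hj⟩ := hw
        apply le_of_eq
        apply Finset.prod_eq_zero (Finset.mem_univ j)
        rw [indicator_of_notMem hj, norm_zero]
  rw [Measure.volume_eq_prod, integral_prod _ hint]
  unfold FZ
  congr 1
  ext u
  simp only
  rw [integral_const_mul, integral_fintype_prod_volume_eq_prod (fun j => (Icc (-1 : ℝ) 1).indicator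
    (fun v => g j (u, v) * ee ((y j + lam u j) * v + t * v ^ 2)))]
  unfold PH HH
  simp only [integral_indicator measurableSet_Icc]
  ring

end Pool.Agent.W771.NN
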