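import Mathlib
import Pool.Agent.W771.NQ
set_option autoImplicit false

/-! Monotone twists: the final estimate. -/

namespace Pool.Agent.W771.NN
open MeasureTheory Set Complex Filter Topology
open scoped ENNReal NNReal

variable {m : ℕ}

/-- the square -/
def Sq : Set (ℝ × ℝ) := Icc (-1 : ℝ) 1 ×ˢ Icc (-1 : ℝ) 1

lemma Sq_meas : MeasurableSet Sq := measurableSet_Icc.prod measurableSet_Icc

lemma Sq_Gd {V : ℝ} (hV : 0 ≤ V) {g : ℝ × ℝ → ℂ} (hg : Measurable g)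
    (hb : ∀ u ∈ Icc (-1 : ℝ) 1, ∀ v ∈ Icc (-1 : ℝ) 1, ‖g (u, v)‖ ≤ 1)
    (hmod : ∀ u ∈ Icc (-1 : ℝ) 1, ∀ h ∈ Icc (0 : ℝ) 1,
      ∫⁻ v in Icc (-1 : ℝ) (1 - h), ‖g (u, v + h) - g (u, v)‖ₑ ≤ ENNReal.ofReal (V * h)) :
    Gd (Real.exp Real.pi * (V + 4 * Real.pi + 2)) (Sq.indicator g) := by
  apply Gd_of hV (hg.indicator Sq_meas)
  · intro w
    by_cases hw : w ∈ Sq
    · rw [indicator_of_mem hw]
      exact hb w.1 hw.1 w.2 hw.2
    · rw [indicator_of_notMem hw, norm_zero]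
      exact zero_le_one
  · intro u h hh
    by_cases hu : u ∈ Icc (-1 : ℝ) 1
    · refine le_trans (le_of_eq ?_) (hmod u hu h hh)
      apply setLIntegral_congr_fun measurableSet_Icc
      intro v hv
      simp only
      have h1 : (u, v + h) ∈ Sq := ⟨hu, by
        constructor
        · simp only
          linarith [hv.1, hh.1]
        · simp only
          linarith [hv.2]⟩
      have h2 : (u, v) ∈ Sq := ⟨hu, by
        constructor
        · simp only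
          linarith [hv.1]
        · simp only
          linarith [hv.2, hh.1]⟩
      rw [indicator_of_mem h1, indicator_of_mem h2]
    · have h1 : ∀ v, Sq.indicator g (u, v) = 0 := fun v => indicator_of_notMem (fun h => hu h.1) _
      simp [h1]

lemma dens_congr (a : ℝ → ℂ) (g : Fin m → ℝ × ℝ → ℂ) (lam : ℝ → Fin m → ℝ) (ξ : Fin (m + 1) → ℝ)
    (hξ : ξ ∈ Icc (fun _ : Fin (m + 1) => (-1 : ℝ)) (fun _ => 1)) :
    dens a g lam ξ = dens a (fun j => Sq.indicator (g j)) lam ξ := by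
  unfold dens
  congr 1
  apply Finset.prod_congr rfl
  intro j _
  simp only
  rw [indicator_of_mem (show (ξ 0, ξ j.succ) ∈ Sq from
    ⟨⟨hξ.1 0, hξ.2 0⟩, ⟨hξ.1 j.succ, hξ.2 j.succ⟩⟩)]

lemma dens_meas {a : ℝ → ℂ} (ha : Measurable a) {g : Fin m → ℝ × ℝ → ℂ} (hg : ∀ j, Measurable (g j))
    {lam : ℝ → Fin m → ℝ} (hl : Measurable lam) : Measurable (dens a g lam) := by
  unfold dens
  apply Measurable.mul
  · exact ha.comp (measurable_pi_apply 0)
  · apply Finset.measurable_prod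
    intro j _
    apply Measurable.mul
    · exact (hg j).comp ((measurable_pi_apply 0).prodMk (measurable_pi_apply _))
    · exact ee_meas.comp ((lamj hl (measurable_pi_apply 0) j).mul (measurable_pi_apply _))

/-- **Monotone twists.** -/
theorem mainTwist (m : ℕ) (hm : 1 ≤ m) (V : ℝ) (hV : 0 ≤ V) (q : ℝ)
    (hq : 2 * ((m : ℝ) + 2) / (m + 1) < q) : ∃ C : ℝ≥0, ∀ (a : ℝ → ℂ) (g : Fin m → ℝ × ℝ → ℂ)
    (lam : ℝ → Fin m → ℝ), Measurable a → (∀ j, Measurable (g j)) → Measurable lam →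
    (∀ j, ∀ u ∈ Icc (-1 : ℝ) 1, ∀ v ∈ Icc (-1 : ℝ) 1, ‖g j (u, v)‖ ≤ 1) →
    (∀ j, ∀ u ∈ Icc (-1 : ℝ) 1, ∀ h ∈ Icc (0 : ℝ) 1,
      ∫⁻ v in Icc (-1 : ℝ) (1 - h), ‖g j (u, v + h) - g j (u, v)‖ₑ ≤ ENNReal.ofReal (V * h)) →
    Ch lam →
    ∫⁻ y, ‖Pool.Agent.H728R3.SR.ext (dens a g lam) y‖ₑ ^ q ≤
      C * ∫⁻ u in Icc (-1 : ℝ) 1, ‖a u‖ₑ ^ q := by
  obtain ⟨C, hC⟩ := Lq_gen m hm (Real.exp Real.pi * (V + 4 * Real.pi + 2)) q hq
  have hq0 : 0 < q := by
    refine lt_trans ?_ hq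
    positivity
  refine ⟨C + 1, ?_⟩
  intro a g lam ha hg hl hb hmod hch
  rcases eq_or_ne (∫⁻ u in Icc (-1 : ℝ) 1, ‖a u‖ₑ ^ q) ∞ with hN | hN
  · rw [hN, ENNReal.mul_top (by simp)]
    exact le_top
  set A := (Icc (-1 : ℝ) 1).indicator a with hA
  have hAm : Measurable A := ha.indicator measurableSet_Icc
  have hAq : ∫⁻ u, ‖A u‖ₑ ^ q = ∫⁻ u in Icc (-1 : ℝ) 1, ‖a u‖ₑ ^ q := by
    rw [← lintegral_indicator measurableSet_Icc]
    congr 1
    ext u
    by_cases hu : u ∈ Icc (-1 : ℝ) 1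
    · rw [hA, indicator_of_mem hu, indicator_of_mem hu]
    · rw [hA, indicator_of_notMem hu, indicator_of_notMem hu, enorm_zero, ENNReal.zero_rpow_of_pos hq0]
  set G : Fin m → ℝ × ℝ → ℂ := fun j => Sq.indicator (g j) with hG
  have hGd : ∀ j, Gd (Real.exp Real.pi * (V + 4 * Real.pi + 2)) (G j) := fun j =>
    Sq_Gd hV (hg j) (hb j) (hmod j)
  obtain ⟨hAi, hfin⟩ := hC G lam A hGd hl hch hAm (fun u hu => indicator_of_notMem hu _)
    (by rw [hAq]; exact hN)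
  have e1 : ∀ y, Pool.Agent.H728R3.SR.ext (dens a g lam) y = Pool.Agent.H728R3.SR.ext (dens a G lam) y := by
    intro y
    unfold Pool.Agent.H728R3.SR.ext
    apply setIntegral_congr_fun measurableSet_Icc
    intro ξ hξ
    simp only
    rw [dens_congr a g lam ξ hξ]
  simp only [e1]
  have hdm := dens_meas ha (fun j => (hGd j).meas) hl
  have hme : Measurable (fun y => ‖Pool.Agent.H728R3.SR.ext (dens a G lam) y‖ₑ ^ q) :=
    (Pool.Agent.W771.MD.ext_meas _ _ hdm).enorm.pow_const q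
  rw [Pool.Agent.W771.MD.lint_cons _ hme]
  have e2 : ∀ (t x : ℝ) (y : Fin m → ℝ), Pool.Agent.H728R3.SR.ext (dens a G lam) (Fin.cons x y, t) =
      FZ (PH G lam) A (t, (y, x)) := fun t x y =>
    ext_FZ a ha G (fun j => (hGd j).meas) (fun j => (hGd j).bd) lam hl hAi x y t
  simp only [e2]
  have h1 := PH_mu (fun j => (hGd j).meas) (fun j => (hGd j).bd) hl
  have hmz : Measurable (fun z => ‖FZ (PH G lam) A z‖ₑ ^ q) := FZ_t_meas h1 hAm q
  have e3 : ∀ t : ℝ, ∫⁻ x : ℝ, ∫⁻ y : Fin m → ℝ, ‖FZ (PH G lam) A (t, (y, x))‖ₑ ^ q =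
      ∫⁻ y : Fin m → ℝ, ∫⁻ x : ℝ, ‖FZ (PH G lam) A (t, (y, x))‖ₑ ^ q := by
    intro t
    apply lintegral_lintegral_swap
    apply Measurable.aemeasurable
    exact hmz.comp (measurable_const.prodMk (measurable_snd.prodMk measurable_fst))
  simp only [e3]
  refine hfin.trans ?_
  rw [hAq]
  apply mul_le_mul' _ le_rfl
  push_cast
  exact le_self_add

end Pool.Agent.W771.NN
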