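import Mathlib
import Pool.Agent.W771.NR
set_option autoImplicit false

/-! Twists which are piecewise curves with increasing chords. -/

namespace Pool.Agent.W771.NN
open MeasureTheory Set Complex Filter Topology
open scoped ENNReal NNReal

variable {m : ℕ}

/-- increasing chords on the interval `[s,e]` -/
def ChOn (s e : ℝ) (lam : ℝ → Fin m → ℝ) : Prop := ∀ a b c d : ℝ, s ≤ a → a ≤ b → b ≤ c → c ≤ d →
  d ≤ e → ∑ j, (lam b j - lam c j) ^ 2 ≤ ∑ j, (lam a j - lam d j) ^ 2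

/-- clamping to `[s,e]` -/
noncomputable def cl (s e u : ℝ) : ℝ := max s (min e u)

lemma cl_mono (s e : ℝ) : Monotone (cl s e) := fun _ _ h => max_le_max le_rfl (min_le_min le_rfl h)

lemma cl_of_mem {s e u : ℝ} (h : u ∈ Icc s e) : cl s e u = u := by
  unfold cl
  rw [min_eq_right h.2, max_eq_right h.1]

lemma cl_mem {s e : ℝ} (h : s ≤ e) (u : ℝ) : s ≤ cl s e u ∧ cl s e u ≤ e :=
  ⟨le_max_left _ _, max_le h (min_le_left _ _)⟩

lemma ChOn.ch {s e : ℝ} (hse : s ≤ e) {lam : ℝ → Fin m → ℝ} (h : ChOn s e lam) :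
    Ch (fun u => lam (cl s e u)) := by
  intro a b c d _ _ hab hac hbd hcd _
  rcases le_total b c with hbc | hbc
  · have := h (cl s e a) (cl s e b) (cl s e c) (cl s e d) (cl_mem hse a).1 (cl_mono s e hab)
      (cl_mono s e hbc) (cl_mono s e hcd) (cl_mem hse d).2
    refine this.trans (le_of_eq ?_)
    apply Finset.sum_congr rfl
    intro j _
    ring
  · have := h (cl s e a) (cl s e c) (cl s e b) (cl s e d) (cl_mem hse a).1 (cl_mono s e hac)
      (cl_mono s e hbc) (cl_mono s e hbd) (cl_mem hse d).2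
    refine le_trans (le_of_eq ?_) (this.trans (le_of_eq ?_))
    · apply Finset.sum_congr rfl
      intro j _
      ring
    · apply Finset.sum_congr rfl
      intro j _
      ring

/-- piecewise increasing chords -/
def PC (J : Set ℝ) (k : ℕ) (lam : ℝ → Fin m → ℝ) : Prop := ∃ s e : Fin k → ℝ,
  J ⊆ (⋃ i, Icc (s i) (e i)) ∧ ∀ i, ChOn (s i) (e i) lam

theorem Lq_piece (m : ℕ) (hm : 1 ≤ m) (J : Set ℝ) (hJ : J ⊆ Icc (-1 : ℝ) 1) (k : ℕ) (K q : ℝ)
    (hq : 2 * ((m : ℝ) + 2) / (m + 1) < q) :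
    ∃ C : ℝ≥0, ∀ (g : Fin m → ℝ × ℝ → ℂ) (lam : ℝ → Fin m → ℝ) (A : ℝ → ℂ), (∀ j, Gd K (g j)) →
      Measurable lam → PC J k lam → Measurable A → (∀ u, u ∉ J → A u = 0) →
      ∫⁻ u, ‖A u‖ₑ ^ q ≠ ∞ → Integrable A →
      ∫⁻ t : ℝ, ∫⁻ y : Fin m → ℝ, ∫⁻ x : ℝ, ‖FZ (PH g lam) A (t, (y, x))‖ₑ ^ q ≤
        C * ∫⁻ u, ‖A u‖ₑ ^ q := by
  obtain ⟨C, hC⟩ := Lq_gen m hm K q hq
  have hm1 : (1 : ℝ) ≤ m := by exact_mod_cast hm
  have hq1 : 1 < q := by
    refine lt_trans ?_ hq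
    rw [lt_div_iff₀ (by positivity)]
    linarith
  have hq0 : 0 < q := by linarith
  have hkt : (k : ℝ≥0∞) ^ (q - 1) * k * C ≠ ∞ :=
    ENNReal.mul_ne_top (ENNReal.mul_ne_top (ENNReal.rpow_ne_top_of_nonneg (by linarith)
      (ENNReal.natCast_ne_top k)) (ENNReal.natCast_ne_top k)) ENNReal.coe_ne_top
  refine ⟨((k : ℝ≥0∞) ^ (q - 1) * k * C).toNNReal, ?_⟩
  intro g lam A hg hl hch hA hz hN hAi
  rw [ENNReal.coe_toNNReal hkt]
  obtain ⟨s, e, hcov, hpc⟩ := hch
  -- the pieces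
  set S : Fin k → Set ℝ := fun i => Icc (s i) (e i) with hS
  set N : ℝ → ℂ := fun u => ∑ i, (S i).indicator (fun _ => (1 : ℂ)) u with hNd
  have hNm : Measurable N := by
    apply Finset.measurable_sum
    intro i _
    exact measurable_const.indicator measurableSet_Icc
  set Ai : Fin k → ℝ → ℂ := fun i u => (S i).indicator (fun _ => (1 : ℂ)) u * (A u / N u) with hAid
  have hAim : ∀ i, Measurable (Ai i) := fun i =>
    (measurable_const.indicator measurableSet_Icc).mul (hA.div hNm)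
  have hN1 : ∀ u ∈ J, 1 ≤ ‖N u‖ := by
    intro u hu
    have h1 : N u = ((∑ i, (S i).indicator (fun _ => (1 : ℝ)) u : ℝ) : ℂ) := by
      simp only [hNd]
      rw [Complex.ofReal_sum]
      apply Finset.sum_congr rfl
      intro i _
      by_cases h : u ∈ S i
      · rw [indicator_of_mem h, indicator_of_mem h, Complex.ofReal_one]
      · rw [indicator_of_notMem h, indicator_of_notMem h, Complex.ofReal_zero]
    rw [h1, Complex.norm_real, Real.norm_eq_abs]
    have h2 := hcov hu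
    rw [mem_iUnion] at h2
    obtain ⟨i, hi⟩ := h2
    have h3 : (1 : ℝ) ≤ ∑ i, (S i).indicator (fun _ => (1 : ℝ)) u := by
      calc (1 : ℝ) = (S i).indicator (fun _ => (1 : ℝ)) u := by rw [indicator_of_mem hi]
        _ ≤ _ := Finset.single_le_sum (f := fun i => (S i).indicator (fun _ => (1 : ℝ)) u)
            (fun j _ => indicator_nonneg (fun _ _ => zero_le_one) _) (Finset.mem_univ i)
    exact h3.trans (le_abs_self _)
  have hAile : ∀ i u, ‖Ai i u‖ ≤ ‖A u‖ := by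
    intro i u
    simp only [hAid]
    rw [norm_mul, norm_div]
    by_cases hu : u ∈ J
    · have h1 := hN1 u hu
      have h2 : ‖(S i).indicator (fun _ => (1 : ℂ)) u‖ ≤ 1 := by
        by_cases h : u ∈ S i
        · rw [indicator_of_mem h, norm_one]
        · rw [indicator_of_notMem h, norm_zero]
          exact zero_le_one
      have h3 : ‖A u‖ / ‖N u‖ ≤ ‖A u‖ := div_le_self (norm_nonneg _) h1
      calc _ ≤ 1 * ‖A u‖ := mul_le_mul h2 h3 (by positivity) zero_le_one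
        _ = _ := one_mul _
    · rw [hz u hu, norm_zero, zero_div, mul_zero]
  have hAiz : ∀ i u, u ∉ J → Ai i u = 0 := by
    intro i u hu
    simp only [hAid]
    rw [hz u hu, zero_div, mul_zero]
  have hAisum : ∀ u, ∑ i, Ai i u = A u := by
    intro u
    by_cases hu : u ∈ J
    · simp only [hAid]
      rw [← Finset.sum_mul]
      have h1 : N u ≠ 0 := by
        intro h
        have := hN1 u hu
        rw [h, norm_zero] at this
        linarith
      exact mul_div_cancel₀ _ h1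
    · rw [hz u hu]
      exact Finset.sum_eq_zero fun i _ => hAiz i u hu
  have hAiN : ∀ i, ∫⁻ u, ‖Ai i u‖ₑ ^ q ≤ ∫⁻ u, ‖A u‖ₑ ^ q := by
    intro i
    apply lintegral_mono
    intro u
    apply ENNReal.rpow_le_rpow _ hq0.le
    rw [← ofReal_norm, ← ofReal_norm]
    exact ENNReal.ofReal_le_ofReal (hAile i u)
  set li : Fin k → ℝ → Fin m → ℝ := fun i u => lam (cl (s i) (e i) u) with hli
  have hlim : ∀ i, Measurable (li i) := fun i => hl.comp (cl_mono _ _).measurable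
  -- each piece
  have hpiece : ∀ i, ∫⁻ t : ℝ, ∫⁻ y : Fin m → ℝ, ∫⁻ x : ℝ, ‖FZ (PH g (li i)) (Ai i) (t, (y, x))‖ₑ ^ q ≤
      C * ∫⁻ u, ‖A u‖ₑ ^ q := by
    intro i
    rcases le_or_gt (s i) (e i) with hse | hse
    · refine (hC g (li i) (Ai i) hg (hlim i) ((hpc i).ch hse) (hAim i)
        (fun u hu => hAiz i u fun h => hu (hJ h)) (ne_top_of_le_ne_top hN (hAiN i))).2.trans ?_
      exact mul_le_mul' le_rfl (hAiN i)
    · have h0 : ∀ u, Ai i u = 0 := by
        intro u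
        simp only [hAid, hS]
        rw [Icc_eq_empty (not_le.mpr hse), indicator_empty, zero_mul]
      have h1 : ∀ z, FZ (PH g (li i)) (Ai i) z = 0 := by
        intro z
        unfold FZ
        simp [h0]
      simp only [h1, enorm_zero, ENNReal.zero_rpow_of_pos hq0, lintegral_zero]
      exact zero_le
  -- the sum
  have hmu : ∀ l : ℝ → Fin m → ℝ, Measurable l → Mu (2 ^ m) (PH g l) := fun l h =>
    PH_mu (fun j => (hg j).meas) (fun j => (hg j).bd) h
  have hsum : ∀ z : ZZ m, FZ (PH g lam) A z = ∑ i, FZ (PH g (li i)) (Ai i) z := by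
    intro z
    unfold FZ
    rw [← integral_finsetSum]
    · congr 1
      ext u
      rw [← Finset.sum_mul]
      congr 1
      rw [← hAisum u, Finset.sum_mul, Finset.sum_mul]
      apply Finset.sum_congr rfl
      intro i _
      by_cases hu : u ∈ S i
      · have : PH g (li i) u z.1 z.2.1 = PH g lam u z.1 z.2.1 := by
          unfold PH
          simp only [hli]
          rw [cl_of_mem hu]
        rw [this]
      · have : Ai i u = 0 := by
          simp only [hAid]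
          rw [indicator_of_notMem hu, zero_mul]
        rw [this]
        ring
    · intro i _
      have h1 := hmu (li i) (hlim i)
      have hPm : Measurable (fun u => PH g (li i) u z.1 z.2.1) := by
        have := h1.meas.comp (measurable_id.prodMk (measurable_const.prodMk measurable_const) :
          Measurable fun u : ℝ => (u, (z.1, z.2.1)))
        exact this
      have he : Measurable (fun u : ℝ => ee (z.2.2 * u)) := ee_meas.comp (measurable_id.const_mul _)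
      have hm1 : Measurable (fun u => (Ai i u * ee (z.1 * u ^ 2) * PH g (li i) u z.1 z.2.1) *
          ee (z.2.2 * u)) :=
        (((hAim i).mul (ee_meas.comp ((measurable_id.pow_const 2).const_mul _))).mul hPm).mul he
      refine (hAi.norm.mul_const (2 ^ m)).mono' hm1.aestronglyMeasurable (ae_of_all _ fun u => ?_)
      rw [norm_mul, norm_mul, norm_mul, ee_norm, ee_norm, mul_one, mul_one]
      have h2 := h1.bd u z.1 z.2.1
      push_cast at h2
      exact mul_le_mul (hAile i u) h2 (norm_nonneg _) (norm_nonneg _)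
  have hmz : Measurable (fun z => ‖FZ (PH g lam) A z‖ₑ ^ q) := FZ_t_meas (hmu lam hl) hA q
  have hmi : ∀ i, Measurable (fun z => ‖FZ (PH g (li i)) (Ai i) z‖ₑ ^ q) := fun i =>
    FZ_t_meas (hmu _ (hlim i)) (hAim i) q
  have e1 : ∀ F : ZZ m → ℝ≥0∞, Measurable F → ∫⁻ t : ℝ, ∫⁻ y : Fin m → ℝ, ∫⁻ x : ℝ, F (t, (y, x)) =
      ∫⁻ z, F z ∂(mS m univ) := by
    intro F hF
    rw [nest _ hF, Measure.restrict_univ]
  rw [e1 _ hmz]
  have hpt : ∀ z, ‖FZ (PH g lam) A z‖ₑ ^ q ≤ (k : ℝ≥0∞) ^ (q - 1) *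
      ∑ i, ‖FZ (PH g (li i)) (Ai i) z‖ₑ ^ q := by
    intro z
    rw [hsum z]
    have h1 : ‖∑ i, FZ (PH g (li i)) (Ai i) z‖ₑ ≤ ∑ i, ‖FZ (PH g (li i)) (Ai i) z‖ₑ := enorm_sum_le _ _
    refine (ENNReal.rpow_le_rpow h1 hq0.le).trans ?_
    have h2 := ENNReal.rpow_sum_le_const_mul_sum_rpow (Finset.univ : Finset (Fin k))
      (fun i => ‖FZ (PH g (li i)) (Ai i) z‖ₑ) hq1.le
    rwa [Finset.card_univ, Fintype.card_fin] at h2
  calc ∫⁻ z, ‖FZ (PH g lam) A z‖ₑ ^ q ∂(mS m univ)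
      ≤ ∫⁻ z, (k : ℝ≥0∞) ^ (q - 1) * ∑ i, ‖FZ (PH g (li i)) (Ai i) z‖ₑ ^ q ∂(mS m univ) :=
        lintegral_mono hpt
    _ = (k : ℝ≥0∞) ^ (q - 1) * ∑ i, ∫⁻ z, ‖FZ (PH g (li i)) (Ai i) z‖ₑ ^ q ∂(mS m univ) := by
        rw [lintegral_const_mul _ (Finset.measurable_sum _ fun i _ => hmi i),
          lintegral_finsetSum _ fun i _ => hmi i]
    _ ≤ (k : ℝ≥0∞) ^ (q - 1) * ∑ _i : Fin k, (C * ∫⁻ u, ‖A u‖ₑ ^ q) := by
        apply mul_le_mul' le_rfl
        apply Finset.sum_le_sum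
        intro i _
        rw [← e1 _ (hmi i)]
        exact hpiece i
    _ = _ := by
        rw [Finset.sum_const, Finset.card_univ, Fintype.card_fin, nsmul_eq_mul]
        ring

/-- **Twists by curves with piecewise increasing chords.** -/
theorem mainPiece (m : ℕ) (hm : 1 ≤ m) (J : Set ℝ) (hJ : J ⊆ Icc (-1 : ℝ) 1) (k : ℕ) (V : ℝ)
    (hV : 0 ≤ V) (q : ℝ)
    (hq : 2 * ((m : ℝ) + 2) / (m + 1) < q) : ∃ C : ℝ≥0, ∀ (a : ℝ → ℂ) (g : Fin m → ℝ × ℝ → ℂ)
    (lam : ℝ → Fin m → ℝ), Measurable a → (∀ j, Measurable (g j)) → Measurable lam →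
    (∀ j, ∀ u ∈ Icc (-1 : ℝ) 1, ∀ v ∈ Icc (-1 : ℝ) 1, ‖g j (u, v)‖ ≤ 1) →
    (∀ j, ∀ u ∈ Icc (-1 : ℝ) 1, ∀ h ∈ Icc (0 : ℝ) 1,
      ∫⁻ v in Icc (-1 : ℝ) (1 - h), ‖g j (u, v + h) - g j (u, v)‖ₑ ≤ ENNReal.ofReal (V * h)) →
    PC J k lam → (∀ u, u ∉ J → a u = 0) →
    ∫⁻ y, ‖Pool.Agent.H728R3.SR.ext (dens a g lam) y‖ₑ ^ q ≤
      C * ∫⁻ u in Icc (-1 : ℝ) 1, ‖a u‖ₑ ^ q := by
  obtain ⟨C, hC⟩ := Lq_piece m hm J hJ k (Real.exp Real.pi * (V + 4 * Real.pi + 2)) q hq
  have hm1 : (1 : ℝ) ≤ m := by exact_mod_cast hm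
  have hq1 : 1 < q := by
    refine lt_trans ?_ hq
    rw [lt_div_iff₀ (by positivity)]
    linarith
  have hq0 : 0 < q := by linarith
  refine ⟨C + 1, ?_⟩
  intro a g lam ha hg hl hb hmod hch haJ
  rcases eq_or_ne (∫⁻ u in Icc (-1 : ℝ) 1, ‖a u‖ₑ ^ q) ∞ with hN | hN
  · rw [hN, ENNReal.mul_top (by simp)]
    exact le_top
  set A := (Icc (-1 : ℝ) 1).indicator a with hA
  have hAm : Measurable A := ha.indicator measurableSet_Icc
  have hAq : ∫⁻ u, ‖A u‖ₑ ^ q = ∫⁻ u in Icc (-1 : ℝ) 1, ‖a u‖ₑ ^ q := by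
    rw [← lintegral_indicator measurableSet_Icc]
    congr 1
    ext u
    by_cases hu : u ∈ Icc (-1 : ℝ) 1
    · rw [hA, indicator_of_mem hu, indicator_of_mem hu]
    · rw [hA, indicator_of_notMem hu, indicator_of_notMem hu, enorm_zero, ENNReal.zero_rpow_of_pos hq0]
  have hAi : Integrable A := by
    refine ⟨hAm.aestronglyMeasurable, ?_⟩
    unfold HasFiniteIntegral
    have h1 : ∀ u, ‖A u‖ₑ ≤ (Icc (-1 : ℝ) 1).indicator (fun _ => 1) u + ‖A u‖ₑ ^ q := by
      intro u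
      by_cases hu : u ∈ Icc (-1 : ℝ) 1
      · rw [indicator_of_mem hu]
        rcases le_total ‖A u‖ₑ 1 with h | h
        · exact h.trans le_self_add
        · refine le_trans ?_ le_add_self
          calc ‖A u‖ₑ = ‖A u‖ₑ ^ (1 : ℝ) := (ENNReal.rpow_one _).symm
            _ ≤ ‖A u‖ₑ ^ q := ENNReal.rpow_le_rpow_of_exponent_le h hq1.le
      · rw [hA, indicator_of_notMem hu, enorm_zero]
        exact zero_le
    refine (lintegral_mono h1).trans_lt ?_
    rw [lintegral_add_left (measurable_const.indicator measurableSet_Icc),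
      lintegral_indicator measurableSet_Icc, setLIntegral_const, Real.volume_Icc]
    refine ENNReal.add_lt_top.mpr ⟨ENNReal.mul_lt_top ENNReal.one_lt_top ENNReal.ofReal_lt_top, ?_⟩
    rw [hAq]
    exact lt_top_iff_ne_top.mpr hN
  set G : Fin m → ℝ × ℝ → ℂ := fun j => Sq.indicator (g j) with hG
  have hGd : ∀ j, Gd (Real.exp Real.pi * (V + 4 * Real.pi + 2)) (G j) := fun j =>
    Sq_Gd hV (hg j) (hb j) (hmod j)
  have hfin := hC G lam A hGd hl hch hAm (fun u hu => by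
      rw [hA]
      by_cases h : u ∈ Icc (-1 : ℝ) 1
      · rw [indicator_of_mem h]
        exact haJ u hu
      · rw [indicator_of_notMem h])
    (by rw [hAq]; exact hN) hAi
  have e1 : ∀ y, Pool.Agent.H728R3.SR.ext (dens a g lam) y = Pool.Agent.H728R3.SR.ext (dens a G lam) y := by
    intro y
    unfold Pool.Agent.H728R3.SR.ext
    apply setIntegral_congr_fun measurableSet_Icc
    intro ξ hξ
    simp only
    rw [dens_congr a g lam ξ hξ]
  simp only [e1]
  have hdm := dens_meas ha (fun j => (hGd j).meas) hl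
  have hme : Measurable (fun y => ‖Pool.Agent.H728R3.SR.ext (dens a G lam) y‖ₑ ^ q) :=
    (Pool.Agent.W771.MD.ext_meas _ _ hdm).enorm.pow_const q
  rw [Pool.Agent.W771.MD.lint_cons _ hme]
  have e2 : ∀ (t x : ℝ) (y : Fin m → ℝ), Pool.Agent.H728R3.SR.ext (dens a G lam) (Fin.cons x y, t) =
      FZ (PH G lam) A (t, (y, x)) := fun t x y =>
    ext_FZ a ha G (fun j => (hGd j).meas) (fun j => (hGd j).bd) lam hl hAi x y t
  simp only [e2]
  have h1 := PH_mu (fun j => (hGd j).meas) (fun j => (hGd j).bd) hl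
  have hmz : Measurable (fun z => ‖FZ (PH G lam) A z‖ₑ ^ q) := FZ_t_meas h1 hAm q
  have e3 : ∀ t : ℝ, ∫⁻ x : ℝ, ∫⁻ y : Fin m → ℝ, ‖FZ (PH G lam) A (t, (y, x))‖ₑ ^ q =
      ∫⁻ y : Fin m → ℝ, ∫⁻ x : ℝ, ‖FZ (PH G lam) A (t, (y, x))‖ₑ ^ q := by
    intro t
    apply lintegral_lintegral_swap
    apply Measurable.aemeasurable
    exact hmz.comp (measurable_const.prodMk (measurable_snd.prodMk measurable_fst))
  simp only [e3]
  refine hfin.trans ?_
  rw [hAq]
  apply mul_le_mul' _ le_rfl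
  push_cast
  exact le_self_add

end Pool.Agent.W771.NN
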