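import Mathlib
import Pool.Agent.W771.NS
set_option autoImplicit false

/-! Superpositions of twists. -/

namespace Pool.Agent.W771.NN
open MeasureTheory Set Complex Filter Topology
open scoped ENNReal NNReal

variable {m : ℕ}

lemma jensen {Ω : Type} [MeasurableSpace Ω] (P : Measure Ω) [IsProbabilityMeasure P] {q : ℝ}
    (hq : 1 < q) (F : Ω → ℂ) (hF : Measurable F) : ‖∫ ω, F ω ∂P‖ₑ ^ q ≤ ∫⁻ ω, ‖F ω‖ₑ ^ q ∂P := by
  have hq0 : 0 < q := by linarith
  have h1 : ‖∫ ω, F ω ∂P‖ₑ ≤ ∫⁻ ω, ‖F ω‖ₑ ∂P := enorm_integral_le_lintegral_enorm _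
  have hpq : q.HolderConjugate (Real.conjExponent q) := Real.HolderConjugate.conjExponent hq
  have h2 := ENNReal.lintegral_mul_le_Lp_mul_Lq P hpq (f := fun ω => ‖F ω‖ₑ) (g := fun _ => 1)
    hF.enorm.aemeasurable aemeasurable_const
  simp only [Pi.mul_apply, mul_one, ENNReal.one_rpow, lintegral_const, measure_univ] at h2
  calc ‖∫ ω, F ω ∂P‖ₑ ^ q ≤ ((∫⁻ ω, ‖F ω‖ₑ ^ q ∂P) ^ (1 / q)) ^ q :=
        ENNReal.rpow_le_rpow (h1.trans h2) hq0.le
    _ = _ := by rw [← ENNReal.rpow_mul, one_div_mul_cancel hq0.ne', ENNReal.rpow_one]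

lemma cube_int {n : ℕ} (a : ℝ → ℂ) (ha : IntegrableOn a (Icc (-1 : ℝ) 1)) :
    Integrable (fun ξ : Fin (n + 1) → ℝ => a (ξ 0))
      (volume.restrict (Icc (fun _ : Fin (n + 1) => (-1 : ℝ)) (fun _ => 1))) := by
  have h1 : (Icc (fun _ : Fin (n + 1) => (-1 : ℝ)) (fun _ => 1)) =
      Set.pi univ (fun _ : Fin (n + 1) => Icc (-1 : ℝ) 1) := by
    rw [Set.pi_univ_Icc]
  rw [h1, volume_pi, Measure.restrict_pi_pi]
  have h2 : Measure.map (Function.eval 0) (Measure.pi fun _ : Fin (n + 1) =>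
      (volume : Measure ℝ).restrict (Icc (-1 : ℝ) 1)) =
      (∏ j ∈ Finset.univ.erase (0 : Fin (n + 1)), (volume : Measure ℝ).restrict (Icc (-1 : ℝ) 1) univ) •
        (volume : Measure ℝ).restrict (Icc (-1 : ℝ) 1) := by
    exact Measure.pi_map_eval _ _
  have h3 : Integrable a (Measure.map (Function.eval 0) (Measure.pi fun _ : Fin (n + 1) =>
      (volume : Measure ℝ).restrict (Icc (-1 : ℝ) 1))) := by
    rw [h2]
    apply Integrable.smul_measure ha
    simp only [Measure.restrict_apply_univ, Real.volume_Icc, Finset.prod_const]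
    exact ENNReal.pow_ne_top ENNReal.ofReal_ne_top
  exact h3.comp_measurable (measurable_pi_apply 0)

/-- the superposition of the densities -/
noncomputable def sdens {Ω : Type} [MeasurableSpace Ω] (P : Measure Ω) (a : ℝ → ℂ)
    (g : Fin m → ℝ × ℝ → ℂ) (lam : Ω → ℝ → Fin m → ℝ) (ξ : Fin (m + 1) → ℝ) : ℂ :=
  ∫ ω, dens a g (lam ω) ξ ∂P

/-- the cube -/
def cb (n : ℕ) : Set (Fin n → ℝ) := Icc (fun _ : Fin n => (-1 : ℝ)) (fun _ => 1)

/-- the phase factor of the extension operator -/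
noncomputable def pf {n : ℕ} (ξ : Fin n → ℝ) (y : (Fin n → ℝ) × ℝ) : ℂ :=
  cexp (2 * Real.pi * I * ((∑ j, ξ j * y.1 j + (∑ j, ξ j ^ 2) * y.2 : ℝ) : ℂ))

lemma pf_norm {n : ℕ} (ξ : Fin n → ℝ) (y : (Fin n → ℝ) × ℝ) : ‖pf ξ y‖ = 1 := by
  unfold pf
  have : (2 * Real.pi * I * ((∑ j, ξ j * y.1 j + (∑ j, ξ j ^ 2) * y.2 : ℝ) : ℂ)) =
      ((2 * Real.pi * (∑ j, ξ j * y.1 j + (∑ j, ξ j ^ 2) * y.2) : ℝ) : ℂ) * I := by
    push_cast
    ring
  rw [this, Complex.norm_exp_ofReal_mul_I]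

lemma pf_cont {n : ℕ} : Continuous (fun w : (Fin n → ℝ) × ((Fin n → ℝ) × ℝ) => pf w.1 w.2) := by
  unfold pf
  fun_prop

lemma dens_norm {a : ℝ → ℂ} {g : Fin m → ℝ × ℝ → ℂ} {lam : ℝ → Fin m → ℝ}
    (hb : ∀ j, ∀ u ∈ Icc (-1 : ℝ) 1, ∀ v ∈ Icc (-1 : ℝ) 1, ‖g j (u, v)‖ ≤ 1)
    {ξ : Fin (m + 1) → ℝ} (hξ : ξ ∈ cb (m + 1)) : ‖dens a g lam ξ‖ ≤ ‖a (ξ 0)‖ := by
  unfold dens
  rw [norm_mul, norm_prod]
  calc _ ≤ ‖a (ξ 0)‖ * 1 := by
        apply mul_le_mul_of_nonneg_left _ (norm_nonneg _)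
        apply Finset.prod_le_one
        · intro j _
          exact norm_nonneg _
        · intro j _
          rw [norm_mul, ee_norm, mul_one]
          exact hb j _ ⟨hξ.1 0, hξ.2 0⟩ _ ⟨hξ.1 j.succ, hξ.2 j.succ⟩
    _ = _ := mul_one _

lemma dens_meas2 {Ω : Type} [MeasurableSpace Ω] {a : ℝ → ℂ} (ha : Measurable a)
    {g : Fin m → ℝ × ℝ → ℂ} (hg : ∀ j, Measurable (g j))
    {lam : Ω → ℝ → Fin m → ℝ} (hl : Measurable (fun w : Ω × ℝ => lam w.1 w.2)) :
    Measurable (fun w : Ω × (Fin (m + 1) → ℝ) => dens a g (lam w.1) w.2) := by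
  unfold dens
  have h0 : Measurable (fun w : Ω × (Fin (m + 1) → ℝ) => w.2 0) :=
    (measurable_pi_apply 0).comp measurable_snd
  apply Measurable.mul
  · exact ha.comp h0
  · apply Finset.measurable_prod
    intro j _
    have hj : Measurable (fun w : Ω × (Fin (m + 1) → ℝ) => w.2 j.succ) :=
      (measurable_pi_apply _).comp measurable_snd
    apply Measurable.mul
    · exact (hg j).comp (h0.prodMk hj)
    · apply ee_meas.comp
      have h1 : Measurable (fun w : Ω × (Fin (m + 1) → ℝ) => lam w.1 (w.2 0)) :=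
        hl.comp (measurable_fst.prodMk h0)
      exact ((measurable_pi_apply j).comp h1).mul hj

/-- **Superpositions of twists.** -/
theorem mainSup (m : ℕ) (hm : 1 ≤ m) (J : Set ℝ) (hJ : J ⊆ Icc (-1 : ℝ) 1) (k : ℕ) (V : ℝ)
    (hV : 0 ≤ V) (q : ℝ) (hq : 2 * ((m : ℝ) + 2) / (m + 1) < q) : ∃ C : ℝ≥0, ∀ (Ω : Type)
    [MeasurableSpace Ω] (P : Measure Ω) [IsProbabilityMeasure P] (a : ℝ → ℂ) (g : Fin m → ℝ × ℝ → ℂ)
    (lam : Ω → ℝ → Fin m → ℝ), Measurable a → (∀ j, Measurable (g j)) →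
    Measurable (fun w : Ω × ℝ => lam w.1 w.2) →
    (∀ j, ∀ u ∈ Icc (-1 : ℝ) 1, ∀ v ∈ Icc (-1 : ℝ) 1, ‖g j (u, v)‖ ≤ 1) →
    (∀ j, ∀ u ∈ Icc (-1 : ℝ) 1, ∀ h ∈ Icc (0 : ℝ) 1,
      ∫⁻ v in Icc (-1 : ℝ) (1 - h), ‖g j (u, v + h) - g j (u, v)‖ₑ ≤ ENNReal.ofReal (V * h)) →
    (∀ᵐ ω ∂P, PC J k (lam ω)) → (∀ u, u ∉ J → a u = 0) →
    ∫⁻ y, ‖Pool.Agent.H728R3.SR.ext (sdens P a g lam) y‖ₑ ^ q ≤
      C * ∫⁻ u in Icc (-1 : ℝ) 1, ‖a u‖ₑ ^ q := by
  obtain ⟨C, hC⟩ := mainPiece m hm J hJ k V hV q hq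
  have hm1 : (1 : ℝ) ≤ m := by exact_mod_cast hm
  have hq1 : 1 < q := by
    refine lt_trans ?_ hq
    rw [lt_div_iff₀ (by positivity)]
    linarith
  have hq0 : 0 < q := by linarith
  refine ⟨C + 1, ?_⟩
  intro Ω _ P _ a g lam ha hg hl hb hmod hch haJ
  rcases eq_or_ne (∫⁻ u in Icc (-1 : ℝ) 1, ‖a u‖ₑ ^ q) ∞ with hN | hN
  · rw [hN, ENNReal.mul_top (by simp)]
    exact le_top
  have hai : IntegrableOn a (Icc (-1 : ℝ) 1) := by
    refine ⟨ha.aestronglyMeasurable, ?_⟩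
    unfold HasFiniteIntegral
    have h1 : ∀ u, ‖a u‖ₑ ≤ 1 + ‖a u‖ₑ ^ q := by
      intro u
      rcases le_total ‖a u‖ₑ 1 with h | h
      · exact h.trans le_self_add
      · refine le_trans ?_ le_add_self
        calc ‖a u‖ₑ = ‖a u‖ₑ ^ (1 : ℝ) := (ENNReal.rpow_one _).symm
          _ ≤ ‖a u‖ₑ ^ q := ENNReal.rpow_le_rpow_of_exponent_le h hq1.le
    refine (lintegral_mono h1).trans_lt ?_
    rw [lintegral_add_left measurable_const, setLIntegral_const, Real.volume_Icc]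
    exact ENNReal.add_lt_top.mpr ⟨ENNReal.mul_lt_top ENNReal.one_lt_top ENNReal.ofReal_lt_top,
      lt_top_iff_ne_top.mpr hN⟩
  have hD := dens_meas2 ha hg hl
  -- exchange of integrals
  have hF : ∀ y, Pool.Agent.H728R3.SR.ext (sdens P a g lam) y =
      ∫ ω, Pool.Agent.H728R3.SR.ext (dens a g (lam ω)) y ∂P := by
    intro y
    unfold Pool.Agent.H728R3.SR.ext sdens
    have h1 : ∀ ξ : Fin (m + 1) → ℝ, (∫ ω, dens a g (lam ω) ξ ∂P) * pf ξ y =
        ∫ ω, dens a g (lam ω) ξ * pf ξ y ∂P := fun ξ => (integral_mul_const _ _).symm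
    have h2 : Integrable (Function.uncurry (fun (ξ : Fin (m + 1) → ℝ) ω => dens a g (lam ω) ξ * pf ξ y))
        ((volume.restrict (cb (m + 1))).prod P) := by
      have h3 : Measurable (Function.uncurry (fun (ξ : Fin (m + 1) → ℝ) ω =>
          dens a g (lam ω) ξ * pf ξ y)) := by
        have h4 : Measurable (fun w : (Fin (m + 1) → ℝ) × Ω => dens a g (lam w.2) w.1) := by
          have := hD.comp measurable_swap
          exact this
        have h5 : Measurable (fun w : (Fin (m + 1) → ℝ) × Ω => pf w.1 y) := by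
          have := pf_cont.measurable.comp (measurable_fst.prodMk measurable_const :
            Measurable fun w : (Fin (m + 1) → ℝ) × Ω => (w.1, y))
          exact this
        exact h4.mul h5
      have h6 : Integrable (fun w : (Fin (m + 1) → ℝ) × Ω => ‖a (w.1 0)‖ * (1 : ℝ))
          ((volume.restrict (cb (m + 1))).prod P) :=
        ((cube_int a hai).norm).mul_prod (integrable_const (1 : ℝ))
      refine h6.mono' h3.aestronglyMeasurable ?_
      have h7 : ∀ᵐ ξ ∂(volume.restrict (cb (m + 1))), ξ ∈ cb (m + 1) := by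
        exact ae_restrict_mem measurableSet_Icc
      have h8 : ∀ᵐ w ∂((volume.restrict (cb (m + 1))).prod P), w.1 ∈ cb (m + 1) :=
        Measure.quasiMeasurePreserving_fst.ae h7
      filter_upwards [h8] with w hw
      simp only [Function.uncurry]
      rw [norm_mul, pf_norm, mul_one, mul_one]
      exact dens_norm hb hw
    have h9 := integral_integral_swap h2
    calc _ = ∫ ξ in cb (m + 1), ∫ ω, dens a g (lam ω) ξ * pf ξ y ∂P := by
          congr 1
          ext ξ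
          exact h1 ξ
      _ = _ := h9
  have hjm : Measurable (fun w : ((Fin (m + 1) → ℝ) × ℝ) × Ω =>
      Pool.Agent.H728R3.SR.ext (dens a g (lam w.2)) w.1) := by
    unfold Pool.Agent.H728R3.SR.ext
    apply StronglyMeasurable.measurable
    apply StronglyMeasurable.integral_prod_right'
      (f := fun w : (((Fin (m + 1) → ℝ) × ℝ) × Ω) × (Fin (m + 1) → ℝ) =>
        dens a g (lam w.1.2) w.2 * pf w.2 w.1.1)
    apply Measurable.stronglyMeasurable
    apply Measurable.mul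
    · have := hD.comp ((measurable_snd.comp measurable_fst).prodMk measurable_snd :
        Measurable fun w : (((Fin (m + 1) → ℝ) × ℝ) × Ω) × (Fin (m + 1) → ℝ) => (w.1.2, w.2))
      exact this
    · have := pf_cont.measurable.comp (measurable_snd.prodMk (measurable_fst.comp measurable_fst) :
        Measurable fun w : (((Fin (m + 1) → ℝ) × ℝ) × Ω) × (Fin (m + 1) → ℝ) => (w.2, w.1.1))
      exact this
  have hy : ∀ y, Measurable (fun ω => Pool.Agent.H728R3.SR.ext (dens a g (lam ω)) y) := by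
    intro y
    have := hjm.comp (measurable_const.prodMk measurable_id : Measurable fun ω : Ω => (y, ω))
    exact this
  calc ∫⁻ y, ‖Pool.Agent.H728R3.SR.ext (sdens P a g lam) y‖ₑ ^ q
      ≤ ∫⁻ y, ∫⁻ ω, ‖Pool.Agent.H728R3.SR.ext (dens a g (lam ω)) y‖ₑ ^ q ∂P := by
        apply lintegral_mono
        intro y
        simp only
        rw [hF y]
        exact jensen P hq1 _ (hy y)
    _ = ∫⁻ ω, (∫⁻ y, ‖Pool.Agent.H728R3.SR.ext (dens a g (lam ω)) y‖ₑ ^ q) ∂P := by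
        apply lintegral_lintegral_swap
        exact (hjm.enorm.pow_const q).aemeasurable
    _ ≤ ∫⁻ _ω, ((C + 1 : ℝ≥0) * ∫⁻ u in Icc (-1 : ℝ) 1, ‖a u‖ₑ ^ q) ∂P := by
        apply lintegral_mono_ae
        filter_upwards [hch] with ω hω
        refine (hC a g (lam ω) ha hg ?_ hb hmod hω haJ).trans ?_
        · exact hl.comp (measurable_const.prodMk measurable_id)
        · apply mul_le_mul' _ le_rfl
          push_cast
          exact le_self_add
    _ = _ := by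
        rw [lintegral_const, measure_univ, mul_one]

end Pool.Agent.W771.NN
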