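import Mathlib
import Pool.Agent.W771.NT
set_option autoImplicit false

/-! Quantile functions of a Markov kernel. -/

namespace Pool.Agent.W771.NN
open MeasureTheory Set Complex Filter Topology ProbabilityTheory
open scoped ENNReal NNReal

/-- the quantile function -/
noncomputable def qt (μ : Measure ℝ) (ω : ℝ) : ℝ := sInf {s | ω ≤ cdf μ s}

lemma qt_le_iff (μ : Measure ℝ) [IsProbabilityMeasure μ] {ω : ℝ} (h0 : 0 < ω) (h1 : ω < 1) (s : ℝ) :
    qt μ ω ≤ s ↔ ω ≤ cdf μ s := by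
  have hne : {s | ω ≤ cdf μ s}.Nonempty := by
    have := (tendsto_cdf_atTop μ).eventually (lt_mem_nhds h1)
    obtain ⟨s, hs⟩ := this.exists
    exact ⟨s, hs.le⟩
  obtain ⟨s0, hs0⟩ := ((tendsto_cdf_atBot μ).eventually (gt_mem_nhds h0)).exists
  have hlb : ∀ s ∈ {s | ω ≤ cdf μ s}, s0 ≤ s := by
    intro s hs
    by_contra h
    push Not at h
    have := (cdf μ).mono h.le
    exact absurd (lt_of_le_of_lt (le_trans hs this) hs0) (lt_irrefl _)
  have hbdd : BddBelow {s | ω ≤ cdf μ s} := ⟨s0, hlb⟩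
  constructor
  · intro h
    have h2 : ω ≤ cdf μ (qt μ ω) := by
      have h3 : Tendsto (cdf μ) (𝓝[>] (qt μ ω)) (𝓝 (cdf μ (qt μ ω))) :=
        ((cdf μ).right_continuous (qt μ ω)).mono Ioi_subset_Ici_self
      refine ge_of_tendsto h3 ?_
      filter_upwards [self_mem_nhdsWithin] with r hr
      obtain ⟨s', hs', hlt⟩ := (csInf_lt_iff hbdd hne).mp (show sInf {s | ω ≤ cdf μ s} < r from hr)
      exact le_trans hs' ((cdf μ).mono hlt.le)
    exact h2.trans ((cdf μ).mono h)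
  · intro h
    exact csInf_le hbdd h

/-- uniform law on the unit interval -/
noncomputable def UU : Measure ℝ := volume.restrict (Ioo (0 : ℝ) 1)

instance : IsProbabilityMeasure UU := ⟨by simp [UU]⟩

/-- measurable version -/
noncomputable def qm (κ : ℝ → Measure ℝ) (w : ℝ × ℝ) : ℝ :=
  {w : ℝ × ℝ | w.1 ∈ Ioo (0 : ℝ) 1}.indicator (fun w => qt (κ w.2) w.1) w

lemma qm_of {κ : ℝ → Measure ℝ} {w : ℝ × ℝ} (hw : w.1 ∈ Ioo (0 : ℝ) 1) : qm κ w = qt (κ w.2) w.1 :=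
  indicator_of_mem (s := {w : ℝ × ℝ | w.1 ∈ Ioo (0 : ℝ) 1}) hw _

lemma qm_meas (κ : ℝ → Measure ℝ) [∀ u, IsProbabilityMeasure (κ u)]
    (hκ : ∀ s, Measurable (fun u => κ u (Iic s))) : Measurable (qm κ) := by
  apply measurable_of_Iic
  intro s
  have hS : MeasurableSet {w : ℝ × ℝ | w.1 ∈ Ioo (0 : ℝ) 1} := measurable_fst measurableSet_Ioo
  have h1 : qm κ ⁻¹' Iic s = ({w : ℝ × ℝ | w.1 ∈ Ioo (0 : ℝ) 1} ∩ {w | w.1 ≤ (κ w.2 (Iic s)).toReal}) ∪
      ({w : ℝ × ℝ | w.1 ∈ Ioo (0 : ℝ) 1}ᶜ ∩ {_w | 0 ≤ s}) := by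
    ext w
    simp only [mem_preimage, mem_Iic, mem_union, mem_inter_iff]
    by_cases hw : w ∈ {w : ℝ × ℝ | w.1 ∈ Ioo (0 : ℝ) 1}
    · have hw' : w.1 ∈ Ioo (0 : ℝ) 1 := hw
      rw [qm_of hw', qt_le_iff _ hw'.1 hw'.2, cdf_eq_real]
      constructor
      · intro h
        exact Or.inl ⟨hw, h⟩
      · rintro (h | h)
        · exact h.2
        · exact absurd hw h.1
    · have h2 : qm κ w = 0 := indicator_of_notMem hw _
      rw [h2]
      constructor
      · intro h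
        exact Or.inr ⟨hw, h⟩
      · rintro (h | h)
        · exact absurd h.1 hw
        · exact h.2
  rw [h1]
  apply MeasurableSet.union
  · apply hS.inter
    exact measurableSet_le measurable_fst ((hκ s).comp measurable_snd).ennreal_toReal
  · exact hS.compl.inter (MeasurableSet.const _)

lemma vol_Ioo_Iic {c : ℝ} (h0 : 0 ≤ c) (h1 : c ≤ 1) :
    (volume : Measure ℝ) (Ioo 0 1 ∩ Iic c) = ENNReal.ofReal c := by
  rcases lt_or_eq_of_le h1 with h | h
  · have : Ioo (0 : ℝ) 1 ∩ Iic c = Ioc 0 c := by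
      ext x
      simp only [mem_inter_iff, mem_Ioo, mem_Iic, mem_Ioc]
      constructor
      · rintro ⟨⟨h2, _⟩, h3⟩
        exact ⟨h2, h3⟩
      · rintro ⟨h2, h3⟩
        exact ⟨⟨h2, lt_of_le_of_lt h3 h⟩, h3⟩
    rw [this, Real.volume_Ioc, sub_zero]
  · have : Ioo (0 : ℝ) 1 ∩ Iic c = Ioo 0 1 := by
      ext x
      simp only [mem_inter_iff, mem_Ioo, mem_Iic]
      constructor
      · rintro ⟨h2, _⟩
        exact h2
      · intro h2
        exact ⟨h2, by linarith [h2.2]⟩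
    rw [this, Real.volume_Ioo, sub_zero, h]

/-- the quantile function pushes the uniform law to `κ u` -/
lemma map_qm (κ : ℝ → Measure ℝ) [∀ u, IsProbabilityMeasure (κ u)]
    (hκ : ∀ s, Measurable (fun u => κ u (Iic s))) (u : ℝ) :
    Measure.map (fun ω => qm κ (ω, u)) UU = κ u := by
  have hm : Measurable (fun ω => qm κ (ω, u)) :=
    (qm_meas κ hκ).comp (measurable_id.prodMk measurable_const)
  have : IsProbabilityMeasure (Measure.map (fun ω => qm κ (ω, u)) UU) :=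
    Measure.isProbabilityMeasure_map hm.aemeasurable
  apply Measure.ext_of_Iic
  intro s
  rw [Measure.map_apply hm measurableSet_Iic]
  unfold UU
  rw [Measure.restrict_apply (hm measurableSet_Iic), inter_comm]
  have h1 : Ioo (0 : ℝ) 1 ∩ (fun ω => qm κ (ω, u)) ⁻¹' Iic s = Ioo 0 1 ∩ Iic (cdf (κ u) s) := by
    ext ω
    simp only [mem_inter_iff, mem_preimage, mem_Iic]
    constructor
    · rintro ⟨h2, h3⟩
      refine ⟨h2, ?_⟩
      rw [qm_of h2] at h3
      exact (qt_le_iff _ h2.1 h2.2 s).mp h3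
    · rintro ⟨h2, h3⟩
      refine ⟨h2, ?_⟩
      rw [qm_of h2]
      exact (qt_le_iff _ h2.1 h2.2 s).mpr h3
  rw [h1, vol_Ioo_Iic (cdf_nonneg _ _) (cdf_le_one _ _), cdf_eq_real]
  exact ofReal_measureReal

lemma char_qm (κ : ℝ → Measure ℝ) [∀ u, IsProbabilityMeasure (κ u)]
    (hκ : ∀ s, Measurable (fun u => κ u (Iic s))) (u v : ℝ) :
    charFun (κ u) v = ∫ ω, ee (qm κ (ω, u) / (2 * Real.pi) * v) ∂UU := by
  have hm : Measurable (fun ω => qm κ (ω, u)) :=
    (qm_meas κ hκ).comp (measurable_id.prodMk measurable_const)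
  conv_lhs => rw [← map_qm κ hκ u, charFun_apply_real]
  rw [integral_map hm.aemeasurable (by fun_prop)]
  congr 1
  ext ω
  unfold ee
  congr 1
  have hpi : (Real.pi : ℂ) ≠ 0 := by exact_mod_cast Real.pi_ne_zero
  push_cast
  field_simp

lemma qt_mono {μ ν : Measure ℝ} [IsProbabilityMeasure μ] [IsProbabilityMeasure ν]
    (h : ∀ s, μ (Ioi s) ≤ ν (Ioi s)) {ω : ℝ} (h0 : 0 < ω) (h1 : ω < 1) : qt μ ω ≤ qt ν ω := by
  rw [qt_le_iff μ h0 h1]
  have h2 : ω ≤ cdf ν (qt ν ω) := (qt_le_iff ν h0 h1 _).mp le_rfl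
  refine h2.trans ?_
  rw [cdf_eq_real, cdf_eq_real]
  have h3 : ∀ (ρ : Measure ℝ) [IsProbabilityMeasure ρ] (s : ℝ), ρ.real (Iic s) = 1 - ρ.real (Ioi s) := by
    intro ρ _ s
    have := probReal_compl_eq_one_sub (μ := ρ) (s := Ioi s) measurableSet_Ioi
    rwa [compl_Ioi] at this
  rw [h3, h3]
  have h4 : μ.real (Ioi (qt ν ω)) ≤ ν.real (Ioi (qt ν ω)) :=
    ENNReal.toReal_mono (measure_ne_top _ _) (h _)
  linarith

end Pool.Agent.W771.NN
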