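import Mathlib
import Pool.Agent.W771.NU
set_option autoImplicit false

/-! The three-dimensional statement. -/

namespace Pool.Agent.W771.NN
open MeasureTheory Set Complex Filter Topology ProbabilityTheory
open scoped ENNReal NNReal

/-- the square -/
def Qh : Set (ℝ × ℝ) := Icc (-(1 / 2)) (1 / 2) ×ˢ Icc (-(1 / 2)) (1 / 2)

lemma Qh_meas : MeasurableSet Qh := measurableSet_Icc.prod measurableSet_Icc

/-- the operator in three dimensions -/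
noncomputable def E3 (f : ℝ × ℝ → ℂ) (ξ : ℝ × ℝ × ℝ) : ℂ :=
  ∫ x in Qh, f x * cexp (-(I * ((x.1 * ξ.1 + x.2 * ξ.2.1 + (x.1 ^ 2 + x.2 ^ 2) * ξ.2.2 : ℝ) : ℂ)))

/-- the lifted density -/
noncomputable def lft (f : ℝ × ℝ → ℂ) (ξ : Fin 2 → ℝ) : ℂ := Qh.indicator f (ξ 0, ξ 1)

lemma lft_meas {f : ℝ × ℝ → ℂ} (hf : Measurable f) : Measurable (lft f) := by
  unfold lft
  exact (hf.indicator Qh_meas).comp ((measurable_pi_apply 0).prodMk (measurable_pi_apply 1))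

lemma E3_eq (f : ℝ × ℝ → ℂ) (x y t : ℝ) :
    E3 f (x, y, t) = Pool.Agent.H728R3.SR.ext (lft f)
      (Fin.cons (-(2 * Real.pi)⁻¹ * x) (fun _ : Fin 1 => -(2 * Real.pi)⁻¹ * y), -(2 * Real.pi)⁻¹ * t) := by
  unfold Pool.Agent.H728R3.SR.ext E3
  rw [← integral_indicator measurableSet_Icc, ← integral_indicator Qh_meas,
    ← (volume_preserving_finTwoArrow ℝ).symm.integral_comp (MeasurableEquiv.measurableEmbedding _)]
  congr 1
  ext w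
  have h1 : (MeasurableEquiv.finTwoArrow : (Fin 2 → ℝ) ≃ᵐ ℝ × ℝ).symm w = ![w.1, w.2] := rfl
  rw [h1]
  by_cases hw : w ∈ Qh
  · have h2 : (![w.1, w.2] : Fin 2 → ℝ) ∈ Icc (fun _ : Fin 2 => (-1 : ℝ)) (fun _ => 1) := by
      rw [mem_Icc, Pi.le_def, Pi.le_def, Fin.forall_fin_two, Fin.forall_fin_two]
      simp only [Matrix.cons_val_zero, Matrix.cons_val_one]
      have h3 := hw.1
      have h4 := hw.2
      rw [mem_Icc] at h3 h4
      refine ⟨⟨?_, ?_⟩, ?_, ?_⟩ <;> linarith [h3.1, h3.2, h4.1, h4.2]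
    rw [indicator_of_mem hw, indicator_of_mem h2]
    unfold lft
    simp only [Matrix.cons_val_zero, Matrix.cons_val_one]
    rw [indicator_of_mem (show (w.1, w.2) ∈ Qh from hw)]
    congr 2
    rw [Fin.sum_univ_two, Fin.sum_univ_two]
    simp only [Matrix.cons_val_zero, Matrix.cons_val_one, Fin.cons_zero]
    have h5 : (Fin.cons (-(2 * Real.pi)⁻¹ * x) (fun _ : Fin 1 => -(2 * Real.pi)⁻¹ * y) : Fin 2 → ℝ) 1 =
        -(2 * Real.pi)⁻¹ * y := rfl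
    rw [h5]
    have hpi : (Real.pi : ℂ) ≠ 0 := by exact_mod_cast Real.pi_ne_zero
    push_cast
    field_simp
    ring
  · rw [indicator_of_notMem hw]
    symm
    apply indicator_apply_eq_zero.mpr
    intro _
    unfold lft
    simp only [Matrix.cons_val_zero, Matrix.cons_val_one]
    rw [indicator_of_notMem (show (w.1, w.2) ∉ Qh from hw), zero_mul]

/-- the constant `-1/(2π)` -/
noncomputable def c0 : ℝ := -(2 * Real.pi)⁻¹

lemma c0_ne : c0 ≠ 0 := by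
  unfold c0
  have := Real.pi_pos
  exact neg_ne_zero.mpr (by positivity)

lemma scale3 (G : ℝ × ℝ × ℝ → ℝ≥0∞) (hG : Measurable G) (c : ℝ) (hc : c ≠ 0) :
    ∫⁻ ξ : ℝ × ℝ × ℝ, G (c * ξ.1, c * ξ.2.1, c * ξ.2.2) =
      ENNReal.ofReal |c⁻¹| ^ 3 * ∫⁻ ξ : ℝ × ℝ × ℝ, G ξ := by
  have hm : Measurable (fun ξ : ℝ × ℝ × ℝ => (c * ξ.1, c * ξ.2.1, c * ξ.2.2)) := by fun_prop
  rw [lint_triple (fun ξ : ℝ × ℝ × ℝ => G (c * ξ.1, c * ξ.2.1, c * ξ.2.2)) (hG.comp hm),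
    lint_triple _ hG]
  have hm1 : ∀ t x, Measurable (fun y => G (x, y, t)) := fun t x =>
    hG.comp (measurable_const.prodMk (measurable_id.prodMk measurable_const))
  have hm2 : ∀ t, Measurable (fun x => ∫⁻ y, G (x, y, t)) := by
    intro t
    have h1 : Measurable (fun w : ℝ × ℝ => G (w.1, w.2, t)) :=
      hG.comp (measurable_fst.prodMk (measurable_snd.prodMk measurable_const))
    exact Measurable.lintegral_prod_right' (f := fun w : ℝ × ℝ => G (w.1, w.2, t)) h1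
  have hm4 : Measurable (fun t => ∫⁻ x, ∫⁻ y, G (x, y, t)) := by
    have h2 : Measurable (fun w : (ℝ × ℝ) × ℝ => G (w.1.2, w.2, w.1.1)) := by
      have h3 : Measurable (fun w : (ℝ × ℝ) × ℝ => (w.1.2, w.2, w.1.1)) := by fun_prop
      exact hG.comp h3
    have h4 : Measurable (fun w : ℝ × ℝ => ∫⁻ y, G (w.2, y, w.1)) :=
      Measurable.lintegral_prod_right' (f := fun w : (ℝ × ℝ) × ℝ => G (w.1.2, w.2, w.1.1)) h2
    exact Measurable.lintegral_prod_right' (f := fun w : ℝ × ℝ => ∫⁻ y, G (w.2, y, w.1)) h4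
  have e1 : ∀ t x, ∫⁻ y, G (x, c * y, t) = ENNReal.ofReal |c⁻¹| * ∫⁻ y, G (x, y, t) := fun t x =>
    lint_scale (fun y => G (x, y, t)) (hm1 t x) c hc
  have e2 : ∀ t, ∫⁻ x, ∫⁻ y, G (c * x, y, t) = ENNReal.ofReal |c⁻¹| * ∫⁻ x, ∫⁻ y, G (x, y, t) :=
    fun t => lint_scale (fun x => ∫⁻ y, G (x, y, t)) (hm2 t) c hc
  have e3 : ∫⁻ t, ∫⁻ x, ∫⁻ y, G (x, y, c * t) = ENNReal.ofReal |c⁻¹| * ∫⁻ t, ∫⁻ x, ∫⁻ y, G (x, y, t) :=
    lint_scale (fun t => ∫⁻ x, ∫⁻ y, G (x, y, t)) hm4 c hc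
  calc ∫⁻ t, ∫⁻ x, ∫⁻ y, G (c * x, c * y, c * t)
      = ∫⁻ t, ∫⁻ x, ENNReal.ofReal |c⁻¹| * ∫⁻ y, G (c * x, y, c * t) := by simp only [e1]
    _ = ∫⁻ t, ENNReal.ofReal |c⁻¹| * ∫⁻ x, ∫⁻ y, G (c * x, y, c * t) := by
        congr 1
        ext t
        rw [lintegral_const_mul' _ _ ENNReal.ofReal_ne_top]
    _ = ENNReal.ofReal |c⁻¹| * ∫⁻ t, ∫⁻ x, ∫⁻ y, G (c * x, y, c * t) := by
        rw [lintegral_const_mul' _ _ ENNReal.ofReal_ne_top]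
    _ = ENNReal.ofReal |c⁻¹| * ∫⁻ t, ENNReal.ofReal |c⁻¹| * ∫⁻ x, ∫⁻ y, G (x, y, c * t) := by
        simp only [e2]
    _ = _ := by
        rw [lintegral_const_mul' _ _ ENNReal.ofReal_ne_top, e3]
        ring

lemma lint_fin2 (F : (Fin 2 → ℝ) × ℝ → ℝ≥0∞) (hF : Measurable F) :
    ∫⁻ z, F z = ∫⁻ ξ : ℝ × ℝ × ℝ, F (Fin.cons ξ.1 (fun _ : Fin 1 => ξ.2.1), ξ.2.2) := by
  have hcons : Measurable (fun ξ : ℝ × ℝ × ℝ =>
      ((Fin.cons ξ.1 (fun _ : Fin 1 => ξ.2.1) : Fin 2 → ℝ), ξ.2.2)) := by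
    apply Measurable.prodMk _ (measurable_snd.comp measurable_snd)
    rw [measurable_pi_iff]
    intro i
    fin_cases i
    · exact measurable_fst
    · exact measurable_fst.comp measurable_snd
  rw [lint_triple (fun ξ : ℝ × ℝ × ℝ => F (Fin.cons ξ.1 (fun _ : Fin 1 => ξ.2.1), ξ.2.2))
    (hF.comp hcons), Pool.Agent.W771.MD.lint_cons (m := 1) F hF]
  congr 1
  ext t
  congr 1
  ext x
  have h1 := (volume_preserving_funUnique (Fin 1) ℝ).symm.lintegral_comp_emb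
    (MeasurableEquiv.measurableEmbedding _) (fun y : Fin 1 → ℝ => F (Fin.cons x y, t))
  exact h1.symm

lemma lint_E3 {f : ℝ × ℝ → ℂ} (hf : Measurable f) (q : ℝ) :
    ∫⁻ ξ, ‖E3 f ξ‖ₑ ^ q = ENNReal.ofReal |c0⁻¹| ^ 3 *
      ∫⁻ y, ‖Pool.Agent.H728R3.SR.ext (lft f) y‖ₑ ^ q := by
  have hF := Pool.Agent.W771.MD.ext_meas 2 (lft f) (lft_meas hf)
  obtain ⟨F, hFd⟩ : ∃ F : (Fin 2 → ℝ) × ℝ → ℝ≥0∞, F = fun y =>
    ‖Pool.Agent.H728R3.SR.ext (lft f) y‖ₑ ^ q := ⟨_, rfl⟩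
  have hFm : Measurable F := by
    rw [hFd]
    exact hF.enorm.pow_const q
  obtain ⟨G, hGd⟩ : ∃ G : ℝ × ℝ × ℝ → ℝ≥0∞, G = fun ξ =>
    F (Fin.cons ξ.1 (fun _ : Fin 1 => ξ.2.1), ξ.2.2) := ⟨_, rfl⟩
  have hcons : Measurable (fun ξ : ℝ × ℝ × ℝ =>
      ((Fin.cons ξ.1 (fun _ : Fin 1 => ξ.2.1) : Fin 2 → ℝ), ξ.2.2)) := by
    apply Measurable.prodMk _ (measurable_snd.comp measurable_snd)
    rw [measurable_pi_iff]
    intro i
    fin_cases i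
    · exact measurable_fst
    · exact measurable_fst.comp measurable_snd
  have hGm : Measurable G := by
    rw [hGd]
    exact hFm.comp hcons
  have h1 := scale3 G hGm c0 c0_ne
  have h2 := lint_fin2 F hFm
  have h3 : ∫⁻ ξ, G ξ = ∫⁻ z, F z := by
    rw [h2, hGd]
  rw [h3] at h1
  have h4 : ∀ ξ : ℝ × ℝ × ℝ, ‖E3 f ξ‖ₑ ^ q = G (c0 * ξ.1, c0 * ξ.2.1, c0 * ξ.2.2) := by
    rintro ⟨x, y, t⟩
    rw [E3_eq, hGd, hFd]
    rfl
  simp only [h4]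
  rw [h1, hFd]

end Pool.Agent.W771.NN
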