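import Mathlib
import Pool.Agent.W771.NV
set_option autoImplicit false

/-! Stochastically monotone families of characteristic functions. -/

namespace Pool.Agent.W771.NN
open MeasureTheory Set Complex Filter Topology ProbabilityTheory
open scoped ENNReal NNReal

/-- piecewise stochastically monotone kernels -/
def PSM (k : ℕ) (κ : ℝ → Measure ℝ) : Prop := ∃ s e : Fin k → ℝ,
  Icc (-(1 / 2) : ℝ) (1 / 2) ⊆ (⋃ i, Icc (s i) (e i)) ∧ ∀ i,
    (∀ r, MonotoneOn (fun u => κ u (Ioi r)) (Icc (s i) (e i))) ∨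
    (∀ r, AntitoneOn (fun u => κ u (Ioi r)) (Icc (s i) (e i)))

/-- the family of twists -/
noncomputable def lq (κ : ℝ → Measure ℝ) (ω u : ℝ) (_j : Fin 1) : ℝ := qm κ (ω, u) / (2 * Real.pi)

lemma sq_mono {a b c d : ℝ} (h1 : a ≤ b) (h2 : b ≤ c) (h3 : c ≤ d) : (b - c) ^ 2 ≤ (a - d) ^ 2 := by
  nlinarith

lemma PSM.pc {k : ℕ} {κ : ℝ → Measure ℝ} [∀ u, IsProbabilityMeasure (κ u)] (h : PSM k κ) {ω : ℝ}
    (hω : ω ∈ Ioo (0 : ℝ) 1) : PC (Icc (-(1 / 2) : ℝ) (1 / 2)) k (lq κ ω) := by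
  obtain ⟨s, e, hcov, hp⟩ := h
  refine ⟨s, e, hcov, ?_⟩
  intro i a b c d h1 h2 h3 h4 h5
  have hpi := Real.pi_pos
  rw [Fin.sum_univ_one, Fin.sum_univ_one]
  unfold lq
  have ha : a ∈ Icc (s i) (e i) := ⟨h1, by linarith⟩
  have hb : b ∈ Icc (s i) (e i) := ⟨by linarith, by linarith⟩
  have hc : c ∈ Icc (s i) (e i) := ⟨by linarith, by linarith⟩
  have hd : d ∈ Icc (s i) (e i) := ⟨by linarith, h5⟩
  have hq : ∀ u, qm κ (ω, u) = qt (κ u) ω := fun u => qm_of (w := (ω, u)) hω
  simp only [hq]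
  rcases hp i with hm | hm
  · have e1 := qt_mono (fun r => hm r ha hb h2) hω.1 hω.2
    have e2 := qt_mono (fun r => hm r hb hc h3) hω.1 hω.2
    have e3 := qt_mono (fun r => hm r hc hd h4) hω.1 hω.2
    apply sq_mono <;> gcongr
  · have e1 := qt_mono (fun r => hm r ha hb h2) hω.1 hω.2
    have e2 := qt_mono (fun r => hm r hb hc h3) hω.1 hω.2
    have e3 := qt_mono (fun r => hm r hc hd h4) hω.1 hω.2
    have := sq_mono (a := qt (κ d) ω / (2 * Real.pi)) (b := qt (κ c) ω / (2 * Real.pi))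
      (c := qt (κ b) ω / (2 * Real.pi)) (d := qt (κ a) ω / (2 * Real.pi))
      (by gcongr) (by gcongr) (by gcongr)
    nlinarith [this]

/-- cut off amplitude -/
noncomputable def gc (g : ℝ × ℝ → ℂ) (_j : Fin 1) : ℝ × ℝ → ℂ := Qh.indicator g

lemma gc_mod {V : ℝ} (hV : 0 ≤ V) {g : ℝ × ℝ → ℂ} (hg : Measurable g)
    (hb : ∀ x ∈ Qh, ‖g x‖ ≤ 1)
    (hmod : ∀ u ∈ Icc (-(1 / 2) : ℝ) (1 / 2), ∀ h ∈ Icc (0 : ℝ) 1,
      ∫⁻ v in Icc (-(1 / 2) : ℝ) (1 / 2 - h), ‖g (u, v + h) - g (u, v)‖ₑ ≤ ENNReal.ofReal (V * h))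
    (j : Fin 1) (u h : ℝ) (hh : h ∈ Icc (0 : ℝ) 1) :
    ∫⁻ v in Icc (-1 : ℝ) (1 - h), ‖gc g j (u, v + h) - gc g j (u, v)‖ₑ ≤
      ENNReal.ofReal ((V + 2) * h) := by
  unfold gc
  by_cases hu : u ∈ Icc (-(1 / 2) : ℝ) (1 / 2)
  · have hbd : ∀ v, ‖Qh.indicator g (u, v + h) - Qh.indicator g (u, v)‖ₑ ≤
        (Icc (-(1 / 2) : ℝ) (1 / 2 - h)).indicator (fun v => ‖g (u, v + h) - g (u, v)‖ₑ) v +
        ((Icc (-(1 / 2) - h) (-(1 / 2))).indicator (fun _ => (1 : ℝ≥0∞)) v +
        (Icc (1 / 2 - h) (1 / 2)).indicator (fun _ => (1 : ℝ≥0∞)) v) := by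
      intro v
      have he : ∀ x ∈ Qh, ‖g x‖ₑ ≤ 1 := by
        intro x hx
        rw [← ofReal_norm]
        calc ENNReal.ofReal ‖g x‖ ≤ ENNReal.ofReal 1 := ENNReal.ofReal_le_ofReal (hb x hx)
          _ = 1 := ENNReal.ofReal_one
      by_cases h1 : (u, v + h) ∈ Qh
      · by_cases h2 : (u, v) ∈ Qh
        · rw [indicator_of_mem h1, indicator_of_mem h2,
            indicator_of_mem (show v ∈ Icc (-(1 / 2) : ℝ) (1 / 2 - h) from
              ⟨h2.2.1, by have := h1.2.2; simp only at this; linarith⟩)]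
          exact le_self_add
        · rw [indicator_of_mem h1, indicator_of_notMem h2, sub_zero]
          have h3 : v < -(1 / 2) := by
            by_contra h3
            push Not at h3
            apply h2
            refine ⟨hu, h3, ?_⟩
            have := h1.2.2
            simp only at this ⊢
            linarith [hh.1]
          have h4 : v ∈ Icc (-(1 / 2) - h) (-(1 / 2)) := by
            refine ⟨?_, h3.le⟩
            have := h1.2.1
            simp only at this
            linarith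
          rw [indicator_of_mem h4]
          refine (he _ h1).trans ?_
          exact le_add_left (le_add_right le_rfl)
      · by_cases h2 : (u, v) ∈ Qh
        · rw [indicator_of_notMem h1, indicator_of_mem h2, zero_sub, enorm_neg]
          have h3 : 1 / 2 < v + h := by
            by_contra h3
            push Not at h3
            apply h1
            refine ⟨hu, ?_, h3⟩
            have := h2.2.1
            simp only at this ⊢
            linarith [hh.1]
          have h4 : v ∈ Icc (1 / 2 - h) (1 / 2) := ⟨by linarith, h2.2.2⟩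
          rw [indicator_of_mem h4]
          refine (he _ h2).trans ?_
          exact le_add_left (le_add_left le_rfl)
        · rw [indicator_of_notMem h1, indicator_of_notMem h2, sub_zero, enorm_zero]
          exact zero_le
    have hgm : Measurable (fun v => ‖g (u, v + h) - g (u, v)‖ₑ) := by
      have h1 : Measurable (fun v : ℝ => g (u, v + h)) :=
        hg.comp (measurable_const.prodMk (measurable_id.add_const h))
      have h2 : Measurable (fun v : ℝ => g (u, v)) := hg.comp (measurable_const.prodMk measurable_id)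
      exact (h1.sub h2).enorm
    calc ∫⁻ v in Icc (-1 : ℝ) (1 - h), ‖Qh.indicator g (u, v + h) - Qh.indicator g (u, v)‖ₑ
        ≤ ∫⁻ v, ‖Qh.indicator g (u, v + h) - Qh.indicator g (u, v)‖ₑ := setLIntegral_le_lintegral _ _
      _ ≤ ∫⁻ v, ((Icc (-(1 / 2) : ℝ) (1 / 2 - h)).indicator (fun v => ‖g (u, v + h) - g (u, v)‖ₑ) v +
          ((Icc (-(1 / 2) - h) (-(1 / 2))).indicator (fun _ => (1 : ℝ≥0∞)) v +
          (Icc (1 / 2 - h) (1 / 2)).indicator (fun _ => (1 : ℝ≥0∞)) v)) := lintegral_mono hbd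
      _ = (∫⁻ v in Icc (-(1 / 2) : ℝ) (1 / 2 - h), ‖g (u, v + h) - g (u, v)‖ₑ) +
          (ENNReal.ofReal h + ENNReal.ofReal h) := by
          rw [lintegral_add_left (hgm.indicator measurableSet_Icc),
            lintegral_add_left (measurable_const.indicator measurableSet_Icc),
            lintegral_indicator measurableSet_Icc, lintegral_indicator measurableSet_Icc,
            lintegral_indicator measurableSet_Icc, setLIntegral_const, setLIntegral_const,
            Real.volume_Icc, Real.volume_Icc, one_mul, one_mul]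
          congr 3 <;> ring
      _ ≤ ENNReal.ofReal (V * h) + (ENNReal.ofReal h + ENNReal.ofReal h) :=
          add_le_add_left (hmod u hu h hh) _
      _ = _ := by
          have := hh.1
          rw [← ENNReal.ofReal_add this this, ← ENNReal.ofReal_add (by positivity) (by positivity)]
          congr 1
          ring
  · have h1 : ∀ v, Qh.indicator g (u, v) = 0 := fun v => indicator_of_notMem (fun h => hu h.1) _
    simp [h1]

/-- **Stochastically monotone families.** -/
theorem main3 (q : ℝ) (hq : 3 < q) (k : ℕ) (V : ℝ) (hV : 0 ≤ V) : ∃ C : ℝ≥0,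
    ∀ (κ : ℝ → Measure ℝ) [∀ u, IsProbabilityMeasure (κ u)] (a : ℝ → ℂ) (g : ℝ × ℝ → ℂ),
    (∀ s, Measurable (fun u => κ u (Iic s))) → Measurable a → Measurable g →
    (∀ x ∈ Qh, ‖g x‖ ≤ 1) →
    (∀ u ∈ Icc (-(1 / 2) : ℝ) (1 / 2), ∀ h ∈ Icc (0 : ℝ) 1,
      ∫⁻ v in Icc (-(1 / 2) : ℝ) (1 / 2 - h), ‖g (u, v + h) - g (u, v)‖ₑ ≤ ENNReal.ofReal (V * h)) →
    PSM k κ →
    ∫⁻ ξ, ‖E3 (fun x => a x.1 * g x * charFun (κ x.1) x.2) ξ‖ₑ ^ q ≤
      C * ∫⁻ u in Icc (-(1 / 2) : ℝ) (1 / 2), ‖a u‖ₑ ^ q := by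
  have hJ : Icc (-(1 / 2) : ℝ) (1 / 2) ⊆ Icc (-1 : ℝ) 1 := by
    intro x hx
    exact ⟨by linarith [hx.1], by linarith [hx.2]⟩
  obtain ⟨C, hC⟩ := mainSup 1 le_rfl (Icc (-(1 / 2) : ℝ) (1 / 2)) hJ k (V + 2) (by linarith) q (by
    push_cast
    linarith)
  have hq0 : 0 < q := by linarith
  have hct : ENNReal.ofReal |c0⁻¹| ^ 3 * C ≠ ∞ :=
    ENNReal.mul_ne_top (ENNReal.pow_ne_top ENNReal.ofReal_ne_top) ENNReal.coe_ne_top
  refine ⟨(ENNReal.ofReal |c0⁻¹| ^ 3 * C).toNNReal, ?_⟩
  intro κ _ a g hκ ha hg hb hmod hps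
  rw [ENNReal.coe_toNNReal hct]
  -- measurability of the characteristic functions
  have hqm := qm_meas κ hκ
  have hlm : Measurable (fun w : ℝ × ℝ => lq κ w.1 w.2) := by
    rw [measurable_pi_iff]
    intro j
    exact hqm.div_const _
  set a1 : ℝ → ℂ := (Icc (-(1 / 2) : ℝ) (1 / 2)).indicator a with ha1
  have ha1m : Measurable a1 := ha.indicator measurableSet_Icc
  have hgcm : ∀ j, Measurable (gc g j) := fun j => hg.indicator Qh_meas
  have hmain := hC ℝ UU a1 (gc g) (lq κ) ha1m hgcm hlm (by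
      intro j u _ v _
      unfold gc
      by_cases h : (u, v) ∈ Qh
      · rw [indicator_of_mem h]
        exact hb _ h
      · rw [indicator_of_notMem h, norm_zero]
        exact zero_le_one)
    (fun j u _ h hh => gc_mod hV hg hb hmod j u h hh)
    (by
      have h1 : ∀ᵐ ω ∂UU, ω ∈ Ioo (0 : ℝ) 1 := ae_restrict_mem measurableSet_Ioo
      filter_upwards [h1] with ω hω
      exact hps.pc hω)
    (fun u hu => indicator_of_notMem hu _)
  -- the density
  have hden : ∀ ξ : Fin 2 → ℝ, lft (fun x => a x.1 * g x * charFun (κ x.1) x.2) ξ =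
      sdens UU a1 (gc g) (lq κ) ξ := by
    intro ξ
    unfold sdens dens
    simp only [Finset.univ_unique, Fin.default_eq_zero, Finset.prod_singleton]
    have h0 : (Fin.succ (0 : Fin 1)) = (1 : Fin 2) := rfl
    simp only [h0]
    have h1 : ∫ ω, a1 (ξ 0) * (gc g 0 (ξ 0, ξ 1) * ee (lq κ ω (ξ 0) 0 * ξ 1)) ∂UU =
        a1 (ξ 0) * (gc g 0 (ξ 0, ξ 1) * charFun (κ (ξ 0)) (ξ 1)) := by
      rw [integral_const_mul, integral_const_mul, char_qm κ hκ]
      rfl
    rw [h1]
    unfold lft gc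
    by_cases h : (ξ 0, ξ 1) ∈ Qh
    · rw [indicator_of_mem h, indicator_of_mem h, ha1, indicator_of_mem (show ξ 0 ∈ _ from h.1)]
      ring
    · rw [indicator_of_notMem h, indicator_of_notMem h]
      ring
  have hden' : lft (fun x => a x.1 * g x * charFun (κ x.1) x.2) = sdens UU a1 (gc g) (lq κ) := by
    ext ξ
    exact hden ξ
  have hcm : Measurable (fun x : ℝ × ℝ => charFun (κ x.1) x.2) := by
    simp only [char_qm κ hκ]
    apply StronglyMeasurable.measurable
    apply StronglyMeasurable.integral_prod_right'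
      (f := fun w : (ℝ × ℝ) × ℝ => ee (qm κ (w.2, w.1.1) / (2 * Real.pi) * w.1.2))
    apply Measurable.stronglyMeasurable
    apply ee_meas.comp
    have h1 : Measurable (fun w : (ℝ × ℝ) × ℝ => qm κ (w.2, w.1.1)) :=
      hqm.comp (measurable_snd.prodMk (measurable_fst.comp measurable_fst))
    exact (h1.div_const _).mul (measurable_snd.comp measurable_fst)
  have hfm : Measurable (fun x : ℝ × ℝ => a x.1 * g x * charFun (κ x.1) x.2) :=
    ((ha.comp measurable_fst).mul hg).mul hcm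
  rw [lint_E3 hfm q, hden', mul_assoc]
  apply mul_le_mul' le_rfl
  refine hmain.trans ?_
  apply mul_le_mul' le_rfl
  rw [← lintegral_indicator measurableSet_Icc, ← lintegral_indicator measurableSet_Icc]
  apply lintegral_mono
  intro u
  by_cases hu : u ∈ Icc (-(1 / 2) : ℝ) (1 / 2)
  · rw [indicator_of_mem hu, indicator_of_mem (hJ hu), ha1, indicator_of_mem hu]
  · by_cases hu1 : u ∈ Icc (-1 : ℝ) 1
    · rw [indicator_of_mem hu1, ha1, indicator_of_notMem hu, enorm_zero, ENNReal.zero_rpow_of_pos hq0]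
      exact zero_le
    · rw [indicator_of_notMem hu1]
      exact zero_le

end Pool.Agent.W771.NN
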